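import Pool.Agent.Lib.MP_81222b_lc.Sem

/-!
# Meaning of translated terms and of numerals
-/

namespace Pool.Agent.MP81222b

variable {L₁ L₂ : Lang}

theorem sat_conj {L : Lang} (S : Str L) (e : ℕ → S.M) : ∀ (n : ℕ) (g : Fin n → Fm L),
    (Fm.conj n g).Sat S e ↔ ∀ i, (g i).Sat S e := by
  intro n g
  unfold Fm.conj
  have key : ∀ l : List (Fm L), (l.foldr Fm.and (.neg .bot)).Sat S e ↔ ∀ f ∈ l, f.Sat S e := by
    intro l
    induction l with
    | nil => simp [Fm.Sat]
    | cons a l ih => simp only [List.foldr_cons, Fm.sat_and, ih, List.forall_mem_cons]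
  rw [key]
  simp only [List.forall_mem_ofFn_iff]

theorem Interp.ind_fn (I : Interp L₁ L₂) (S : Str L₂) (h : I.Valid S) (n : ℕ)
    (f : Fin (L₁.Fn n)) (a : Fin n → (I.ind S h).M) (y : (I.ind S h).M) :
    I.F S n f (fun i => (a i).1) y.1 ↔ y = (I.ind S h).fn n f a := by
  have hs := (h.2 n f (fun i => (a i).1) (fun i => (a i).2)).choose_spec
  constructor
  · intro hy
    exact Subtype.ext (hs.2 y.1 ⟨y.2, hy⟩)
  · rintro rfl
    exact hs.1.2

/-- Meaning of the translation of `x₀ = t`. -/
theorem sat_Itm (I : Interp L₁ L₂) (S : Str L₂) (h : I.Valid S) (t : Tm L₁) :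
    ∀ (e : ℕ → (I.ind S h).M) (y : (I.ind S h).M),
    (I.tm t).Sat S (cn y.1 (fun i => (e i).1)) ↔ y = t.val (I.ind S h) e := by
  induction t with
  | var i =>
    intro e y
    simp only [Interp.tm, Fm.Sat, cn_zero, cn_succ, Tm.val]
    exact Subtype.ext_iff.symm
  | fn n f ts ih =>
    intro e y
    rw [Interp.tm, sat_exs]
    simp only [Fm.sat_and, sat_conj, Fm.sat_sub]
    have h1 : ∀ (a : ℕ → S.M) (i : Fin n) (σ : ℕ → Tm L₂), σ 0 = .var (i : ℕ) →
        (∀ j, σ (j + 1) = .var (n + 1 + j)) →
        (fun k => (σ k).val S (glue n a (cn y.1 fun i => (e i).1))) =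
          cn (a i) (fun i => (e i).1) := by
      intro a i σ h0 hs
      funext k
      cases k with
      | zero => rw [h0, val_var, cn_zero]; exact glue_lt _ _ i.2
      | succ j =>
        rw [hs, val_var, cn_succ, show n + 1 + j = n + (j + 1) by omega, glue_add]
        rfl
    have h2 : ∀ (a : ℕ → S.M) (i : Fin n),
        (fun _ : ℕ => Tm.val S (glue n a (cn y.1 fun i => (e i).1)) (.var (i : ℕ))) =
          fun _ => a i := by
      intro a i
      funext k
      simp only [val_var]
      exact glue_lt _ _ i.2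
    have h3 : ∀ (a : ℕ → S.M) (σ : ℕ → Tm L₂), σ 0 = .var n → (∀ j, σ (j + 1) = .var j) →
        ((I.fn n f).Sat S (fun k => (σ k).val S (glue n a (cn y.1 fun i => (e i).1))) ↔
          I.F S n f (fun i => a i) y.1) := by
      intro a σ h0 hs
      unfold Interp.F
      refine (I.fn n f).sat_congr S (k := n + 1) (fun i hi => ?_) (I.fn_bd n f)
      cases i with
      | zero =>
        rw [h0, val_var, cn_zero]
        exact glue_add n 0 a _
      | succ j =>
        rw [hs, val_var, cn_succ]
        have hj : j < n := by omega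
        rw [glue_lt _ _ hj]
        unfold xt
        rw [dif_pos hj]
    constructor
    · rintro ⟨a, ha, hf⟩
      have ha' : ∀ i : Fin n, I.D S (a i) ∧ (I.tm (ts i)).Sat S (cn (a i) (fun i => (e i).1)) := by
        intro i
        obtain ⟨ha1, ha2⟩ := ha i
        rw [h2 a i] at ha1
        refine ⟨ha1, ?_⟩
        rw [← h1 a i _ ?_ ?_]
        · exact ha2
        · rfl
        · intro _; rfl
      have hf' : I.F S n f (fun i => a i) y.1 := by
        rw [← h3 a _ ?_ ?_]
        · exact hf
        · rfl
        · intro _; rfl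
      have hv : ∀ i : Fin n, (⟨a i, (ha' i).1⟩ : (I.ind S h).M) = (ts i).val (I.ind S h) e :=
        fun i => (ih i e ⟨a i, (ha' i).1⟩).1 (ha' i).2
      show y = (I.ind S h).fn n f (fun i => (ts i).val (I.ind S h) e)
      rw [← I.ind_fn S h]
      have : (fun i : Fin n => ((ts i).val (I.ind S h) e).1) = fun i : Fin n => a i := by
        funext i; rw [← hv i]
      rw [this]
      exact hf'
    · intro hy
      have hy' : y = (I.ind S h).fn n f (fun i => (ts i).val (I.ind S h) e) := hy
      rw [← I.ind_fn S h] at hy'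
      obtain ⟨x0⟩ := S.inh
      obtain ⟨a, ha⟩ : ∃ a : ℕ → S.M, ∀ i : Fin n, a i = ((ts i).val (I.ind S h) e).1 :=
        ⟨fun i => if hi : i < n then ((ts ⟨i, hi⟩).val (I.ind S h) e).1 else x0,
          fun i => by simp only [Fin.is_lt, dif_pos]⟩
      refine ⟨a, ?_, ?_⟩
      · intro i
        rw [h2, h1 a i _ ?_ ?_]
        · rw [ha i]
          exact ⟨((ts i).val (I.ind S h) e).2, (ih i e _).2 rfl⟩
        · rfl
        · intro _; rfl
      · rw [h3 a _ ?_ ?_]
        · simp only [ha]
          exact hy'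
        · rfl
        · intro _; rfl

section num
variable (S : Str Lar) [hS : PiC S]

theorem nmS_cast (n : ℕ) : nmS S n = (n : S.M) := by
  induction n with
  | zero => rw [nmS, zr_eq, Nat.cast_zero]
  | succ n ih => rw [nmS, ih, sc_eq, Nat.cast_succ]

/-- Value of the efficient numerals. -/
theorem numeral_val (n : ℕ) (e : ℕ → S.M) : (numeral n).val S e = nmS S n := by
  rw [nmS_cast]
  induction n using Nat.strong_induction_on with
  | _ n ih =>
    cases n with
    | zero => rw [numeral, val_tZ, zr_eq, Nat.cast_zero]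
    | succ n =>
      rw [numeral]
      have h1 := ih ((n + 1) / 2) (by omega)
      split_ifs with h
      · rw [val_tM, val_tS, val_tS, val_tZ, h1, sc_zr, sc_eq, ml_eq]
        have h2 : n + 1 = 2 * ((n + 1) / 2) := by omega
        generalize (n + 1) / 2 = m at h2
        rw [h2]
        push_cast
        ring
      · rw [val_tS, val_tM, val_tS, val_tS, val_tZ, h1, sc_zr, sc_eq, sc_eq, ml_eq]
        have h2 : n + 1 = 2 * ((n + 1) / 2) + 1 := by omega
        generalize (n + 1) / 2 = m at h2
        rw [h2]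
        push_cast
        ring

end num

end Pool.Agent.MP81222b
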