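import Pool.Agent.Lib.MP_81222b_lc.Dec
import Pool.Agent.Lib.MP_81222b_lc.TmSem

/-!
# The theory `A` as a sentence, the interpretation of arithmetic on `J`, the meaning of `TB`
-/

namespace Pool.Agent.MP81222b

variable {L : Lang}

/-! ### Removing the new predicate -/

/-- Terms of the expanded signature as terms of `L`. -/
def Tm.noT : Tm L.addT → Tm L
  | .var i => .var i
  | .fn n f ts => .fn n f (fun i => (ts i).noT)

/-- Atomic formulas of the expanded signature; the new predicate becomes falsity. -/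
def rlNoT : (n : ℕ) → Fin (L.addT.Rl n) → (Fin n → Tm L) → Fm L
  | 0, r, ts => .rl 0 r ts
  | 1, (r : Fin (L.Rl 1 + 1)), ts => if h : r.1 < L.Rl 1 then .rl 1 ⟨r.1, h⟩ ts else .bot
  | n + 2, r, ts => .rl (n + 2) r ts

/-- Replace all atomic formulas of the new predicate by falsity. -/
def Fm.noT : Fm L.addT → Fm L
  | .bot => .bot
  | .eq t u => .eq t.noT u.noT
  | .rl n r ts => rlNoT n r (fun i => (ts i).noT)
  | .imp f g => .imp f.noT g.noT
  | .all f => .all f.noT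

theorem val_noT (S : Str L) (T : S.M → Prop) (e : ℕ → S.M) (t : Tm L.addT) :
    t.noT.val S e = t.val (expT S T) e := by
  induction t with
  | var i => rfl
  | fn n f ts ih =>
    show S.fn n f (fun i => (ts i).noT.val S e) = S.fn n f (fun i => (ts i).val (expT S T) e)
    simp only [ih]

theorem sat_noT (S : Str L) (f : Fm L.addT) : ∀ e : ℕ → S.M,
    f.noT.Sat S e ↔ f.Sat (expT S (fun _ => False)) e := by
  induction f with
  | bot => intro e; exact Iff.rfl
  | eq t u =>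
    intro e
    show t.noT.val S e = u.noT.val S e ↔ t.val (expT S (fun _ => False)) e =
      u.val (expT S (fun _ => False)) e
    rw [val_noT, val_noT]
  | rl n r ts =>
    intro e
    have hts : (fun i => (ts i).noT.val S e) =
        (fun i => (ts i).val (expT S (fun _ => False)) e) :=
      funext fun i => val_noT S _ e (ts i)
    show (rlNoT n r (fun i => (ts i).noT)).Sat S e ↔
      (expT S (fun _ => False)).rl n r (fun i => (ts i).val (expT S (fun _ => False)) e)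
    rw [← hts]
    match n, r, ts with
    | 0, r, ts => exact Iff.rfl
    | 1, r, ts =>
      show (if h : (r : Fin (L.Rl 1 + 1)).1 < L.Rl 1 then
          Fm.rl 1 ⟨(r : Fin (L.Rl 1 + 1)).1, h⟩ (fun i => (ts i).noT) else Fm.bot).Sat S e ↔
        (if h : (r : Fin (L.Rl 1 + 1)).1 < L.Rl 1 then
          S.rl 1 ⟨(r : Fin (L.Rl 1 + 1)).1, h⟩ (fun i => (ts i).noT.val S e) else False)
      by_cases h : (r : Fin (L.Rl 1 + 1)).1 < L.Rl 1
      · rw [dif_pos h, dif_pos h]; exact Iff.rfl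
      · rw [dif_neg h, dif_neg h]; exact Iff.rfl
    | n + 2, r, ts => exact Iff.rfl
  | imp f g ihf ihg => intro e; exact imp_congr (ihf e) (ihg e)
  | all f ih => intro e; exact forall_congr' fun x => ih (cn x e)

theorem bd_tm_noT {k : ℕ} (t : Tm L.addT) (h : t.bd k) : t.noT.bd k := by
  induction t with
  | var i => exact h
  | fn n f ts ih => exact fun i => ih i (h i)

theorem bd_noT (f : Fm L.addT) : ∀ {k : ℕ}, f.bd k → f.noT.bd k := by
  induction f with
  | bot => intro k _; trivial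
  | eq t u => intro k h; exact ⟨bd_tm_noT t h.1, bd_tm_noT u h.2⟩
  | rl n r ts =>
    intro k h
    show (rlNoT n r (fun i => (ts i).noT)).bd k
    match n, r, ts, h with
    | 0, r, ts, h => exact fun i => bd_tm_noT _ (h i)
    | 1, r, ts, h =>
      show (if h : (r : Fin (L.Rl 1 + 1)).1 < L.Rl 1 then
          Fm.rl 1 ⟨(r : Fin (L.Rl 1 + 1)).1, h⟩ (fun i => (ts i).noT) else Fm.bot).bd k
      by_cases h' : (r : Fin (L.Rl 1 + 1)).1 < L.Rl 1
      · rw [dif_pos h']; exact fun i => bd_tm_noT _ (h i)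
      · rw [dif_neg h']; trivial
    | n + 2, r, ts, h => exact fun i => bd_tm_noT _ (h i)
  | imp f g ihf ihg => intro k h; exact ⟨ihf h.1, ihg h.2⟩
  | all f ih => intro k h; exact ih h

/-! ### Closed definitions -/

theorem closed_u {L : Lang} {P : (S : Str L) → (ℕ → S.M) → Prop} (h : UDef P)
    (hP : ∀ S e e', P S e → P S e') : ∃ f : Fm L, f.Closed ∧ ∀ S e, P S e ↔ f.Sat S e := by
  obtain ⟨f, hf⟩ := h.ex
  obtain ⟨k, hk⟩ := f.exists_bd
  refine ⟨Fm.alls k f, (f.bd_alls k 0).2 (by rw [zero_add]; exact hk), fun S e => ?_⟩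
  rw [f.sat_alls_closed S hk]
  exact ⟨fun H e' => (hf S e').1 (hP S e e' H), fun H => (hf S e).2 (H e)⟩

theorem closed_v {P : (R : Str Lar) → (J T : R.M → Prop) → (ℕ → R.M) → Prop} (h : VDef P)
    (hP : ∀ R J T e e', P R J T e → P R J T e') :
    ∃ f : Fm LA.addT, f.Closed ∧ ∀ R J T e, P R J T e ↔ f.Sat (mkLT R J T) e := by
  obtain ⟨f, hf⟩ := h.ex
  obtain ⟨k, hk⟩ := f.exists_bd
  refine ⟨Fm.alls k f, (f.bd_alls k 0).2 (by rw [zero_add]; exact hk), fun R J T e => ?_⟩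
  rw [f.sat_alls_closed (mkLT R J T) hk]
  exact ⟨fun H e' => (hf R J T e').1 (hP R J T e e' H), fun H => (hf R J T e).2 (H e)⟩

/-! ### Definability of the properties of `A` -/

theorem v_allE {P : (S : Str Lar) → (ℕ → S.M) → Prop} (h : UDef P) :
    VDef (fun R _ _ _ => ∀ e, P R e) := by
  obtain ⟨f, hf⟩ := h.ex
  obtain ⟨k, hk⟩ := f.exists_bd
  have : (fun (R : Str Lar) (J T : R.M → Prop) (e : ℕ → R.M) => ∀ e, P R e) =
      fun R _ _ e => (Fm.alls k f).Sat R e := by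
    funext R J T e
    refine propext ?_
    rw [f.sat_alls_closed R hk]
    exact forall_congr' fun e' => hf R e'
  rw [this]
  exact vsat _

theorem v_list {α : Type*} (l : List α)
    (Q : α → (R : Str Lar) → (J T : R.M → Prop) → (ℕ → R.M) → Prop)
    (h : ∀ a ∈ l, VDef (Q a)) : VDef (fun R J T e => ∀ a ∈ l, Q a R J T e) := by
  induction l with
  | nil =>
    have : (fun (R : Str Lar) (J T : R.M → Prop) (e : ℕ → R.M) =>
        ∀ a ∈ ([] : List α), Q a R J T e) = fun _ _ _ _ => True := by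
      funext R J T e; simp
    rw [this]
    infer_instance
  | cons a l ih =>
    have h1 := h a (List.mem_cons_self)
    have h2 := ih fun b hb => h b (List.mem_cons_of_mem a hb)
    have : (fun (R : Str Lar) (J T : R.M → Prop) (e : ℕ → R.M) =>
        ∀ b ∈ (a :: l), Q b R J T e) =
        fun R J T e => Q a R J T e ∧ ∀ b ∈ l, Q b R J T e := by
      funext R J T e; simp
    rw [this]
    exact vand h1 h2

theorem closedU_iff (R : Str Lar) (J : R.M → Prop) : ClosedU R J ↔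
    (J R.zr ∧ (∀ x, J x → J (R.sc x)) ∧ (∀ x, J x → J (R.hf x)) ∧ (∀ x, J x → J (R.ln x)) ∧
      (∀ x y, J x → J y → J (R.ad x y)) ∧ (∀ x y, J x → J y → J (R.ml x y)) ∧
      (∀ x y, J x → J y → J (R.sm x y))) := by
  constructor
  · rintro ⟨_, h⟩
    have h1 : ∀ (f : Fin 3) x, J x → J (R.fn 1 f ![x]) := fun f x hx => h 1 f ![x] (by
      intro i; fin_cases i; exact hx)
    have h2 : ∀ (f : Fin 3) x y, J x → J y → J (R.fn 2 f ![x, y]) := fun f x y hx hy =>
      h 2 f ![x, y] (by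
        intro i; fin_cases i
        · exact hx
        · exact hy)
    exact ⟨h 0 _ _ (fun i => i.elim0), fun x hx => h1 _ x hx, fun x hx => h1 _ x hx,
      fun x hx => h1 _ x hx, fun x y hx hy => h2 _ x y hx hy, fun x y hx hy => h2 _ x y hx hy,
      fun x y hx hy => h2 _ x y hx hy⟩
  · rintro ⟨h0, h1, h2, h3, h4, h5, h6⟩
    refine ⟨⟨_, h0⟩, ?_⟩
    intro n f a ha
    match n, f, a, ha with
    | 0, f, a, ha =>
      have hf : f = (⟨0, Nat.one_pos⟩ : Fin 1) := Subsingleton.elim (α := Fin 1) _ _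
      rw [hf, vec0 (f := a)]
      exact h0
    | 1, f, a, ha =>
      rw [vec1 a]
      rcases fin3 f with h | h | h <;> rw [h]
      · exact h1 _ (ha 0)
      · exact h2 _ (ha 0)
      · exact h3 _ (ha 0)
    | 2, f, a, ha =>
      rw [vec2 a]
      rcases fin3 f with h | h | h <;> rw [h]
      · exact h4 _ _ (ha 0) (ha 1)
      · exact h5 _ _ (ha 0) (ha 1)
      · exact h6 _ _ (ha 0) (ha 1)
    | n + 3, f, a, ha => exact (f : Fin 0).elim0

theorem propA_iff (piA : List PiAx) (θ : Fm Lar) (R : Str Lar) (J : R.M → Prop) :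
    PropA piA θ R J ↔ ((((∀ f ∈ basic, ∀ e, f.Sat R e) ∧ (∀ a ∈ pi0, ∀ e, a.P R e)) ∧
      ((∀ a ∈ piA, ∀ e, a.P R e) ∧ (J R.zr ∧ (∀ x, J x → J (R.sc x)) ∧ (∀ x, J x → J (R.hf x)) ∧
      (∀ x, J x → J (R.ln x)) ∧
      (∀ x y, J x → J y → J (R.ad x y)) ∧ (∀ x y, J x → J y → J (R.ml x y)) ∧
      (∀ x y, J x → J y → J (R.sm x y))))) ∧
      (((∀ x y, J y → R.le x y → J x) ∧ (∀ x, J (R.ln x) → J x)) ∧
      ((∀ x s, J x → J s → LkJ θ R J (consS R x s) R.zr x) ∧
      (∀ x s a y, J x → LkJ θ R J s a y → LkJ θ R J (consS R x s) (R.sc a) y)))) ∧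
      ∃ a, Top R J a :=
  ⟨fun h => ⟨⟨⟨⟨h.pic.bas, h.pic.p0⟩, h.ax, (closedU_iff R J).1 h.cl⟩, ⟨h.init, h.exp⟩,
      h.lk0, h.lk1⟩, h.top⟩,
    fun h => ⟨⟨h.1.1.1.1, h.1.1.1.2⟩, h.1.1.2.1, (closedU_iff R J).2 h.1.1.2.2, h.1.2.1.1,
      h.1.2.1.2, h.1.2.2.1, h.1.2.2.2, h.2⟩⟩

theorem PropA_v (piA : List PiAx) (θ : Fm Lar) : VDef (fun R J _ _ => PropA piA θ R J) := by
  simp only [propA_iff]
  refine vand (vand (vand (vand ?_ ?_) (vand ?_ ?_)) (vand (vand ?_ ?_) (vand ?_ ?_))) ?_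
  · exact v_list basic (fun f R _ _ _ => ∀ e, f.Sat R e) fun f _ =>
      v_allE (P := fun S e => f.Sat S e) ⟨f, fun _ _ => Iff.rfl⟩
  · exact v_list pi0 (fun a R _ _ _ => ∀ e, a.P R e) fun a _ => v_allE a.bdef.uDef
  · exact v_list piA (fun a R _ _ _ => ∀ e, a.P R e) fun a _ => v_allE a.bdef.uDef
  · infer_instance
  · infer_instance
  · infer_instance
  · infer_instance
  · infer_instance
  · infer_instance

/-! ### Structures of the form `mkLA R J` -/

/-- The relations are graphs of functions and do not depend on dummy arguments. -/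
def FunS (S : Str LA) : Prop :=
  (((∃ a, ∀ x y z, S.rl 3 (0 : Fin 9) ![x, y, z] ↔ x = a) ∧
  (∀ x, ∃ b, ∀ y z, S.rl 3 (1 : Fin 9) ![x, y, z] ↔ y = b)) ∧
  ((∀ x, ∃ b, ∀ y z, S.rl 3 (2 : Fin 9) ![x, y, z] ↔ y = b) ∧
  (∀ x, ∃ b, ∀ y z, S.rl 3 (3 : Fin 9) ![x, y, z] ↔ y = b))) ∧
  (((∀ x y, ∃ b, ∀ z, S.rl 3 (4 : Fin 9) ![x, y, z] ↔ z = b) ∧
  (∀ x y, ∃ b, ∀ z, S.rl 3 (5 : Fin 9) ![x, y, z] ↔ z = b)) ∧
  (∀ x y, ∃ b, ∀ z, S.rl 3 (6 : Fin 9) ![x, y, z] ↔ z = b)) ∧
  (∀ x y z z', S.rl 3 (7 : Fin 9) ![x, y, z] ↔ S.rl 3 (7 : Fin 9) ![x, y, z']) ∧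
  (∀ x y z y' z', S.rl 3 (8 : Fin 9) ![x, y, z] ↔ S.rl 3 (8 : Fin 9) ![x, y', z'])

instance u_rl (r : Fin 9) (i j k : ℕ) :
    UDef (fun (S : Str LA) e => S.rl 3 (r : Fin 9) ![e i, e j, e k]) :=
  ⟨fR r i j k, fun S e => (sat_fR S r i j k e).symm⟩

theorem FunS_u : UDef (fun (S : Str LA) _ => FunS S) := by
  unfold FunS
  infer_instance

theorem relLA_val (r : Fin 9) : r = 0 ∨ r = 1 ∨ r = 2 ∨ r = 3 ∨ r = 4 ∨ r = 5 ∨ r = 6 ∨ r = 7 ∨
    r = 8 := by
  fin_cases r <;> simp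

theorem FunS_mk (R : Str Lar) (J : R.M → Prop) : FunS (mkLA R J) :=
  ⟨⟨⟨⟨R.zr, fun _ _ _ => Iff.rfl⟩, fun x => ⟨R.sc x, fun _ _ => Iff.rfl⟩⟩,
    fun x => ⟨R.hf x, fun _ _ => Iff.rfl⟩, fun x => ⟨R.ln x, fun _ _ => Iff.rfl⟩⟩,
    ⟨⟨fun x y => ⟨R.ad x y, fun _ => Iff.rfl⟩, fun x y => ⟨R.ml x y, fun _ => Iff.rfl⟩⟩,
      fun x y => ⟨R.sm x y, fun _ => Iff.rfl⟩⟩, fun _ _ _ _ => Iff.rfl, fun _ _ _ _ _ => Iff.rfl⟩

theorem vec3 {M : Type} (f : Fin 3 → M) : f = ![f 0, f 1, f 2] := by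
  funext i; fin_cases i <;> rfl

theorem LA_ext {M : Type} {inh : Nonempty M}
    {fn fn' : (n : ℕ) → Fin (LA.Fn n) → (Fin n → M) → M}
    {rl rl' : (n : ℕ) → Fin (LA.Rl n) → (Fin n → M) → Prop}
    (h : ∀ (r : Fin 9) (b : Fin 3 → M), rl 3 r b ↔ rl' 3 r b) :
    (⟨M, inh, fn, rl⟩ : Str LA) = ⟨M, inh, fn', rl'⟩ := by
  have e1 : fn = fn' := by
    funext n f
    exact (f : Fin 0).elim0
  have e2 : rl = rl' := by
    funext n r b
    by_cases hn : n = 3
    · subst hn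
      exact propext (h r b)
    · exfalso
      have : LA.Rl n = 0 := by
        show (match n with | 3 => 9 | _ => 0) = 0
        split
        · exact absurd rfl hn
        · rfl
      rw [this] at r
      exact r.elim0
  rw [e1, e2]

theorem LA_str_eq (S : Str LA) (h : FunS S) : ∃ R J, S = mkLA R J := by
  obtain ⟨M, inh, fn, rl⟩ := S
  obtain ⟨⟨⟨⟨z, h0⟩, h1⟩, h2, h3⟩, ⟨⟨h4, h5⟩, h6⟩, h7, h8⟩ := h
  choose s hs using h1
  choose hf hhf using h2
  choose l hl using h3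
  choose a ha using h4
  choose m hm using h5
  choose p hp using h6
  refine ⟨mkAr M inh z s hf l a m p (fun x y => rl 3 (7 : Fin 9) ![x, y, x]),
    fun x => rl 3 (8 : Fin 9) ![x, x, x], LA_ext fun r b => ?_⟩
  rw [vec3 b]
  rcases relLA_val r with h | h | h | h | h | h | h | h | h
  · rw [h]; exact h0 _ _ _
  · rw [h]; exact hs _ _ _
  · rw [h]; exact hhf _ _ _
  · rw [h]; exact hl _ _ _
  · rw [h]; exact ha _ _ _
  · rw [h]; exact hm _ _ _
  · rw [h]; exact hp _ _ _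
  · rw [h]; exact h7 _ _ _ _
  · rw [h]; exact h8 _ _ _ _ _

/-! ### The theory `A` -/

theorem exists_fA (piA : List PiAx) (θ : Fm Lar) : ∃ f : Fm LA, f.Closed ∧
    (∀ S e, f.Sat S e → ∃ R J, S = mkLA R J ∧ PropA piA θ R J) ∧
    ∀ R J e, (f.Sat (mkLA R J) e ↔ PropA piA θ R J) := by
  obtain ⟨f1, c1, h1⟩ := closed_u FunS_u (fun S e e' h => h)
  obtain ⟨f2, c2, h2⟩ := closed_v (PropA_v piA θ) (fun R J T e e' h => h)
  have key : ∀ R J e, ((Fm.and f1 f2.noT).Sat (mkLA R J) e ↔ PropA piA θ R J) := by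
    intro R J e
    rw [Fm.sat_and, ← h1, sat_noT]
    refine ⟨fun h => (h2 R J (fun _ => False) e).2 h.2, fun h => ⟨FunS_mk R J, ?_⟩⟩
    exact (h2 R J (fun _ => False) e).1 h
  refine ⟨Fm.and f1 f2.noT, bd_and.2 ⟨c1, bd_noT f2 c2⟩, ?_, key⟩
  intro S e h
  have h' := h
  rw [Fm.sat_and, ← h1] at h'
  obtain ⟨R, J, rfl⟩ := LA_str_eq S h'.1
  exact ⟨R, J, rfl, (key R J e).1 h⟩

/-- The single axiom of `A`. -/
noncomputable def fA (piA : List PiAx) (θ : Fm Lar) : Fm LA := (exists_fA piA θ).choose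

theorem fA_closed (piA : List PiAx) (θ : Fm Lar) : (fA piA θ).Closed :=
  (exists_fA piA θ).choose_spec.1

theorem sat_fA_mk (piA : List PiAx) (θ : Fm Lar) (R : Str Lar) (J : R.M → Prop) (e : ℕ → R.M) :
    (fA piA θ).Sat (mkLA R J) e ↔ PropA piA θ R J :=
  (exists_fA piA θ).choose_spec.2.2 R J e

theorem sat_fA (piA : List PiAx) (θ : Fm Lar) (S : Str LA) (e : ℕ → S.M) :
    (fA piA θ).Sat S e ↔ ∃ R J, S = mkLA R J ∧ PropA piA θ R J := by
  constructor
  · exact (exists_fA piA θ).choose_spec.2.1 S e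
  · rintro ⟨R, J, rfl, h⟩
    exact (sat_fA_mk piA θ R J e).2 h

theorem expT_reduct (S : Str L.addT) : S = expT (reductT S) (predT S) := by
  obtain ⟨M, inh, fn, rl⟩ := S
  have e2 : rl = (expT (reductT ⟨M, inh, fn, rl⟩) (predT ⟨M, inh, fn, rl⟩)).rl := by
    funext n r b
    exact propext (rl_reduct (⟨M, inh, fn, rl⟩ : Str L.addT) n r b)
  exact congrArg (Str.mk M inh fn) e2

theorem expT_eq_mkLT (S : Str LA) (T : S.M → Prop) (R : Str Lar) (J : R.M → Prop)
    (h : S = mkLA R J) : ∃ T', expT S T = mkLT R J T' := by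
  subst h
  exact ⟨T, rfl⟩

theorem LAT_str_eq (piA : List PiAx) (θ : Fm Lar) (S : Str LA.addT) (e : ℕ → S.M)
    (h : (fA piA θ).toT.Sat S e) : ∃ R J T, S = mkLT R J T ∧ PropA piA θ R J := by
  rw [sat_reduct] at h
  rw [sat_toT (reductT S) (predT S), sat_fA] at h
  obtain ⟨R, J, h1, h2⟩ := h
  obtain ⟨T, hT⟩ := expT_eq_mkLT (reductT S) (predT S) R J h1
  exact ⟨R, J, T, (expT_reduct S).trans hT, h2⟩

/-! ### The interpretation of arithmetic on `J` -/

theorem fR_bd {r : Fin 9} {x y z k : ℕ} (hx : x < k) (hy : y < k) (hz : z < k) :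
    (fR r x y z).bd k := by
  intro i
  fin_cases i
  · exact hx
  · exact hy
  · exact hz

/-- The interpretation of the language of arithmetic on `J`. -/
def NI : Interp Lar LA where
  dom := fR 8 0 0 0
  fn := fun n => match n with
    | 0 => fun _ => fR 0 0 0 0
    | 1 => fun (f : Fin 3) => if f = 0 then fR 1 1 0 0 else if f = 1 then fR 2 1 0 0
        else fR 3 1 0 0
    | 2 => fun (f : Fin 3) => if f = 0 then fR 4 1 2 0 else if f = 1 then fR 5 1 2 0
        else fR 6 1 2 0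
    | _ + 3 => fun (f : Fin 0) => f.elim0
  rl := fun n => match n with
    | 0 => fun (f : Fin 0) => f.elim0
    | 1 => fun (f : Fin 0) => f.elim0
    | 2 => fun _ => fR 7 0 1 0
    | _ + 3 => fun (f : Fin 0) => f.elim0
  dom_bd := fR_bd (by norm_num) (by norm_num) (by norm_num)
  fn_bd := by
    intro n f
    match n, f with
    | 0, f => exact fR_bd (by norm_num) (by norm_num) (by norm_num)
    | 1, f =>
      show (if f = (0 : Fin 3) then fR 1 1 0 0 else if f = (1 : Fin 3) then fR 2 1 0 0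
        else fR 3 1 0 0).bd 2
      split_ifs <;> exact fR_bd (by norm_num) (by norm_num) (by norm_num)
    | 2, f =>
      show (if f = (0 : Fin 3) then fR 4 1 2 0 else if f = (1 : Fin 3) then fR 5 1 2 0
        else fR 6 1 2 0).bd 3
      split_ifs <;> exact fR_bd (by norm_num) (by norm_num) (by norm_num)
    | n + 3, f => exact (f : Fin 0).elim0
  rl_bd := by
    intro n r
    match n, r with
    | 0, f => exact (f : Fin 0).elim0
    | 1, f => exact (f : Fin 0).elim0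
    | 2, f => exact fR_bd (by norm_num) (by norm_num) (by norm_num)
    | n + 3, f => exact (f : Fin 0).elim0

section NI
variable (R : Str Lar) (J : R.M → Prop)

theorem NI_D (x : R.M) : NI.D (mkLA R J) x ↔ J x := by
  show (fR 8 0 0 0).Sat (mkLA R J) (fun _ => x) ↔ J x
  rw [sat_fR]
  exact Iff.rfl

theorem NI_dom (x : R.M) (e : ℕ → R.M) : NI.dom.Sat (mkLA R J) (cn x e) ↔ J x := by
  show (fR 8 0 0 0).Sat (mkLA R J) (cn x e) ↔ J x
  rw [sat_fR]
  exact Iff.rfl

theorem xt_lt {S : Str L} {n : ℕ} (a : Fin n → S.M) (i : ℕ) (h : i < n) :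
    xt S a i = a ⟨i, h⟩ := by
  unfold xt; rw [dif_pos h]

theorem NI_F (n : ℕ) (f : Fin (Lar.Fn n)) (a : Fin n → R.M) (y : R.M) :
    NI.F (mkLA R J) n f a y ↔ y = R.fn n f a := by
  match n, f, a with
  | 0, f, a =>
    show (fR 0 0 0 0).Sat (mkLA R J) (cn y (xt (mkLA R J) a)) ↔ _
    rw [sat_fR]
    have hf : f = (⟨0, Nat.one_pos⟩ : Fin 1) := Subsingleton.elim (α := Fin 1) _ _
    rw [hf, vec0 (f := a)]
    exact Iff.rfl
  | 1, f, a =>
    have h0 : xt (mkLA R J) a 0 = a 0 := xt_lt (S := mkLA R J) a 0 (by norm_num)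
    have ha : a = ![a 0] := vec1 a
    rcases fin3 f with h | h | h
    · rw [h]
      show (fR 1 1 0 0).Sat (mkLA R J) (cn y (xt (mkLA R J) a)) ↔ _
      rw [sat_fR, cn_one, h0, ha]
      exact Iff.rfl
    · rw [h]
      show (fR 2 1 0 0).Sat (mkLA R J) (cn y (xt (mkLA R J) a)) ↔ _
      rw [sat_fR, cn_one, h0, ha]
      exact Iff.rfl
    · rw [h]
      show (fR 3 1 0 0).Sat (mkLA R J) (cn y (xt (mkLA R J) a)) ↔ _
      rw [sat_fR, cn_one, h0, ha]
      exact Iff.rfl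
  | 2, f, a =>
    have h0 : xt (mkLA R J) a 0 = a 0 := xt_lt (S := mkLA R J) a 0 (by norm_num)
    have h1 : xt (mkLA R J) a 1 = a 1 := xt_lt (S := mkLA R J) a 1 (by norm_num)
    have ha : a = ![a 0, a 1] := vec2 a
    rcases fin3 f with h | h | h
    · rw [h]
      show (fR 4 1 2 0).Sat (mkLA R J) (cn y (xt (mkLA R J) a)) ↔ _
      rw [sat_fR, cn_one, cn_two, h0, h1, ha]
      exact Iff.rfl
    · rw [h]
      show (fR 5 1 2 0).Sat (mkLA R J) (cn y (xt (mkLA R J) a)) ↔ _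
      rw [sat_fR, cn_one, cn_two, h0, h1, ha]
      exact Iff.rfl
    · rw [h]
      show (fR 6 1 2 0).Sat (mkLA R J) (cn y (xt (mkLA R J) a)) ↔ _
      rw [sat_fR, cn_one, cn_two, h0, h1, ha]
      exact Iff.rfl
  | n + 3, f, a => exact (f : Fin 0).elim0

theorem NI_R (n : ℕ) (r : Fin (Lar.Rl n)) (a : Fin n → R.M) :
    NI.R (mkLA R J) n r a ↔ R.rl n r a := by
  match n, r, a with
  | 0, f, a => exact (f : Fin 0).elim0
  | 1, f, a => exact (f : Fin 0).elim0
  | 2, f, a =>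
    have h0 : xt (mkLA R J) a 0 = a 0 := xt_lt (S := mkLA R J) a 0 (by norm_num)
    have h1 : xt (mkLA R J) a 1 = a 1 := xt_lt (S := mkLA R J) a 1 (by norm_num)
    have ha : a = ![a 0, a 1] := vec2 a
    have hr : f = (⟨0, by decide⟩ : Fin 1) := Subsingleton.elim (α := Fin 1) _ _
    show (fR 7 0 1 0).Sat (mkLA R J) (xt (mkLA R J) a) ↔ _
    rw [sat_fR, h0, h1, ha, hr]
    exact Iff.rfl
  | n + 3, f, a => exact (f : Fin 0).elim0

theorem NI_valid (hJ : ClosedU R J) : NI.Valid (mkLA R J) := by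
  refine ⟨?_, ?_⟩
  · obtain ⟨x, hx⟩ := hJ.1
    exact ⟨x, (NI_D R J x).2 hx⟩
  · intro n f a ha
    refine ⟨R.fn n f a, ⟨(NI_D R J _).2 (hJ.2 n f a fun i => (NI_D R J _).1 (ha i)),
      (NI_F R J n f a _).2 rfl⟩, ?_⟩
    rintro y ⟨_, hy⟩
    exact (NI_F R J n f a y).1 hy

theorem NI_ind_fn (hv : NI.Valid (mkLA R J)) (n : ℕ) (f : Fin (Lar.Fn n))
    (a : Fin n → (NI.ind (mkLA R J) hv).M) :
    ((NI.ind (mkLA R J) hv).fn n f a).1 = R.fn n f (fun i => (a i).1) :=
  (NI_F R J n f _ _).1 ((NI.ind_fn (mkLA R J) hv n f a _).2 rfl)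

theorem NI_val (hv : NI.Valid (mkLA R J)) (e : ℕ → (NI.ind (mkLA R J) hv).M) (t : Tm Lar) :
    (t.val (NI.ind (mkLA R J) hv) e).1 = t.val R (fun i => (e i).1) :=
  Tm.val_iso (NI.ind (mkLA R J) hv) R (fun x => x.1) (NI_ind_fn R J hv) e t

/-- The structure interpreted by `NI` is the substructure with carrier `J`. -/
theorem NI_mod (hv : NI.Valid (mkLA R J)) (hJ : ClosedU R J) (Th : Set (Fm Lar)) :
    Mod (R.sub J hJ) Th ↔ Mod (NI.ind (mkLA R J) hv) Th := by
  let φ : (R.sub J hJ).M → (NI.ind (mkLA R J) hv).M := fun x => ⟨x.1, (NI_D R J x.1).2 x.2⟩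
  have hinj : Function.Injective φ := by
    intro x y h
    exact Subtype.ext (congrArg Subtype.val h)
  have hsur : Function.Surjective φ := fun y => ⟨⟨y.1, (NI_D R J y.1).1 y.2⟩, rfl⟩
  have hfn : ∀ n f a, φ ((R.sub J hJ).fn n f a) =
      (NI.ind (mkLA R J) hv).fn n f (fun i => φ (a i)) := by
    intro n f a
    refine Subtype.ext ?_
    rw [NI_ind_fn]
  have hrl : ∀ n r a, (R.sub J hJ).rl n r a ↔
      (NI.ind (mkLA R J) hv).rl n r (fun i => φ (a i)) := by
    intro n r a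
    exact (NI_R R J n r (fun i => (a i).1)).symm
  have key := fun (f : Fm Lar) => Fm.sat_iso (R.sub J hJ) (NI.ind (mkLA R J) hv) φ hinj hsur hfn
    hrl f
  constructor
  · intro h f hf e
    choose e' he' using fun i => hsur (e i)
    have : e = fun i => φ (e' i) := funext fun i => (he' i).symm
    rw [this, ← key]
    exact h f hf e'
  · intro h f hf e
    rw [key]
    exact h f hf _

end NI

theorem conj_bd {k : ℕ} (n : ℕ) (g : Fin n → Fm L) (h : ∀ i, (g i).bd k) :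
    (Fm.conj n g).bd k := by
  unfold Fm.conj
  have key : ∀ l : List (Fm L), (∀ f ∈ l, f.bd k) → (l.foldr Fm.and (.neg .bot)).bd k := by
    intro l
    induction l with
    | nil => intro _; exact ⟨trivial, trivial⟩
    | cons a l ih =>
      intro h
      exact bd_and.2 ⟨h a List.mem_cons_self, ih fun f hf => h f (List.mem_cons_of_mem a hf)⟩
  refine key _ fun f hf => ?_
  rw [List.mem_ofFn] at hf
  obtain ⟨i, rfl⟩ := hf
  exact h i

theorem Interp.tm_bd {L₁ L₂ : Lang} (I : Interp L₁ L₂) {k : ℕ} (t : Tm L₁) (h : t.bd k) :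
    (I.tm t).bd (k + 1) := by
  induction t with
  | var i =>
    have hi : i < k := h
    refine ⟨?_, ?_⟩
    · show 0 < k + 1
      omega
    · show i + 1 < k + 1
      omega
  | fn n f ts ih =>
    rw [Interp.tm, exs_bd, bd_and]
    refine ⟨conj_bd _ _ fun i => bd_and.2 ⟨?_, ?_⟩, ?_⟩
    · refine Fm.bd_sub _ (k := 1) (fun j _ => ?_) I.dom_bd
      show (i : ℕ) < k + 1 + n
      have := i.2
      omega
    · refine Fm.bd_sub _ (k := k + 1) (fun j hj => ?_) (ih i (h i))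
      cases j with
      | zero =>
        show (i : ℕ) < k + 1 + n
        have := i.2
        omega
      | succ j =>
        show n + 1 + j < k + 1 + n
        omega
    · refine Fm.bd_sub _ (k := n + 1) (fun j hj => ?_) (I.fn_bd n f)
      cases j with
      | zero =>
        show n < k + 1 + n
        omega
      | succ j =>
        show j < k + 1 + n
        omega

theorem numeral_bd (n : ℕ) : (numeral n).bd 0 := by
  induction n using Nat.strong_induction_on with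
  | _ n ih =>
    cases n with
    | zero => rw [numeral]; exact fun i => i.elim0
    | succ n =>
      rw [numeral]
      have h1 := ih ((n + 1) / 2) (by omega)
      have h0 : tZ.bd 0 := fun i => i.elim0
      have hS : ∀ t : Tm Lar, t.bd 0 → (tS t).bd 0 := by
        intro t ht i; fin_cases i; exact ht
      have hM : ∀ t u : Tm Lar, t.bd 0 → u.bd 0 → (tM t u).bd 0 := by
        intro t u ht hu i
        fin_cases i
        · exact ht
        · exact hu
      split_ifs with h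
      · exact hM _ _ (hS _ (hS _ h0)) h1
      · exact hS _ (hM _ _ (hS _ (hS _ h0)) h1)

section tb
variable {piA : List PiAx} {θ : Fm Lar} {R : Str Lar} {J T : R.M → Prop}

theorem J_nmS (hJ : ClosedU R J) (n : ℕ) : J (nmS R n) := by
  induction n with
  | zero => exact ((closedU_iff R J).1 hJ).1
  | succ n ih => exact ((closedU_iff R J).1 hJ).2.1 _ ih

/-- The meaning of the translation of the numeral of `n`. -/
theorem sat_tm_numeral (hR : PiC R) (hJ : ClosedU R J) (n : ℕ) (x : R.M) (hx : J x)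
    (e : ℕ → R.M) : (NI.tm (numeral n)).Sat (mkLA R J) (cn x e) ↔ x = nmS R n := by
  have hv := NI_valid R J hJ
  have hbd : (NI.tm (numeral n)).bd 1 := NI.tm_bd (numeral n) (numeral_bd n)
  let y : (NI.ind (mkLA R J) hv).M := ⟨x, (NI_D R J x).2 hx⟩
  have h1 := sat_Itm NI (mkLA R J) hv (numeral n) (fun _ => y) y
  have h2 : (NI.tm (numeral n)).Sat (mkLA R J) (cn x e) ↔
      (NI.tm (numeral n)).Sat (mkLA R J) (cn y.1 (fun i => ((fun _ => y) i : _).1)) :=
    Fm.sat_congr (mkLA R J) _ (k := 1) (fun i hi => by interval_cases i; rfl) hbd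
  rw [h2, h1]
  have h3 := NI_val R J hv (fun _ => y) (numeral n)
  have h4 := numeral_val R n (fun _ => x)
  constructor
  · intro h
    have h5 : x = ((numeral n).val (NI.ind (mkLA R J) hv) (fun _ => y)).1 := congrArg Subtype.val h
    rw [h5, h3]
    exact h4
  · intro h
    refine Subtype.ext ?_
    show x = ((numeral n).val (NI.ind (mkLA R J) hv) (fun _ => y)).1
    rw [h3]
    exact h.trans h4.symm

theorem sat_tbAx (hR : PiC R) (hJ : ClosedU R J) (g : Fm LA → ℕ) (σ : Fm LA) (hσ : σ.Closed) :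
    (∀ e, (tbAx NI g σ).Sat (mkLT R J T) e) ↔
      (T (nmS R (g σ)) ↔ ∀ e, σ.Sat (mkLA R J) e) := by
  have key : ∀ e : ℕ → R.M, (tbAx NI g σ).Sat (mkLT R J T) e ↔
      (T (nmS R (g σ)) ↔ σ.Sat (mkLA R J) e) := by
    intro e
    have h1 : (tbAx NI g σ).Sat (mkLT R J T) e ↔ ∀ x : R.M, J x → x = nmS R (g σ) →
        (T x ↔ σ.Sat (mkLA R J) e) := by
      show (∀ x : R.M, NI.dom.toT.Sat (mkLT R J T) (cn x e) →
        (NI.tm (numeral (g σ))).toT.Sat (mkLT R J T) (cn x e) →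
          (Fm.iff (fT (.var 0)) σ.toT).Sat (mkLT R J T) (cn x e)) ↔ _
      refine forall_congr' fun x => ?_
      rw [sat_toT, NI_dom]
      refine imp_congr_right fun hx => ?_
      rw [sat_toT, sat_tm_numeral hR hJ _ _ hx]
      refine imp_congr_right fun _ => ?_
      rw [Fm.sat_iff, sat_fT_var, sat_toT, cn_zero]
      rw [Fm.sat_closed (mkLA R J) hσ (cn x e) e]
    rw [h1]
    constructor
    · intro h
      exact h _ (J_nmS hJ _) rfl
    · rintro h x _ rfl
      exact h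
  obtain ⟨x0⟩ := R.inh
  have hc : (∀ e, σ.Sat (mkLA R J) e) ↔ σ.Sat (mkLA R J) (fun _ => x0) :=
    ⟨fun h => h _, fun h e => (Fm.sat_closed (mkLA R J) hσ e (fun _ => x0)).2 h⟩
  rw [hc]
  constructor
  · intro h
    exact (key _).1 (h _)
  · intro h e
    rw [key, h]
    exact Fm.sat_closed (mkLA R J) hσ (fun _ => x0) e

theorem mod_addTB (piA : List PiAx) (θ : Fm Lar) (R : Str Lar) (J T : R.M → Prop)
    (g : Fm LA → ℕ) : Mod (mkLT R J T) (addTB {fA piA θ} NI g) ↔ PropA piA θ R J ∧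
      ∀ σ : Fm LA, σ.Closed → (T (nmS R (g σ)) ↔ ∀ e, σ.Sat (mkLA R J) e) := by
  constructor
  · intro h
    obtain ⟨x0⟩ := R.inh
    have h1 : PropA piA θ R J := by
      have := h (fA piA θ).toT (Or.inl ⟨_, rfl, rfl⟩) (fun _ => x0)
      rwa [sat_toT, sat_fA_mk] at this
    refine ⟨h1, fun σ hσ => ?_⟩
    rw [← sat_tbAx h1.pic h1.cl g σ hσ]
    exact h _ (Or.inr ⟨σ, hσ, rfl⟩)
  · rintro ⟨h1, h2⟩ f hf e
    rcases hf with ⟨a, ha, rfl⟩ | ⟨σ, hσ, rfl⟩
    · rw [Set.mem_singleton_iff] at ha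
      subst ha
      rw [sat_toT, sat_fA_mk]
      exact h1
    · exact (sat_tbAx h1.pic h1.cl g σ hσ).2 (h2 σ hσ) e

/-- Every model of `A + TB` is of the form `mkLT R J T`. -/
theorem mod_addTB_eq (piA : List PiAx) (θ : Fm Lar) (g : Fm LA → ℕ) (S : Str LA.addT)
    (h : Mod S (addTB {fA piA θ} NI g)) : ∃ R J T, S = mkLT R J T ∧ PropA piA θ R J ∧
      ∀ σ : Fm LA, σ.Closed → (T (nmS R (g σ)) ↔ ∀ e, σ.Sat (mkLA R J) e) := by
  obtain ⟨x0⟩ := S.inh
  obtain ⟨R, J, T, rfl, _⟩ := LAT_str_eq piA θ S (fun _ => x0)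
    (h (fA piA θ).toT (Or.inl ⟨_, rfl, rfl⟩) _)
  exact ⟨R, J, T, rfl, (mod_addTB piA θ R J T g).1 h⟩

/-- Models of `A`. -/
theorem mod_A (piA : List PiAx) (θ : Fm Lar) (S : Str LA) :
    Mod S {fA piA θ} ↔ ∃ R J, S = mkLA R J ∧ PropA piA θ R J := by
  constructor
  · intro h
    obtain ⟨x0⟩ := S.inh
    exact (sat_fA piA θ S _).1 (h _ rfl (fun _ => x0))
  · intro h f hf e
    rw [Set.mem_singleton_iff] at hf
    subst hf
    exact (sat_fA piA θ S e).2 h

end tb

end Pool.Agent.MP81222b
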