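import Pool.Agent.Lib.MP_81222b_lc.Pi

/-!
# Algebra in models of the basic axioms
-/

namespace Pool.Agent.MP81222b

/-- Associativity of multiplication. -/
def axMulAssoc : PiAx where
  P := fun S e => S.ml (S.ml (e 0) (e 1)) (e 2) = S.ml (e 0) (S.ml (e 1) (e 2))
  bdef := inferInstance
  nat := fun e => Nat.mul_assoc _ _ _

/-- Subtraction. -/
def axSub : PiAx where
  P := fun S e => S.le (e 0) (e 1) → ∃ z, S.le z (e 1) ∧ S.ad (e 0) z = e 1
  bdef := inferInstance
  nat := fun e h => ⟨e 1 - e 0, Nat.sub_le _ _, Nat.add_sub_cancel' h⟩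

/-- Surjectivity of the length function. -/
def axLenSurj : PiAx where
  P := fun S e => S.le (e 1) (S.ln (e 0)) → ∃ x, S.le x (e 0) ∧ S.ln x = e 1
  bdef := inferInstance
  nat := fun e (h : e 1 ≤ (e 0).size) => by
    rcases Nat.eq_zero_or_pos (e 1) with h0 | h0
    · exact ⟨(0 : ℕ), Nat.zero_le _, by rw [h0]; exact Nat.size_zero⟩
    · refine ⟨(2 ^ (e 1 - 1) : ℕ), ?_, ?_⟩
      · show 2 ^ (e 1 - 1) ≤ e 0
        have := (Nat.lt_size (m := e 1 - 1) (n := e 0)).1 (by omega)
        exact this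
      · show (2 ^ (e 1 - 1)).size = e 1
        rw [Nat.size_pow]; omega

/-- Existence of elements whose length is a given sum of lengths. -/
def axLenAdd : PiAx where
  P := fun S e => ∃ x, S.le x (S.ml (S.sm (S.sc S.zr) (e 0)) (S.sm (S.sc S.zr) (e 1))) ∧
    S.ln x = S.ad (S.ln (e 0)) (S.ln (e 1))
  bdef := inferInstance
  nat := fun e => by
    show ∃ x : ℕ, x ≤ 2 ^ ((0 + 1 : ℕ).size * (e 0).size) * 2 ^ ((0 + 1 : ℕ).size * (e 1).size) ∧
      x.size = (e 0).size + (e 1).size
    have h1 : (0 + 1 : ℕ).size = 1 := Nat.size_one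
    rw [h1, one_mul, one_mul, ← pow_add]
    set k := (e 0).size + (e 1).size
    rcases Nat.eq_zero_or_pos k with h0 | h0
    · exact ⟨0, Nat.zero_le _, by rw [h0]; exact Nat.size_zero⟩
    · refine ⟨2 ^ (k - 1), Nat.pow_le_pow_right (by norm_num) (by omega), ?_⟩
      rw [Nat.size_pow]; omega

/-- Division with remainder. -/
def axDiv : PiAx where
  P := fun S e => e 1 ≠ S.zr → ∃ u, S.le u (e 0) ∧ S.le (S.ml u (e 1)) (e 0) ∧
    S.le (S.sc (e 0)) (S.ml (S.sc u) (e 1))
  bdef := inferInstance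
  nat := fun e (h : e 1 ≠ 0) => by
    refine ⟨(e 0 / e 1 : ℕ), Nat.div_le_self _ _, Nat.div_mul_le_self _ _, ?_⟩
    show e 0 + 1 ≤ (e 0 / e 1 + 1) * e 1
    have := Nat.lt_div_mul_add (a := e 0) (Nat.pos_of_ne_zero h)
    nlinarith

/-- The basic list of additional axioms. -/
def pi0 : List PiAx := [axMulAssoc, axSub, axLenSurj, axLenAdd, axDiv]

/-- Structures satisfying the basic axioms. -/
class PiC (S : Str Lar) : Prop where
  bas : ∀ f ∈ basic, ∀ e, f.Sat S e
  p0 : ∀ a ∈ pi0, a.Holds S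

instance : PiC natS where
  bas := basic_nat
  p0 := fun a _ e => a.nat e

theorem PiC.sub {S : Str Lar} [hS : PiC S] {D : S.M → Prop} (h : ClosedU S D) (hi : InitU S D) :
    PiC (S.sub D h) where
  bas := fun f hf e => ((basic_bdd f hf).sat_sub S D h hi e).2 (hS.bas f hf _)
  p0 := fun a ha => (hS.p0 a ha).sub h hi

section
variable (S : Str Lar) [hS : PiC S]

theorem PiC.b (i : ℕ) (hi : i < 32) (e : ℕ → S.M) : (basic[i]'hi).Sat S e :=
  hS.bas _ (List.getElem_mem _) e

/-- environment from three/four values -/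
def e4 {M : Type} (x y z u : M) : ℕ → M := cn x (cn y (cn z (fun _ => u)))

theorem PiC.add_comm' (x y : S.M) : S.ad x y = S.ad y x := by
  simpa [basic, Fm.Sat, e4] using PiC.b S 20 (by decide) (e4 x y x x)
theorem PiC.add_zero' (x : S.M) : S.ad x S.zr = x := by
  simpa [basic, Fm.Sat, e4] using PiC.b S 21 (by decide) (e4 x x x x)
theorem PiC.add_succ' (x y : S.M) : S.ad x (S.sc y) = S.sc (S.ad x y) := by
  simpa [basic, Fm.Sat, e4] using PiC.b S 22 (by decide) (e4 x y x x)
theorem PiC.add_assoc' (x y z : S.M) : S.ad (S.ad x y) z = S.ad x (S.ad y z) := by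
  simpa [basic, Fm.Sat, e4] using PiC.b S 23 (by decide) (e4 x y z x)
theorem PiC.add_le' (x y z : S.M) : S.le (S.ad x y) (S.ad x z) ↔ S.le y z := by
  simpa [basic, Fm.Sat, e4] using PiC.b S 24 (by decide) (e4 x y z x)
theorem PiC.mul_zero' (x : S.M) : S.ml x S.zr = S.zr := by
  simpa [basic, Fm.Sat, e4] using PiC.b S 25 (by decide) (e4 x x x x)
theorem PiC.mul_succ' (x y : S.M) : S.ml x (S.sc y) = S.ad (S.ml x y) x := by
  simpa [basic, Fm.Sat, e4] using PiC.b S 26 (by decide) (e4 x y x x)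
theorem PiC.mul_comm' (x y : S.M) : S.ml x y = S.ml y x := by
  simpa [basic, Fm.Sat, e4] using PiC.b S 27 (by decide) (e4 x y x x)
theorem PiC.mul_add' (x y z : S.M) : S.ml x (S.ad y z) = S.ad (S.ml x y) (S.ml x z) := by
  simpa [basic, Fm.Sat, e4] using PiC.b S 28 (by decide) (e4 x y z x)
theorem PiC.mul_le' (x y z : S.M) (h : S.le (S.sc S.zr) x) :
    S.le (S.ml x y) (S.ml x z) ↔ S.le y z := by
  have := PiC.b S 29 (by decide) (e4 x y z x)
  simp [basic, Fm.Sat, e4] at this
  exact this h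
theorem PiC.mul_assoc' (x y z : S.M) : S.ml (S.ml x y) z = S.ml x (S.ml y z) :=
  hS.p0 axMulAssoc (by simp [pi0]) (e4 x y z x)
theorem PiC.zero_le' (x : S.M) : S.le S.zr x := by
  simpa [basic, Fm.Sat, e4] using PiC.b S 2 (by decide) (e4 x x x x)
theorem PiC.total' (x y : S.M) : S.le x y ∨ S.le y x := by
  have := PiC.b S 5 (by decide) (e4 x y x x)
  simp [basic, e4] at this
  exact this.symm
theorem PiC.antisymm' {x y : S.M} (h : S.le x y) (h' : S.le y x) : x = y := by
  have := PiC.b S 6 (by decide) (e4 x y x x)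
  simp [basic, Fm.Sat, e4] at this
  exact this h h'
theorem PiC.trans' {x y z : S.M} (h : S.le x y) (h' : S.le y z) : S.le x z := by
  have := PiC.b S 7 (by decide) (e4 x y z x)
  simp [basic, Fm.Sat, e4] at this
  exact this h h'
theorem PiC.disc' (x y : S.M) : (S.le x y ∧ x ≠ y) ↔ S.le (S.sc x) y := by
  simpa [basic, Fm.Sat, e4] using PiC.b S 3 (by decide) (e4 x y x x)
theorem PiC.sub' {x y : S.M} (h : S.le x y) : ∃ z, S.ad x z = y := by
  obtain ⟨z, _, hz⟩ := hS.p0 axSub (by simp [pi0]) (e4 x y x x) h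
  exact ⟨z, hz⟩

instance instCSR : CommSemiring S.M where
  add := S.ad
  add_assoc := PiC.add_assoc' S
  zero := S.zr
  zero_add := fun x => by
    show S.ad S.zr x = x
    rw [PiC.add_comm', PiC.add_zero']
  add_zero := PiC.add_zero' S
  add_comm := PiC.add_comm' S
  mul := S.ml
  left_distrib := PiC.mul_add' S
  right_distrib := fun x y z => by
    show S.ml (S.ad x y) z = S.ad (S.ml x z) (S.ml y z)
    rw [PiC.mul_comm', PiC.mul_add', PiC.mul_comm' S z x, PiC.mul_comm' S z y]
  zero_mul := fun x => by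
    show S.ml S.zr x = S.zr
    rw [PiC.mul_comm', PiC.mul_zero']
  mul_zero := PiC.mul_zero' S
  mul_assoc := PiC.mul_assoc' S
  one := S.sc S.zr
  one_mul := fun x => by
    show S.ml (S.sc S.zr) x = x
    rw [PiC.mul_comm', PiC.mul_succ', PiC.mul_zero', PiC.add_comm', PiC.add_zero']
  mul_one := fun x => by
    show S.ml x (S.sc S.zr) = x
    rw [PiC.mul_succ', PiC.mul_zero', PiC.add_comm', PiC.add_zero']
  mul_comm := PiC.mul_comm' S
  nsmul := @nsmulRec S.M ⟨S.zr⟩ ⟨S.ad⟩
  npow := @npowRec S.M ⟨S.sc S.zr⟩ ⟨S.ml⟩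

end

variable {S : Str Lar} [hS : PiC S]

theorem ad_eq (x y : S.M) : S.ad x y = x + y := rfl
theorem ml_eq (x y : S.M) : S.ml x y = x * y := rfl
theorem zr_eq : S.zr = 0 := rfl
theorem sc_zr : S.sc S.zr = 1 := rfl
theorem sc_eq (x : S.M) : S.sc x = x + 1 := by
  show S.sc x = S.ad x (S.sc S.zr)
  rw [PiC.add_succ', PiC.add_zero']

noncomputable instance instLO : LinearOrder S.M where
  le := S.le
  le_refl := fun x => (PiC.total' S x x).elim id id
  le_trans := fun _ _ _ => PiC.trans' S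
  le_antisymm := fun _ _ => PiC.antisymm' S
  le_total := PiC.total' S
  toDecidableLE := Classical.decRel _

theorem le_eq (x y : S.M) : S.le x y ↔ x ≤ y := Iff.rfl

theorem add_one_le_iff' {x y : S.M} : x + 1 ≤ y ↔ x < y := by
  rw [lt_iff_le_and_ne, ← sc_eq]
  exact (PiC.disc' S x y).symm

theorem lt_add_one_iff' {x y : S.M} : x < y + 1 ↔ x ≤ y := by
  rw [← not_le, add_one_le_iff', not_lt]

instance instOR : IsStrictOrderedRing S.M := by
  have hadd : ∀ a b : S.M, a ≤ b → ∀ c, c + a ≤ c + b := fun a b h c => (PiC.add_le' S c a b).2 h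
  have h01 : (0 : S.M) < 1 := by
    rw [← add_one_le_iff', zero_add]
  have hlt : ∀ a b c : S.M, a < b → c + a < c + b := by
    intro a b c h
    rw [← not_le] at h ⊢
    intro h'
    exact h ((PiC.add_le' S c b a).1 h')
  have hmul : ∀ a b c : S.M, 0 < a → b < c → a * b < a * c := by
    intro a b c ha h
    rw [← not_le] at h ⊢
    intro h'
    refine h ((PiC.mul_le' S a c b ?_).1 h')
    rw [← add_one_le_iff', zero_add] at ha
    exact ha
  exact
    { add_le_add_left := fun a b h c => by rw [add_comm a, add_comm b]; exact hadd a b h c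
      le_of_add_le_add_left := fun a b c h => (PiC.add_le' S a b c).1 h
      zero_le_one := h01.le
      exists_pair_ne := ⟨0, 1, h01.ne⟩
      mul_lt_mul_of_pos_left := fun a ha b c h => hmul a b c ha h
      mul_lt_mul_of_pos_right := fun a ha b c h => by
        show b * a < c * a
        rw [mul_comm b, mul_comm c]; exact hmul a b c ha h }

end Pool.Agent.MP81222b
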