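import Pool.Agent.Lib.MP_81222b_lc.Defs

/-!
# Structures for the language of `S^1_2`, definability classes
-/

namespace Pool.Agent.MP81222b

variable {L : Lang}

/-! ### Accessors -/

section acc
variable (S : Str Lar)
def Str.zr : S.M := S.fn 0 (⟨0, Nat.one_pos⟩ : Fin 1) ![]
def Str.sc (x : S.M) : S.M := S.fn 1 (⟨0, by decide⟩ : Fin 3) ![x]
def Str.hf (x : S.M) : S.M := S.fn 1 (⟨1, by decide⟩ : Fin 3) ![x]
def Str.ln (x : S.M) : S.M := S.fn 1 (⟨2, by decide⟩ : Fin 3) ![x]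
def Str.ad (x y : S.M) : S.M := S.fn 2 (⟨0, by decide⟩ : Fin 3) ![x, y]
def Str.ml (x y : S.M) : S.M := S.fn 2 (⟨1, by decide⟩ : Fin 3) ![x, y]
def Str.sm (x y : S.M) : S.M := S.fn 2 (⟨2, by decide⟩ : Fin 3) ![x, y]
def Str.le (x y : S.M) : Prop := S.rl 2 (⟨0, by decide⟩ : Fin 1) ![x, y]
end acc

theorem vec0 {M : Type} {f : Fin 0 → M} : f = ![] := by funext i; exact i.elim0
theorem vec1 {M : Type} (f : Fin 1 → M) : f = ![f 0] := by
  funext i; fin_cases i; rfl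
theorem vec2 {M : Type} (f : Fin 2 → M) : f = ![f 0, f 1] := by
  funext i; fin_cases i <;> rfl

@[simp] theorem val_var (S : Str L) (e) (i : ℕ) : (Tm.var i : Tm L).val S e = e i := rfl
@[simp] theorem val_tZ (S : Str Lar) (e) : tZ.val S e = S.zr := by
  simp only [tZ, Tm.val, Str.zr]; congr 1; exact vec0
@[simp] theorem val_tS (S : Str Lar) (e) (t) : (tS t).val S e = S.sc (t.val S e) := by
  simp only [tS, Tm.val, Str.sc]; congr 1; rw [vec1 (fun i => _)]; rfl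
@[simp] theorem val_tH (S : Str Lar) (e) (t) : (tH t).val S e = S.hf (t.val S e) := by
  simp only [tH, Tm.val, Str.hf]; congr 1; rw [vec1 (fun i => _)]; rfl
@[simp] theorem val_tN (S : Str Lar) (e) (t) : (tN t).val S e = S.ln (t.val S e) := by
  simp only [tN, Tm.val, Str.ln]; congr 1; rw [vec1 (fun i => _)]; rfl
@[simp] theorem val_tA (S : Str Lar) (e) (t u) : (tA t u).val S e = S.ad (t.val S e) (u.val S e) := by
  simp only [tA, Tm.val, Str.ad]; congr 1; rw [vec2 (fun i => _)]; rfl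
@[simp] theorem val_tM (S : Str Lar) (e) (t u) : (tM t u).val S e = S.ml (t.val S e) (u.val S e) := by
  simp only [tM, Tm.val, Str.ml]; congr 1; rw [vec2 (fun i => _)]; rfl
@[simp] theorem val_tP (S : Str Lar) (e) (t u) : (tP t u).val S e = S.sm (t.val S e) (u.val S e) := by
  simp only [tP, Tm.val, Str.sm]; congr 1; rw [vec2 (fun i => _)]; rfl
@[simp] theorem sat_fLe (S : Str Lar) (e) (t u) :
    (fLe t u).Sat S e ↔ S.le (t.val S e) (u.val S e) := by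
  simp only [fLe, Fm.Sat, Str.le]; rw [vec2 (fun i => _)]; rfl
@[simp] theorem sat_fNe (S : Str L) (e) (t u : Tm L) :
    (Fm.neg (.eq t u)).Sat S e ↔ t.val S e ≠ u.val S e := Iff.rfl
@[simp] theorem sat_fNe' (S : Str Lar) (e) (t u : Tm Lar) :
    (fNe t u).Sat S e ↔ t.val S e ≠ u.val S e := Iff.rfl
@[simp] theorem val_up (S : Str L) (e : ℕ → S.M) (x : S.M) (t : Tm L) :
    t.up.val S (cn x e) = t.val S e := by
  simp only [Tm.up, Tm.val_sub, Tm.val, cn_succ]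
theorem val_up' (S : Str L) (e : ℕ → S.M) (t : Tm L) :
    t.up.val S e = t.val S (fun i => e (i + 1)) := by
  simp only [Tm.up, Tm.val_sub, Tm.val]
@[simp] theorem sat_ball (S : Str Lar) (e) (t) (f : Fm Lar) :
    (ball t f).Sat S e ↔ ∀ x, S.le x (t.val S e) → f.Sat S (cn x e) := by
  simp only [ball, Fm.Sat, sat_fLe, val_up, val_var, cn_zero]

/-- The structure with given operations. -/
@[reducible] def mkAr (M : Type) (inh : Nonempty M) (z : M) (s h l : M → M) (a m p : M → M → M)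
    (le : M → M → Prop) : Str Lar where
  M := M
  inh := inh
  fn := fun n => match n with
    | 0 => fun _ _ => z
    | 1 => fun (f : Fin 3) v => if f = 0 then s (v 0) else if f = 1 then h (v 0) else l (v 0)
    | 2 => fun (f : Fin 3) v => if f = 0 then a (v 0) (v 1) else if f = 1 then m (v 0) (v 1)
        else p (v 0) (v 1)
    | _ + 3 => fun (f : Fin 0) _ => f.elim0
  rl := fun n => match n with
    | 0 => fun (f : Fin 0) _ => f.elim0
    | 1 => fun (f : Fin 0) _ => f.elim0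
    | 2 => fun _ v => le (v 0) (v 1)
    | _ + 3 => fun (f : Fin 0) _ => f.elim0

/-- The standard model. -/
@[reducible] def natS : Str Lar :=
  mkAr ℕ ⟨0⟩ 0 (· + 1) (· / 2) Nat.size (· + ·) (· * ·) (fun x y => 2 ^ (x.size * y.size)) (· ≤ ·)

@[simp] theorem natS_zr : natS.zr = (0 : ℕ) := rfl
@[simp] theorem natS_sc (x : ℕ) : natS.sc x = x + 1 := rfl
@[simp] theorem natS_hf (x : ℕ) : natS.hf x = x / 2 := rfl
@[simp] theorem natS_ln (x : ℕ) : natS.ln x = x.size := rfl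
@[simp] theorem natS_ad (x y : ℕ) : natS.ad x y = x + y := rfl
@[simp] theorem natS_ml (x y : ℕ) : natS.ml x y = x * y := rfl
@[simp] theorem natS_sm (x y : ℕ) : natS.sm x y = (2 ^ (x.size * y.size) : ℕ) := rfl
@[simp] theorem natS_le (x y : ℕ) : natS.le x y ↔ x ≤ y := Iff.rfl

/-- Bounded formulas. -/
inductive Bdd : Fm Lar → Prop
  | bot : Bdd .bot
  | eq (t u : Tm Lar) : Bdd (.eq t u)
  | rl (n : ℕ) (r : Fin (Lar.Rl n)) (ts : Fin n → Tm Lar) : Bdd (.rl n r ts)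
  | imp (f g : Fm Lar) : Bdd f → Bdd g → Bdd (.imp f g)
  | ball (t : Tm Lar) (f : Fm Lar) : Bdd f → Bdd (ball t f)

theorem Sharp.bdd {f : Fm Lar} (h : Sharp f) : Bdd f := by
  induction h with
  | bot => exact .bot
  | eq t u => exact .eq t u
  | rl n r ts => exact .rl n r ts
  | imp f g _ _ hf hg => exact .imp f g hf hg
  | sball t f _ hf => exact .ball _ f hf

theorem BQ.bdd {b : Bool} {f : Fm Lar} (h : BQ b f) : Bdd f := by
  induction h with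
  | sharp b f h => exact h.bdd
  | imp b f g _ _ hf hg => exact .imp f g hf hg
  | sball b t f _ hf => exact .ball _ f hf
  | ball t f _ hf => exact .ball t f hf

/-! ### Definability classes -/

/-- Predicates on structures defined by a formula. -/
class UDef (P : (S : Str L) → (ℕ → S.M) → Prop) : Prop where
  ex : ∃ f : Fm L, ∀ S e, P S e ↔ f.Sat S e

/-- Functions on structures defined by a term. -/
class TDef (t : (S : Str L) → (ℕ → S.M) → S.M) : Prop where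
  ex : ∃ τ : Tm L, ∀ S e, t S e = τ.val S e

/-- Predicates defined by a bounded formula. -/
class BDef (P : (S : Str Lar) → (ℕ → S.M) → Prop) : Prop where
  ex : ∃ f : Fm Lar, Bdd f ∧ ∀ S e, P S e ↔ f.Sat S e

section tdef
instance (i : ℕ) : TDef (fun (_ : Str L) e => e i) := ⟨.var i, fun _ _ => rfl⟩
instance : TDef (fun (S : Str Lar) _ => S.zr) := ⟨tZ, fun _ _ => by simp⟩
instance {t} [h : TDef t] : TDef (fun (S : Str Lar) e => S.sc (t S e)) := by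
  obtain ⟨τ, hτ⟩ := h.ex; exact ⟨tS τ, fun _ _ => by simp [hτ]⟩
instance {t} [h : TDef t] : TDef (fun (S : Str Lar) e => S.hf (t S e)) := by
  obtain ⟨τ, hτ⟩ := h.ex; exact ⟨tH τ, fun _ _ => by simp [hτ]⟩
instance {t} [h : TDef t] : TDef (fun (S : Str Lar) e => S.ln (t S e)) := by
  obtain ⟨τ, hτ⟩ := h.ex; exact ⟨tN τ, fun _ _ => by simp [hτ]⟩
instance {t u} [h : TDef t] [h' : TDef u] : TDef (fun (S : Str Lar) e => S.ad (t S e) (u S e)) := by
  obtain ⟨τ, hτ⟩ := h.ex; obtain ⟨υ, hυ⟩ := h'.ex; exact ⟨tA τ υ, fun _ _ => by simp [hτ, hυ]⟩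
instance {t u} [h : TDef t] [h' : TDef u] : TDef (fun (S : Str Lar) e => S.ml (t S e) (u S e)) := by
  obtain ⟨τ, hτ⟩ := h.ex; obtain ⟨υ, hυ⟩ := h'.ex; exact ⟨tM τ υ, fun _ _ => by simp [hτ, hυ]⟩
instance {t u} [h : TDef t] [h' : TDef u] : TDef (fun (S : Str Lar) e => S.sm (t S e) (u S e)) := by
  obtain ⟨τ, hτ⟩ := h.ex; obtain ⟨υ, hυ⟩ := h'.ex; exact ⟨tP τ υ, fun _ _ => by simp [hτ, hυ]⟩
end tdef

section udef
variable {P Q : (S : Str L) → (ℕ → S.M) → Prop}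

instance : UDef (fun (_ : Str L) _ => False) := ⟨.bot, fun _ _ => Iff.rfl⟩
instance : UDef (fun (_ : Str L) _ => True) := ⟨.neg .bot, fun _ _ => by simp [Fm.Sat]⟩
instance {t u : (S : Str L) → (ℕ → S.M) → S.M} [h : TDef t] [h' : TDef u] :
    UDef (fun (S : Str L) e => t S e = u S e) := by
  obtain ⟨τ, hτ⟩ := h.ex; obtain ⟨υ, hυ⟩ := h'.ex
  exact ⟨.eq τ υ, fun _ _ => by simp [Fm.Sat, hτ, hυ]⟩
instance {t u : (S : Str L) → (ℕ → S.M) → S.M} [h : TDef t] [h' : TDef u] :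
    UDef (fun (S : Str L) e => t S e ≠ u S e) := by
  obtain ⟨τ, hτ⟩ := h.ex; obtain ⟨υ, hυ⟩ := h'.ex
  exact ⟨.neg (.eq τ υ), fun _ _ => by simp [Fm.Sat, hτ, hυ]⟩
instance {t u : (S : Str Lar) → (ℕ → S.M) → S.M} [h : TDef t] [h' : TDef u] :
    UDef (fun (S : Str Lar) e => S.le (t S e) (u S e)) := by
  obtain ⟨τ, hτ⟩ := h.ex; obtain ⟨υ, hυ⟩ := h'.ex
  exact ⟨fLe τ υ, fun _ _ => by simp [hτ, hυ]⟩
instance [h : UDef P] : UDef (fun (S : Str L) e => ¬ P S e) := by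
  obtain ⟨f, hf⟩ := h.ex; exact ⟨.neg f, fun _ _ => by simp [hf]⟩
instance [h : UDef P] [h' : UDef Q] : UDef (fun (S : Str L) e => P S e → Q S e) := by
  obtain ⟨f, hf⟩ := h.ex; obtain ⟨g, hg⟩ := h'.ex
  exact ⟨.imp f g, fun _ _ => by simp [Fm.Sat, hf, hg]⟩
instance [h : UDef P] [h' : UDef Q] : UDef (fun (S : Str L) e => P S e ∧ Q S e) := by
  obtain ⟨f, hf⟩ := h.ex; obtain ⟨g, hg⟩ := h'.ex
  exact ⟨.and f g, fun _ _ => by simp [hf, hg]⟩
instance [h : UDef P] [h' : UDef Q] : UDef (fun (S : Str L) e => P S e ∨ Q S e) := by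
  obtain ⟨f, hf⟩ := h.ex; obtain ⟨g, hg⟩ := h'.ex
  exact ⟨.or f g, fun _ _ => by simp [hf, hg]⟩
instance [h : UDef P] [h' : UDef Q] : UDef (fun (S : Str L) e => P S e ↔ Q S e) := by
  obtain ⟨f, hf⟩ := h.ex; obtain ⟨g, hg⟩ := h'.ex
  exact ⟨.iff f g, fun _ _ => by simp [hf, hg]⟩
instance {P : (S : Str L) → (ℕ → S.M) → S.M → Prop}
    [h : UDef (fun (S : Str L) e => P S (fun n => e (n + 1)) (e 0))] :
    UDef (fun (S : Str L) e => ∀ x, P S e x) := by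
  obtain ⟨f, hf⟩ := h.ex
  refine ⟨.all f, fun S e => ?_⟩
  simp only [Fm.Sat, ← hf, cn_zero, cn_succ]
instance {P : (S : Str L) → (ℕ → S.M) → S.M → Prop}
    [h : UDef (fun (S : Str L) e => P S (fun n => e (n + 1)) (e 0))] :
    UDef (fun (S : Str L) e => ∃ x, P S e x) := by
  obtain ⟨f, hf⟩ := h.ex
  refine ⟨.ex f, fun S e => ?_⟩
  simp only [Fm.sat_ex, ← hf, cn_zero, cn_succ]

end udef

section bdef
variable {P Q : (S : Str Lar) → (ℕ → S.M) → Prop}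

instance : BDef (fun _ _ => False) := ⟨.bot, .bot, fun _ _ => Iff.rfl⟩
instance {t u : (S : Str Lar) → (ℕ → S.M) → S.M} [h : TDef t] [h' : TDef u] :
    BDef (fun (S : Str Lar) e => t S e = u S e) := by
  obtain ⟨τ, hτ⟩ := h.ex; obtain ⟨υ, hυ⟩ := h'.ex
  exact ⟨.eq τ υ, .eq _ _, fun _ _ => by simp [Fm.Sat, hτ, hυ]⟩
instance {t u : (S : Str Lar) → (ℕ → S.M) → S.M} [h : TDef t] [h' : TDef u] :
    BDef (fun (S : Str Lar) e => t S e ≠ u S e) := by
  obtain ⟨τ, hτ⟩ := h.ex; obtain ⟨υ, hυ⟩ := h'.ex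
  exact ⟨.neg (.eq τ υ), .imp _ _ (.eq _ _) .bot, fun _ _ => by simp [Fm.Sat, hτ, hυ]⟩
instance {t u : (S : Str Lar) → (ℕ → S.M) → S.M} [h : TDef t] [h' : TDef u] :
    BDef (fun (S : Str Lar) e => S.le (t S e) (u S e)) := by
  obtain ⟨τ, hτ⟩ := h.ex; obtain ⟨υ, hυ⟩ := h'.ex
  exact ⟨fLe τ υ, .rl _ _ _, fun _ _ => by simp [hτ, hυ]⟩
instance [h : BDef P] : BDef (fun (S : Str Lar) e => ¬ P S e) := by
  obtain ⟨f, hb, hf⟩ := h.ex; exact ⟨.neg f, .imp _ _ hb .bot, fun _ _ => by simp [hf]⟩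
instance [h : BDef P] [h' : BDef Q] : BDef (fun (S : Str Lar) e => P S e → Q S e) := by
  obtain ⟨f, hb, hf⟩ := h.ex; obtain ⟨g, hb', hg⟩ := h'.ex
  exact ⟨.imp f g, .imp _ _ hb hb', fun _ _ => by simp [Fm.Sat, hf, hg]⟩
theorem Bdd.neg {f} (hf : Bdd f) : Bdd f.neg := .imp _ _ hf .bot
theorem Bdd.and {f g} (hf : Bdd f) (hg : Bdd g) : Bdd (f.and g) :=
  Bdd.neg (.imp _ _ hf hg.neg)
theorem Bdd.or {f g} (hf : Bdd f) (hg : Bdd g) : Bdd (f.or g) := .imp _ _ hf.neg hg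
theorem Bdd.iff {f g} (hf : Bdd f) (hg : Bdd g) : Bdd (f.iff g) :=
  Bdd.and (.imp _ _ hf hg) (.imp _ _ hg hf)
instance [h : BDef P] [h' : BDef Q] : BDef (fun (S : Str Lar) e => P S e ∧ Q S e) := by
  obtain ⟨f, hb, hf⟩ := h.ex; obtain ⟨g, hb', hg⟩ := h'.ex
  exact ⟨.and f g, hb.and hb', fun _ _ => by simp [hf, hg]⟩
instance [h : BDef P] [h' : BDef Q] : BDef (fun (S : Str Lar) e => P S e ∨ Q S e) := by
  obtain ⟨f, hb, hf⟩ := h.ex; obtain ⟨g, hb', hg⟩ := h'.ex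
  exact ⟨.or f g, hb.or hb', fun _ _ => by simp [hf, hg]⟩
instance [h : BDef P] [h' : BDef Q] : BDef (fun (S : Str Lar) e => P S e ↔ Q S e) := by
  obtain ⟨f, hb, hf⟩ := h.ex; obtain ⟨g, hb', hg⟩ := h'.ex
  exact ⟨.iff f g, hb.iff hb', fun _ _ => by simp [hf, hg]⟩
instance {t : (S : Str Lar) → (ℕ → S.M) → S.M} {P : (S : Str Lar) → (ℕ → S.M) → S.M → Prop}
    [ht : TDef t] [h : BDef (fun (S : Str Lar) e => P S (fun n => e (n + 1)) (e 0))] :
    BDef (fun (S : Str Lar) e => ∀ x, S.le x (t S e) → P S e x) := by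
  obtain ⟨τ, hτ⟩ := ht.ex
  obtain ⟨f, hb, hf⟩ := h.ex
  refine ⟨ball τ f, .ball _ _ hb, fun S e => ?_⟩
  simp only [sat_ball, ← hf, cn_zero, cn_succ, hτ]
instance {t : (S : Str Lar) → (ℕ → S.M) → S.M} {P : (S : Str Lar) → (ℕ → S.M) → S.M → Prop}
    [ht : TDef t] [h : BDef (fun (S : Str Lar) e => P S (fun n => e (n + 1)) (e 0))] :
    BDef (fun (S : Str Lar) e => ∃ x, S.le x (t S e) ∧ P S e x) := by
  obtain ⟨τ, hτ⟩ := ht.ex
  obtain ⟨f, hb, hf⟩ := h.ex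
  refine ⟨.neg (ball τ (.neg f)), Bdd.neg (.ball _ _ hb.neg), fun S e => ?_⟩
  simp only [Fm.sat_neg, sat_ball, ← hf, cn_zero, cn_succ, hτ]
  push Not; rfl

end bdef

theorem BDef.uDef {P : (S : Str Lar) → (ℕ → S.M) → Prop} (h : BDef P) : UDef P := by
  obtain ⟨f, _, hf⟩ := h.ex; exact ⟨f, hf⟩

example : BDef (fun S e => ∀ x, S.le x (S.ad (e 0) (e 1)) → ∃ y, S.le y (S.ml x (e 2)) ∧
    (S.ad x y = e 5 ∨ ¬ S.le (S.ln y) (S.sc x))) := inferInstance

example : UDef (fun (S : Str Lar) e => ∀ x, S.le x (S.ad (e 0) (e 1)) → ∃ y, ∀ z, S.le y (S.ml x (e 2)) ∧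
    (S.ad x z = e 5 ∨ ¬ S.le (S.ln y) (S.sc z))) := inferInstance

end Pool.Agent.MP81222b
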