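import Mathlib

/-!
# First-order logic with de Bruijn indices

Variables are natural numbers; the quantifier binds variable `0` and raises the others by one.
-/

namespace Pool.Agent.Lib.MP_81222b_lc

/-- A first-order signature: function and relation symbols with their arities. -/
structure Sig where
  /-- function symbols -/
  Fn : Type
  /-- arity of a function symbol -/
  far : Fn → ℕ
  /-- relation symbols -/
  Rl : Type
  /-- arity of a relation symbol -/
  rar : Rl → ℕ

/-- Terms. -/
inductive Tm (S : Sig) : Type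
  | var : ℕ → Tm S
  | app : (f : S.Fn) → (Fin (S.far f) → Tm S) → Tm S

/-- Formulas; `all` binds variable `0`. -/
inductive Fm (S : Sig) : Type
  | eq : Tm S → Tm S → Fm S
  | rel : (r : S.Rl) → (Fin (S.rar r) → Tm S) → Fm S
  | fls : Fm S
  | imp : Fm S → Fm S → Fm S
  | all : Fm S → Fm S

/-- A structure with domain `M`. -/
structure Str (S : Sig) (M : Type) where
  fn : (f : S.Fn) → (Fin (S.far f) → M) → M
  rl : (r : S.Rl) → (Fin (S.rar r) → M) → Prop

/-- The assignment `a, v 0, v 1, ...`. -/
def cns {M : Type} (a : M) (v : ℕ → M) : ℕ → M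
  | 0 => a
  | n + 1 => v n

/-- The assignment `x 0, ..., x (k - 1), v 0, v 1, ...`. -/
def vec {M : Type} : {k : ℕ} → (Fin k → M) → (ℕ → M) → (ℕ → M)
  | 0, _, v => v
  | _ + 1, x, v => cns (x 0) (vec (fun i => x i.succ) v)

variable {S : Sig} {M : Type}

/-- Value of a term. -/
def Tm.eval (A : Str S M) (v : ℕ → M) : Tm S → M
  | .var n => v n
  | .app f a => A.fn f (fun i => (a i).eval A v)

/-- Satisfaction. -/
def Fm.sat (A : Str S M) : Fm S → (ℕ → M) → Prop
  | .eq s t, v => s.eval A v = t.eval A v
  | .rel r a, v => A.rl r (fun i => (a i).eval A v)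
  | .fls, _ => False
  | .imp p q, v => p.sat A v → q.sat A v
  | .all p, v => ∀ a, p.sat A (cns a v)

/-- `A` is a model of `T` (free variables are read universally). -/
def Models (A : Str S M) (T : Set (Fm S)) : Prop := ∀ p ∈ T, ∀ v, p.sat A v

namespace Fm

/-- negation -/
def neg (p : Fm S) : Fm S := imp p fls
/-- conjunction -/
def and (p q : Fm S) : Fm S := neg (imp p (neg q))
/-- disjunction -/
def or (p q : Fm S) : Fm S := imp (neg p) q
/-- equivalence -/
def iff (p q : Fm S) : Fm S := and (imp p q) (imp q p)
/-- existential quantifier, binds variable `0` -/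
def ex (p : Fm S) : Fm S := neg (all (neg p))
/-- conjunction of `k` formulas -/
def conj : (k : ℕ) → (Fin k → Fm S) → Fm S
  | 0, _ => neg fls
  | k + 1, p => and (p 0) (conj k (fun i => p i.succ))
/-- `k` existential quantifiers, binding variables `0, ..., k - 1` -/
def exs : ℕ → Fm S → Fm S
  | 0, p => p
  | k + 1, p => exs k (ex p)

end Fm

/-- All variables of the term are `< n`. -/
def Tm.Lt (n : ℕ) : Tm S → Prop
  | .var k => k < n
  | .app _ a => ∀ i, (a i).Lt n

/-- All free variables of the formula are `< n`. -/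
def Fm.Lt : ℕ → Fm S → Prop
  | n, .eq s t => s.Lt n ∧ t.Lt n
  | n, .rel _ a => ∀ i, (a i).Lt n
  | _, .fls => True
  | n, .imp p q => p.Lt n ∧ q.Lt n
  | n, .all p => p.Lt (n + 1)

/-- Simultaneous substitution in a term. -/
def Tm.subst (s : ℕ → Tm S) : Tm S → Tm S
  | .var n => s n
  | .app f a => .app f (fun i => (a i).subst s)

/-- Raise all variables by one. -/
def Tm.shift (t : Tm S) : Tm S := t.subst (fun n => .var (n + 1))

/-- The substitution used under a quantifier. -/
def up (s : ℕ → Tm S) : ℕ → Tm S
  | 0 => .var 0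
  | n + 1 => (s n).shift

/-- Simultaneous substitution in a formula. -/
def Fm.subst : (ℕ → Tm S) → Fm S → Fm S
  | s, .eq t u => .eq (t.subst s) (u.subst s)
  | s, .rel r a => .rel r (fun i => (a i).subst s)
  | _, .fls => .fls
  | s, .imp p q => .imp (p.subst s) (q.subst s)
  | s, .all p => .all (p.subst (up s))

end Pool.Agent.Lib.MP_81222b_lc
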