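import Mathlib
import Pool.Agent.Lib.MP_81222b_lc.Syntax

/-!
# Families of predicates on arithmetic structures

Instead of syntax we use inductive predicates on families of predicates defined uniformly on all
arithmetic structures: `IsT` (terms), `IsB` (bounded formulas), `DT b` (first-order formulas, with
the additional predicate `T` if `b = true`).
-/

namespace Pool.Agent.Lib.MP_81222b_lc

/-- Arithmetic structures. -/
class Ar (M : Type) extends Zero M, Add M, Mul M, LE M where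
  sc : M → M
  hf : M → M
  ln : M → M
  sm : M → M → M

export Ar (sc hf ln sm)

instance : Ar ℕ where
  sc := Nat.succ
  hf n := n / 2
  ln := Nat.size
  sm x y := 2 ^ (Nat.size x * Nat.size y)

/-- Drop the first entry. -/
def tl {M : Type} (v : ℕ → M) : ℕ → M := fun n => v (n + 1)

@[simp] theorem tl_cns {M : Type} (a : M) (v : ℕ → M) : tl (cns a v) = v := rfl
@[simp] theorem cns_zero {M : Type} (a : M) (v : ℕ → M) : cns a v 0 = a := rfl
@[simp] theorem cns_succ {M : Type} (a : M) (v : ℕ → M) (n : ℕ) : cns a v (n + 1) = v n := rfl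
theorem cns_tl {M : Type} (v : ℕ → M) : cns (v 0) (tl v) = v := by
  funext n; cases n <;> rfl

/-- Terms. -/
inductive IsT : (∀ (M : Type) [Ar M], (ℕ → M) → M) → Prop
  | var (n : ℕ) : IsT (fun _ _ v => v n)
  | zr : IsT (fun _ _ _ => 0)
  | sc {t} : IsT t → IsT (fun M _ v => sc (t M v))
  | hf {t} : IsT t → IsT (fun M _ v => hf (t M v))
  | ln {t} : IsT t → IsT (fun M _ v => ln (t M v))
  | ad {s t} : IsT s → IsT t → IsT (fun M _ v => s M v + t M v)
  | ml {s t} : IsT s → IsT t → IsT (fun M _ v => s M v * t M v)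
  | sm {s t} : IsT s → IsT t → IsT (fun M _ v => sm (s M v) (t M v))

/-- Bounded formulas. -/
inductive IsB : (∀ (M : Type) [Ar M], (ℕ → M) → Prop) → Prop
  | eq {s t} : IsT s → IsT t → IsB (fun M _ v => s M v = t M v)
  | le {s t} : IsT s → IsT t → IsB (fun M _ v => s M v ≤ t M v)
  | fls : IsB (fun _ _ _ => False)
  | imp {P Q} : IsB P → IsB Q → IsB (fun M _ v => P M v → Q M v)
  | ball {t P} : IsT t → IsB P → IsB (fun M _ v => ∀ a, a ≤ t M v → P M (cns a v))

/-- First-order formulas, with the extra predicate if `b = true`. -/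
inductive IsD (b : Bool) : (∀ (M : Type) [Ar M], (M → Prop) → (ℕ → M) → Prop) → Prop
  | eq {s t} : IsT s → IsT t → IsD b (fun M _ _ v => s M v = t M v)
  | le {s t} : IsT s → IsT t → IsD b (fun M _ _ v => s M v ≤ t M v)
  | tt {t} : b = true → IsT t → IsD b (fun M _ T v => T (t M v))
  | fls : IsD b (fun _ _ _ _ => False)
  | imp {P Q} : IsD b P → IsD b Q → IsD b (fun M _ T v => P M T v → Q M T v)
  | all {P} : IsD b P → IsD b (fun M _ T v => ∀ a, P M T (cns a v))

/-- Class version of `IsT`. -/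
class TT (t : ∀ (M : Type) [Ar M], (ℕ → M) → M) : Prop where
  out : IsT t
/-- Class version of `IsB`. -/
class BB (P : ∀ (M : Type) [Ar M], (ℕ → M) → Prop) : Prop where
  out : IsB P
/-- Class version of `IsD`. -/
class DD (b : Bool) (P : ∀ (M : Type) [Ar M], (M → Prop) → (ℕ → M) → Prop) : Prop where
  out : IsD b P

theorem IsB.congr {P Q : ∀ (M : Type) [Ar M], (ℕ → M) → Prop} (h : IsB P)
    (e : ∀ (M : Type) [Ar M] v, P M v ↔ Q M v) : IsB Q := by
  have : P = Q := by
    funext M i v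
    exact propext (e M v)
  exact this ▸ h

theorem IsD.congr {b} {P Q : ∀ (M : Type) [Ar M], (M → Prop) → (ℕ → M) → Prop} (h : IsD b P)
    (e : ∀ (M : Type) [Ar M] T v, P M T v ↔ Q M T v) : IsD b Q := by
  have : P = Q := by
    funext M i T v
    exact propext (e M T v)
  exact this ▸ h

theorem IsT.congr {P Q : ∀ (M : Type) [Ar M], (ℕ → M) → M} (h : IsT P)
    (e : ∀ (M : Type) [Ar M] v, P M v = Q M v) : IsT Q := by
  have : P = Q := by
    funext M i v
    exact e M v
  exact this ▸ h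

/-- Renaming of variables. -/
theorem IsT.ren {t : ∀ (M : Type) [Ar M], (ℕ → M) → M} (h : IsT t) (f : ℕ → ℕ) :
    IsT (fun M _ v => t M (fun n => v (f n))) := by
  induction h with
  | var n => exact .var (f n)
  | zr => exact .zr
  | sc _ ih => exact .sc ih
  | hf _ ih => exact .hf ih
  | ln _ ih => exact .ln ih
  | ad _ _ i1 i2 => exact .ad i1 i2
  | ml _ _ i1 i2 => exact .ml i1 i2
  | sm _ _ i1 i2 => exact .sm i1 i2

/-- Substitution of terms. -/
theorem IsT.sub {t : ∀ (M : Type) [Ar M], (ℕ → M) → M} (h : IsT t)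
    (s : ℕ → ∀ (M : Type) [Ar M], (ℕ → M) → M) (hs : ∀ n, IsT (s n)) :
    IsT (fun M _ v => t M (fun n => s n M v)) := by
  induction h with
  | var n => exact hs n
  | zr => exact .zr
  | sc _ ih => exact .sc ih
  | hf _ ih => exact .hf ih
  | ln _ ih => exact .ln ih
  | ad _ _ i1 i2 => exact .ad i1 i2
  | ml _ _ i1 i2 => exact .ml i1 i2
  | sm _ _ i1 i2 => exact .sm i1 i2

/-- lifting of a substitution -/
def upS (s : ℕ → ∀ (M : Type) [Ar M], (ℕ → M) → M) : ℕ → ∀ (M : Type) [Ar M], (ℕ → M) → M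
  | 0 => fun _ _ v => v 0
  | n + 1 => fun M _ v => s n M (tl v)

theorem upS_isT {s : ℕ → ∀ (M : Type) [Ar M], (ℕ → M) → M} (hs : ∀ n, IsT (s n)) :
    ∀ n, IsT (upS s n)
  | 0 => .var 0
  | n + 1 => (hs n).ren (fun k => k + 1)

theorem upS_eval (s : ℕ → ∀ (M : Type) [Ar M], (ℕ → M) → M) (M : Type) [Ar M] (a : M)
    (v : ℕ → M) : (fun n => upS s n M (cns a v)) = cns a (fun n => s n M v) := by
  funext n; cases n <;> rfl

theorem IsB.sub {P : ∀ (M : Type) [Ar M], (ℕ → M) → Prop} (h : IsB P) :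
    ∀ (s : ℕ → ∀ (M : Type) [Ar M], (ℕ → M) → M), (∀ n, IsT (s n)) →
    IsB (fun M _ v => P M (fun n => s n M v)) := by
  induction h with
  | eq h1 h2 => exact fun s hs => .eq (h1.sub s hs) (h2.sub s hs)
  | le h1 h2 => exact fun s hs => .le (h1.sub s hs) (h2.sub s hs)
  | fls => exact fun _ _ => .fls
  | imp _ _ i1 i2 => exact fun s hs => .imp (i1 s hs) (i2 s hs)
  | @ball t P h1 _ i2 =>
    intro s hs
    refine (IsB.ball (h1.sub s hs) (i2 (upS s) (upS_isT hs))).congr fun M _ v => ?_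
    simp only [upS_eval]

theorem IsD.sub {b} {P : ∀ (M : Type) [Ar M], (M → Prop) → (ℕ → M) → Prop} (h : IsD b P) :
    ∀ (s : ℕ → ∀ (M : Type) [Ar M], (ℕ → M) → M), (∀ n, IsT (s n)) →
    IsD b (fun M _ T v => P M T (fun n => s n M v)) := by
  induction h with
  | eq h1 h2 => exact fun s hs => .eq (h1.sub s hs) (h2.sub s hs)
  | le h1 h2 => exact fun s hs => .le (h1.sub s hs) (h2.sub s hs)
  | tt hb h1 => exact fun s hs => .tt hb (h1.sub s hs)
  | fls => exact fun _ _ => .fls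
  | imp _ _ i1 i2 => exact fun s hs => .imp (i1 s hs) (i2 s hs)
  | @all P _ i2 =>
    intro s hs
    refine (IsD.all (i2 (upS s) (upS_isT hs))).congr fun M _ T v => ?_
    simp only [upS_eval]

/-! ### Class instances -/

section inst

variable {s t : ∀ (M : Type) [Ar M], (ℕ → M) → M}

instance (n : ℕ) : TT (fun _ _ v => v n) := ⟨.var n⟩
instance : TT (fun _ _ _ => 0) := ⟨.zr⟩
instance [TT t] : TT (fun M _ v => sc (t M v)) := ⟨.sc TT.out⟩
instance [TT t] : TT (fun M _ v => hf (t M v)) := ⟨.hf TT.out⟩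
instance [TT t] : TT (fun M _ v => ln (t M v)) := ⟨.ln TT.out⟩
instance [TT s] [TT t] : TT (fun M _ v => s M v + t M v) := ⟨.ad TT.out TT.out⟩
instance [TT s] [TT t] : TT (fun M _ v => s M v * t M v) := ⟨.ml TT.out TT.out⟩
instance [TT s] [TT t] : TT (fun M _ v => sm (s M v) (t M v)) := ⟨.sm TT.out TT.out⟩
instance (priority := low) [h : TT t] (f : ℕ → ℕ) : TT (fun M _ v => t M (fun n => v (f n))) :=
  ⟨h.out.ren f⟩

variable {P Q : ∀ (M : Type) [Ar M], (ℕ → M) → Prop}

instance [TT s] [TT t] : BB (fun M _ v => s M v = t M v) := ⟨.eq TT.out TT.out⟩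
instance [TT s] [TT t] : BB (fun M _ v => s M v ≤ t M v) := ⟨.le TT.out TT.out⟩
instance : BB (fun _ _ _ => False) := ⟨.fls⟩
instance [BB P] [BB Q] : BB (fun M _ v => P M v → Q M v) := ⟨.imp BB.out BB.out⟩
instance [BB P] : BB (fun M _ v => ¬ P M v) := ⟨.imp BB.out .fls⟩
instance [BB P] [BB Q] : BB (fun M _ v => P M v ∧ Q M v) :=
  ⟨(IsB.imp (IsB.imp BB.out (IsB.imp BB.out .fls)) .fls :
    IsB (fun M _ v => (P M v → (Q M v → False)) → False)).congr fun M _ v => by tauto⟩
instance [BB P] [BB Q] : BB (fun M _ v => P M v ∨ Q M v) :=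
  ⟨(IsB.imp (IsB.imp BB.out .fls) BB.out :
    IsB (fun M _ v => (P M v → False) → Q M v)).congr fun M _ v => by tauto⟩
instance [BB P] [BB Q] : BB (fun M _ v => P M v ↔ Q M v) :=
  ⟨(BB.out : IsB (fun M _ v => (P M v → Q M v) ∧ (Q M v → P M v))).congr
    fun M _ v => by tauto⟩
instance ballI {R : ∀ (M : Type) [Ar M], (ℕ → M) → M → Prop} [TT t]
    [h : BB (fun M _ v => R M (fun n => v (n + 1)) (v 0))] : BB (fun M _ v => ∀ a, a ≤ t M v → R M v a) :=
  ⟨.ball TT.out h.out⟩
instance bexI {R : ∀ (M : Type) [Ar M], (ℕ → M) → M → Prop} [TT t]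
    [h : BB (fun M _ v => R M (fun n => v (n + 1)) (v 0))] : BB (fun M _ v => ∃ a, a ≤ t M v ∧ R M v a) :=
  ⟨(IsB.imp (IsB.ball TT.out (IsB.imp h.out .fls)) .fls).congr fun M _ v => by
    simp only [cns_zero, cns_succ]
    constructor
    · intro hh
      by_contra hc
      exact hh fun a ha hR => hc ⟨a, ha, hR⟩
    · rintro ⟨a, ha, hR⟩ hh
      exact hh a ha hR⟩
instance (priority := low) [h : BB P] (f : ℕ → ℕ) : BB (fun M _ v => P M (fun n => v (f n))) :=
  ⟨h.out.sub (fun n _ _ v => v (f n)) fun n => .var (f n)⟩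

end inst

section instD

variable {b : Bool} {s t : ∀ (M : Type) [Ar M], (ℕ → M) → M}
variable {P Q : ∀ (M : Type) [Ar M], (M → Prop) → (ℕ → M) → Prop}

instance [TT s] [TT t] : DD b (fun M _ _ v => s M v = t M v) := ⟨.eq TT.out TT.out⟩
instance [TT s] [TT t] : DD b (fun M _ _ v => s M v ≤ t M v) := ⟨.le TT.out TT.out⟩
instance [TT t] : DD true (fun M _ T v => T (t M v)) := ⟨.tt rfl TT.out⟩
instance : DD b (fun _ _ _ _ => False) := ⟨.fls⟩
instance [DD b P] [DD b Q] : DD b (fun M _ T v => P M T v → Q M T v) := ⟨.imp DD.out DD.out⟩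
instance [DD b P] : DD b (fun M _ T v => ¬ P M T v) := ⟨.imp DD.out .fls⟩
instance [DD b P] [DD b Q] : DD b (fun M _ T v => P M T v ∧ Q M T v) :=
  ⟨(IsD.imp (IsD.imp DD.out (IsD.imp DD.out .fls)) .fls :
    IsD b (fun M _ T v => (P M T v → (Q M T v → False)) → False)).congr
      fun M _ T v => by tauto⟩
instance [DD b P] [DD b Q] : DD b (fun M _ T v => P M T v ∨ Q M T v) :=
  ⟨(IsD.imp (IsD.imp DD.out .fls) DD.out :
    IsD b (fun M _ T v => (P M T v → False) → Q M T v)).congr fun M _ T v => by tauto⟩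
instance [DD b P] [DD b Q] : DD b (fun M _ T v => P M T v ↔ Q M T v) :=
  ⟨(DD.out : IsD b (fun M _ T v => (P M T v → Q M T v) ∧ (Q M T v → P M T v))).congr
    fun M _ T v => by tauto⟩
instance allI {R : ∀ (M : Type) [Ar M], (M → Prop) → (ℕ → M) → M → Prop}
    [h : DD b (fun M _ T v => R M T (fun n => v (n + 1)) (v 0))] : DD b (fun M _ T v => ∀ a, R M T v a) :=
  ⟨.all h.out⟩
instance exI {R : ∀ (M : Type) [Ar M], (M → Prop) → (ℕ → M) → M → Prop}
    [h : DD b (fun M _ T v => R M T (fun n => v (n + 1)) (v 0))] : DD b (fun M _ T v => ∃ a, R M T v a) :=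
  ⟨(IsD.imp (IsD.all (IsD.imp h.out .fls)) .fls).congr fun M _ T v => by
    simp only [cns_zero, cns_succ]
    constructor
    · intro hh
      by_contra hc
      exact hh fun a hR => hc ⟨a, hR⟩
    · rintro ⟨a, hR⟩ hh
      exact hh a hR⟩
instance (priority := low) [h : DD b P] (f : ℕ → ℕ) :
    DD b (fun M _ T v => P M T (fun n => v (f n))) :=
  ⟨h.out.sub (fun n _ _ v => v (f n)) fun n => .var (f n)⟩

end instD

theorem IsB.isD {P : ∀ (M : Type) [Ar M], (ℕ → M) → Prop} (h : IsB P) (b : Bool) :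
    IsD b (fun M _ _ v => P M v) := by
  induction h with
  | eq h1 h2 => exact .eq h1 h2
  | le h1 h2 => exact .le h1 h2
  | fls => exact .fls
  | imp _ _ i1 i2 => exact .imp i1 i2
  | @ball t P h1 _ i2 =>
    have h3 : IsD b (fun M _ _ v => v 0 ≤ t M (tl v)) := .le (.var 0) (h1.ren (fun k => k + 1))
    exact (IsD.all (IsD.imp h3 i2))

end Pool.Agent.Lib.MP_81222b_lc
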