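import Mathlib
import Pool.Agent.Lib.MP_81222b_lc.Fam

/-!
# Basic arithmetic notions on `Ar` structures and their values in `ℕ`
-/

namespace Pool.Agent.Lib.MP_81222b_lc

section defs

variable {M : Type} [Ar M]

/-- strict order -/
def lt' (x y : M) : Prop := sc x ≤ y

/-- `y = 2 ^ x` -/
def Exp (x y : M) : Prop := ln y = sc x ∧ ∀ z, z ≤ y → ln z = sc x → y ≤ z

/-- `b = 2 ^ 2 ^ 2 ^ y` -/
def E3 (y b : M) : Prop := ∃ u, u ≤ b ∧ ∃ w, w ≤ b ∧ Exp y u ∧ Exp u w ∧ Exp w b

/-- pairing -/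
def pr (a b : M) : M := (a + b) * (a + b) + a

/-- the `i`-th binary digit of `X` is `1` -/
def bit (i X : M) : Prop :=
  ∃ P, P ≤ X ∧ Exp i P ∧ ∃ q, q ≤ X ∧ ∃ r, r ≤ X ∧ X = sc (q + q) * P + r ∧ lt' r P

/-- `d` is the digit of `t` in base `B` at the position with weight `P` -/
def dig (t P B d : M) : Prop :=
  ∃ q, q ≤ t ∧ ∃ r, r ≤ t ∧ t = (q * B + d) * P + r ∧ lt' r P ∧ lt' d B

/-- The graphs of the operations and the order. -/
def gr (r : Fin 8) (x y z : M) : Prop :=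
  match r with
  | 0 => z = 0
  | 1 => z = sc x
  | 2 => z = hf x
  | 3 => z = x + y
  | 4 => z = x * y
  | 5 => z = ln x
  | 6 => z = sm x y
  | 7 => x ≤ y

end defs

section inst

variable {s t u w : ∀ (M : Type) [Ar M], (ℕ → M) → M}

instance [TT s] [TT t] : BB (fun M _ v => lt' (s M v) (t M v)) := by
  unfold lt'; infer_instance
instance [TT s] [TT t] : BB (fun M _ v => Exp (s M v) (t M v)) := by
  unfold Exp; infer_instance
instance [TT s] [TT t] : BB (fun M _ v => E3 (s M v) (t M v)) := by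
  unfold E3; infer_instance
instance [TT s] [TT t] : TT (fun M _ v => pr (s M v) (t M v)) := by
  unfold pr; infer_instance
instance [TT s] [TT t] : BB (fun M _ v => bit (s M v) (t M v)) := by
  unfold bit; infer_instance
instance [TT s] [TT t] [TT u] [TT w] :
    BB (fun M _ v => dig (s M v) (t M v) (u M v) (w M v)) := by
  unfold dig; infer_instance
instance [TT s] [TT t] [TT u] (r : Fin 8) :
    BB (fun M _ v => gr r (s M v) (t M v) (u M v)) := by
  fin_cases r <;> (simp only [gr]; infer_instance)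

end inst

/-! ### Values in `ℕ` -/

theorem sc_nat (n : ℕ) : sc n = n + 1 := rfl
theorem hf_nat (n : ℕ) : hf n = n / 2 := rfl
theorem ln_nat (n : ℕ) : ln n = Nat.size n := rfl
theorem sm_nat (n k : ℕ) : sm n k = 2 ^ (Nat.size n * Nat.size k) := rfl
theorem lt'_nat (n k : ℕ) : lt' n k ↔ n < k := Iff.rfl
theorem pr_nat (a b : ℕ) : pr a b = (a + b) * (a + b) + a := rfl

theorem exp_nat (x y : ℕ) : Exp x y ↔ y = 2 ^ x := by
  unfold Exp
  simp only [ln_nat, sc_nat]
  constructor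
  · rintro ⟨h1, h2⟩
    have h3 : 2 ^ x ≤ y := by
      by_contra hc
      push Not at hc
      have := Nat.size_le.2 hc
      omega
    have := h2 (2 ^ x) h3 (Nat.size_pow)
    omega
  · rintro rfl
    refine ⟨Nat.size_pow, fun z _ hz => ?_⟩
    by_contra hc
    push Not at hc
    have := Nat.size_le.2 hc
    omega

theorem e3_nat (y b : ℕ) : E3 y b ↔ b = 2 ^ 2 ^ 2 ^ y := by
  unfold E3
  simp only [exp_nat]
  constructor
  · rintro ⟨u, _, w, _, rfl, rfl, rfl⟩
    rfl
  · rintro rfl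
    have h1 : ∀ n : ℕ, n ≤ 2 ^ n := fun n => Nat.lt_two_pow_self.le
    exact ⟨2 ^ y, (h1 _).trans (h1 _), 2 ^ 2 ^ y, h1 _, rfl, rfl, rfl⟩

theorem bit_nat (i X : ℕ) : bit i X ↔ X.testBit i = true := by
  unfold bit
  simp only [exp_nat, sc_nat, lt'_nat]
  constructor
  · rintro ⟨P, _, rfl, q, _, r, _, h, hr⟩
    rw [Nat.testBit_eq_decide_div_mod_eq, decide_eq_true_eq, h]
    rw [Nat.add_comm, Nat.mul_comm, Nat.add_mul_div_left _ _ (by positivity),
      Nat.div_eq_of_lt hr]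
    omega
  · intro h
    rw [Nat.testBit_eq_decide_div_mod_eq, decide_eq_true_eq] at h
    have h1 : 0 < X / 2 ^ i := by
      rcases Nat.eq_zero_or_pos (X / 2 ^ i) with h0 | h0
      · rw [h0] at h; simp at h
      · exact h0
    have h2 : 2 ^ i ≤ X := by
      by_contra hc
      push Not at hc
      rw [Nat.div_eq_of_lt hc] at h1
      omega
    refine ⟨2 ^ i, h2, rfl, X / 2 ^ i / 2, ?_, X % 2 ^ i, Nat.mod_le _ _, ?_,
      Nat.mod_lt _ (by positivity)⟩
    · exact (Nat.div_le_self _ _).trans (Nat.div_le_self _ _)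
    · have h3 : X / 2 ^ i / 2 + X / 2 ^ i / 2 + 1 = X / 2 ^ i := by omega
      rw [h3]
      exact (Nat.div_add_mod' X (2 ^ i)).symm

theorem dig_nat (t P B d : ℕ) (hP : 0 < P) (hB : 0 < B) : dig t P B d ↔ t / P % B = d := by
  unfold dig
  simp only [lt'_nat]
  constructor
  · rintro ⟨q, _, r, _, h, hr, hd⟩
    rw [h, Nat.add_comm, Nat.mul_comm, Nat.add_mul_div_left _ _ hP, Nat.div_eq_of_lt hr,
      Nat.zero_add, Nat.add_comm, Nat.mul_comm, Nat.add_mul_mod_self_left, Nat.mod_eq_of_lt hd]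
  · rintro rfl
    refine ⟨t / P / B, ?_, t % P, Nat.mod_le _ _, ?_, Nat.mod_lt _ hP, Nat.mod_lt _ hB⟩
    · exact (Nat.div_le_self _ _).trans (Nat.div_le_self _ _)
    · rw [Nat.div_add_mod', Nat.div_add_mod']

end Pool.Agent.Lib.MP_81222b_lc
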