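import Mathlib
import Pool.Agent.Lib.MP_81222b_lc.Base

/-!
# Bounded facts true in `ℕ`, part A: order, semiring, length, smash
-/

namespace Pool.Agent.Lib.MP_81222b_lc

/-- A bounded fact: a family of bounded predicates true in `ℕ`. -/
structure Fact where
  P : ∀ (M : Type) [Ar M], (ℕ → M) → Prop
  b : IsB P
  t : ∀ v : ℕ → ℕ, P ℕ v

/-- Constructor with class inference. -/
def mkF (P : ∀ (M : Type) [Ar M], (ℕ → M) → Prop) (h : BB P) (t : ∀ v : ℕ → ℕ, P ℕ v) : Fact :=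
  ⟨P, h.out, t⟩

theorem size_two_mul (n : ℕ) (h : n ≠ 0) : Nat.size (2 * n) = Nat.size n + 1 := by
  have := @Nat.size_bit false n (by simp [Nat.bit]; exact h)
  simpa [Nat.bit] using this

theorem size_two_mul_add_one (n : ℕ) : Nat.size (2 * n + 1) = Nat.size n + 1 := by
  have := @Nat.size_bit true n (by simp [Nat.bit])
  simpa [Nat.bit] using this

theorem size_half (n : ℕ) (h : n ≠ 0) : Nat.size n = Nat.size (n / 2) + 1 := by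
  rcases Nat.even_or_odd' n with ⟨k, rfl | rfl⟩
  · rw [size_two_mul k (by omega), Nat.mul_div_cancel_left _ (by norm_num)]
  · rw [size_two_mul_add_one, Nat.mul_add_div (by norm_num)]
    simp

/-- order -/
def fOrd : Fact := mkF (fun _ _ v =>
    (v 1 ≤ v 0 ∨ v 0 ≤ v 1) ∧ (v 0 ≤ v 1 → v 1 ≤ v 0 → v 0 = v 1) ∧
    (v 0 ≤ v 1 → v 1 ≤ v 2 → v 0 ≤ v 2) ∧ 0 ≤ v 0 ∧ (sc (v 0) ≤ v 1 ↔ v 0 ≤ v 1 ∧ ¬ v 0 = v 1) ∧
    (v 0 ≤ sc (v 1) ↔ v 0 ≤ v 1 ∨ v 0 = sc (v 1)))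
  inferInstance (by
    intro v
    simp only [sc_nat]
    omega)

/-- addition -/
def fAdd : Fact := mkF (fun _ _ v =>
    v 0 + v 1 = v 1 + v 0 ∧ v 0 + 0 = v 0 ∧ v 0 + sc (v 1) = sc (v 0 + v 1) ∧
    v 0 + v 1 + v 2 = v 0 + (v 1 + v 2) ∧ (v 0 + v 1 ≤ v 0 + v 2 ↔ v 1 ≤ v 2) ∧
    (v 0 ≤ v 1 → ∃ d, d ≤ v 1 ∧ v 1 = v 0 + d))
  inferInstance (by
    intro v
    simp only [sc_nat]
    refine ⟨by omega, by omega, by omega, by omega, by omega, fun h => ⟨v 1 - v 0, by omega, by omega⟩⟩)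

/-- multiplication -/
def fMul : Fact := mkF (fun _ _ v =>
    v 0 * 0 = 0 ∧ v 0 * sc (v 1) = v 0 * v 1 + v 0 ∧ v 0 * v 1 = v 1 * v 0 ∧
    v 0 * (v 1 + v 2) = v 0 * v 1 + v 0 * v 2 ∧ v 0 * v 1 * v 2 = v 0 * (v 1 * v 2) ∧
    (sc 0 ≤ v 0 → (v 0 * v 1 ≤ v 0 * v 2 ↔ v 1 ≤ v 2)) ∧ (v 0 ≤ v 1 → v 0 * v 2 ≤ v 1 * v 2))
  inferInstance (by
    intro v
    simp only [sc_nat]
    refine ⟨by simp, by ring, by ring, by ring, by ring, fun h => ?_, fun h => ?_⟩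
    · exact Nat.mul_le_mul_left_iff (by omega)
    · exact Nat.mul_le_mul_right _ h)

/-- half and length -/
def fLen : Fact := mkF (fun M _ v =>
    (v 0 = hf (v 1) ↔ sc (sc 0) * v 0 = v 1 ∨ sc (sc (sc 0) * v 0) = v 1) ∧
    ln (0 : M) = 0 ∧ (¬ v 0 = 0 → ln (v 0) = sc (ln (hf (v 0)))) ∧
    (v 0 ≤ v 1 → ln (v 0) ≤ ln (v 1)) ∧ (v 0 ≤ v 1 → hf (v 0) ≤ hf (v 1)) ∧
    (¬ v 0 = 0 → sc (hf (v 0)) ≤ v 0) ∧ hf (v 0) ≤ v 0 ∧ ln (v 0) ≤ v 0 ∧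
    hf (0 : M) = 0 ∧ hf (sc (0 : M)) = 0 ∧ hf (sc (sc (v 0))) = sc (hf (v 0)))
  inferInstance (by
    intro v
    simp only [sc_nat, hf_nat, ln_nat]
    refine ⟨by omega, Nat.size_zero, fun h => size_half _ h, fun h => Nat.size_le_size h,
      fun h => Nat.div_le_div_right h, by omega, by omega, ?_, by omega, by omega, by omega⟩
    exact Nat.size_le.2 Nat.lt_two_pow_self)

/-- smash -/
def fSm : Fact := mkF (fun _ _ v =>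
    Exp (ln (v 0) * ln (v 1)) (sm (v 0) (v 1)) ∧
    (v 0 ≤ v 2 → v 1 ≤ v 3 → sm (v 0) (v 1) ≤ sm (v 2) (v 3)))
  inferInstance (by
    intro v
    simp only [exp_nat, ln_nat, sm_nat]
    exact ⟨trivial, fun h1 h2 => Nat.pow_le_pow_right (by norm_num)
      (Nat.mul_le_mul (Nat.size_le_size h1) (Nat.size_le_size h2))⟩)

/-- Buss's basic axioms 1-10 -/
def fBas1 : Fact := mkF (fun M _ v =>
    (v 1 ≤ v 0 → v 1 ≤ sc (v 0)) ∧ (¬ v 0 = sc (v 0)) ∧ (0 ≤ v 0) ∧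
    (v 0 ≤ v 1 ∧ ¬ v 0 = v 1 ↔ sc (v 0) ≤ v 1) ∧
    (¬ v 0 = 0 → ¬ sc (sc 0) * v 0 = 0) ∧ (v 1 ≤ v 0 ∨ v 0 ≤ v 1) ∧
    (v 0 ≤ v 1 ∧ v 1 ≤ v 0 → v 0 = v 1) ∧ (v 0 ≤ v 1 ∧ v 1 ≤ v 2 → v 0 ≤ v 2) ∧
    (ln (0 : M) = 0) ∧
    (¬ v 0 = 0 → ln (sc (sc 0) * v 0) = sc (ln (v 0)) ∧
      ln (sc (sc (sc 0) * v 0)) = sc (ln (v 0))))
  inferInstance (by
    intro v
    simp only [sc_nat, ln_nat]
    refine ⟨by omega, by omega, by omega, by omega, by omega, by omega, by omega, by omega,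
      Nat.size_zero, fun h => ⟨?_, ?_⟩⟩
    · exact size_two_mul _ h
    · exact size_two_mul_add_one _)

/-- Buss's basic axioms 11-18 -/
def fBas2 : Fact := mkF (fun M _ v =>
    (ln (sc (0 : M)) = sc 0) ∧ (v 0 ≤ v 1 → ln (v 0) ≤ ln (v 1)) ∧
    (ln (sm (v 0) (v 1)) = sc (ln (v 0) * ln (v 1))) ∧ (sm 0 (v 0) = sc 0) ∧
    (¬ v 0 = 0 → sm (sc 0) (sc (sc 0) * v 0) = sc (sc 0) * sm (sc 0) (v 0) ∧
      sm (sc 0) (sc (sc (sc 0) * v 0)) = sc (sc 0) * sm (sc 0) (v 0)) ∧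
    (sm (v 0) (v 1) = sm (v 1) (v 0)) ∧ (ln (v 0) = ln (v 1) → sm (v 0) (v 2) = sm (v 1) (v 2)) ∧
    (ln (v 0) = ln (v 1) + ln (v 2) → sm (v 0) (v 3) = sm (v 1) (v 3) * sm (v 2) (v 3)))
  inferInstance (by
    intro v
    simp only [sc_nat, ln_nat, sm_nat]
    refine ⟨Nat.size_one, fun h => Nat.size_le_size h,
      Nat.size_pow, by simp, fun h => ⟨?_, ?_⟩, by rw [Nat.mul_comm],
      fun h => by rw [h], fun h => by rw [h, Nat.add_mul, pow_add]⟩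
    · simp only [Nat.zero_add, Nat.size_one, Nat.one_mul]
      rw [show (1 + 1) * v 0 = 2 * v 0 by ring, size_two_mul _ h, pow_succ]
      ring
    · simp only [Nat.zero_add, Nat.size_one, Nat.one_mul]
      rw [show (1 + 1) * v 0 + 1 = 2 * v 0 + 1 by ring, size_two_mul_add_one, pow_succ]
      ring)

/-- Buss's basic axioms 19-25 -/
def fBas3 : Fact := mkF (fun _ _ v =>
    (v 0 ≤ v 0 + v 1) ∧
    (v 0 ≤ v 1 ∧ ¬ v 0 = v 1 → sc (sc (sc 0) * v 0) ≤ sc (sc 0) * v 1 ∧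
      ¬ sc (sc (sc 0) * v 0) = sc (sc 0) * v 1) ∧
    (v 0 + v 1 = v 1 + v 0) ∧ (v 0 + 0 = v 0) ∧ (v 0 + sc (v 1) = sc (v 0 + v 1)) ∧
    (v 0 + v 1 + v 2 = v 0 + (v 1 + v 2)) ∧ (v 0 + v 1 ≤ v 0 + v 2 ↔ v 1 ≤ v 2))
  inferInstance (by
    intro v
    simp only [sc_nat]
    refine ⟨by omega, by omega, by omega,
      by omega, by omega, by omega, by omega⟩)

/-- Buss's basic axioms 26-32 -/
def fBas4 : Fact := mkF (fun _ _ v =>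
    (v 0 * 0 = 0) ∧ (v 0 * sc (v 1) = v 0 * v 1 + v 0) ∧ (v 0 * v 1 = v 1 * v 0) ∧
    (v 0 * (v 1 + v 2) = v 0 * v 1 + v 0 * v 2) ∧
    (sc 0 ≤ v 0 → (v 0 * v 1 ≤ v 0 * v 2 ↔ v 1 ≤ v 2)) ∧
    (¬ v 0 = 0 → ln (v 0) = sc (ln (hf (v 0)))) ∧
    (v 0 = hf (v 1) ↔ sc (sc 0) * v 0 = v 1 ∨ sc (sc (sc 0) * v 0) = v 1))
  inferInstance (by
    intro v
    simp only [sc_nat, hf_nat, ln_nat]
    refine ⟨by simp, by ring, by ring, by ring,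
      fun h => Nat.mul_le_mul_left_iff (by omega), fun h => size_half _ h, by omega⟩)

end Pool.Agent.Lib.MP_81222b_lc
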