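import Mathlib
import Pool.Agent.Lib.MP_81222b_lc.FactsA

/-!
# Bounded facts true in `ℕ`, part C: comprehension
-/

namespace Pool.Agent.Lib.MP_81222b_lc

theorem exists_bits (Q : ℕ → Prop) (C : ℕ) :
    ∃ X, X < 2 ^ C ∧ ∀ t, t < C → (X.testBit t = true ↔ Q t) := by
  induction C with
  | zero => exact ⟨0, by simp, fun t h => absurd h (by omega)⟩
  | succ C ih =>
    obtain ⟨X, h1, h2⟩ := ih
    by_cases hQ : Q C
    · refine ⟨2 ^ C + X, by rw [pow_succ]; omega, fun t ht => ?_⟩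
      rcases Nat.lt_succ_iff_lt_or_eq.1 ht with h3 | rfl
      · rw [Nat.testBit_two_pow_add_gt h3, h2 t h3]
      · rw [Nat.testBit_two_pow_add_eq, Nat.testBit_lt_two_pow h1]
        simp [hQ]
    · refine ⟨X, by rw [pow_succ]; omega, fun t ht => ?_⟩
      rcases Nat.lt_succ_iff_lt_or_eq.1 ht with h3 | rfl
      · exact h2 t h3
      · rw [Nat.testBit_lt_two_pow h1]
        simp [hQ]

/-- Comprehension in `ℕ`, in the form used by the facts. -/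
theorem comp_nat (Q : ℕ → Prop) (C D : ℕ) (h : Exp C D) :
    ∃ X, X ≤ D ∧ ∀ t, t ≤ C → lt' t C → (bit t X ↔ Q t) := by
  rw [exp_nat] at h
  obtain ⟨X, h1, h2⟩ := exists_bits Q C
  refine ⟨X, by omega, fun t _ ht => ?_⟩
  rw [bit_nat]
  exact h2 t ht

theorem lnp_nat (Q : ℕ → Prop) (x : ℕ) (h : Q x) :
    ∃ y, y ≤ x ∧ Q y ∧ ∀ z, z ≤ y → lt' z y → ¬ Q z := by
  classical
  exact ⟨Nat.find ⟨x, h⟩, Nat.find_min' _ h, Nat.find_spec ⟨x, h⟩,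
    fun z _ hz => Nat.find_min ⟨x, h⟩ hz⟩

/-- atomic comprehension -/
def fRel (r : Fin 8) : Fact := mkF (fun _ _ v =>
    Exp (v 4) (v 5) → ∃ X, X ≤ v 5 ∧ ∀ t, t ≤ v 4 → lt' t (v 4) → (bit t X ↔
      ∃ a, a ≤ v 0 ∧ ∃ b, b ≤ v 0 ∧ ∃ c, c ≤ v 0 ∧ dig t (v 1) (v 0) a ∧ dig t (v 2) (v 0) b ∧
        dig t (v 3) (v 0) c ∧ gr r a b c))
  inferInstance (fun _ h => comp_nat _ _ _ h)

/-- comprehension for equality -/
def fEq : Fact := mkF (fun _ _ v =>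
    Exp (v 4) (v 5) → ∃ X, X ≤ v 5 ∧ ∀ t, t ≤ v 4 → lt' t (v 4) → (bit t X ↔
      ∃ a, a ≤ v 0 ∧ dig t (v 1) (v 0) a ∧ dig t (v 2) (v 0) a))
  inferInstance (fun _ h => comp_nat _ _ _ h)

/-- comprehension for implications -/
def fImp : Fact := mkF (fun _ _ v =>
    Exp (v 2) (v 3) → ∃ X, X ≤ v 3 ∧ ∀ t, t ≤ v 2 → lt' t (v 2) → (bit t X ↔
      (bit t (v 0) → bit t (v 1))))
  inferInstance (fun _ h => comp_nat _ _ _ h)

/-- comprehension for quantifiers -/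
def fAll : Fact := mkF (fun _ _ v =>
    Exp (v 2) (v 3) → ∃ X, X ≤ v 3 ∧ ∀ t, t ≤ v 2 → lt' t (v 2) → (bit t X ↔
      ∀ a, a ≤ v 1 → lt' a (v 1) → bit (a + v 1 * t) (v 0)))
  inferInstance (fun _ h => comp_nat _ _ _ h)

/-- least number principle -/
def fLnp : Fact := mkF (fun _ _ v =>
    bit (v 0 + v 1) (v 2) → ∃ x, x ≤ v 0 ∧ bit (x + v 1) (v 2) ∧
      ∀ y, y ≤ x → lt' y x → ¬ bit (y + v 1) (v 2))
  inferInstance (fun v h => lnp_nat (fun x => bit (x + v 1) (v 2)) (v 0) h)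

/-- digits -/
def fDig : Fact := mkF (fun _ _ v =>
    (¬ bit (v 0) 0) ∧ (lt' (v 0) (v 1) → (dig (v 0 + v 1 * v 2) (sc 0) (v 1) (v 3) ↔ v 3 = v 0)) ∧
    (lt' (v 0) (v 1) → ¬ v 4 = 0 →
      (dig (v 0 + v 1 * v 2) (v 4 * v 1) (v 1) (v 3) ↔ dig (v 2) (v 4) (v 1) (v 3))))
  inferInstance (by
    intro v
    simp only [bit_nat, lt'_nat, sc_nat]
    refine ⟨by simp, fun h => ?_, fun h hP => ?_⟩
    · rw [dig_nat _ _ _ _ (by omega) (by omega), Nat.zero_add, Nat.div_one,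
        Nat.add_mul_mod_self_left, Nat.mod_eq_of_lt h, eq_comm]
    · rw [dig_nat _ _ _ _ (Nat.mul_pos (by omega) (by omega)) (by omega),
        dig_nat _ _ _ _ (by omega) (by omega), Nat.mul_comm (v 4), ← Nat.div_div_eq_div_mul,
        Nat.add_mul_div_left _ _ (by omega), Nat.div_eq_of_lt h, Nat.zero_add])

end Pool.Agent.Lib.MP_81222b_lc
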