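import Mathlib
import Pool.Agent.Lib.MP_81222b_lc.FactsA
import Pool.Agent.Lib.MP_81222b_lc.FactsC

/-!
# The list of facts and the class `Nice`
-/

namespace Pool.Agent.Lib.MP_81222b_lc

/-- Facts of part A. -/
def factsA : List Fact := [fOrd, fAdd, fMul, fLen, fSm, fBas1, fBas2, fBas3, fBas4]
/-- Facts of part C. -/
def factsC : List Fact := [fEq, fImp, fAll, fLnp, fDig]
/-- Facts of part C. -/
def factsR : List Fact := [fRel 0, fRel 1, fRel 2, fRel 3, fRel 4, fRel 5, fRel 6, fRel 7]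

/-- All facts used. -/
def facts : List Fact := factsA ++ factsC ++ factsR

/-- The structure satisfies all the facts. -/
class Nice (M : Type) [Ar M] : Prop where
  out : ∀ F ∈ facts, ∀ v : ℕ → M, F.P M v

instance : Nice ℕ := ⟨fun F _ v => F.t v⟩

variable {M : Type} [Ar M] [Nice M]

/-- assignment with given first entries -/
def e4 (x y z w : M) : ℕ → M := cns x (cns y (cns z (cns w (fun _ => 0))))

namespace N

theorem ord (x y z : M) : (y ≤ x ∨ x ≤ y) ∧ (x ≤ y → y ≤ x → x = y) ∧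
    (x ≤ y → y ≤ z → x ≤ z) ∧ 0 ≤ x ∧ (sc x ≤ y ↔ x ≤ y ∧ ¬ x = y) ∧
    (x ≤ sc y ↔ x ≤ y ∨ x = sc y) := Nice.out fOrd (by simp [facts, factsA]) (e4 x y z 0)
theorem add (x y z : M) : x + y = y + x ∧ x + 0 = x ∧ x + sc y = sc (x + y) ∧
    x + y + z = x + (y + z) ∧ (x + y ≤ x + z ↔ y ≤ z) ∧ (x ≤ y → ∃ d, d ≤ y ∧ y = x + d) :=
  Nice.out fAdd (by simp [facts, factsA]) (e4 x y z 0)
theorem mul (x y z : M) : x * 0 = 0 ∧ x * sc y = x * y + x ∧ x * y = y * x ∧
    x * (y + z) = x * y + x * z ∧ x * y * z = x * (y * z) ∧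
    (sc 0 ≤ x → (x * y ≤ x * z ↔ y ≤ z)) ∧ (x ≤ y → x * z ≤ y * z) :=
  Nice.out fMul (by simp [facts, factsA]) (e4 x y z 0)
theorem len (x y : M) : (x = hf y ↔ sc (sc 0) * x = y ∨ sc (sc (sc 0) * x) = y) ∧
    ln (0 : M) = 0 ∧ (¬ x = 0 → ln x = sc (ln (hf x))) ∧
    (x ≤ y → ln x ≤ ln y) ∧ (x ≤ y → hf x ≤ hf y) ∧
    (¬ x = 0 → sc (hf x) ≤ x) ∧ hf x ≤ x ∧ ln x ≤ x ∧
    hf (0 : M) = 0 ∧ hf (sc (0 : M)) = 0 ∧ hf (sc (sc x)) = sc (hf x) :=
  Nice.out fLen (by simp [facts, factsA]) (e4 x y 0 0)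
theorem sma (x y z w : M) : Exp (ln x * ln y) (sm x y) ∧ (x ≤ z → y ≤ w → sm x y ≤ sm z w) :=
  Nice.out fSm (by simp [facts, factsA]) (e4 x y z w)

end N

noncomputable instance (priority := 10) : LinearOrder M where
  le := (· ≤ ·)
  le_refl x := (N.ord x x x).1.elim id id
  le_trans x y z := (N.ord x y z).2.2.1
  le_antisymm x y := (N.ord x y x).2.1
  le_total x y := (N.ord y x x).1
  toDecidableLE := Classical.decRel _

theorem sc_le {x y : M} : sc x ≤ y ↔ x < y := by
  rw [(N.ord x y x).2.2.2.2.1, lt_iff_le_and_ne]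
theorem lt'_iff {x y : M} : lt' x y ↔ x < y := sc_le
theorem lt_sc {x y : M} : x < sc y ↔ x ≤ y := by
  constructor
  · intro h
    rcases (N.ord x y x).2.2.2.2.2.1 h.le with h1 | h1
    · exact h1
    · exact absurd h1 h.ne
  · intro h
    have h1 : y < sc y := sc_le.1 le_rfl
    exact h.trans_lt h1

instance (priority := 10) : CommSemiring M where
  add := (· + ·)
  zero := 0
  mul := (· * ·)
  one := sc 0
  add_assoc x y z := (N.add x y z).2.2.2.1
  add_comm x y := (N.add x y x).1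
  add_zero x := (N.add x x x).2.1
  zero_add x := by rw [(N.add 0 x x).1]; exact (N.add x x x).2.1
  mul_assoc x y z := (N.mul x y z).2.2.2.2.1
  mul_comm x y := (N.mul x y x).2.2.1
  mul_one x := by
    have := (N.mul x 0 x).2.1
    rw [(N.mul x 0 x).1, (N.add 0 x x).1, (N.add x x x).2.1] at this
    exact this
  one_mul x := by
    have := (N.mul x 0 x).2.1
    rw [(N.mul x 0 x).1, (N.add 0 x x).1, (N.add x x x).2.1] at this
    exact ((N.mul (sc 0) x x).2.2.1).trans this
  left_distrib x y z := (N.mul x y z).2.2.2.1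
  right_distrib x y z := by
    change (x + y) * z = x * z + y * z
    rw [(N.mul (x + y) z z).2.2.1, (N.mul z x y).2.2.2.1, (N.mul z x x).2.2.1,
      (N.mul z y y).2.2.1]
  zero_mul x := by
    change 0 * x = 0
    rw [(N.mul 0 x x).2.2.1]; exact (N.mul x x x).1
  mul_zero x := (N.mul x x x).1
  nsmul := fun n x => Nat.rec 0 (fun _ y => y + x) n
  nsmul_zero _ := rfl
  nsmul_succ _ _ := rfl

theorem one_def : (1 : M) = sc 0 := rfl
theorem sc_eq (x : M) : sc x = x + 1 := by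
  have := (N.add x 0 x).2.2.1
  rw [(N.add x x x).2.1] at this
  exact this.symm

instance (priority := 10) : IsOrderedRing M where
  add_le_add_left x y h z := by
    have h1 := ((N.add z x y).2.2.2.2.1).2 h
    rw [add_comm x z, add_comm y z]
    exact h1
  zero_le_one := (N.ord 1 0 0).2.2.2.1
  mul_le_mul_of_nonneg_left x _ y z h := by
    have := (N.mul y z x).2.2.2.2.2.2 h
    rw [mul_comm x y, mul_comm x z]
    exact this
  mul_le_mul_of_nonneg_right x _ y z h := (N.mul y z x).2.2.2.2.2.2 h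

instance (priority := 10) : CanonicallyOrderedAdd M where
  exists_add_of_le {x y} h := by
    obtain ⟨d, _, hd⟩ := (N.add x y x).2.2.2.2.2 h
    exact ⟨d, hd⟩
  le_self_add x y := by
    have := ((N.add x 0 y).2.2.2.2.1).2 ((N.ord y 0 0).2.2.2.1)
    rwa [add_zero] at this
  le_add_self x y := by
    have := ((N.add x 0 y).2.2.2.2.1).2 ((N.ord y 0 0).2.2.2.1)
    rw [add_zero] at this
    rw [add_comm]
    exact this

instance (priority := 10) : IsOrderedCancelAddMonoid M where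
  le_of_add_le_add_left x y z h := ((N.add x y z).2.2.2.2.1).1 h

end Pool.Agent.Lib.MP_81222b_lc
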