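import Mathlib
import Pool.Agent.Lib.MP_81222b_lc.Facts

/-!
# The standard part of a nice structure
-/

namespace Pool.Agent.Lib.MP_81222b_lc

variable {M : Type} [Ar M]

/-- The value of the numeral `n`. -/
def nn (M : Type) [Ar M] : ℕ → M
  | 0 => 0
  | n + 1 => sc (nn M n)

variable [Nice M]

theorem nn_lt {a b : ℕ} (h : a < b) : nn M a < nn M b := by
  induction h with
  | refl => exact lt_sc.2 le_rfl
  | step _ ih => exact ih.trans (lt_sc.2 le_rfl)

theorem nn_le {a b : ℕ} : nn M a ≤ nn M b ↔ a ≤ b := by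
  constructor
  · intro h
    by_contra hc
    push Not at hc
    exact absurd h (not_le.2 (nn_lt hc))
  · intro h
    rcases h.eq_or_lt with rfl | h
    · exact le_rfl
    · exact (nn_lt h).le

theorem nn_inj {a b : ℕ} : nn M a = nn M b ↔ a = b := by
  constructor
  · intro h
    exact le_antisymm (nn_le.1 h.le) (nn_le.1 h.ge)
  · rintro rfl; rfl

theorem nn_lt_iff {a b : ℕ} : nn M a < nn M b ↔ a < b := by
  rw [← not_le, ← not_le, nn_le]

theorem le_nn {x : M} {k : ℕ} (h : x ≤ nn M k) : ∃ j, j ≤ k ∧ x = nn M j := by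
  induction k with
  | zero => exact ⟨0, le_rfl, le_antisymm h ((N.ord x x x).2.2.2.1)⟩
  | succ k ih =>
    rcases h.eq_or_lt with h | h
    · exact ⟨k + 1, le_rfl, h⟩
    · obtain ⟨j, h1, h2⟩ := ih (lt_sc.1 h)
      exact ⟨j, by omega, h2⟩

theorem nn_add (a b : ℕ) : nn M a + nn M b = nn M (a + b) := by
  induction b with
  | zero => exact add_zero _
  | succ b ih =>
    change nn M a + sc (nn M b) = sc (nn M (a + b))
    rw [(N.add (nn M a) (nn M b) 0).2.2.1, ih]

theorem nn_mul (a b : ℕ) : nn M a * nn M b = nn M (a * b) := by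
  induction b with
  | zero => exact mul_zero _
  | succ b ih =>
    change nn M a * sc (nn M b) = nn M (a * (b + 1))
    rw [(N.mul (nn M a) (nn M b) 0).2.1, ih, nn_add]
    rfl

theorem nn_hf (a : ℕ) : hf (nn M a) = nn M (a / 2) := by
  induction a using Nat.strong_induction_on with
  | _ a ih =>
    match a with
    | 0 => exact (N.len (0 : M) 0).2.2.2.2.2.2.2.2.1
    | 1 => exact (N.len (0 : M) 0).2.2.2.2.2.2.2.2.2.1
    | a + 2 =>
      change hf (sc (sc (nn M a))) = _
      rw [(N.len (nn M a) 0).2.2.2.2.2.2.2.2.2.2, ih a (by omega)]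
      have : (a + 2) / 2 = a / 2 + 1 := by omega
      rw [this]
      rfl

theorem nn_ne_zero {a : ℕ} (h : a ≠ 0) : nn M a ≠ 0 := by
  intro h1
  exact h (nn_inj.1 (h1 : nn M a = nn M 0))

theorem nn_ln (a : ℕ) : ln (nn M a) = nn M (Nat.size a) := by
  induction a using Nat.strong_induction_on with
  | _ a ih =>
    rcases Nat.eq_zero_or_pos a with rfl | h
    · rw [Nat.size_zero]; exact (N.len (0 : M) 0).2.1
    · rw [(N.len (nn M a) 0).2.2.1 (nn_ne_zero h.ne'), nn_hf, ih (a / 2) (by omega),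
        size_half a h.ne']
      rfl

theorem exp_unique {x y z : M} (h1 : Exp x y) (h2 : Exp x z) : y = z := by
  rcases le_total y z with h | h
  · exact le_antisymm h (h2.2 y h h1.1)
  · exact le_antisymm (h1.2 z h h2.1) h

theorem nn_exp (k : ℕ) : Exp (nn M k) (nn M (2 ^ k)) := by
  refine ⟨?_, fun z hz h => ?_⟩
  · rw [nn_ln, Nat.size_pow]; rfl
  · obtain ⟨j, hj, rfl⟩ := le_nn hz
    rw [nn_ln] at h
    have h3 : Nat.size j = k + 1 := nn_inj.1 (h : _ = nn M (k + 1))
    rw [nn_le]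
    by_contra hc
    push Not at hc
    have := Nat.size_le.2 hc
    omega

theorem nn_sm (a b : ℕ) : sm (nn M a) (nn M b) = nn M (2 ^ (Nat.size a * Nat.size b)) := by
  have h := (N.sma (nn M a) (nn M b) 0 0).1
  rw [nn_ln, nn_ln, nn_mul] at h
  exact exp_unique h (nn_exp _)

/-- Terms commute with the embedding of `ℕ`. -/
theorem IsT.std {t : ∀ (M : Type) [Ar M], (ℕ → M) → M} (h : IsT t) (v : ℕ → ℕ) :
    t M (fun n => nn M (v n)) = nn M (t ℕ v) := by
  induction h with
  | var n => rfl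
  | zr => rfl
  | sc _ ih => beta_reduce; rw [ih]; rfl
  | hf _ ih => beta_reduce; rw [ih, nn_hf]; rfl
  | ln _ ih => beta_reduce; rw [ih, nn_ln]; rfl
  | ad _ _ i1 i2 => beta_reduce; rw [i1, i2, nn_add]
  | ml _ _ i1 i2 => beta_reduce; rw [i1, i2, nn_mul]
  | sm _ _ i1 i2 => beta_reduce; rw [i1, i2, nn_sm]; rfl

omit [Nice M] in
theorem cns_nn (a : ℕ) (v : ℕ → ℕ) :
    cns (nn M a) (fun n => nn M (v n)) = fun n => nn M (cns a v n) := by
  funext n; cases n <;> rfl

/-- Bounded formulas are absolute between `ℕ` and `M`. -/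
theorem IsB.std {P : ∀ (M : Type) [Ar M], (ℕ → M) → Prop} (h : IsB P) :
    ∀ v : ℕ → ℕ, P M (fun n => nn M (v n)) ↔ P ℕ v := by
  induction h with
  | eq h1 h2 => intro v; beta_reduce; rw [h1.std, h2.std, nn_inj]
  | le h1 h2 => intro v; beta_reduce; rw [h1.std, h2.std, nn_le]
  | fls => intro v; exact Iff.rfl
  | imp _ _ i1 i2 => intro v; beta_reduce; rw [i1, i2]
  | @ball t P h1 _ i2 =>
    intro v
    beta_reduce
    rw [h1.std]
    constructor
    · intro h a ha
      have := h (nn M a) (nn_le.2 ha)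
      rw [cns_nn, i2] at this
      exact this
    · intro h x hx
      obtain ⟨j, hj, rfl⟩ := le_nn hx
      rw [cns_nn, i2]
      exact h j hj

end Pool.Agent.Lib.MP_81222b_lc
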