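import Mathlib
import Pool.Agent.Lib.MP_81222b_lc.Std

/-!
# Cuts as substructures
-/

namespace Pool.Agent.Lib.MP_81222b_lc

/-- An initial segment closed under the operations. -/
structure Cut (M : Type) [Ar M] where
  C : M → Prop
  dn : ∀ {x y : M}, C y → x ≤ y → C x
  zr : C 0
  sc : ∀ {x}, C x → C (sc x)
  hf : ∀ {x}, C x → C (hf x)
  ln : ∀ {x}, C x → C (ln x)
  ad : ∀ {x y}, C x → C y → C (x + y)
  ml : ∀ {x y}, C x → C y → C (x * y)
  sm : ∀ {x y}, C x → C y → C (sm x y)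

variable {M : Type} [Ar M]

/-- The domain of the substructure. -/
def Cut.T (K : Cut M) : Type := {x : M // K.C x}

instance (K : Cut M) : Ar K.T where
  zero := ⟨0, K.zr⟩
  add x y := ⟨x.1 + y.1, K.ad x.2 y.2⟩
  mul x y := ⟨x.1 * y.1, K.ml x.2 y.2⟩
  le x y := x.1 ≤ y.1
  sc x := ⟨sc x.1, K.sc x.2⟩
  hf x := ⟨hf x.1, K.hf x.2⟩
  ln x := ⟨ln x.1, K.ln x.2⟩
  sm x y := ⟨sm x.1 y.1, K.sm x.2 y.2⟩

theorem cns_val (K : Cut M) (a : K.T) (v : ℕ → K.T) :
    (fun n => (cns a v n).1) = cns a.1 (fun n => (v n).1) := by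
  funext n; cases n <;> rfl

theorem IsT.cut {t : ∀ (M : Type) [Ar M], (ℕ → M) → M} (h : IsT t) (K : Cut M) (v : ℕ → K.T) :
    (t K.T v).1 = t M (fun n => (v n).1) := by
  induction h with
  | var n => rfl
  | zr => rfl
  | sc _ ih => exact congrArg Ar.sc ih
  | hf _ ih => exact congrArg Ar.hf ih
  | ln _ ih => exact congrArg Ar.ln ih
  | ad _ _ i1 i2 => exact congrArg₂ (· + ·) i1 i2
  | ml _ _ i1 i2 => exact congrArg₂ (· * ·) i1 i2
  | sm _ _ i1 i2 => exact congrArg₂ Ar.sm i1 i2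

theorem IsB.cut {P : ∀ (M : Type) [Ar M], (ℕ → M) → Prop} (h : IsB P) (K : Cut M) :
    ∀ v : ℕ → K.T, P K.T v ↔ P M (fun n => (v n).1) := by
  induction h with
  | eq h1 h2 =>
    intro v
    beta_reduce
    rw [← h1.cut K, ← h2.cut K]
    exact Subtype.ext_iff
  | le h1 h2 =>
    intro v
    beta_reduce
    rw [← h1.cut K, ← h2.cut K]
    exact Iff.rfl
  | fls => intro v; exact Iff.rfl
  | imp _ _ i1 i2 => intro v; beta_reduce; rw [i1, i2]
  | @ball t P h1 _ i2 =>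
    intro v
    beta_reduce
    constructor
    · intro h x hx
      rw [← h1.cut K] at hx
      obtain ⟨a, rfl⟩ : ∃ a : K.T, a.1 = x := ⟨⟨x, K.dn (t K.T v).2 hx⟩, rfl⟩
      have := h a hx
      rw [i2, cns_val] at this
      exact this
    · intro h a ha
      rw [i2, cns_val]
      apply h a.1
      rw [← h1.cut K]
      exact ha

instance (K : Cut M) [Nice M] : Nice K.T :=
  ⟨fun F hF v => (F.b.cut K v).2 (Nice.out F hF _)⟩

theorem nn_cut (K : Cut M) (n : ℕ) : (nn K.T n).1 = nn M n := by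
  induction n with
  | zero => rfl
  | succ n ih => exact congrArg Ar.sc ih

theorem Cut.nn (K : Cut M) (n : ℕ) : K.C (nn M n) := by
  rw [← nn_cut K n]; exact (Pool.Agent.Lib.MP_81222b_lc.nn K.T n).2

section

theorem exp_cut (K : Cut M) (x y : K.T) : Exp x y ↔ Exp x.1 y.1 :=
  (BB.out : IsB (fun _ _ v => Exp (v 0) (v 1))).cut K (cns x (cns y (fun _ => 0)))

theorem e3_cut (K : Cut M) (x y : K.T) : E3 x y ↔ E3 x.1 y.1 :=
  (BB.out : IsB (fun _ _ v => E3 (v 0) (v 1))).cut K (cns x (cns y (fun _ => 0)))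

theorem bit_cut (K : Cut M) (x y : K.T) : bit x y ↔ bit x.1 y.1 :=
  (BB.out : IsB (fun _ _ v => bit (v 0) (v 1))).cut K (cns x (cns y (fun _ => 0)))

theorem gr_cut (K : Cut M) (r : Fin 8) (x y z : K.T) : gr r x y z ↔ gr r x.1 y.1 z.1 :=
  (BB.out : IsB (fun _ _ v => gr r (v 0) (v 1) (v 2))).cut K
    (cns x (cns y (cns z (fun _ => 0))))

theorem pr_cut (K : Cut M) (x y : K.T) : (pr x y).1 = pr x.1 y.1 := rfl

end

end Pool.Agent.Lib.MP_81222b_lc
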