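import Mathlib
import Pool.Agent.Lib.MP_81222b_lc.Fam

/-!
# Relational structures and families
-/

namespace Pool.Agent.Lib.MP_81222b_lc

/-- Structures with eight ternary relations and one unary relation. -/
class Ra (M : Type) where
  R : Fin 8 → M → M → M → Prop
  T : M → Prop

/-- First-order formulas on relational structures, with `T` if `b = true`. -/
inductive IsR (b : Bool) : (∀ (M : Type) [Ra M], (ℕ → M) → Prop) → Prop
  | rel (r : Fin 8) (i j k : ℕ) : IsR b (fun _ _ v => Ra.R r (v i) (v j) (v k))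
  | tt (i : ℕ) : b = true → IsR b (fun _ _ v => Ra.T (v i))
  | eq (i j : ℕ) : IsR b (fun _ _ v => v i = v j)
  | fls : IsR b (fun _ _ _ => False)
  | imp {P Q} : IsR b P → IsR b Q → IsR b (fun M _ v => P M v → Q M v)
  | all {P} : IsR b P → IsR b (fun M _ v => ∀ a, P M (cns a v))

variable {b : Bool}

theorem IsR.congr {P Q : ∀ (M : Type) [Ra M], (ℕ → M) → Prop} (h : IsR b P)
    (e : ∀ (M : Type) [Ra M] v, P M v ↔ Q M v) : IsR b Q := by
  have : P = Q := by
    funext M i v
    exact propext (e M v)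
  exact this ▸ h

/-- lift of a renaming -/
def upr (f : ℕ → ℕ) : ℕ → ℕ
  | 0 => 0
  | n + 1 => f n + 1

theorem cns_upr {M : Type} (f : ℕ → ℕ) (a : M) (v : ℕ → M) :
    (fun n => cns a v (upr f n)) = cns a (fun n => v (f n)) := by
  funext n; cases n <;> rfl

theorem IsR.ren {P : ∀ (M : Type) [Ra M], (ℕ → M) → Prop} (h : IsR b P) :
    ∀ f : ℕ → ℕ, IsR b (fun M _ v => P M (fun n => v (f n))) := by
  induction h with
  | rel r i j k => exact fun f => .rel r (f i) (f j) (f k)
  | tt i hb => exact fun f => .tt (f i) hb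
  | eq i j => exact fun f => .eq (f i) (f j)
  | fls => exact fun _ => .fls
  | imp _ _ i1 i2 => exact fun f => .imp (i1 f) (i2 f)
  | @all P _ i2 =>
    intro f
    refine (IsR.all (i2 (upr f))).congr fun M _ v => ?_
    simp only [cns_upr]

theorem IsR.not {P : ∀ (M : Type) [Ra M], (ℕ → M) → Prop} (h : IsR b P) :
    IsR b (fun M _ v => ¬ P M v) := .imp h .fls

theorem IsR.and {P Q : ∀ (M : Type) [Ra M], (ℕ → M) → Prop} (h1 : IsR b P) (h2 : IsR b Q) :
    IsR b (fun M _ v => P M v ∧ Q M v) :=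
  (IsR.imp (IsR.imp h1 (IsR.imp h2 .fls)) .fls).congr fun M _ v => by tauto

theorem IsR.or {P Q : ∀ (M : Type) [Ra M], (ℕ → M) → Prop} (h1 : IsR b P) (h2 : IsR b Q) :
    IsR b (fun M _ v => P M v ∨ Q M v) :=
  (IsR.imp (IsR.imp h1 .fls) h2).congr fun M _ v => by tauto

theorem IsR.iff {P Q : ∀ (M : Type) [Ra M], (ℕ → M) → Prop} (h1 : IsR b P) (h2 : IsR b Q) :
    IsR b (fun M _ v => P M v ↔ Q M v) :=
  ((IsR.imp h1 h2).and (IsR.imp h2 h1)).congr fun M _ v => by tauto

theorem IsR.ex {P : ∀ (M : Type) [Ra M], (ℕ → M) → Prop} (h : IsR b P) :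
    IsR b (fun M _ v => ∃ a, P M (cns a v)) :=
  (IsR.imp (IsR.all (IsR.imp h .fls)) .fls).congr fun M _ v => by
    constructor
    · intro hh
      by_contra hc
      exact hh fun a hR => hc ⟨a, hR⟩
    · rintro ⟨a, hR⟩ hh
      exact hh a hR

/-- `IsR` without `T` is `IsR` with `T`. -/
theorem IsR.up {P : ∀ (M : Type) [Ra M], (ℕ → M) → Prop} (h : IsR false P) : IsR true P := by
  induction h with
  | rel r i j k => exact .rel r i j k
  | tt i hb => exact absurd hb (by simp)
  | eq i j => exact .eq i j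
  | fls => exact .fls
  | imp _ _ i1 i2 => exact .imp i1 i2
  | all _ i => exact .all i

end Pool.Agent.Lib.MP_81222b_lc
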