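import Mathlib
import Pool.Agent.Lib.MP_81222b_lc.Cut
import Pool.Agent.Lib.MP_81222b_lc.Rel

/-!
# Comprehension for first-order formulas over finite structures `[0, B)`
-/

namespace Pool.Agent.Lib.MP_81222b_lc

variable {M : Type} [Ar M]

namespace N

variable [Nice M]

theorem rel (r : Fin 8) (x0 x1 x2 x3 x4 x5 : M) : Exp x4 x5 → ∃ X, X ≤ x5 ∧
    ∀ t, t ≤ x4 → lt' t x4 → (bit t X ↔
      ∃ a, a ≤ x0 ∧ ∃ b, b ≤ x0 ∧ ∃ c, c ≤ x0 ∧ dig t x1 x0 a ∧ dig t x2 x0 b ∧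
        dig t x3 x0 c ∧ gr r a b c) :=
  Nice.out (fRel r) (by fin_cases r <;> simp [facts, factsR])
    (cns x0 (cns x1 (cns x2 (cns x3 (cns x4 (cns x5 (fun _ => 0)))))))

theorem ceq (x0 x1 x2 x4 x5 : M) : Exp x4 x5 → ∃ X, X ≤ x5 ∧
    ∀ t, t ≤ x4 → lt' t x4 → (bit t X ↔
      ∃ a, a ≤ x0 ∧ dig t x1 x0 a ∧ dig t x2 x0 a) :=
  Nice.out fEq (by simp [facts, factsC])
    (cns x0 (cns x1 (cns x2 (cns 0 (cns x4 (cns x5 (fun _ => 0)))))))

theorem cimp (x0 x1 x2 x3 : M) : Exp x2 x3 → ∃ X, X ≤ x3 ∧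
    ∀ t, t ≤ x2 → lt' t x2 → (bit t X ↔ (bit t x0 → bit t x1)) :=
  Nice.out fImp (by simp [facts, factsC])
    (cns x0 (cns x1 (cns x2 (cns x3 (fun _ => 0)))))

theorem call (x0 x1 x2 x3 : M) : Exp x2 x3 → ∃ X, X ≤ x3 ∧
    ∀ t, t ≤ x2 → lt' t x2 → (bit t X ↔ ∀ a, a ≤ x1 → lt' a x1 → bit (a + x1 * t) x0) :=
  Nice.out fAll (by simp [facts, factsC])
    (cns x0 (cns x1 (cns x2 (cns x3 (fun _ => 0)))))

theorem lnp (x0 x1 x2 : M) : bit (x0 + x1) x2 → ∃ x, x ≤ x0 ∧ bit (x + x1) x2 ∧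
    ∀ y, y ≤ x → lt' y x → ¬ bit (y + x1) x2 :=
  Nice.out fLnp (by simp [facts, factsC])
    (cns x0 (cns x1 (cns x2 (fun _ => 0))))

theorem dg (x0 x1 x2 x3 x4 : M) : (¬ bit x0 0) ∧
    (lt' x0 x1 → (dig (x0 + x1 * x2) (sc 0) x1 x3 ↔ x3 = x0)) ∧
    (lt' x0 x1 → ¬ x4 = 0 →
      (dig (x0 + x1 * x2) (x4 * x1) x1 x3 ↔ dig x2 x4 x1 x3)) :=
  Nice.out fDig (by simp [facts, factsC])
    (cns x0 (cns x1 (cns x2 (cns x3 (cns x4 (fun _ => 0))))))

end N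

/-- The finite structure `[0, B)`. -/
def FB (B : M) : Type := {x : M // lt' x B}

instance (B : M) : Ra (FB B) where
  R r x y z := gr r x.1 y.1 z.1
  T _ := False

theorem cns_val' {B : M} (a : FB B) (v : ℕ → FB B) :
    (fun n => (cns a v n).1) = cns a.1 (fun n => (v n).1) := by
  funext n; cases n <;> rfl

/-- `∑_{i < n} v i * B ^ i` -/
def dsum (B : M) : ℕ → (ℕ → M) → M
  | 0, _ => 0
  | n + 1, v => v 0 + B * dsum B n (tl v)

variable [Nice M]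

theorem dsum_lt (B : M) (n : ℕ) : ∀ v : ℕ → M, (∀ i, lt' (v i) B) → dsum B n v < B ^ n := by
  induction n with
  | zero =>
    intro v _
    rw [pow_zero]
    exact (sc_le.1 (le_of_eq (one_def (M := M)).symm))
  | succ n ih =>
    intro v hv
    have h1 : dsum B n (tl v) + 1 ≤ B ^ n := by
      rw [← sc_eq, sc_le]
      exact ih _ fun i => hv (i + 1)
    have h2 : v 0 + 1 ≤ B := by
      rw [← sc_eq]
      exact hv 0
    change v 0 + B * dsum B n (tl v) < B ^ (n + 1)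
    rw [← sc_le, sc_eq, pow_succ, mul_comm (B ^ n)]
    calc v 0 + B * dsum B n (tl v) + 1 = (v 0 + 1) + B * dsum B n (tl v) := by ring
      _ ≤ B + B * dsum B n (tl v) := by gcongr
      _ = B * (dsum B n (tl v) + 1) := by ring
      _ ≤ B * B ^ n := by gcongr

theorem pos_of_lt' {x B : M} (h : lt' x B) : B ≠ 0 := by
  rintro rfl
  have := lt'_iff.1 h
  exact absurd this (not_lt.2 ((N.ord x 0 0).2.2.2.1))

theorem pow_ne_zero' {B : M} (h : B ≠ 0) (n : ℕ) : B ^ n ≠ 0 := by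
  have h1 : 1 ≤ B := by
    rw [one_def, sc_le]
    exact lt_of_le_of_ne ((N.ord B 0 0).2.2.2.1) (Ne.symm h)
  have h2 : 1 ≤ B ^ n := one_le_pow₀ h1
  intro h3
  rw [h3, one_def, sc_le] at h2
  exact absurd h2 (lt_irrefl _)

theorem dig_dsum {B : M} (i : ℕ) : ∀ (n : ℕ) (v : ℕ → M) (d : M), (∀ j, lt' (v j) B) → i < n →
    (dig (dsum B n v) (B ^ i) B d ↔ d = v i) := by
  induction i with
  | zero =>
    intro n v d hv hn
    match n, hn with
    | n + 1, _ =>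
      rw [pow_zero, one_def]
      exact (N.dg (v 0) B (dsum B n (tl v)) d 0).2.1 (hv 0)
  | succ i ih =>
    intro n v d hv hn
    match n, hn with
    | n + 1, hn =>
      rw [pow_succ]
      have := (N.dg (v 0) B (dsum B n (tl v)) d (B ^ i)).2.2 (hv 0)
        (pow_ne_zero' (pos_of_lt' (hv 0)) i)
      exact this.trans (ih n (tl v) d (fun j => hv (j + 1)) (by omega))

/-- Comprehension: truth sets of first-order formulas over `[0, B)` are coded. -/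
theorem IsR.comp {P : ∀ (M : Type) [Ra M], (ℕ → M) → Prop} (h : IsR false P) :
    ∃ n0 : ℕ, ∀ n, n0 ≤ n → ∀ (M : Type) [Ar M] [Nice M] (B : M),
      (∀ k : ℕ, ∃ D, Exp (B ^ k) D) →
      ∃ X : M, ∀ v : ℕ → FB B, bit (dsum B n (fun i => (v i).1)) X ↔ P (FB B) v := by
  induction h with
  | rel r i j k =>
    refine ⟨i + j + k + 1, fun n hn M _ _ B hB => ?_⟩
    obtain ⟨D, hD⟩ := hB n
    obtain ⟨X, _, hX⟩ := N.rel r B (B ^ i) (B ^ j) (B ^ k) (B ^ n) D hD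
    refine ⟨X, fun v => ?_⟩
    have hlt := dsum_lt B n (fun i => (v i).1) fun i => (v i).2
    rw [hX _ hlt.le (lt'_iff.2 hlt)]
    have hv : ∀ i, lt' ((fun i => (v i).1) i) B := fun i => (v i).2
    constructor
    · rintro ⟨a, _, b, _, c, _, h1, h2, h3, h4⟩
      rw [dig_dsum _ _ _ _ hv (by omega)] at h1 h2 h3
      subst h1 h2 h3
      exact h4
    · intro h
      refine ⟨(v i).1, (lt'_iff.1 (v i).2).le, (v j).1, (lt'_iff.1 (v j).2).le, (v k).1,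
        (lt'_iff.1 (v k).2).le, ?_, ?_, ?_, h⟩
      · rw [dig_dsum _ _ _ _ hv (by omega)]
      · rw [dig_dsum _ _ _ _ hv (by omega)]
      · rw [dig_dsum _ _ _ _ hv (by omega)]
  | tt i hb => exact absurd hb (by simp)
  | eq i j =>
    refine ⟨i + j + 1, fun n hn M _ _ B hB => ?_⟩
    obtain ⟨D, hD⟩ := hB n
    obtain ⟨X, _, hX⟩ := N.ceq B (B ^ i) (B ^ j) (B ^ n) D hD
    refine ⟨X, fun v => ?_⟩
    have hlt := dsum_lt B n (fun i => (v i).1) fun i => (v i).2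
    rw [hX _ hlt.le (lt'_iff.2 hlt)]
    have hv : ∀ i, lt' ((fun i => (v i).1) i) B := fun i => (v i).2
    constructor
    · rintro ⟨a, _, h1, h2⟩
      rw [dig_dsum _ _ _ _ hv (by omega)] at h1 h2
      exact Subtype.ext (h1.symm.trans h2)
    · intro h
      refine ⟨(v i).1, (lt'_iff.1 (v i).2).le, ?_, ?_⟩
      · rw [dig_dsum _ _ _ _ hv (by omega)]
      · rw [dig_dsum _ _ _ _ hv (by omega)]
        exact congrArg Subtype.val h
  | fls =>
    exact ⟨0, fun n _ M _ _ B _ => ⟨0, fun v => iff_of_false (N.dg _ 0 0 0 0).1 id⟩⟩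
  | @imp P Q _ _ i1 i2 =>
    obtain ⟨n1, h1⟩ := i1
    obtain ⟨n2, h2⟩ := i2
    refine ⟨n1 + n2, fun n hn M _ _ B hB => ?_⟩
    obtain ⟨X, hX⟩ := h1 n (by omega) M B hB
    obtain ⟨Y, hY⟩ := h2 n (by omega) M B hB
    obtain ⟨D, hD⟩ := hB n
    obtain ⟨Z, _, hZ⟩ := N.cimp X Y (B ^ n) D hD
    refine ⟨Z, fun v => ?_⟩
    have hlt := dsum_lt B n (fun i => (v i).1) fun i => (v i).2
    rw [hZ _ hlt.le (lt'_iff.2 hlt), hX, hY]
  | @all P _ i1 =>
    obtain ⟨n1, h1⟩ := i1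
    refine ⟨n1, fun n hn M _ _ B hB => ?_⟩
    obtain ⟨X, hX⟩ := h1 (n + 1) (by omega) M B hB
    obtain ⟨D, hD⟩ := hB n
    obtain ⟨Z, _, hZ⟩ := N.call X B (B ^ n) D hD
    refine ⟨Z, fun v => ?_⟩
    have hlt := dsum_lt B n (fun i => (v i).1) fun i => (v i).2
    rw [hZ _ hlt.le (lt'_iff.2 hlt)]
    constructor
    · intro h a
      rw [← hX, cns_val']
      exact h a.1 (lt'_iff.1 a.2).le a.2
    · intro h a _ ha
      obtain ⟨a, rfl⟩ : ∃ c : FB B, c.1 = a := ⟨⟨a, ha⟩, rfl⟩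
      have := h a
      rw [← hX, cns_val'] at this
      exact this

end Pool.Agent.Lib.MP_81222b_lc
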