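import Pool.Agent.Lib.MP_81222b_lc.Ar

/-!
# A non-standard elementary extension of the standard model
-/

namespace Pool.Agent.MP81222b

open Filter

variable {L : Lang}

/-- The ultrapower of a structure. -/
noncomputable def upow (S : Str L) (U : Ultrafilter ℕ) : Str L where
  M := Germ (U : Filter ℕ) S.M
  inh := ⟨((fun _ => S.inh.some : ℕ → S.M) : Germ (U : Filter ℕ) S.M)⟩
  fn := fun n f a => ((fun i => S.fn n f (fun j => Quotient.out (a j) i) : ℕ → S.M) :
    Germ (U : Filter ℕ) S.M)
  rl := fun n r a => ∀ᶠ i in (U : Filter ℕ), S.rl n r (fun j => Quotient.out (a j) i)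

theorem germ_out {M : Type} (U : Ultrafilter ℕ) (g : ℕ → M) :
    ∀ᶠ i in (U : Filter ℕ), Quotient.out ((g : ℕ → M) : Germ (U : Filter ℕ) M) i = g i := by
  have h : (((Quotient.out ((g : ℕ → M) : Germ (U : Filter ℕ) M)) : ℕ → M) :
      Germ (U : Filter ℕ) M) = ((g : ℕ → M) : Germ (U : Filter ℕ) M) := Quotient.out_eq _
  exact Germ.coe_eq.1 h

theorem upow_fn (S : Str L) (U : Ultrafilter ℕ) (n : ℕ) (f : Fin (L.Fn n)) (h : Fin n → ℕ → S.M) :
    (upow S U).fn n f (fun j => ((h j : ℕ → S.M) : Germ (U : Filter ℕ) S.M)) =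
      ((fun i => S.fn n f (fun j => h j i) : ℕ → S.M) : Germ (U : Filter ℕ) S.M) := by
  refine Germ.coe_eq.2 ?_
  have H : ∀ᶠ i in (U : Filter ℕ), ∀ j, Quotient.out ((h j : ℕ → S.M) :
      Germ (U : Filter ℕ) S.M) i = h j i := eventually_all.2 fun j => germ_out U (h j)
  filter_upwards [H] with i hi
  simp only [hi]

theorem upow_rl (S : Str L) (U : Ultrafilter ℕ) (n : ℕ) (r : Fin (L.Rl n)) (h : Fin n → ℕ → S.M) :
    (upow S U).rl n r (fun j => ((h j : ℕ → S.M) : Germ (U : Filter ℕ) S.M)) ↔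
      ∀ᶠ i in (U : Filter ℕ), S.rl n r (fun j => h j i) := by
  have H : ∀ᶠ i in (U : Filter ℕ), ∀ j, Quotient.out ((h j : ℕ → S.M) :
      Germ (U : Filter ℕ) S.M) i = h j i := eventually_all.2 fun j => germ_out U (h j)
  refine eventually_congr ?_
  filter_upwards [H] with i hi
  simp only [hi]

theorem upow_val (S : Str L) (U : Ultrafilter ℕ) (g : ℕ → ℕ → S.M) (t : Tm L) :
    t.val (upow S U) (fun k => ((g k : ℕ → S.M) : Germ (U : Filter ℕ) S.M)) =
      ((fun i => t.val S (fun k => g k i) : ℕ → S.M) : Germ (U : Filter ℕ) S.M) := by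
  induction t with
  | var i => rfl
  | fn n f ts ih =>
    simp only [Tm.val, ih]
    exact upow_fn S U n f (fun j i => (ts j).val S (fun k => g k i))

/-- Theorem of Los. -/
theorem upow_sat (S : Str L) (U : Ultrafilter ℕ) (f : Fm L) : ∀ g : ℕ → ℕ → S.M,
    f.Sat (upow S U) (fun k => ((g k : ℕ → S.M) : Germ (U : Filter ℕ) S.M)) ↔
      ∀ᶠ i in (U : Filter ℕ), f.Sat S (fun k => g k i) := by
  induction f with
  | bot =>
    intro g
    simp only [Fm.Sat]
    exact ⟨fun h => h.elim, fun h => by simpa using h.exists⟩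
  | eq t u =>
    intro g
    simp only [Fm.Sat, upow_val]
    exact Germ.coe_eq
  | rl n r ts =>
    intro g
    simp only [Fm.Sat, upow_val]
    exact upow_rl S U n r (fun j i => (ts j).val S (fun k => g k i))
  | imp f g ihf ihg =>
    intro e
    simp only [Fm.Sat, ihf, ihg]
    exact Ultrafilter.eventually_imp.symm
  | all f ih =>
    intro e
    have key : ∀ x : ℕ → S.M, f.Sat (upow S U)
        (cn ((x : ℕ → S.M) : Germ (U : Filter ℕ) S.M)
          (fun k => ((e k : ℕ → S.M) : Germ (U : Filter ℕ) S.M))) ↔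
        ∀ᶠ i in (U : Filter ℕ), f.Sat S (cn (x i) (fun k => e k i)) := by
      intro x
      have := ih (fun k i => cn (x i) (fun k => e k i) k)
      rw [← this]
      refine iff_of_eq (congrArg _ ?_)
      funext k
      cases k <;> rfl
    simp only [Fm.Sat]
    constructor
    · intro H
      by_contra hne
      have hne' : ∀ᶠ i in (U : Filter ℕ), ∃ x, ¬ f.Sat S (cn x (fun k => e k i)) := by
        have := Ultrafilter.eventually_not.2 hne
        filter_upwards [this] with i hi
        push Not at hi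
        exact hi
      have : ∃ x : ℕ → S.M, ∀ᶠ i in (U : Filter ℕ), ¬ f.Sat S (cn (x i) (fun k => e k i)) := by
        classical
        refine ⟨fun i => if h : ∃ x, ¬ f.Sat S (cn x (fun k => e k i)) then h.choose
          else S.inh.some, ?_⟩
        filter_upwards [hne'] with i hi
        rw [dif_pos hi]
        exact hi.choose_spec
      obtain ⟨x, hx⟩ := this
      have h1 := (key x).1 (H _)
      exact (Ultrafilter.eventually_not.1 hx) h1
    · intro H x
      induction x using Quotient.inductionOn with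
      | h x =>
        refine (key x).2 ?_
        filter_upwards [H] with i hi using hi (x i)

/-- There is an elementary extension of the standard model with an infinite element. -/
theorem exists_nonstd : ∃ (S : Str Lar) (φ : ℕ → S.M),
    (∀ (f : Fm Lar) (e : ℕ → ℕ), f.Sat natS e ↔ f.Sat S (fun i => φ (e i))) ∧
      ∃ c : S.M, ∀ n, S.le (φ n) c := by
  refine ⟨upow natS (hyperfilter ℕ),
    fun n => ((fun _ => n : ℕ → ℕ) : Germ ((hyperfilter ℕ : Ultrafilter ℕ) : Filter ℕ) ℕ), ?_,
    ((fun n => n : ℕ → ℕ) : Germ ((hyperfilter ℕ : Ultrafilter ℕ) : Filter ℕ) ℕ), ?_⟩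
  · intro f e
    rw [upow_sat natS (hyperfilter ℕ) f (fun k _ => e k)]
    exact (eventually_const (f := ((hyperfilter ℕ : Ultrafilter ℕ) : Filter ℕ))
      (p := f.Sat natS (fun k => e k))).symm
  · intro n
    have h := upow_rl natS (hyperfilter ℕ) 2 (⟨0, by decide⟩ : Fin 1)
      ![fun _ => n, fun i => i]
    have hv : (fun j => (((![fun _ => n, fun i => i] : Fin 2 → ℕ → ℕ) j : ℕ → ℕ) :
        Germ ((hyperfilter ℕ : Ultrafilter ℕ) : Filter ℕ) ℕ)) =
        ![((fun _ => n : ℕ → ℕ) : Germ ((hyperfilter ℕ : Ultrafilter ℕ) : Filter ℕ) ℕ),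
          ((fun i => i : ℕ → ℕ) : Germ ((hyperfilter ℕ : Ultrafilter ℕ) : Filter ℕ) ℕ)] := by
      funext j; fin_cases j <;> rfl
    rw [hv] at h
    refine h.2 ?_
    have : ∀ᶠ i in ((hyperfilter ℕ : Ultrafilter ℕ) : Filter ℕ), n ≤ i := by
      have h2 : ∀ᶠ i : ℕ in cofinite, n ≤ i := by
        rw [Nat.cofinite_eq_atTop]; exact eventually_ge_atTop n
      exact Filter.hyperfilter_le_cofinite h2
    filter_upwards [this] with i hi
    exact hi

end Pool.Agent.MP81222b
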