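import Pool.Agent.Lib.MP_81222b_lc.Th
import Pool.Agent.Lib.MP_81222b_lc.Ultra

/-!
# Consistency of the theory `A`
-/

namespace Pool.Agent.MP81222b

/-! ### Definable functions in substructures and in elementary extensions -/

theorem TDef.sub_val {L : Lang} {t : (S : Str L) → (ℕ → S.M) → S.M} (ht : TDef t) (S : Str L)
    (D : S.M → Prop) (h : ClosedU S D) (e : ℕ → (S.sub D h).M) :
    (t (S.sub D h) e).1 = t S (fun i => (e i).1) := by
  obtain ⟨τ, hτ⟩ := ht.ex
  rw [hτ, hτ]
  exact Tm.val_substr S D h e τ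

section elem
variable {S : Str Lar} {φ : ℕ → S.M}
  (hel : ∀ (f : Fm Lar) (e : ℕ → ℕ), f.Sat natS e ↔ f.Sat S (fun i => φ (e i)))
include hel

theorem el_all {P : (S : Str Lar) → (ℕ → S.M) → Prop} (hP : UDef P) (h : ∀ e, P natS e) :
    ∀ e, P S e := by
  obtain ⟨f, hf⟩ := hP.ex
  obtain ⟨k, hk⟩ := f.exists_bd
  have h1 : (Fm.alls k f).Sat natS (fun _ => 0) := by
    rw [Fm.sat_alls_closed natS f hk]
    intro e
    rw [← hf]
    exact h e
  rw [hel, Fm.sat_alls_closed S f hk] at h1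
  intro e
  rw [hf]
  exact h1 e

theorem el_inj {m n : ℕ} (h : φ m = φ n) : m = n := by
  have := (hel (.eq (.var 0) (.var 1)) (cn m (fun _ => n))).2 h
  exact this

theorem el_tdef {t : (S : Str Lar) → (ℕ → S.M) → S.M} (ht : TDef t) (e : ℕ → ℕ) :
    φ (t natS e) = t S (fun i => φ (e i)) := by
  obtain ⟨τ, hτ⟩ := ht.ex
  have h1 : (Fm.eq (.var 0) τ.up).Sat natS (cn (t natS e) e) := by
    show t natS e = τ.up.val natS (cn (t natS e) e)
    rw [val_up, ← hτ]
  rw [hel] at h1
  have h2 : (fun i => φ (cn (t natS e) e i)) = cn (φ (t natS e)) (fun i => φ (e i)) := by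
    funext i; cases i <;> rfl
  rw [h2] at h1
  have h3 : φ (t natS e) = τ.up.val S (cn (φ (t natS e)) (fun i => φ (e i))) := h1
  rw [val_up, ← hτ] at h3
  exact h3

theorem el_udef {P : (S : Str Lar) → (ℕ → S.M) → Prop} (hP : UDef P) (e : ℕ → ℕ) :
    P natS e ↔ P S (fun i => φ (e i)) := by
  obtain ⟨f, hf⟩ := hP.ex
  rw [hf, hf, hel]

theorem el_fn (n : ℕ) (f : Fin (Lar.Fn n)) (a : Fin n → ℕ) :
    φ (natS.fn n f a) = S.fn n f (fun i => φ (a i)) := by
  have h := el_tdef hel (t := fun S e => S.fn n f (fun i => e i))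
    ⟨⟨.fn n f (fun i => .var i), fun _ _ => rfl⟩⟩ (fun i => if hi : i < n then a ⟨i, hi⟩ else 0)
  simpa using h

theorem el_pic : PiC S where
  bas := fun f hf => el_all hel (P := fun S e => f.Sat S e) ⟨⟨f, fun _ _ => Iff.rfl⟩⟩
    (basic_nat f hf)
  p0 := fun a _ => el_all hel a.bdef.uDef a.nat

end elem

/-! ### Bounds for the triple length -/

theorem nat_l3 {z m : ℕ} (h : z.size ≤ m.size * m.size + 1) :
    z.size.size.size ≤ m.size.size.size + 1 := by
  set s := m.size
  have h1 : (s * s + 1).size ≤ 2 * s.size + 1 := by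
    rw [Nat.size_le]
    have h2 : s < 2 ^ s.size := Nat.lt_size_self s
    calc s * s + 1 < 2 ^ s.size * 2 ^ s.size + 1 := by
          have := Nat.mul_lt_mul'' h2 h2
          omega
      _ ≤ 2 ^ s.size * 2 ^ s.size + 2 ^ s.size * 2 ^ s.size := by
          have : 1 ≤ 2 ^ s.size * 2 ^ s.size := Nat.one_le_iff_ne_zero.2 (by positivity)
          omega
      _ = 2 ^ (2 * s.size + 1) := by ring
  have h3 : z.size.size ≤ 2 * s.size + 1 := (Nat.size_le_size h).trans h1
  calc z.size.size.size ≤ (2 * s.size + 1).size := Nat.size_le_size h3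
    _ = s.size.size + 1 := size_double_add

theorem nat_l3' {z x y : ℕ} (h : z ≤ 2 ^ (x.size * y.size) ∨ z ≤ x + y ∨ z ≤ x * y ∨ z ≤ x + 1) :
    z.size.size.size ≤ x.size.size.size + 1 ∨ z.size.size.size ≤ y.size.size.size + 1 := by
  have key : z.size ≤ (max x y).size * (max x y).size + 1 := by
    have hx : x.size ≤ (max x y).size := Nat.size_le_size (le_max_left _ _)
    have hy : y.size ≤ (max x y).size := Nat.size_le_size (le_max_right _ _)
    have lx : x < 2 ^ x.size := Nat.lt_size_self x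
    have ly : y < 2 ^ y.size := Nat.lt_size_self y
    have px : 2 ^ x.size ≤ 2 ^ (max x y).size := Nat.pow_le_pow_right (by norm_num) hx
    have py : 2 ^ y.size ≤ 2 ^ (max x y).size := Nat.pow_le_pow_right (by norm_num) hy
    set s := (max x y).size
    have hs : s + 1 ≤ s * s + 1 ∨ s = 0 := by
      rcases Nat.eq_zero_or_pos s with h | h
      · exact Or.inr h
      · left; nlinarith
    rcases h with h | h | h | h
    · have h1 : z.size ≤ (2 ^ (x.size * y.size)).size := Nat.size_le_size h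
      rw [Nat.size_pow] at h1
      exact h1.trans (Nat.succ_le_succ (Nat.mul_le_mul hx hy))
    · rcases hs with hs | hs
      · refine le_trans ?_ hs
        rw [Nat.size_le, pow_succ]
        omega
      · rw [hs] at px py
        have : z = 0 := by simp only [pow_zero] at px py; omega
        subst this
        simp
    · rcases hs with hs | hs
      · have h1 : z < 2 ^ (2 * s) := by
          rcases Nat.eq_zero_or_pos y with rfl | hy0
          · have : z = 0 := by omega
            rw [this]; positivity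
          · calc z ≤ x * y := h
              _ < 2 ^ s * 2 ^ s := Nat.mul_lt_mul'' (by omega) (by omega)
              _ = 2 ^ (2 * s) := by ring
        have h2 : z.size ≤ 2 * s := Nat.size_le.2 h1
        rcases Nat.lt_or_ge s 2 with h3 | h3
        · have h4 : s ≤ 1 := by omega
          have h5 : 2 ^ s ≤ 2 := by
            calc 2 ^ s ≤ 2 ^ 1 := Nat.pow_le_pow_right (by norm_num) h4
              _ = 2 := rfl
          have hx1 : x ≤ 1 := by omega
          have hy1 : y ≤ 1 := by omega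
          have hz1 : z ≤ 1 := by
            calc z ≤ x * y := h
              _ ≤ 1 * 1 := Nat.mul_le_mul hx1 hy1
              _ = 1 := rfl
          have : z.size ≤ 1 := by
            rw [Nat.size_le]; omega
          omega
        · nlinarith
      · rw [hs] at px py
        have : z = 0 := by
          simp only [pow_zero] at px py
          have : x = 0 := by omega
          rw [this] at h; omega
        subst this
        simp
    · rcases hs with hs | hs
      · refine le_trans ?_ hs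
        rw [Nat.size_le, pow_succ]
        omega
      · rw [hs] at px py
        have : z ≤ 1 := by simp only [pow_zero] at px py; omega
        rw [hs, Nat.size_le]
        omega
  have := nat_l3 key
  rcases max_choice x y with h1 | h1 <;> rw [h1] at this
  · exact Or.inl this
  · exact Or.inr this

/-! ### The model -/

section model
variable {S : Str Lar} {φ : ℕ → S.M}
  (hel : ∀ (f : Fm Lar) (e : ℕ → ℕ), f.Sat natS e ↔ f.Sat S (fun i => φ (e i)))
include hel

omit hel in
theorem nat_l3u {z x : ℕ} (h : z ≤ x + 1) : natS.le (l3 natS z) (natS.sc (l3 natS x)) := by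
  have := nat_l3' (z := z) (x := x) (y := x) (Or.inr (Or.inr (Or.inr h)))
  simp only [l3, natS_le, natS_sc, natS_ln]
  exact this.elim id id

omit hel in
theorem nat_l3b {z x y : ℕ} (h : z ≤ 2 ^ (x.size * y.size) ∨ z ≤ x + y ∨ z ≤ x * y) :
    natS.le (l3 natS z) (natS.sc (l3 natS x)) ∨ natS.le (l3 natS z) (natS.sc (l3 natS y)) := by
  have h' : z ≤ 2 ^ (x.size * y.size) ∨ z ≤ x + y ∨ z ≤ x * y ∨ z ≤ x + 1 := by
    rcases h with h | h | h
    · exact Or.inl h
    · exact Or.inr (Or.inl h)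
    · exact Or.inr (Or.inr (Or.inl h))
  simp only [l3, natS_le, natS_sc, natS_ln]
  exact nat_l3' h'

theorem l3_zr : S.le (l3 S S.zr) (S.sc S.zr) := by
  refine el_all hel (P := fun S _ => S.le (l3 S S.zr) (S.sc S.zr)) inferInstance
    (fun e => ?_) (fun _ => S.zr)
  show (Nat.size (Nat.size (Nat.size 0))) ≤ 0 + 1
  simp

theorem l3_sc (x : S.M) : S.le (l3 S (S.sc x)) (S.sc (l3 S x)) :=
  el_all hel (P := fun S e => S.le (l3 S (S.sc (e 0))) (S.sc (l3 S (e 0)))) inferInstance
    (fun e => nat_l3u (le_refl (e 0 + 1))) (fun _ => x)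

theorem l3_hf (x : S.M) : S.le (l3 S (S.hf x)) (S.sc (l3 S x)) :=
  el_all hel (P := fun S e => S.le (l3 S (S.hf (e 0))) (S.sc (l3 S (e 0)))) inferInstance
    (fun e => nat_l3u ((Nat.div_le_self (e 0) 2).trans (Nat.le_succ (e 0)))) (fun _ => x)

theorem l3_ln (x : S.M) : S.le (l3 S (S.ln x)) (S.sc (l3 S x)) :=
  el_all hel (P := fun S e => S.le (l3 S (S.ln (e 0))) (S.sc (l3 S (e 0)))) inferInstance
    (fun e => nat_l3u ((Nat.size_le.2 Nat.lt_two_pow_self).trans (Nat.le_succ (e 0))))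
    (fun _ => x)

theorem l3_ad (x y : S.M) : S.le (l3 S (S.ad x y)) (S.sc (l3 S x)) ∨
    S.le (l3 S (S.ad x y)) (S.sc (l3 S y)) :=
  el_all hel (P := fun S e => S.le (l3 S (S.ad (e 0) (e 1))) (S.sc (l3 S (e 0))) ∨
    S.le (l3 S (S.ad (e 0) (e 1))) (S.sc (l3 S (e 1)))) inferInstance
    (fun e => nat_l3b (Or.inr (Or.inl (le_refl (e 0 + e 1))))) (cn x (fun _ => y))

theorem l3_ml (x y : S.M) : S.le (l3 S (S.ml x y)) (S.sc (l3 S x)) ∨
    S.le (l3 S (S.ml x y)) (S.sc (l3 S y)) :=
  el_all hel (P := fun S e => S.le (l3 S (S.ml (e 0) (e 1))) (S.sc (l3 S (e 0))) ∨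
    S.le (l3 S (S.ml (e 0) (e 1))) (S.sc (l3 S (e 1)))) inferInstance
    (fun e => nat_l3b (Or.inr (Or.inr (le_refl (e 0 * e 1))))) (cn x (fun _ => y))

theorem l3_sm (x y : S.M) : S.le (l3 S (S.sm x y)) (S.sc (l3 S x)) ∨
    S.le (l3 S (S.sm x y)) (S.sc (l3 S y)) :=
  el_all hel (P := fun S e => S.le (l3 S (S.sm (e 0) (e 1))) (S.sc (l3 S (e 0))) ∨
    S.le (l3 S (S.sm (e 0) (e 1))) (S.sc (l3 S (e 1)))) inferInstance
    (fun e => nat_l3b (Or.inl (le_refl (2 ^ ((e 0).size * (e 1).size))))) (cn x (fun _ => y))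

/-- Bound for the values of the functions. -/
theorem l3_fn (n : ℕ) (f : Fin (Lar.Fn n)) (a : Fin n → S.M) :
    S.le (l3 S (S.fn n f a)) (S.sc S.zr) ∨
      ∃ i, S.le (l3 S (S.fn n f a)) (S.sc (l3 S (a i))) := by
  match n, f, a with
  | 0, f, a =>
    left
    have h0 : f = (⟨0, Nat.one_pos⟩ : Fin 1) := Subsingleton.elim (α := Fin 1) _ _
    rw [h0, vec0 (f := a)]
    exact l3_zr hel
  | 1, f, a =>
    right
    refine ⟨0, ?_⟩
    rw [vec1 a]
    change Fin 3 at f
    fin_cases f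
    · exact l3_sc hel (a 0)
    · exact l3_hf hel (a 0)
    · exact l3_ln hel (a 0)
  | 2, f, a =>
    right
    rw [vec2 a]
    change Fin 3 at f
    fin_cases f
    · rcases l3_ad hel (a 0) (a 1) with h | h
      · exact ⟨0, h⟩
      · exact ⟨1, h⟩
    · rcases l3_ml hel (a 0) (a 1) with h | h
      · exact ⟨0, h⟩
      · exact ⟨1, h⟩
    · rcases l3_sm hel (a 0) (a 1) with h | h
      · exact ⟨0, h⟩
      · exact ⟨1, h⟩
  | n + 3, f, a => exact (f : Fin 0).elim0

/-- Elements below a standard element are standard. -/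
theorem el_init {x : S.M} {n : ℕ} (h : S.le x (φ n)) : ∃ m, x = φ m := by
  have := el_pic hel
  have hz : φ 0 = S.zr := el_tdef hel (t := fun S _ => S.zr) inferInstance (fun _ => 0)
  have hs : ∀ n, φ (n + 1) = S.sc (φ n) := fun n =>
    el_tdef hel (t := fun S e => S.sc (e 0)) inferInstance (fun _ => n)
  induction n with
  | zero =>
    refine ⟨0, ?_⟩
    rw [hz] at h ⊢
    exact le_antisymm h (PiC.zero_le' S x)
  | succ n ih =>
    rw [hs, sc_eq] at h
    rcases lt_or_eq_of_le (show x ≤ φ n + 1 from h) with h1 | h1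
    · exact ih (lt_add_one_iff'.1 h1)
    · exact ⟨n + 1, by rw [hs, sc_eq]; exact h1⟩

end model

/-- The domain of the model. -/
def DomC (S : Str Lar) (φ : ℕ → S.M) (a : S.M) (y : S.M) : Prop :=
  ∃ n, S.le (l3 S y) (S.ad a (φ n))

section model2
variable {S : Str Lar} {φ : ℕ → S.M}
  (hel : ∀ (f : Fm Lar) (e : ℕ → ℕ), f.Sat natS e ↔ f.Sat S (fun i => φ (e i)))
  (a : S.M)
include hel

theorem DomC.closed : ClosedU S (DomC S φ a) := by
  have := el_pic hel
  have hs : ∀ n, φ (n + 1) = S.sc (φ n) := fun n =>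
    el_tdef hel (t := fun S e => S.sc (e 0)) inferInstance (fun _ => n)
  have hz : φ 0 = S.zr := el_tdef hel (t := fun S _ => S.zr) inferInstance (fun _ => 0)
  have key : ∀ n, S.sc (S.ad a (φ n)) = S.ad a (φ (n + 1)) := by
    intro n
    rw [hs, sc_eq, sc_eq, ad_eq, ad_eq, add_assoc]
  have h1 : ∀ x, S.le (l3 S x) (S.sc S.zr) → DomC S φ a x := by
    intro x hx
    refine ⟨1, PiC.trans' S hx ?_⟩
    rw [hs, hz]
    exact (le_add_of_nonneg_left (PiC.zero_le' S a) : S.sc S.zr ≤ a + S.sc S.zr)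
  refine ⟨⟨S.zr, h1 _ (l3_zr hel)⟩, fun n f b hb => ?_⟩
  rcases l3_fn hel n f b with h | ⟨i, h⟩
  · exact h1 _ h
  · obtain ⟨m, hm⟩ := hb i
    refine ⟨m + 1, PiC.trans' S h ?_⟩
    rw [← key, sc_eq, sc_eq]
    exact (add_le_add_left hm 1 : l3 S (b i) + 1 ≤ S.ad a (φ m) + 1)

theorem DomC.init : InitU S (DomC S φ a) := by
  have := el_pic hel
  rintro x y ⟨n, hn⟩ hxy
  refine ⟨n, PiC.trans' S ?_ hn⟩
  exact el_all hel (P := fun S e => S.le (e 0) (e 1) → S.le (l3 S (e 0)) (l3 S (e 1)))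
    inferInstance (fun e h => by
      simp only [l3, natS_le, natS_ln] at h ⊢
      exact Nat.size_le_size (Nat.size_le_size (Nat.size_le_size h))) (cn x (fun _ => y)) hxy

theorem DomC.std (n : ℕ) : DomC S φ a (φ n) := by
  have := el_pic hel
  refine ⟨n, ?_⟩
  have h1 : S.le (l3 S (φ n)) (φ n) :=
    el_all hel (P := fun S e => S.le (l3 S (e 0)) (e 0)) inferInstance (fun e => by
      simp only [l3, natS_le, natS_ln]
      have : ∀ x : ℕ, x.size ≤ x := fun x => Nat.size_le.2 Nat.lt_two_pow_self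
      exact ((this _).trans (this _)).trans (this _)) (fun _ => φ n)
  exact PiC.trans' S h1 (le_add_of_nonneg_left (PiC.zero_le' S a) : φ n ≤ a + φ n)

/-- The standard model inside the model. -/
def ps (n : ℕ) : (S.sub (DomC S φ a) (DomC.closed hel a)).M := ⟨φ n, DomC.std hel a n⟩

/-- The cut of the standard elements. -/
def JJ (x : (S.sub (DomC S φ a) (DomC.closed hel a)).M) : Prop := ∃ n, x = ps hel a n

theorem ps_fn (n : ℕ) (f : Fin (Lar.Fn n)) (b : Fin n → ℕ) :
    (S.sub (DomC S φ a) (DomC.closed hel a)).fn n f (fun i => ps hel a (b i)) =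
      ps hel a (natS.fn n f b) := by
  apply Subtype.ext
  show S.fn n f (fun i => φ (b i)) = φ (natS.fn n f b)
  rw [el_fn hel]

theorem JJ.closed : ClosedU (S.sub (DomC S φ a) (DomC.closed hel a)) (JJ hel a) := by
  refine ⟨⟨ps hel a 0, 0, rfl⟩, fun n f b hb => ?_⟩
  choose m hm using hb
  refine ⟨natS.fn n f m, ?_⟩
  rw [← ps_fn]
  congr 1
  funext i
  exact hm i

theorem ps_inj {m n : ℕ} (h : ps hel a m = ps hel a n) : m = n :=
  el_inj hel (Subtype.ext_iff.1 h)

theorem ps_sat (f : Fm Lar) (e : ℕ → ℕ) :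
    f.SatD (S.sub (DomC S φ a) (DomC.closed hel a)) (JJ hel a) (fun i => ps hel a (e i)) ↔
      f.Sat natS e := by
  have h1 := f.sat_substr (S.sub (DomC S φ a) (DomC.closed hel a)) (JJ hel a)
    (JJ.closed hel a) (fun i => ⟨ps hel a (e i), e i, rfl⟩)
  rw [← h1]
  have h2 := Fm.sat_iso natS ((S.sub (DomC S φ a) (DomC.closed hel a)).sub (JJ hel a)
    (JJ.closed hel a)) (fun n => ⟨ps hel a n, n, rfl⟩)
    (fun m n h => ps_inj hel a (Subtype.ext_iff.1 h))
    (by rintro ⟨x, n, rfl⟩; exact ⟨n, rfl⟩)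
    (by
      intro n f b
      apply Subtype.ext
      exact (ps_fn hel a n f b).symm)
    (by
      intro n r b
      show natS.rl n r b ↔ S.rl n r (fun i => φ (b i))
      have := el_udef hel (P := fun S e => S.rl n r (fun i => e i))
        ⟨⟨.rl n r (fun i => .var i), fun _ _ => Iff.rfl⟩⟩
        (fun i => if hi : i < n then b ⟨i, hi⟩ else 0)
      simpa using this) f e
  exact h2.symm

theorem ps_tdef {t : (S : Str Lar) → (ℕ → S.M) → S.M} (ht : TDef t) (e : ℕ → ℕ) :
    t (S.sub (DomC S φ a) (DomC.closed hel a)) (fun i => ps hel a (e i)) =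
      ps hel a (t natS e) := by
  apply Subtype.ext
  rw [ht.sub_val]
  exact (el_tdef hel ht e).symm

theorem ps_lk {θ : Fm Lar}
    (hθ : ∀ e : ℕ → ℕ, θ.Sat natS e ↔ e 0 = Lk (up1 (e 1)) (up2 (e 1))) (s b y : ℕ) :
    LkJ θ (S.sub (DomC S φ a) (DomC.closed hel a)) (JJ hel a) (ps hel a s) (ps hel a b)
      (ps hel a y) ↔ y = Lk s b := by
  have h1 : prS (S.sub (DomC S φ a) (DomC.closed hel a)) (ps hel a s) (ps hel a b) =
      ps hel a (pr s b) :=
    ps_tdef hel a (t := fun S e => prS S (e 0) (e 1)) inferInstance (cn s (fun _ => b))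
  have h2 : (cn (ps hel a y) (fun _ => prS (S.sub (DomC S φ a) (DomC.closed hel a))
      (ps hel a s) (ps hel a b))) = (fun i => ps hel a (cn y (fun _ => pr s b) i)) := by
    rw [h1]
    funext i; cases i <;> rfl
  unfold LkJ
  rw [h2, ps_sat, hθ]
  simp only [cn_zero, cn_one, up1_pr, up2_pr]
  exact ⟨fun h => h.2.2.2, fun h => ⟨⟨_, rfl⟩, ⟨_, rfl⟩, ⟨_, rfl⟩, h⟩⟩

end model2

/-- The theory `A` is consistent. -/
theorem exists_propA (piA : List PiAx) (θ : Fm Lar)
    (hθ : ∀ e : ℕ → ℕ, θ.Sat natS e ↔ e 0 = Lk (up1 (e 1)) (up2 (e 1))) :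
    ∃ (R : Str Lar) (J : R.M → Prop), PropA piA θ R J := by
  obtain ⟨S, φ, hel, c, hc⟩ := exists_nonstd
  have hp := el_pic hel
  have hz : φ 0 = S.zr := el_tdef hel (t := fun S _ => S.zr) inferInstance (fun _ => 0)
  refine ⟨S.sub (DomC S φ (e2 S c)) (DomC.closed hel (e2 S c)), JJ hel (e2 S c), ?_⟩
  set a := e2 S c with ha
  have hR : PiC (S.sub (DomC S φ a) (DomC.closed hel a)) :=
    PiC.sub (DomC.closed hel a) (DomC.init hel a)
  have hle : ∀ x : S.M, S.le x (e2 S x) := fun x =>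
    el_all hel (P := fun S e => S.le (e 0) (e2 S (e 0))) inferInstance (fun e => by
      show e 0 ≤ 2 ^ ((0 + 1 : ℕ).size * (e 0).size)
      rw [show (0 + 1 : ℕ).size = 1 from Nat.size_one, one_mul]
      exact (Nat.lt_size_self _).le) (fun _ => x)
  have hl3 : ∀ x : S.M, S.le (l3 S x) x := fun x =>
    el_all hel (P := fun S e => S.le (l3 S (e 0)) (e 0)) inferInstance (fun e => by
      simp only [l3, natS_le, natS_ln]
      have : ∀ x : ℕ, x.size ≤ x := fun x => Nat.size_le.2 Nat.lt_two_pow_self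
      exact ((this _).trans (this _)).trans (this _)) (fun _ => x)
  have hDa : DomC S φ a a := ⟨0, by
    rw [hz]
    exact (PiC.trans' S (hl3 a) (by rw [ad_eq, zr_eq, add_zero]; exact (le_refl a)))⟩
  have hDc : DomC S φ a c := DomC.init hel a c a hDa (hle c)
  constructor
  · exact hR
  · intro b hb
    exact PiAx.Holds.sub (fun e => el_all hel b.bdef.uDef b.nat e) (DomC.closed hel a)
      (DomC.init hel a)
  · exact JJ.closed hel a
  · rintro x y ⟨n, rfl⟩ hxy
    rw [sub_le] at hxy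
    obtain ⟨m, hm⟩ := el_init hel hxy
    exact ⟨m, Subtype.ext hm⟩
  · rintro x ⟨n, hn⟩
    have h1 : S.ln x.1 = φ n := by
      have h2 := TDef.sub_val (t := fun S e => S.ln (e 0)) inferInstance S (DomC S φ a)
        (DomC.closed hel a) (fun _ => x)
      rw [← h2]
      exact Subtype.ext_iff.1 hn
    obtain ⟨m, hm⟩ : ∃ m : ℕ, m.size = n := by
      rcases Nat.eq_zero_or_pos n with h0 | h0
      · exact ⟨0, by rw [h0]; exact Nat.size_zero⟩
      · refine ⟨2 ^ (n - 1), ?_⟩
        rw [Nat.size_pow]; omega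
    have h3 : S.ln (φ m) = φ n := by
      rw [← hm]
      exact (el_tdef hel (t := fun S e => S.ln (e 0)) inferInstance (fun _ => m)).symm
    have h4 : S.le x.1 (e2 S (φ m)) :=
      el_all hel (P := fun S e => S.ln (e 0) = S.ln (e 1) → S.le (e 0) (e2 S (e 1)))
        inferInstance (fun e h => by
          show e 0 ≤ 2 ^ ((0 + 1 : ℕ).size * (e 1).size)
          have h' : (e 0).size = (e 1).size := h
          rw [show (0 + 1 : ℕ).size = 1 from Nat.size_one, one_mul, ← h']
          exact (Nat.lt_size_self _).le) (cn x.1 (fun _ => φ m)) (h1.trans h3.symm)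
    have h5 : e2 S (φ m) = φ (e2 natS m) :=
      (el_tdef hel (t := fun S e => e2 S (e 0)) inferInstance (fun _ => m)).symm
    rw [h5] at h4
    obtain ⟨k, hk⟩ := el_init hel h4
    exact ⟨k, Subtype.ext hk⟩
  · rintro x s ⟨x, rfl⟩ ⟨s, rfl⟩
    have h1 : consS (S.sub (DomC S φ a) (DomC.closed hel a)) (ps hel a x) (ps hel a s) =
        ps hel a (consN x s) :=
      ps_tdef hel a (t := fun S e => consS S (e 0) (e 1)) inferInstance (cn x (fun _ => s))
    have h2 : (S.sub (DomC S φ a) (DomC.closed hel a)).zr = ps hel a 0 :=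
      ps_tdef hel a (t := fun S _ => S.zr) inferInstance (fun _ => 0)
    rw [h1, h2, ps_lk hel a hθ, Lk_cons_zero]
  · rintro x s b y ⟨x, rfl⟩ hlk
    obtain ⟨⟨s, rfl⟩, ⟨b, rfl⟩, ⟨y, rfl⟩, _⟩ := id hlk
    rw [ps_lk hel a hθ] at hlk
    have h1 : consS (S.sub (DomC S φ a) (DomC.closed hel a)) (ps hel a x) (ps hel a s) =
        ps hel a (consN x s) :=
      ps_tdef hel a (t := fun S e => consS S (e 0) (e 1)) inferInstance (cn x (fun _ => s))
    have h2 : (S.sub (DomC S φ a) (DomC.closed hel a)).sc (ps hel a b) = ps hel a (b + 1) :=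
      ps_tdef hel a (t := fun S e => S.sc (e 0)) inferInstance (fun _ => b)
    rw [h1, h2, ps_lk hel a hθ, Lk_cons_succ]
    exact hlk
  · refine ⟨⟨a, hDa⟩, ?_, ⟨⟨c, hDc⟩, ?_⟩, ?_, ?_⟩
    · rintro ⟨n, hn⟩
      have h1 : a = φ n := Subtype.ext_iff.1 hn
      have h2 : S.le (φ (n + 1)) (φ n) := by
        rw [← h1]
        exact PiC.trans' S (hc (n + 1)) (hle c)
      have h3 := (el_udef hel (P := fun S e => S.le (e 0) (e 1)) inferInstance
        (cn (n + 1) (fun _ => n))).2 h2
      have h4 : n + 1 ≤ n := h3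
      omega
    · apply Subtype.ext
      rw [TDef.sub_val (t := fun S e => e2 S (e 0)) inferInstance S (DomC S φ a)
        (DomC.closed hel a) (fun _ => ⟨c, hDc⟩)]
    · obtain ⟨y, hy⟩ : ∃ y, l3 S y = a :=
        el_all hel (P := fun S e => ∃ y, l3 S y = e 0) inferInstance (fun e => by
          have hsz : ∀ n : ℕ, ∃ m : ℕ, m.size = n := by
            intro n
            rcases Nat.eq_zero_or_pos n with h0 | h0
            · exact ⟨0, by rw [h0]; exact Nat.size_zero⟩
            · refine ⟨2 ^ (n - 1), ?_⟩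
              rw [Nat.size_pow]; omega
          obtain ⟨u, hu⟩ := hsz (e 0)
          obtain ⟨v, hv⟩ := hsz u
          obtain ⟨w, hw⟩ := hsz v
          refine ⟨w, ?_⟩
          simp only [l3, natS_ln]
          rw [hw, hv, hu]) (fun _ => a)
      have hDy : DomC S φ a y := ⟨0, by
        rw [hz, hy, ad_eq, zr_eq, add_zero]; exact (le_refl a)⟩
      refine ⟨⟨y, hDy⟩, ?_⟩
      apply Subtype.ext
      rw [TDef.sub_val (t := fun S e => l3 S (e 0)) inferInstance S (DomC S φ a)
        (DomC.closed hel a) (fun _ => ⟨y, hDy⟩)]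
      exact hy
    · rintro ⟨y, n, hn⟩
      refine ⟨ps hel a n, ⟨n, rfl⟩, ?_⟩
      have h1 : (l3 (S.sub (DomC S φ a) (DomC.closed hel a)) ⟨y, n, hn⟩).1 = l3 S y :=
        TDef.sub_val (t := fun S e => l3 S (e 0)) inferInstance S (DomC S φ a)
          (DomC.closed hel a) (fun _ => ⟨y, n, hn⟩)
      have h2 : ((S.sub (DomC S φ a) (DomC.closed hel a)).ad ⟨a, hDa⟩ (ps hel a n)).1 =
          S.ad a (φ n) :=
        TDef.sub_val (t := fun S e => S.ad (e 0) (e 1)) inferInstance S (DomC S φ a)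
          (DomC.closed hel a) (cn ⟨a, hDa⟩ (fun _ => ps hel a n))
      rw [sub_le, h1, h2]
      exact hn

end Pool.Agent.MP81222b
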