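import Pool.Agent.Lib.MP_81222b_lc.Lnp
import Pool.Agent.Lib.MP_81222b_lc.Alg

/-!
# Cuts satisfy `S^1_2`

Bridge between the families `IsT`, `IsB` and formulas, and the theorem that small cuts are models
of `S^1_2`.
-/

namespace Pool.Agent.MP81222b

open Pool.Agent.Lib.MP_81222b_lc (Ar IsT IsB TT BB Fact facts Nice Cut Small Exp mkF cns tl)

/-- A structure for the language of `S^1_2` as a member of the class `Ar`. -/
@[reducible] def arS (S : Str Lar) : Ar S.M where
  zero := S.zr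
  add := S.ad
  mul := S.ml
  le := S.le
  sc := S.sc
  hf := S.hf
  ln := S.ln
  sm := S.sm

theorem cns_eq {M : Type} (a : M) (v : ℕ → M) : cns a v = cn a v := by
  funext n; cases n <;> rfl

theorem isT_toTm {t : ∀ (M : Type) [Ar M], (ℕ → M) → M} (h : IsT t) :
    ∃ τ : Tm Lar, ∀ (S : Str Lar) (e : ℕ → S.M), @t S.M (arS S) e = τ.val S e := by
  induction h with
  | var n => exact ⟨.var n, fun _ _ => rfl⟩
  | zr => exact ⟨tZ, fun S e => by rw [val_tZ]; rfl⟩
  | sc _ ih => obtain ⟨τ, h⟩ := ih; exact ⟨tS τ, fun S e => by rw [val_tS, ← h]; rfl⟩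
  | hf _ ih => obtain ⟨τ, h⟩ := ih; exact ⟨tH τ, fun S e => by rw [val_tH, ← h]; rfl⟩
  | ln _ ih => obtain ⟨τ, h⟩ := ih; exact ⟨tN τ, fun S e => by rw [val_tN, ← h]; rfl⟩
  | ad _ _ i1 i2 =>
    obtain ⟨τ, h⟩ := i1
    obtain ⟨υ, h'⟩ := i2
    exact ⟨tA τ υ, fun S e => by rw [val_tA, ← h, ← h']; rfl⟩
  | ml _ _ i1 i2 =>
    obtain ⟨τ, h⟩ := i1
    obtain ⟨υ, h'⟩ := i2
    exact ⟨tM τ υ, fun S e => by rw [val_tM, ← h, ← h']; rfl⟩
  | sm _ _ i1 i2 =>
    obtain ⟨τ, h⟩ := i1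
    obtain ⟨υ, h'⟩ := i2
    exact ⟨tP τ υ, fun S e => by rw [val_tP, ← h, ← h']; rfl⟩

theorem isB_toFm {P : ∀ (M : Type) [Ar M], (ℕ → M) → Prop} (h : IsB P) :
    ∃ f : Fm Lar, Bdd f ∧ ∀ (S : Str Lar) (e : ℕ → S.M), @P S.M (arS S) e ↔ f.Sat S e := by
  induction h with
  | eq h1 h2 =>
    obtain ⟨τ, h⟩ := isT_toTm h1
    obtain ⟨υ, h'⟩ := isT_toTm h2
    exact ⟨.eq τ υ, .eq _ _, fun S e => by simp only [h, h', Fm.Sat]⟩
  | le h1 h2 =>
    obtain ⟨τ, h⟩ := isT_toTm h1
    obtain ⟨υ, h'⟩ := isT_toTm h2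
    exact ⟨fLe τ υ, .rl _ _ _, fun S e => by rw [sat_fLe, ← h, ← h']; rfl⟩
  | fls => exact ⟨.bot, .bot, fun _ _ => Iff.rfl⟩
  | imp _ _ i1 i2 =>
    obtain ⟨f, hf, h⟩ := i1
    obtain ⟨g, hg, h'⟩ := i2
    exact ⟨.imp f g, .imp _ _ hf hg, fun S e => by simp only [Fm.Sat, h, h']⟩
  | @ball t P h1 _ i2 =>
    obtain ⟨τ, h⟩ := isT_toTm h1
    obtain ⟨f, hf, h'⟩ := i2
    exact ⟨ball τ f, .ball _ _ hf, fun S e => by
      rw [sat_ball]
      refine forall_congr' fun x => ?_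
      rw [h, cns_eq, h']
      rfl⟩

/-- Evaluate a family at a structure. -/
@[reducible] def ap (t : ∀ (M : Type) [Ar M], (ℕ → M) → M) (S : Str Lar) (e : ℕ → S.M) : S.M :=
  @t S.M (arS S) e

theorem tm_isT (τ : Tm Lar) : ∃ t : ∀ (M : Type) [Ar M], (ℕ → M) → M, IsT t ∧
    ∀ (S : Str Lar) (e : ℕ → S.M), τ.val S e = @t S.M (arS S) e := by
  induction τ with
  | var i => exact ⟨_, .var i, fun _ _ => rfl⟩
  | fn n f ts ih =>
    choose t ht h using ih
    match n, f, ts, t, ht, h with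
    | 0, f, ts, t, ht, h =>
      refine ⟨_, .zr, fun S e => ?_⟩
      have hf : f = (⟨0, Nat.one_pos⟩ : Fin 1) := Subsingleton.elim (α := Fin 1) _ _
      subst hf
      change S.fn 0 _ _ = S.zr
      unfold Str.zr
      congr 1
      exact vec0
    | 1, f, ts, t, ht, h =>
      have hts : ∀ (S : Str Lar) (e : ℕ → S.M),
          (fun i => (ts i).val S e) = ![ap (t 0) S e] := by
        intro S e
        rw [vec1 (fun i => (ts i).val S e), h]
      change Fin 3 at f
      fin_cases f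
      · exact ⟨_, .sc (ht 0), fun S e => by
          change S.fn 1 _ (fun i => (ts i).val S e) = _
          rw [hts]; rfl⟩
      · exact ⟨_, .hf (ht 0), fun S e => by
          change S.fn 1 _ (fun i => (ts i).val S e) = _
          rw [hts]; rfl⟩
      · exact ⟨_, .ln (ht 0), fun S e => by
          change S.fn 1 _ (fun i => (ts i).val S e) = _
          rw [hts]; rfl⟩
    | 2, f, ts, t, ht, h =>
      have hts : ∀ (S : Str Lar) (e : ℕ → S.M),
          (fun i => (ts i).val S e) = ![ap (t 0) S e, ap (t 1) S e] := by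
        intro S e
        rw [vec2 (fun i => (ts i).val S e), h, h]
      change Fin 3 at f
      fin_cases f
      · exact ⟨_, .ad (ht 0) (ht 1), fun S e => by
          change S.fn 2 _ (fun i => (ts i).val S e) = _
          rw [hts]; rfl⟩
      · exact ⟨_, .ml (ht 0) (ht 1), fun S e => by
          change S.fn 2 _ (fun i => (ts i).val S e) = _
          rw [hts]; rfl⟩
      · exact ⟨_, .sm (ht 0) (ht 1), fun S e => by
          change S.fn 2 _ (fun i => (ts i).val S e) = _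
          rw [hts]; rfl⟩
    | n + 3, f, _, _, _, _ => exact Fin.elim0 f

theorem bdd_isB {f : Fm Lar} (hf : Bdd f) : ∃ P : ∀ (M : Type) [Ar M], (ℕ → M) → Prop, IsB P ∧
    ∀ (S : Str Lar) (e : ℕ → S.M), f.Sat S e ↔ @P S.M (arS S) e := by
  induction hf with
  | bot => exact ⟨_, .fls, fun _ _ => Iff.rfl⟩
  | eq t u =>
    obtain ⟨t', h1, h2⟩ := tm_isT t
    obtain ⟨u', h3, h4⟩ := tm_isT u
    exact ⟨_, .eq h1 h3, fun S e => by simp only [Fm.Sat, h2, h4]⟩
  | rl n r ts =>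
    match n, r, ts with
    | 0, r, _ => exact Fin.elim0 r
    | 1, r, _ => exact Fin.elim0 r
    | 2, r, ts =>
      obtain ⟨t', h1, h2⟩ := tm_isT (ts 0)
      obtain ⟨u', h3, h4⟩ := tm_isT (ts 1)
      refine ⟨_, .le h1 h3, fun S e => ?_⟩
      have hr : r = (⟨0, by decide⟩ : Fin 1) := Subsingleton.elim (α := Fin 1) _ _
      subst hr
      simp only [Fm.Sat]
      rw [vec2 (fun i => (ts i).val S e), h2, h4]
      rfl
    | n + 3, r, _ => exact Fin.elim0 r
  | imp f g _ _ ih ih' =>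
    obtain ⟨P, h1, h2⟩ := ih
    obtain ⟨Q, h3, h4⟩ := ih'
    exact ⟨_, .imp h1 h3, fun S e => by simp only [Fm.Sat, h2, h4]⟩
  | ball t f _ ih =>
    obtain ⟨t', h1, h2⟩ := tm_isT t
    obtain ⟨P, h3, h4⟩ := ih
    exact ⟨_, .ball h1 h3, fun S e => by
      rw [sat_ball]
      refine forall_congr' fun x => ?_
      rw [h2, h4, cns_eq]
      rfl⟩

/-- A fact as an axiom. -/
def ofFact (F : Fact) : PiAx where
  P S e := @F.P S.M (arS S) e
  bdef := ⟨isB_toFm F.b⟩
  nat e := F.t e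

open Pool.Agent.Lib.MP_81222b_lc in
/-- Existence of powers of two from existence of elements of given length. -/
def fExp : Fact := mkF (fun _ _ v => ln (v 1) = sc (v 0) → ∃ z, z ≤ v 1 ∧ Exp (v 0) z)
  inferInstance (by
    intro v h
    refine ⟨2 ^ v 0, ?_, ?_⟩
    · by_contra hc
      push Not at hc
      have h2 := Nat.size_le.2 hc
      have h3 : Nat.size (v 1) = v 0 + 1 := h
      omega
    · rw [exp_nat])

/-- The axioms for module C. -/
def piC : List PiAx := (facts ++ [fExp]).map ofFact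

theorem nice_of_piC {S : Str Lar} (hC : ∀ a ∈ piC, a.Holds S) : @Nice S.M (arS S) :=
  @Nice.mk S.M (arS S) fun F hF v => hC (ofFact F)
    (List.mem_map.2 ⟨F, by simp [hF], rfl⟩) v

/-- The cut given by an initial segment closed under the operations. -/
def toCut {S : Str Lar} {D : S.M → Prop} (h : ClosedU S D) (hi : InitU S D) : @Cut S.M (arS S) :=
  @Cut.mk S.M (arS S) D (fun {x y} hy hx => hi x y hy hx)
    (h.2 0 _ _ (fun i => i.elim0))
    (fun {x} hx => h.2 1 _ _ (fun i => by fin_cases i; exact hx))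
    (fun {x} hx => h.2 1 _ _ (fun i => by fin_cases i; exact hx))
    (fun {x} hx => h.2 1 _ _ (fun i => by fin_cases i; exact hx))
    (fun {x y} hx hy => h.2 2 _ _ (fun i => by fin_cases i <;> assumption))
    (fun {x y} hx hy => h.2 2 _ _ (fun i => by fin_cases i <;> assumption))
    (fun {x y} hx hy => h.2 2 _ _ (fun i => by fin_cases i <;> assumption))

/-- Least number principle for bounded formulas in small cuts. -/
theorem cut_lnp {S : Str Lar} [PiC S] (hC : ∀ a ∈ piC, a.Holds S) {D : S.M → Prop}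
    (h : ClosedU S D) (hi : InitU S D) (hexp : ∀ x, D x → ∃ y : S.M, S.ln y = x)
    {f : Fm Lar} (hf : Bdd f) (e : ℕ → S.M) (he : ∀ n, D (e n)) (x : S.M) (hx : D x)
    (hfx : f.Sat S (cn x e)) :
    ∃ y, S.le y x ∧ f.Sat S (cn y e) ∧ ∀ z, z < y → ¬ f.Sat S (cn z e) := by
  obtain ⟨P, h1, h2⟩ := bdd_isB hf
  let _ := arS S
  have _ : @Nice S.M (arS S) := nice_of_piC hC
  have hsm : Small (toCut h hi) := by
    intro B hB k
    have hDk : D (S.sc (B ^ k)) := by
      refine h.2 1 _ _ (fun i => ?_)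
      fin_cases i
      show D (B ^ k)
      induction k with
      | zero => 
        rw [pow_zero]
        exact (toCut h hi).sc (toCut h hi).zr
      | succ k ih =>
        rw [pow_succ]
        exact (toCut h hi).ml ih hB
    obtain ⟨y, hy⟩ := hexp _ hDk
    obtain ⟨z, _, hz⟩ := hC (ofFact fExp) (List.mem_map.2 ⟨fExp, by simp, rfl⟩)
      (cn (B ^ k) (cn y (fun _ => y))) hy
    exact ⟨z, hz⟩
  rw [h2, ← cns_eq] at hfx
  obtain ⟨y, h3, h4, h5⟩ := h1.lnp (toCut h hi) hsm e he x hx hfx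
  refine ⟨y, h3, ?_, fun z hz hc => ?_⟩
  · rw [h2, ← cns_eq]
    exact h4
  · rw [h2, ← cns_eq] at hc
    refine h5 z ?_ hc
    rw [lt_iff_le_not_ge] at hz ⊢
    exact hz

theorem sat_pind (S : Str Lar) (f : Fm Lar) (e : ℕ → S.M) : (pind f).Sat S e ↔
    (f.Sat S (cn S.zr e) → (∀ x, f.Sat S (cn (S.hf x) e) → f.Sat S (cn x e)) →
      ∀ x, f.Sat S (cn x e)) := by
  simp only [pind, Fm.Sat, Fm.sat_sub]
  refine imp_congr (iff_of_eq (congrArg _ ?_)) (imp_congr (forall_congr' fun x =>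
    imp_congr (iff_of_eq (congrArg _ ?_)) Iff.rfl) Iff.rfl)
  · funext i
    cases i with
    | zero => exact val_tZ S e
    | succ i => rfl
  · funext i
    cases i with
    | zero => exact val_tH S _ _
    | succ i => rfl

theorem hf_lt {S : Str Lar} [PiC S] (hC : ∀ a ∈ piC, a.Holds S) {x : S.M} (hx : x ≠ S.zr) :
    S.hf x < x := by
  let _ := arS S
  have _ : @Nice S.M (arS S) := nice_of_piC hC
  have h := (Pool.Agent.Lib.MP_81222b_lc.N.len x x).2.2.2.2.2.1 hx
  exact lt_iff_le_and_ne.2 ((PiC.disc' S _ _).2 h)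

/-- Initial cuts closed under the functions with `2 ^ x` existing satisfy `S^1_2`. -/
theorem cut_S12 {S : Str Lar} [PiC S] (hC : ∀ a ∈ piC, a.Holds S) {D : S.M → Prop}
    (h : ClosedU S D) (hi : InitU S D) (hexp : ∀ x, D x → ∃ y : S.M, S.ln y = x) :
    Mod (S.sub D h) S12 := by
  rintro g ⟨k, f, hf, hk, rfl⟩ e0
  rw [Fm.sat_alls_closed _ _ hk]
  intro e
  rcases hf with hf | ⟨a, ha, rfl⟩
  · exact (PiC.sub h hi).bas f hf e
  · rw [sat_pind]
    intro h0 hs x
    rw [ha.bdd.sat_sub S D h hi]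
    by_contra hc
    rw [sub_coe_cn] at hc
    obtain ⟨y, h1, h2, h3⟩ := cut_lnp hC h hi hexp (Bdd.neg ha.bdd) (fun i => (e i).1)
      (fun i => (e i).2) x.1 x.2 hc
    have hDy : D y := hi _ _ x.2 h1
    apply h2
    by_cases hy : y = S.zr
    · rw [ha.bdd.sat_sub S D h hi, sub_coe_cn] at h0
      rw [hy]
      have : ((S.sub D h).zr).1 = S.zr := by
        unfold Str.zr
        change S.fn 0 _ _ = S.fn 0 _ _
        congr 1
        exact vec0
      rw [← this]
      exact h0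
    · have h4 := hs ⟨y, hDy⟩
      rw [ha.bdd.sat_sub S D h hi, ha.bdd.sat_sub S D h hi, sub_coe_cn, sub_coe_cn] at h4
      apply h4
      have h5 := h3 (S.hf y) (hf_lt hC hy)
      have h6 : ((S.sub D h).hf ⟨y, hDy⟩).1 = S.hf y := by
        unfold Str.hf
        change S.fn 1 _ (fun i => ((![⟨y, hDy⟩] : Fin 1 → (S.sub D h).M) i).1) = S.fn 1 _ _
        rw [vec1 (fun i => ((![⟨y, hDy⟩] : Fin 1 → (S.sub D h).M) i).1)]
        rfl
      rw [h6]
      simp only [Fm.sat_neg, not_not] at h5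
      exact h5

end Pool.Agent.MP81222b
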