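import Pool.Agent.Lib.MP_81222b_lc.Dfn
import Pool.Agent.Lib.MP_81222b_lc.TmSem

/-!
# The structure defined by an interpretation; translations of relational formulas
-/

namespace Pool.Agent.MP81222b

variable {L L₁ L₂ : Lang}

theorem noFn {n : ℕ} (h : L.Fn n = 0) (f : Fin (L.Fn n)) : False := by
  have := f.2
  omega

/-! ### The structure defined by an interpretation, up to isomorphism -/

/-- If `B` is embedded in `S` such that the interpretation `I` defines the image of `B`, then `I`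
is valid in `S` and defines a copy of `B`. -/
theorem ind_iso' (I : Interp L₁ L₂) (S : Str L₂) (B : Str L₁) (ι : B.M → S.M)
    (hinj : Function.Injective ι)
    (hD : ∀ x, I.D S x ↔ ∃ b, ι b = x)
    (hF : ∀ n f (a : Fin n → B.M) b, I.F S n f (fun i => ι (a i)) (ι b) ↔ b = B.fn n f a)
    (hR : ∀ n r (a : Fin n → B.M), I.R S n r (fun i => ι (a i)) ↔ B.rl n r a) :
    ∃ h : I.Valid S, ∀ (f : Fm L₁) (e : ℕ → B.M) (e' : ℕ → (I.ind S h).M),
      (∀ i, (e' i).1 = ι (e i)) → (f.Sat B e ↔ f.Sat (I.ind S h) e') := by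
  have h : I.Valid S := by
    refine ⟨?_, ?_⟩
    · obtain ⟨b⟩ := B.inh
      exact ⟨ι b, (hD _).2 ⟨b, rfl⟩⟩
    · intro n f a ha
      choose b hb using fun i => (hD _).1 (ha i)
      have ea : a = fun i => ι (b i) := funext fun i => (hb i).symm
      subst ea
      refine ⟨ι (B.fn n f b), ⟨(hD _).2 ⟨_, rfl⟩, (hF n f b _).2 rfl⟩, ?_⟩
      rintro y ⟨hy1, hy2⟩
      obtain ⟨c, rfl⟩ := (hD _).1 hy1
      rw [(hF n f b c).1 hy2]
  refine ⟨h, fun f e e' he => ?_⟩
  have key := Fm.sat_iso B (I.ind S h) (fun b => ⟨ι b, (hD _).2 ⟨b, rfl⟩⟩)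
    (fun x y hxy => hinj (Subtype.ext_iff.1 hxy))
    (by rintro ⟨y, hy⟩; obtain ⟨b, rfl⟩ := (hD _).1 hy; exact ⟨b, rfl⟩)
    (fun n f a => (I.ind_fn S h n f _ _).1 ((hF n f a _).2 rfl))
    (fun n r a => (hR n r a).symm) f e
  rw [key]
  have : e' = fun i => ⟨ι (e i), (hD _).2 ⟨e i, rfl⟩⟩ := funext fun i => Subtype.ext (he i)
  rw [this]

theorem ind_iso (I : Interp L₁ L₂) (S : Str L₂) (B : Str L₁) (ι : B.M → S.M)
    (hinj : Function.Injective ι)
    (hD : ∀ x, I.D S x ↔ ∃ b, ι b = x)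
    (hF : ∀ n f (a : Fin n → B.M) b, I.F S n f (fun i => ι (a i)) (ι b) ↔ b = B.fn n f a)
    (hR : ∀ n r (a : Fin n → B.M), I.R S n r (fun i => ι (a i)) ↔ B.rl n r a) :
    ∃ h : I.Valid S, ∀ Th, Mod B Th ↔ Mod (I.ind S h) Th := by
  obtain ⟨h, H⟩ := ind_iso' I S B ι hinj hD hF hR
  refine ⟨h, fun Th => forall_congr' fun f => imp_congr Iff.rfl ⟨fun hf e' => ?_, fun hf e => ?_⟩⟩
  · choose b hb using fun i => (hD _).1 (e' i).2
    exact (H f b e' (fun i => (hb i).symm)).1 (hf b)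
  · exact (H f e (fun i => ⟨ι (e i), (hD _).2 ⟨e i, rfl⟩⟩) (fun i => rfl)).2 (hf _)

/-! ### Clipping of variables -/

theorem Fm.bd_ren (f : Fm L) (ρ : ℕ → ℕ) (l : ℕ) (h : ∀ i, ρ i < l) : (f.ren ρ).bd l := by
  obtain ⟨k, hk⟩ := f.exists_bd
  exact f.bd_sub (k := k) (l := l) (fun i _ => h i) hk

/-- Replacement of the variables `≥ n` by the variable `0`. -/
def Fm.clip (n : ℕ) (f : Fm L) : Fm L := f.ren (fun i => if i < n then i else 0)

theorem Fm.bd_clip {n : ℕ} (hn : 1 ≤ n) (f : Fm L) : (f.clip n).bd n :=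
  f.bd_ren _ n fun i => by
    show (if i < n then i else 0) < n
    split_ifs <;> omega

theorem sat_clip {n : ℕ} (S : Str L) (f : Fm L) (e : ℕ → S.M) :
    (f.clip n).Sat S e ↔ f.Sat S (fun i => if i < n then e i else e 0) := by
  unfold Fm.clip
  rw [sat_ren]
  have : (fun i => e (if i < n then i else 0)) = fun i => if i < n then e i else e 0 := by
    funext i; split_ifs <;> rfl
  rw [this]

/-- Closing a formula whose meaning does not depend on the assignment. -/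
def Fm.clip0 (f : Fm L) : Fm L := .all (f.ren (fun _ => 0))

theorem Fm.closed_clip0 (f : Fm L) : f.clip0.Closed :=
  f.bd_ren (fun _ => 0) 1 (fun _ => Nat.one_pos)

theorem sat_clip0 (S : Str L) (f : Fm L) (e : ℕ → S.M) :
    f.clip0.Sat S e ↔ ∀ x, f.Sat S (fun _ => x) :=
  forall_congr' fun x => sat_ren S f _ (cn x e)

theorem UDef.clip {n : ℕ} (hn : 1 ≤ n) {P : (S : Str L) → (ℕ → S.M) → Prop} (h : UDef P)
    (hP : ∀ S (e e' : ℕ → S.M), (∀ i < n, e i = e' i) → (P S e ↔ P S e')) :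
    ∃ f : Fm L, f.bd n ∧ ∀ S e, P S e ↔ f.Sat S e := by
  obtain ⟨f, hf⟩ := h.ex
  refine ⟨f.clip n, f.bd_clip hn, fun S e => ?_⟩
  rw [sat_clip, ← hf]
  exact hP S _ _ fun i hi => by rw [if_pos hi]

theorem UDef.clip0 {P : (S : Str L) → (ℕ → S.M) → Prop} (h : UDef P)
    (hP : ∀ S (e e' : ℕ → S.M), P S e ↔ P S e') :
    ∃ f : Fm L, f.Closed ∧ ∀ S e, P S e ↔ f.Sat S e := by
  obtain ⟨f, hf⟩ := h.ex
  refine ⟨f.clip0, f.closed_clip0, fun S e => ?_⟩
  rw [sat_clip0]
  simp only [← hf]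
  exact ⟨fun h x => (hP S _ _).1 h, fun h => (hP S (fun _ => e 0) e).1 (h (e 0))⟩

theorem VDef.clip {n : ℕ} (hn : 1 ≤ n)
    {P : (R : Str Lar) → (J T : R.M → Prop) → (ℕ → R.M) → Prop} (h : VDef P)
    (hP : ∀ R J T (e e' : ℕ → R.M), (∀ i < n, e i = e' i) → (P R J T e ↔ P R J T e')) :
    ∃ f : Fm LA.addT, f.bd n ∧ ∀ R J T e, P R J T e ↔ f.Sat (mkLT R J T) e := by
  obtain ⟨f, hf⟩ := h.ex
  refine ⟨f.clip n, f.bd_clip hn, fun R J T e => ?_⟩
  rw [sat_clip, ← hf]
  exact hP R J T _ _ fun i hi => by rw [if_pos hi]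

theorem VDef.clip0 {P : (R : Str Lar) → (J T : R.M → Prop) → (ℕ → R.M) → Prop} (h : VDef P)
    (hP : ∀ R J T (e e' : ℕ → R.M), P R J T e ↔ P R J T e') :
    ∃ f : Fm LA.addT, f.Closed ∧ ∀ R J T e, P R J T e ↔ f.Sat (mkLT R J T) e := by
  obtain ⟨f, hf⟩ := h.ex
  refine ⟨f.clip0, f.closed_clip0, fun R J T e => ?_⟩
  rw [sat_clip0]
  simp only [← hf]
  exact ⟨fun h x => (hP R J T _ _).1 h, fun h => (hP R J T (fun _ => e 0) e).1 (h (e 0))⟩

/-! ### Translation of formulas of a relational language -/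

/-- The index of a variable. -/
def Tm.ix : Tm L → ℕ
  | .var i => i
  | .fn _ _ _ => 0

/-- The translation of a formula of a relational language under an interpretation. -/
def trI (I : Interp L₁ L₂) : Fm L₁ → Fm L₂
  | .bot => .bot
  | .eq t u => .eq (.var t.ix) (.var u.ix)
  | .rl n r ts => (I.rl n r).sub (fun i => if h : i < n then .var (ts ⟨i, h⟩).ix else .var 0)
  | .imp f g => .imp (trI I f) (trI I g)
  | .all f => .all (.imp I.dom (trI I f))

theorem Tm.ix_lt {k : ℕ} (hL : ∀ n, L.Fn n = 0) (t : Tm L) (ht : t.bd k) : t.ix < k := by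
  cases t with
  | var i => exact ht
  | fn n f ts => exact (noFn (hL n) f).elim

theorem Tm.val_ix (hL : ∀ n, L.Fn n = 0) (S : Str L) (t : Tm L) (e : ℕ → S.M) :
    t.val S e = e t.ix := by
  cases t with
  | var i => rfl
  | fn n f ts => exact (noFn (hL n) f).elim

theorem trI_bd (I : Interp L₁ L₂) (hL : ∀ n, L₁.Fn n = 0) (f : Fm L₁) :
    ∀ k, f.bd k → (trI I f).bd k := by
  induction f with
  | bot => intro k _; trivial
  | eq t u => intro k h; exact ⟨t.ix_lt hL h.1, u.ix_lt hL h.2⟩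
  | rl n r ts =>
    intro k h
    refine Fm.bd_sub (k := n) (l := k) _ (fun i hi => ?_) (I.rl_bd n r)
    rw [dif_pos hi]
    exact (ts ⟨i, hi⟩).ix_lt hL (h ⟨i, hi⟩)
  | imp f g ihf ihg => intro k h; exact ⟨ihf k h.1, ihg k h.2⟩
  | all f ih => intro k h; exact ⟨I.dom.bd_mono (by omega) I.dom_bd, ih (k + 1) h⟩

theorem trI_closed (I : Interp L₁ L₂) (hL : ∀ n, L₁.Fn n = 0) {f : Fm L₁} (h : f.Closed) :
    (trI I f).Closed := trI_bd I hL f 0 h

theorem sat_dom (I : Interp L₁ L₂) (S : Str L₂) (x : S.M) (e : ℕ → S.M) :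
    I.dom.Sat S (cn x e) ↔ I.D S x :=
  I.dom.sat_congr S (k := 1) (fun i hi => by
    have : i = 0 := by omega
    subst this; rfl) I.dom_bd

theorem sat_trI (I : Interp L₁ L₂) (hL : ∀ n, L₁.Fn n = 0) (S : Str L₂) (h : I.Valid S)
    (f : Fm L₁) : ∀ e : ℕ → (I.ind S h).M,
    (trI I f).Sat S (fun i => (e i).1) ↔ f.Sat (I.ind S h) e := by
  induction f with
  | bot => intro e; exact Iff.rfl
  | eq t u =>
    intro e
    show (e t.ix).1 = (e u.ix).1 ↔ t.val (I.ind S h) e = u.val (I.ind S h) e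
    rw [t.val_ix hL, u.val_ix hL]
    exact Subtype.ext_iff.symm
  | rl n r ts =>
    intro e
    show ((I.rl n r).sub (fun i => if h : i < n then .var (ts ⟨i, h⟩).ix else .var 0)).Sat S
      (fun i => (e i).1) ↔ I.R S n r (fun i => ((ts i).val (I.ind S h) e).1)
    rw [Fm.sat_sub]
    unfold Interp.R
    refine (I.rl n r).sat_congr S (k := n) (fun i hi => ?_) (I.rl_bd n r)
    rw [dif_pos hi]
    unfold xt
    rw [dif_pos hi]
    exact congrArg Subtype.val (Tm.val_ix hL (I.ind S h) (ts ⟨i, hi⟩) e).symm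
  | imp f g ihf ihg => intro e; exact imp_congr (ihf e) (ihg e)
  | all f ih =>
    intro e
    show (∀ x : S.M, I.dom.Sat S (cn x fun i => (e i).1) →
      (trI I f).Sat S (cn x fun i => (e i).1)) ↔ ∀ x, f.Sat (I.ind S h) (cn x e)
    have e1 : ∀ x : (I.ind S h).M, (fun i => (cn x e i).1) = cn x.1 (fun i => (e i).1) := by
      intro x; funext i; cases i <;> rfl
    constructor
    · intro H x
      rw [← ih, e1]
      exact H x.1 ((sat_dom I S x.1 _).2 x.2)
    · intro H x hx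
      obtain ⟨y, rfl⟩ : ∃ y : (I.ind S h).M, y.1 = x := ⟨⟨x, (sat_dom I S x _).1 hx⟩, rfl⟩
      rw [← e1]
      exact (ih (cn y e)).2 (H y)

/-- A sentence true in `S` exactly if the interpretation `I` (of a relational language) is
valid. -/
def validF (I : Interp L₁ L₂) : Fm L₂ := .ex I.dom

theorem validF_closed (I : Interp L₁ L₂) : (validF I).Closed :=
  ⟨⟨I.dom_bd, trivial⟩, trivial⟩

theorem valid_iff (I : Interp L₁ L₂) (hL : ∀ n, L₁.Fn n = 0) (S : Str L₂) :
    I.Valid S ↔ ∃ x, I.D S x :=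
  ⟨fun h => h.1, fun h => ⟨h, fun n f => (noFn (hL n) f).elim⟩⟩

theorem sat_validF (I : Interp L₁ L₂) (hL : ∀ n, L₁.Fn n = 0) (S : Str L₂) (e : ℕ → S.M) :
    (validF I).Sat S e ↔ I.Valid S := by
  rw [valid_iff I hL]
  unfold validF
  rw [Fm.sat_ex]
  simp only [sat_dom]

/-- Truth of a sentence in the interpreted structure. -/
theorem sat_trI_mod (I : Interp L₁ L₂) (hL : ∀ n, L₁.Fn n = 0) (S : Str L₂) (h : I.Valid S)
    {f : Fm L₁} (hf : f.Closed) (e : ℕ → S.M) (e' : ℕ → (I.ind S h).M) :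
    (trI I f).Sat S e ↔ f.Sat (I.ind S h) e' := by
  rw [← sat_trI I hL S h f e']
  exact (trI I f).sat_closed S (trI_closed I hL hf) _ _

theorem LA_Fn : ∀ n, LA.Fn n = 0 := fun _ => rfl
theorem LAT_Fn : ∀ n, LA.addT.Fn n = 0 := fun _ => rfl

/-! ### Interpretations given by definable predicates -/

/-- `x` at all places. -/
theorem xt_ltI (S : Str L) {n : ℕ} (a : Fin n → S.M) {i : ℕ} (h : i < n) :
    xt S a i = a ⟨i, h⟩ := by
  unfold xt; rw [dif_pos h]

/-- An interpretation of the language of arithmetic in a subset of `R` defined over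
`mkLT R J T`. -/
theorem exists_interpV {P : (R : Str Lar) → (J T : R.M → Prop) → R.M → Prop}
    (hP : VDef (fun R J T e => P R J T (e 0))) :
    ∃ K : Interp Lar LA.addT, ∀ (R : Str Lar) (J T : R.M → Prop),
      (∀ x : R.M, K.D (mkLT R J T) x ↔ P R J T x) ∧
      (∀ n f (a : Fin n → R.M) (y : R.M), K.F (mkLT R J T) n f a y ↔ y = R.fn n f a) ∧
      (∀ n r (a : Fin n → R.M), K.R (mkLT R J T) n r a ↔ R.rl n r a) := by
  obtain ⟨p, hpb, hp⟩ := hP.clip (n := 1) le_rfl (fun R J T e e' h => by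
    rw [h 0 Nat.one_pos])
  have hfn : ∀ (n : ℕ) (f : Fin (Lar.Fn n)), ∃ g : Fm LA.addT, g.bd (n + 1) ∧
      ∀ (R : Str Lar) (J T : R.M → Prop) (e : ℕ → R.M) (y : R.M),
        g.Sat (mkLT R J T) (cn y e) ↔ y = R.fn n f (fun i => e i) := by
    intro n f
    have hd : VDef (fun R _ _ e => e 0 = R.fn n f (fun i => e (i.1 + 1))) := by
      have h1 := (gval (.fn n f (fun i => .var i.1))).ren (fun i => i + 1)
      exact inferInstanceAs (VDef (fun R J T e => e 0 =
        (fun (R : Str Lar) (_ _ : R.M → Prop) (e : ℕ → R.M) =>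
          Tm.val R (fun i => e (i + 1)) (.fn n f (fun i => .var i.1))) R J T e))
    obtain ⟨g, hgb, hg⟩ := hd.clip (n := n + 1) (by omega) (fun R J T e e' h => by
      have h1 : (fun i : Fin n => e (i.1 + 1)) = fun i : Fin n => e' (i.1 + 1) :=
        funext fun i => h _ (by have := i.2; omega)
      rw [h 0 (by omega), h1])
    refine ⟨g, hgb, fun R J T e y => ?_⟩
    rw [← hg]
    exact Iff.rfl
  have hrl : ∀ (n : ℕ) (r : Fin (Lar.Rl n)), ∃ g : Fm LA.addT, g.bd n ∧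
      ∀ (R : Str Lar) (J T : R.M → Prop) (e : ℕ → R.M),
        g.Sat (mkLT R J T) e ↔ R.rl n r (fun i => e i) := by
    intro n r
    match n, r with
    | 0, r => exact (r : Fin 0).elim0
    | 1, r => exact (r : Fin 0).elim0
    | 2, r =>
      obtain ⟨g, hgb, hg⟩ := vle.clip (n := 2) (by omega) (fun R J T e e' h => by
        rw [h 0 (by omega), h 1 (by omega)])
      refine ⟨g, hgb, fun R J T e => ?_⟩
      rw [← hg]
      have hr : r = (⟨0, by decide⟩ : Fin 1) := Subsingleton.elim (α := Fin 1) _ _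
      rw [hr, vec2 (fun i : Fin 2 => e i)]
      exact Iff.rfl
    | n + 3, r => exact (r : Fin 0).elim0
  choose F hFb hF using hfn
  choose G hGb hG using hrl
  refine ⟨⟨p, F, G, hpb, hFb, hGb⟩, fun R J T => ⟨fun x => ?_, fun n f a y => ?_, fun n r a => ?_⟩⟩
  · exact (hp R J T (fun _ => x)).symm
  · show (F n f).Sat (mkLT R J T) (cn y (xt (mkLT R J T) a)) ↔ _
    rw [hF]
    have : (fun i : Fin n => xt (mkLT R J T) a i.1) = a := funext fun i => xt_ltI _ _ i.2
    rw [this]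
  · show (G n r).Sat (mkLT R J T) (xt (mkLT R J T) a) ↔ _
    rw [hG]
    have : (fun i : Fin n => xt (mkLT R J T) a i.1) = a := funext fun i => xt_ltI _ _ i.2
    rw [this]

/-- The interpretation of `exists_interpV` defines the substructure with carrier `P`. -/
theorem interpV_iso {P : (R : Str Lar) → (J T : R.M → Prop) → R.M → Prop}
    (K : Interp Lar LA.addT) {R : Str Lar} {J T : R.M → Prop}
    (hK : (∀ x : R.M, K.D (mkLT R J T) x ↔ P R J T x) ∧
      (∀ n f (a : Fin n → R.M) (y : R.M), K.F (mkLT R J T) n f a y ↔ y = R.fn n f a) ∧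
      (∀ n r (a : Fin n → R.M), K.R (mkLT R J T) n r a ↔ R.rl n r a))
    (hcl : ClosedU R (P R J T)) :
    ∃ h : K.Valid (mkLT R J T), ∀ Th, Mod (R.sub (P R J T) hcl) Th ↔
      Mod (K.ind (mkLT R J T) h) Th := by
  refine ind_iso K (mkLT R J T) (R.sub (P R J T) hcl) Subtype.val Subtype.val_injective ?_ ?_ ?_
  · intro x
    rw [hK.1]
    exact ⟨fun h => ⟨⟨x, h⟩, rfl⟩, fun ⟨b, hb⟩ => hb ▸ b.2⟩
  · intro n f a b
    rw [hK.2.1]
    exact (Subtype.ext_iff (a1 := b) (a2 := (R.sub (P R J T) hcl).fn n f a)).symm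
  · intro n r a
    exact hK.2.2 n r _

/-- An interpretation of the language `LA.addT` in arithmetic given by definable predicates. -/
theorem exists_interpU {P : (S : Str Lar) → S.M → Prop}
    {Q : ℕ → (S : Str Lar) → S.M → S.M → S.M → Prop} {W : (S : Str Lar) → S.M → Prop}
    (hP : UDef (fun S e => P S (e 0))) (hQ : ∀ r, UDef (fun S e => Q r S (e 0) (e 1) (e 2)))
    (hW : UDef (fun S e => W S (e 0))) :
    ∃ M : Interp LA.addT Lar, ∀ S : Str Lar,
      (∀ x, M.D S x ↔ P S x) ∧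
      (∀ (r : Fin 9) (a : Fin 3 → S.M), M.R S 3 (r : Fin 9) a ↔ Q r.1 S (a 0) (a 1) (a 2)) ∧
      (∀ (r : Fin 1) (a : Fin 1 → S.M), M.R S 1 (r : Fin 1) a ↔ W S (a 0)) := by
  obtain ⟨p, hpb, hp⟩ := hP.clip (n := 1) le_rfl (fun S e e' h => by rw [h 0 Nat.one_pos])
  obtain ⟨w, hwb, hw⟩ := hW.clip (n := 1) le_rfl (fun S e e' h => by rw [h 0 Nat.one_pos])
  have hQ' : ∀ r : ℕ, ∃ g : Fm Lar, g.bd 3 ∧ ∀ S e, Q r S (e 0) (e 1) (e 2) ↔ g.Sat S e := fun r =>
    (hQ r).clip (n := 3) (by omega) (fun S e e' h => by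
      rw [h 0 (by omega), h 1 (by omega), h 2 (by omega)])
  choose q hqb hq using hQ'
  refine ⟨⟨p, fun n f => (noFn (LAT_Fn n) f).elim, fun n r => match n, r with
    | 1, _ => w
    | 3, (r : Fin 9) => q r.1
    | _, _ => .bot, hpb, fun n f => (noFn (LAT_Fn n) f).elim, fun n r => ?_⟩, ?_⟩
  · match n, r with
    | 0, r => exact (r : Fin 0).elim0
    | 1, r => exact hwb
    | 2, r => exact (r : Fin 0).elim0
    | 3, r => exact hqb _
    | n + 4, r => exact (r : Fin 0).elim0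
  · intro S
    refine ⟨fun x => (hp S (fun _ => x)).symm, fun r a => ?_, fun r a => ?_⟩
    · show (q r.1).Sat S (xt S a) ↔ _
      rw [← hq]
      rw [xt_ltI S a (show 0 < 3 by omega), xt_ltI S a (show 1 < 3 by omega),
        xt_ltI S a (show 2 < 3 by omega)]
      exact Iff.rfl
    · show w.Sat S (xt S a) ↔ _
      rw [← hw]
      rw [xt_ltI S a (show 0 < 1 by omega)]
      exact Iff.rfl

/-- The interpretation of `exists_interpU` defines a copy of `expT B T`. -/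
theorem interpU_iso {P : (S : Str Lar) → S.M → Prop}
    {Q : ℕ → (S : Str Lar) → S.M → S.M → S.M → Prop} {W : (S : Str Lar) → S.M → Prop}
    (M : Interp LA.addT Lar) {S : Str Lar}
    (hM : (∀ x, M.D S x ↔ P S x) ∧
      (∀ (r : Fin 9) (a : Fin 3 → S.M), M.R S 3 (r : Fin 9) a ↔ Q r.1 S (a 0) (a 1) (a 2)) ∧
      (∀ (r : Fin 1) (a : Fin 1 → S.M), M.R S 1 (r : Fin 1) a ↔ W S (a 0)))
    (B : Str LA) (T : B.M → Prop) (ι : B.M → S.M) (hinj : Function.Injective ι)
    (hD : ∀ x, P S x ↔ ∃ b, ι b = x)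
    (hR : ∀ (r : Fin 9) (x y z : B.M), Q r.1 S (ι x) (ι y) (ι z) ↔
      B.rl 3 (r : Fin 9) ![x, y, z])
    (hT : ∀ b, W S (ι b) ↔ T b) :
    ∃ h : M.Valid S, ∀ Th, Mod (expT B T) Th ↔ Mod (M.ind S h) Th := by
  refine ind_iso M S (expT B T) ι hinj ?_ ?_ ?_
  · intro x
    rw [hM.1, hD]
  · intro n f
    exact (noFn (LAT_Fn n) f).elim
  · intro n r a
    match n, r, a with
    | 0, r, a => exact (r : Fin 0).elim0
    | 1, r, a =>
      have hr : (r : Fin 1) = (Fin.last (LA.Rl 1) : Fin (LA.Rl 1 + 1)) :=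
        Subsingleton.elim (α := Fin 1) _ _
      have h1 := hM.2.2 r (fun i => ι (a i))
      rw [h1, hT]
      have h2 := expT_T B T a
      rw [← h2]
      have hr' : r = (Fin.last (LA.Rl 1) : Fin (LA.Rl 1 + 1)) := hr
      rw [hr']
    | 2, r, a => exact (r : Fin 0).elim0
    | 3, r, a =>
      have h1 := hM.2.1 r (fun i => ι (a i))
      have h2 := hR r (a 0) (a 1) (a 2)
      have : (![a 0, a 1, a 2] : Fin 3 → B.M) = a := by
        funext i; fin_cases i <;> rfl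
      rw [this] at h2
      exact h1.trans h2
    | n + 4, r, a => exact (r : Fin 0).elim0

end Pool.Agent.MP81222b
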