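import Pool.Agent.Lib.MP_81222b_lc.Alg

/-!
# Coding of sets by digits: adjunction

A set is coded by `z = pr (2 ^ b) c`; the elements are the numbers `w` such that `w + 1` is a
digit of `c` in base `2 ^ b`.
-/

namespace Pool.Agent.MP81222b

/-- Renaming of variables in terms. -/
instance (priority := low) tDef_ren {L : Lang} {t : (S : Str L) → (ℕ → S.M) → S.M} [h : TDef t]
    (ρ : ℕ → ℕ) : TDef (fun (S : Str L) e => t S (fun n => e (ρ n))) := by
  obtain ⟨τ, hτ⟩ := h.ex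
  refine ⟨τ.sub (fun i => .var (ρ i)), fun S e => ?_⟩
  rw [Tm.val_sub, hτ]
  rfl

section defs
variable (S : Str Lar)

/-- `x` is a power of two. -/
def P2 (x : S.M) : Prop := x ≠ S.zr ∧ ∀ z, S.le z x → (S.ln z = S.ln x → S.le x z)

/-- `w` is an element of the set coded by `z`. -/
def MemS (w z : S.M) : Prop :=
  ∃ B, S.le B z ∧ ∃ c, S.le c z ∧ (z = S.ad (S.ml (S.ad B c) (S.ad B c)) B ∧ P2 S B ∧
    ∃ b, S.le b (S.ln B) ∧ (S.ln B = S.sc b ∧
      ∃ P, S.le P c ∧ (P2 S P ∧ (∃ k, S.le k (S.ln P) ∧ S.ln P = S.sc (S.ml k b)) ∧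
        ∃ q, S.le q c ∧ ∃ r, S.le r c ∧ (c = S.ad (S.ml (S.ad (S.ml q B) (S.sc w)) P) r ∧
          S.le (S.sc r) P ∧ S.le (S.sc (S.sc w)) B))))

end defs

instance {t : (S : Str Lar) → (ℕ → S.M) → S.M} [TDef t] : BDef (fun S e => P2 S (t S e)) := by
  unfold P2; infer_instance
instance {t u : (S : Str Lar) → (ℕ → S.M) → S.M} [TDef t] [TDef u] :
    BDef (fun S e => MemS S (t S e) (u S e)) := by
  unfold MemS; infer_instance

/-- `P2` in the standard model. -/
def P2N (x : ℕ) : Prop := x ≠ 0 ∧ ∀ z : ℕ, z ≤ x → (z.size = x.size → x ≤ z)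

theorem p2N_iff (x : ℕ) : P2N x ↔ ∃ b, x = 2 ^ b := by
  unfold P2N
  constructor
  · rintro ⟨h0, h⟩
    have h1 : 0 < x.size := Nat.size_pos.2 (Nat.pos_of_ne_zero h0)
    refine ⟨x.size - 1, ?_⟩
    have h2 : 2 ^ (x.size - 1) ≤ x := Nat.lt_size.1 (by omega)
    have h3 : x ≤ 2 ^ (x.size - 1) := h (2 ^ (x.size - 1)) h2 (by
      rw [Nat.size_pow]; omega)
    omega
  · rintro ⟨b, rfl⟩
    refine ⟨by positivity, fun z _ hz => ?_⟩
    rw [Nat.size_pow] at hz
    exact Nat.lt_size.1 (by omega)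

/-- `MemS` in the standard model. -/
def MemN (w z : ℕ) : Prop :=
  ∃ B : ℕ, B ≤ z ∧ ∃ c : ℕ, c ≤ z ∧ (z = (B + c) * (B + c) + B ∧ P2N B ∧
    ∃ b : ℕ, b ≤ B.size ∧ (B.size = b + 1 ∧
      ∃ P : ℕ, P ≤ c ∧ (P2N P ∧ (∃ k : ℕ, k ≤ P.size ∧ P.size = k * b + 1) ∧
        ∃ q : ℕ, q ≤ c ∧ ∃ r : ℕ, r ≤ c ∧ (c = (q * B + (w + 1)) * P + r ∧
          r + 1 ≤ P ∧ w + 1 + 1 ≤ B))))

theorem memS_nat (w z : ℕ) : MemS natS w z ↔ MemN w z := Iff.rfl

theorem memN_iff (w z : ℕ) : MemN w z ↔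
    ∃ b c : ℕ, z = (2 ^ b + c) * (2 ^ b + c) + 2 ^ b ∧ ∃ k, c / (2 ^ b) ^ k % 2 ^ b = w + 1 := by
  unfold MemN
  constructor
  · rintro ⟨B, _, c, _, hz, hB, b, _, hb, P, _, hP, ⟨k, _, hk⟩, q, _, r, _, hc, hr, hw⟩
    obtain ⟨b', rfl⟩ := (p2N_iff B).1 hB
    obtain ⟨p, rfl⟩ := (p2N_iff P).1 hP
    have hb' : b' = b := by
      rw [Nat.size_pow] at hb; omega
    subst hb'
    have hp : p = k * b' := by
      rw [Nat.size_pow] at hk; omega
    subst hp
    refine ⟨b', c, hz, k, ?_⟩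
    rw [← pow_mul, mul_comm b' k, hc, Nat.add_comm, Nat.mul_comm, Nat.add_mul_div_left _ _
      (by positivity), Nat.div_eq_of_lt (by omega), Nat.zero_add, Nat.add_comm, Nat.mul_comm,
      Nat.add_mul_mod_self_left, Nat.mod_eq_of_lt (by omega)]
  · rintro ⟨b, c, rfl, k, hk⟩
    have h1 : 2 ^ b ≤ (2 ^ b + c) * (2 ^ b + c) + 2 ^ b := Nat.le_add_left _ _
    have h2 : c ≤ (2 ^ b + c) * (2 ^ b + c) + 2 ^ b := by nlinarith [Nat.zero_le (2 ^ b)]
    have hpos : 0 < c / (2 ^ b) ^ k := by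
      rcases Nat.eq_zero_or_pos (c / (2 ^ b) ^ k) with h | h
      · rw [h] at hk; simp at hk
      · exact h
    have h3 : (2 ^ b) ^ k ≤ c := by
      by_contra hc
      push Not at hc
      rw [Nat.div_eq_of_lt hc] at hpos
      omega
    have hlt : w + 1 < 2 ^ b := by
      rw [← hk]; exact Nat.mod_lt _ (by positivity)
    have e1 : (2 ^ b) ^ k = 2 ^ (k * b) := by rw [← pow_mul, mul_comm]
    have hkb : k ≤ (2 ^ (k * b)).size := by
      rw [Nat.size_pow]
      have : b ≠ 0 := by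
        rintro rfl
        simp at hlt
      have : 1 ≤ b := by omega
      nlinarith
    refine ⟨2 ^ b, h1, c, h2, rfl, (p2N_iff _).2 ⟨b, rfl⟩, b, ?_, ?_, 2 ^ (k * b), ?_,
      (p2N_iff _).2 ⟨_, rfl⟩, ⟨k, hkb, ?_⟩, c / (2 ^ b) ^ k / 2 ^ b, ?_,
      c % (2 ^ b) ^ k, Nat.mod_le _ _, ?_, ?_, ?_⟩
    · rw [Nat.size_pow]; omega
    · rw [Nat.size_pow]
    · rw [← e1]; exact h3
    · rw [Nat.size_pow]
    · exact (Nat.div_le_self _ _).trans (Nat.div_le_self _ _)
    · rw [← hk, Nat.div_add_mod', ← e1, Nat.div_add_mod']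
    · rw [← e1]
      exact Nat.mod_lt _ (by positivity)
    · exact hlt

/-- The bound for the code of the set with one more element. -/
def seqT (S : Str Lar) (x y : S.M) : S.M :=
  S.ml (S.ml (S.sm (S.sc (S.sc (S.sc (S.sc (S.ad x y))))) (S.sc (S.sc (S.sc (S.sc (S.ad x y))))))
    (S.sm (S.sc (S.sc (S.sc (S.sc (S.ad x y))))) (S.sc (S.sc (S.sc (S.sc (S.ad x y)))))))
    (S.ml (S.ml (S.sm (S.sc (S.sc (S.sc (S.sc (S.ad x y))))) (S.sc (S.sc (S.sc (S.sc (S.ad x y))))))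
    (S.sm (S.sc (S.sc (S.sc (S.sc (S.ad x y))))) (S.sc (S.sc (S.sc (S.sc (S.ad x y)))))))
    (S.ml (S.sm (S.sc (S.sc (S.sc (S.sc (S.ad x y))))) (S.sc (S.sc (S.sc (S.sc (S.ad x y))))))
    (S.sm (S.sc (S.sc (S.sc (S.sc (S.ad x y))))) (S.sc (S.sc (S.sc (S.sc (S.ad x y))))))))

instance {t u : (S : Str Lar) → (ℕ → S.M) → S.M} [TDef t] [TDef u] :
    TDef (fun S e => seqT S (t S e) (u S e)) := by
  unfold seqT; infer_instance

theorem seqT_nat (x y : ℕ) : (seqT natS x y : ℕ) = 2 ^ (6 * ((x + y + 4).size) ^ 2) := by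
  show (2 ^ ((x + y + 1 + 1 + 1 + 1).size * (x + y + 1 + 1 + 1 + 1).size) *
    2 ^ ((x + y + 1 + 1 + 1 + 1).size * (x + y + 1 + 1 + 1 + 1).size)) *
    ((2 ^ ((x + y + 1 + 1 + 1 + 1).size * (x + y + 1 + 1 + 1 + 1).size) *
    2 ^ ((x + y + 1 + 1 + 1 + 1).size * (x + y + 1 + 1 + 1 + 1).size)) *
    (2 ^ ((x + y + 1 + 1 + 1 + 1).size * (x + y + 1 + 1 + 1 + 1).size) *
    2 ^ ((x + y + 1 + 1 + 1 + 1).size * (x + y + 1 + 1 + 1 + 1).size))) = _
  simp only [← pow_add]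
  congr 1
  ring

/-- Digits of a number in the base `2 ^ b`. -/
theorem digit_mem (b c d : ℕ) (hb : 1 ≤ b) (hd : d ≠ 0) :
    (∃ k, c / (2 ^ b) ^ k % 2 ^ b = d) ↔ d ∈ Nat.digits (2 ^ b) c := by
  have hb2 : 2 ≤ 2 ^ b := by
    calc 2 = 2 ^ 1 := rfl
      _ ≤ 2 ^ b := Nat.pow_le_pow_right (by norm_num) hb
  constructor
  · rintro ⟨k, hk⟩
    rw [← Nat.getD_digits c k hb2] at hk
    by_cases hlt : k < (Nat.digits (2 ^ b) c).length
    · rw [List.getD_eq_getElem _ _ hlt] at hk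
      rw [← hk]
      exact List.getElem_mem _
    · rw [List.getD_eq_default _ _ (by omega)] at hk
      exact absurd hk.symm hd
  · intro h
    obtain ⟨k, hk, rfl⟩ := List.getElem_of_mem h
    refine ⟨k, ?_⟩
    rw [← Nat.getD_digits c k hb2, List.getD_eq_getElem _ _ hk]

theorem pair_inj {A c A' c' : ℕ} (h : (A + c) * (A + c) + A = (A' + c') * (A' + c') + A') :
    A = A' ∧ c = c' := by
  have h3 : A + c = A' + c' := by
    by_contra hne
    rcases Nat.lt_or_gt_of_ne hne with h1 | h1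
    · have := Nat.mul_le_mul (Nat.succ_le_of_lt h1) (Nat.succ_le_of_lt h1)
      simp only [Nat.succ_eq_add_one] at this
      nlinarith
    · have := Nat.mul_le_mul (Nat.succ_le_of_lt h1) (Nat.succ_le_of_lt h1)
      simp only [Nat.succ_eq_add_one] at this
      nlinarith
  rw [h3] at h
  omega

/-- The elements of a set as a short list. -/
theorem set_list (y : ℕ) : ∃ l : List ℕ, l.length ≤ y.size ∧ (∀ d ∈ l, d ≤ y) ∧
    ∀ w, MemN w y ↔ w + 1 ∈ l := by
  by_cases h : ∃ b c : ℕ, 1 ≤ b ∧ y = (2 ^ b + c) * (2 ^ b + c) + 2 ^ b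
  · obtain ⟨b, c, hb, hy⟩ := h
    have hb2 : 2 ≤ 2 ^ b := by
      calc 2 = 2 ^ 1 := rfl
        _ ≤ 2 ^ b := Nat.pow_le_pow_right (by norm_num) hb
    have hcy : c ≤ y := by rw [hy]; nlinarith [Nat.zero_le (2 ^ b)]
    have hby : 2 ^ b ≤ y := by rw [hy]; exact Nat.le_add_left _ _
    refine ⟨Nat.digits (2 ^ b) c, ?_, ?_, fun w => ?_⟩
    · rcases Nat.eq_zero_or_pos c with rfl | hc
      · simp
      · have h1 := Nat.base_pow_length_digits_le (2 ^ b) c (by omega) (by omega)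
        have h2 : c < 2 ^ c.size := Nat.lt_size_self c
        have h3 : (2 ^ b) ^ ((Nat.digits (2 ^ b) c).length - 1) ≤ c := by
          have h4 : 0 < (Nat.digits (2 ^ b) c).length := by
            rw [List.length_pos_iff]
            exact Nat.digits_ne_nil_iff_ne_zero.2 (by omega)
          obtain ⟨m, hm⟩ : ∃ m, (Nat.digits (2 ^ b) c).length = m + 1 :=
            ⟨(Nat.digits (2 ^ b) c).length - 1, by omega⟩
          rw [hm, pow_succ, mul_comm] at h1
          rw [hm]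
          exact Nat.le_of_mul_le_mul_left h1 (by positivity)
        have h5 : 2 ^ ((Nat.digits (2 ^ b) c).length - 1) ≤
            (2 ^ b) ^ ((Nat.digits (2 ^ b) c).length - 1) := Nat.pow_le_pow_left hb2 _
        have h6 : (Nat.digits (2 ^ b) c).length - 1 < c.size :=
          (Nat.pow_lt_pow_iff_right (by norm_num : 1 < 2)).1 (by omega)
        have h7 := Nat.size_le_size hcy
        omega
    · intro d hd
      have := Nat.digits_lt_base (by omega) hd
      omega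
    · rw [memN_iff, ← digit_mem b c (w + 1) hb (by omega)]
      constructor
      · rintro ⟨b', c', h1, h2⟩
        rw [hy] at h1
        obtain ⟨h4, h5⟩ := pair_inj h1
        rw [h4, h5]
        exact h2
      · intro h
        exact ⟨b, c, hy, h⟩
  · refine ⟨[], by simp, by simp, fun w => ?_⟩
    rw [memN_iff]
    simp only [List.not_mem_nil, iff_false]
    rintro ⟨b, c, h1, k, hk⟩
    apply h
    refine ⟨b, c, ?_, h1⟩
    by_contra hb
    have : b = 0 := by omega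
    subst this
    simp [Nat.mod_one] at hk

theorem adj_nat (x y : ℕ) : ∃ z : ℕ, z ≤ (2 : ℕ) ^ (6 * ((x + y + 4).size) ^ 2) ∧
    ∀ w : ℕ, MemN w z ↔ (MemN w y ∨ w = x) := by
  obtain ⟨l, h1, h2, h3⟩ := set_list y
  set b := (x + y + 4).size with hb
  have hlt : x + y + 4 < 2 ^ b := Nat.lt_size_self _
  have hb1 : 1 ≤ b := by
    have : 0 < b := Nat.size_pos.2 (by omega)
    exact this
  have hb2 : 1 < 2 ^ b := by omega
  set c := Nat.ofDigits (2 ^ b) (l ++ [x + 1]) with hc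
  have hdl : ∀ d ∈ l ++ [x + 1], d < 2 ^ b := by
    intro d hd
    rw [List.mem_append, List.mem_singleton] at hd
    rcases hd with hd | rfl
    · have := h2 d hd; omega
    · omega
  have hdig : Nat.digits (2 ^ b) c = l ++ [x + 1] := by
    rw [hc]
    refine Nat.digits_ofDigits _ hb2 _ hdl ?_
    intro hne
    simp
  have hclt : c < (2 ^ b) ^ (l.length + 1) := by
    rw [hc]
    have := Nat.ofDigits_lt_base_pow_length hb2 hdl
    simpa using this
  have hlen : l.length ≤ b := h1.trans (Nat.size_le_size (by omega))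
  have hb3 : 3 ≤ b := by
    have h5 : (4 : ℕ).size ≤ b := Nat.size_le_size (by omega)
    have h6 : (4 : ℕ).size = 3 := by
      have : (2 ^ 2 : ℕ).size = 3 := Nat.size_pow
      exact this
    omega
  refine ⟨(2 ^ b + c) * (2 ^ b + c) + 2 ^ b, ?_, fun w => ?_⟩
  · have a1 : c ≤ 2 ^ (b * (b + 1)) := by
      calc c ≤ (2 ^ b) ^ (l.length + 1) := hclt.le
        _ ≤ (2 ^ b) ^ (b + 1) := Nat.pow_le_pow_right (by positivity) (by omega)
        _ = 2 ^ (b * (b + 1)) := by rw [← pow_mul]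
    have a2 : 2 ^ b ≤ 2 ^ (b * (b + 1)) := Nat.pow_le_pow_right (by norm_num) (by nlinarith)
    have a3 : (2 ^ b + c) * (2 ^ b + c) + 2 ^ b ≤ 2 ^ (b * (b + 1)) * 2 ^ (b * (b + 1)) * 8 := by
      have hp : 1 ≤ 2 ^ (b * (b + 1)) := Nat.one_le_two_pow
      set p := 2 ^ (b * (b + 1))
      have : 2 ^ b + c ≤ 2 * p := by omega
      calc (2 ^ b + c) * (2 ^ b + c) + 2 ^ b ≤ (2 * p) * (2 * p) + p := by gcongr
        _ ≤ p * p * 8 := by nlinarith
    refine a3.trans ?_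
    rw [show (8 : ℕ) = 2 ^ 3 by norm_num, ← pow_add, ← pow_add]
    refine Nat.pow_le_pow_right (by norm_num) ?_
    nlinarith
  · rw [memN_iff, h3]
    have key : (∃ b' c' : ℕ, (2 ^ b + c) * (2 ^ b + c) + 2 ^ b =
        (2 ^ b' + c') * (2 ^ b' + c') + 2 ^ b' ∧ ∃ k, c' / (2 ^ b') ^ k % 2 ^ b' = w + 1) ↔
        ∃ k, c / (2 ^ b) ^ k % 2 ^ b = w + 1 := by
      constructor
      · rintro ⟨b', c', h1, h2⟩
        obtain ⟨h4, h5⟩ := pair_inj h1
        rw [h4, h5]
        exact h2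
      · intro h
        exact ⟨b, c, rfl, h⟩
    rw [key, digit_mem b c (w + 1) hb1 (by omega), hdig, List.mem_append, List.mem_singleton]
    constructor
    · rintro (h | h)
      · exact Or.inl h
      · exact Or.inr (by omega)
    · rintro (h | h)
      · exact Or.inl h
      · exact Or.inr (by omega)

/-- Adjunction. -/
def axAdj : PiAx where
  P := fun S e => ∃ z, S.le z (seqT S (e 0) (e 1)) ∧ ∀ w, S.le w (seqT S (e 0) (e 1)) →
    (MemS S w z ↔ (MemS S w (e 1) ∨ w = e 0))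
  bdef := inferInstance
  nat := fun e => by
    obtain ⟨z, h1, h2⟩ := adj_nat (e 0) (e 1)
    refine ⟨z, ?_, fun w _ => h2 w⟩
    show z ≤ seqT natS (e 0) (e 1)
    rw [seqT_nat]
    exact h1

theorem memN_le (w z : ℕ) (h : MemN w z) : w ≤ z := by
  obtain ⟨b, c, hz, k, hk⟩ := (memN_iff _ _).1 h
  have h2 : c / (2 ^ b) ^ k % 2 ^ b < 2 ^ b := Nat.mod_lt _ (by positivity)
  have h3 : 2 ^ b ≤ (2 ^ b + c) * (2 ^ b + c) + 2 ^ b := Nat.le_add_left _ _
  omega

/-- The bound is large, elements are smaller than the code. -/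
def axMemLe : PiAx where
  P := fun S e => (MemS S (e 0) (e 1) → S.le (e 0) (e 1)) ∧
    S.le (S.ad (e 0) (e 1)) (seqT S (e 0) (e 1))
  bdef := inferInstance
  nat := fun e => by
    constructor
    · exact fun h => memN_le (e 0) (e 1) h
    · show (e 0 + e 1 : ℕ) ≤ seqT natS (e 0) (e 1)
      rw [seqT_nat]
      have h1 : e 0 + e 1 + 4 < 2 ^ (e 0 + e 1 + 4).size := Nat.lt_size_self _
      have h2 : 2 ^ (e 0 + e 1 + 4).size ≤ 2 ^ (6 * ((e 0 + e 1 + 4).size) ^ 2) := by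
        refine Nat.pow_le_pow_right (by norm_num) ?_
        nlinarith [Nat.zero_le ((e 0 + e 1 + 4).size)]
      omega

theorem not_memN_zero (w : ℕ) : ¬ MemN w 0 := by
  intro h
  obtain ⟨b, c, hz, _⟩ := (memN_iff _ _).1 h
  have : 0 < 2 ^ b := by positivity
  omega

/-- There is an empty set. -/
def axEmp : PiAx where
  P := fun S e => ¬ MemS S (e 0) S.zr
  bdef := inferInstance
  nat := fun e h => not_memN_zero (e 0) h

/-- The axioms for sequentiality. -/
def seqAx : List PiAx := [axAdj, axMemLe, axEmp]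

theorem seq_of {S : Str Lar} [PiC S] (h : ∀ a ∈ seqAx, a.Holds S) :
    (∃ x, ∀ y, ¬ MemS S y x) ∧ ∀ x y, ∃ z, ∀ w, MemS S w z ↔ (MemS S w y ∨ w = x) := by
  constructor
  · exact ⟨S.zr, fun y => h axEmp (by simp [seqAx]) (fun _ => y)⟩
  · intro x y
    obtain ⟨z, h1, h2⟩ := h axAdj (by simp [seqAx]) (cn x (cn y (fun _ => x)))
    refine ⟨z, fun w => ?_⟩
    have hT : S.le (S.ad x y) (seqT S x y) :=
      (h axMemLe (by simp [seqAx]) (cn x (cn y (fun _ => x)))).2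
    have hxy : x ≤ x + y ∧ y ≤ x + y := by
      constructor
      · have := (PiC.add_le' S x 0 y).2 (PiC.zero_le' S y)
        rwa [ad_eq, ad_eq, add_zero] at this
      · have := (PiC.add_le' S y 0 x).2 (PiC.zero_le' S x)
        rwa [ad_eq, ad_eq, add_zero, add_comm] at this
    by_cases hw : S.le w (seqT S x y)
    · exact h2 w hw
    · have hm : ∀ v, MemS S w v → S.le w v := fun v hv =>
        (h axMemLe (by simp [seqAx]) (cn w (cn v (fun _ => x)))).1 hv
      constructor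
      · intro hc
        exact absurd (PiC.trans' S (hm z hc) h1) hw
      · rintro (hc | rfl)
        · exact absurd (PiC.trans' S (PiC.trans' S (hm y hc) hxy.2) hT) hw
        · exact absurd (PiC.trans' S hxy.1 hT) hw

end Pool.Agent.MP81222b
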