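import Pool.Agent.Lib.MP_81222b_lc.Th

/-!
# The smaller model `Q(M)` satisfies the properties of `A`
-/

namespace Pool.Agent.MP81222b

/-! ### Operations in substructures -/

section subops
variable {R : Str Lar} {D : R.M → Prop} (h : ClosedU R D)

theorem subQ_zr : ((R.sub D h).zr).1 = R.zr := by
  unfold Str.zr
  change R.fn 0 _ _ = R.fn 0 _ _
  congr 1
  exact vec0

theorem subQ_f1 (f : Fin (Lar.Fn 1)) (x : (R.sub D h).M) :
    ((R.sub D h).fn 1 f ![x]).1 = R.fn 1 f ![x.1] := by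
  change R.fn 1 f (fun i => ((![x] : Fin 1 → (R.sub D h).M) i).1) = R.fn 1 f _
  rw [vec1 (fun i => ((![x] : Fin 1 → (R.sub D h).M) i).1)]
  rfl

theorem subQ_f2 (f : Fin (Lar.Fn 2)) (x y : (R.sub D h).M) :
    ((R.sub D h).fn 2 f ![x, y]).1 = R.fn 2 f ![x.1, y.1] := by
  change R.fn 2 f (fun i => ((![x, y] : Fin 2 → (R.sub D h).M) i).1) = R.fn 2 f _
  rw [vec2 (fun i => ((![x, y] : Fin 2 → (R.sub D h).M) i).1)]
  rfl

theorem subQ_sc (x : (R.sub D h).M) : ((R.sub D h).sc x).1 = R.sc x.1 := subQ_f1 h _ x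
theorem subQ_hf (x : (R.sub D h).M) : ((R.sub D h).hf x).1 = R.hf x.1 := subQ_f1 h _ x
theorem subQ_ln (x : (R.sub D h).M) : ((R.sub D h).ln x).1 = R.ln x.1 := subQ_f1 h _ x
theorem subQ_ad (x y : (R.sub D h).M) : ((R.sub D h).ad x y).1 = R.ad x.1 y.1 := subQ_f2 h _ x y
theorem subQ_ml (x y : (R.sub D h).M) : ((R.sub D h).ml x y).1 = R.ml x.1 y.1 := subQ_f2 h _ x y
theorem subQ_sm (x y : (R.sub D h).M) : ((R.sub D h).sm x y).1 = R.sm x.1 y.1 := subQ_f2 h _ x y

theorem subQ_l3 (x : (R.sub D h).M) : (l3 (R.sub D h) x).1 = l3 R x.1 := by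
  unfold l3
  rw [subQ_ln, subQ_ln, subQ_ln]

theorem subQ_e2 (x : (R.sub D h).M) : (e2 (R.sub D h) x).1 = e2 R x.1 := by
  unfold e2
  rw [subQ_sm, subQ_sc, subQ_zr]

theorem subQ_pr (x y : (R.sub D h).M) : (prS (R.sub D h) x y).1 = prS R x.1 y.1 := by
  unfold prS
  rw [subQ_ad, subQ_ml, subQ_ad]

theorem subQ_cons (x y : (R.sub D h).M) : (consS (R.sub D h) x y).1 = consS R x.1 y.1 := by
  unfold consS
  rw [subQ_sc, subQ_pr]

/-- Relativised satisfaction in a substructure containing the relativising set. -/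
theorem subQ_satD {J : R.M → Prop} (hJ : ∀ x, J x → D x) (f : Fm Lar) :
    ∀ e : ℕ → (R.sub D h).M, f.SatD (R.sub D h) (fun x => J x.1) e ↔
      f.SatD R J (fun i => (e i).1) := by
  induction f with
  | bot => intro e; rfl
  | eq t u =>
    intro e
    simp only [Fm.SatD, ← Tm.val_substr R D h e]
    exact Subtype.ext_iff
  | rl n r ts =>
    intro e
    simp only [Fm.SatD, ← Tm.val_substr R D h e]
  | imp f g hf hg => intro e; simp only [Fm.SatD, hf, hg]
  | all f hf =>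
    intro e
    simp only [Fm.SatD, hf]
    constructor
    · intro H x hx
      have := H ⟨x, hJ x hx⟩ hx
      rw [sub_coe_cn] at this
      exact this
    · intro H x hx
      rw [sub_coe_cn]
      exact H x.1 hx

end subops

/-! ### Axioms -/

theorem size_le_max {x y : ℕ} (h : x ≤ 2 * y + 1) : x.size ≤ y.size + 1 := by
  rw [Nat.size_le, pow_succ]
  have := Nat.lt_size_self y
  omega

theorem l3N_le {m n : ℕ} (h : m ≤ 2 * n + 1) : m.size.size.size ≤ n.size.size.size + 1 := by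
  have h1 := size_le_max h
  have h2 := size_le_max (h1.trans (show n.size + 1 ≤ 2 * n.size + 1 by omega))
  exact size_le_max (h2.trans (show n.size.size + 1 ≤ 2 * n.size.size + 1 by omega))

theorem l3N_add (x y : ℕ) : (x + y).size.size.size ≤ x.size.size.size + 1 ∨
    (x + y).size.size.size ≤ y.size.size.size + 1 := by
  rcases le_total x y with h | h
  · exact Or.inr (l3N_le (by omega))
  · exact Or.inl (l3N_le (by omega))

theorem l3N_mul (x y : ℕ) : (x * y).size.size.size ≤ x.size.size.size + 1 ∨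
    (x * y).size.size.size ≤ y.size.size.size + 1 := by
  have h1 : (x * y).size ≤ x.size + y.size := by
    rw [Nat.size_le, pow_add]
    exact Nat.mul_lt_mul_of_lt_of_lt (Nat.lt_size_self x) (Nat.lt_size_self y)
  rcases le_total x.size y.size with h | h
  · right
    have h2 := size_le_max (show (x * y).size ≤ 2 * y.size + 1 by omega)
    exact size_le_max (h2.trans (show y.size.size + 1 ≤ 2 * y.size.size + 1 by omega))
  · left
    have h2 := size_le_max (show (x * y).size ≤ 2 * x.size + 1 by omega)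
    exact size_le_max (h2.trans (show x.size.size + 1 ≤ 2 * x.size.size + 1 by omega))

theorem l3N_sm (x y : ℕ) : (2 ^ (x.size * y.size)).size.size.size ≤ x.size.size.size + 1 ∨
    (2 ^ (x.size * y.size)).size.size.size ≤ y.size.size.size + 1 := by
  rw [Nat.size_pow]
  set m := x.size
  set n := y.size
  have h1 : (m * n + 1).size ≤ m.size + n.size + 1 := by
    rw [Nat.size_le, pow_succ, pow_add]
    have h2 := Nat.lt_size_self m
    have h3 := Nat.lt_size_self n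
    have h4 : (m + 1) * (n + 1) ≤ 2 ^ m.size * 2 ^ n.size := Nat.mul_le_mul h2 h3
    nlinarith
  rcases le_total m.size n.size with h | h
  · right
    exact size_le_max (by omega)
  · left
    exact size_le_max (by omega)

theorem sizeN_le (x : ℕ) : x.size ≤ x := Nat.size_le.2 Nat.lt_two_pow_self

theorem l3_natS (x : ℕ) : (l3 natS x : ℕ) = x.size.size.size := rfl
theorem e2_natS (x : ℕ) : (e2 natS x : ℕ) = 2 ^ x.size := by
  show 2 ^ ((0 + 1 : ℕ).size * x.size) = 2 ^ x.size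
  rw [Nat.zero_add, Nat.size_one, one_mul]
theorem lt_natS (x y : ℕ) : natS.lt x y ↔ x < y := Iff.rfl
theorem nm_natS (n : ℕ) : (nmS natS n : ℕ) = n := by
  induction n with
  | zero => rfl
  | succ n ih => exact congrArg Nat.succ ih

theorem axE2_nat (x y : ℕ) (h : 2 ^ x.size < 2 ^ y.size) :
    2 ^ x.size + 2 ^ x.size ≤ 2 ^ y.size := by
  have h2 : x.size < y.size := (Nat.pow_lt_pow_iff_right (by norm_num : 1 < 2)).1 h
  have h3 : 2 ^ (x.size + 1) ≤ 2 ^ y.size := Nat.pow_le_pow_right (by norm_num) h2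
  rw [pow_succ] at h3
  omega

theorem l3N_mono {x y : ℕ} (h : x ≤ y) : x.size.size.size ≤ y.size.size.size :=
  Nat.size_le_size (Nat.size_le_size (Nat.size_le_size h))

theorem e2l3N (a : ℕ) (h4 : 4 ≤ a) : 2 ^ a.size.size.size.size ≤ a := by
  have h5 : 3 ≤ a.size := by
    have h6 := Nat.size_le_size h4
    have h7 : (4 : ℕ).size = 3 := by
      have : (2 ^ 2 : ℕ).size = 3 := Nat.size_pow
      exact this
    omega
  have h9 : ∀ m : ℕ, 3 ≤ m → m.size ≤ m - 1 := by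
    intro m hm
    rw [Nat.size_le]
    obtain ⟨k, rfl⟩ := Nat.exists_eq_add_of_le hm
    clear hm
    induction k with
    | zero => norm_num
    | succ k ih =>
      have e1 : 3 + (k + 1) - 1 = (3 + k - 1) + 1 := by omega
      rw [e1, pow_succ]
      omega
  have h8 : a.size.size ≤ a.size - 1 := h9 _ h5
  have h10 : a.size.size.size.size ≤ a.size - 1 :=
    ((sizeN_le _).trans (sizeN_le _)).trans h8
  calc 2 ^ a.size.size.size.size ≤ 2 ^ (a.size - 1) :=
        Nat.pow_le_pow_right (by norm_num) h10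
    _ ≤ a := Nat.lt_size.1 (by omega)

/-- Powers of two. -/
def axE2 : PiAx where
  P := fun R e => R.lt (e2 R (e 0)) (e2 R (e 1)) →
    R.le (R.ad (e2 R (e 0)) (e2 R (e 0))) (e2 R (e 1))
  bdef := inferInstance
  nat := fun e => by
    simp only [e2_natS, lt_natS, natS_le, natS_ad]
    exact axE2_nat (e 0) (e 1)

/-- Growth of the unary functions, measured by `l3`. -/
def axL3u : PiAx where
  P := fun R e => R.le (l3 R (R.sc (e 0))) (R.sc (l3 R (e 0))) ∧
    R.le (l3 R (R.hf (e 0))) (R.sc (l3 R (e 0))) ∧ R.le (l3 R (R.ln (e 0))) (R.sc (l3 R (e 0))) ∧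
    R.le (l3 R R.zr) (l3 R (e 0))
  bdef := inferInstance
  nat := fun e => by
    simp only [l3_natS, natS_sc, natS_hf, natS_ln, natS_zr, natS_le]
    exact ⟨l3N_le (m := e 0 + 1) (by omega), l3N_le (m := e 0 / 2) (by omega),
      l3N_le (m := (e 0).size) ((sizeN_le _).trans (by omega)), l3N_mono (Nat.zero_le _)⟩

/-- Growth of the binary functions, measured by `l3`. -/
def axL3b : PiAx where
  P := fun R e => (R.le (l3 R (R.ad (e 0) (e 1))) (R.sc (l3 R (e 0))) ∨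
      R.le (l3 R (R.ad (e 0) (e 1))) (R.sc (l3 R (e 1)))) ∧
    (R.le (l3 R (R.ml (e 0) (e 1))) (R.sc (l3 R (e 0))) ∨
      R.le (l3 R (R.ml (e 0) (e 1))) (R.sc (l3 R (e 1)))) ∧
    (R.le (l3 R (R.sm (e 0) (e 1))) (R.sc (l3 R (e 0))) ∨
      R.le (l3 R (R.sm (e 0) (e 1))) (R.sc (l3 R (e 1))))
  bdef := inferInstance
  nat := fun e => by
    simp only [l3_natS, natS_sc, natS_ad, natS_ml, natS_sm, natS_le]
    exact ⟨l3N_add (e 0) (e 1), l3N_mul (e 0) (e 1), l3N_sm (e 0) (e 1)⟩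

/-- Monotonicity and bounds for `l3`. -/
def axL3m : PiAx where
  P := fun R e => (R.le (e 0) (e 1) → R.le (l3 R (e 0)) (l3 R (e 1))) ∧
    R.le (l3 R (e 0)) (e 0) ∧ R.lt (e 0) (e2 R (e 0)) ∧
    (R.le (nmS R 4) (e 0) → R.le (e2 R (l3 R (e 0))) (e 0))
  bdef := inferInstance
  nat := fun e => by
    simp only [l3_natS, e2_natS, lt_natS, nm_natS, natS_le]
    exact ⟨l3N_mono, (sizeN_le _).trans ((sizeN_le _).trans (sizeN_le _)), Nat.lt_size_self _,
      e2l3N (e 0)⟩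

/-- The axioms for module M7a. -/
def piQ : List PiAx := [axE2, axL3u, axL3b, axL3m]

section main
variable {R : Str Lar} {J : R.M → Prop} {piA : List PiAx} {θ : Fm Lar}

theorem top_unique (hQ : ∀ a ∈ piQ, a.Holds R) (h : PropA piA θ R J) {a b : R.M}
    (ha : Top R J a) (hb : Top R J b) : a = b := by
  have := h.pic
  have key : ∀ {a b : R.M}, Top R J a → Top R J b → ¬ a < b := by
    intro a b ha hb hlt
    obtain ⟨h1, ⟨x, hx⟩, _, h2⟩ := ha
    obtain ⟨_, ⟨x', hx'⟩, ⟨y, hy⟩, _⟩ := hb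
    obtain ⟨j, hj, hle⟩ := h2 y
    rw [hy, ad_eq, le_eq] at hle
    have h3 := hQ axE2 (by simp [piQ]) (cn x (cn x' (fun _ => x)))
    have h4 : R.lt (e2 R x) (e2 R x') → R.le (R.ad (e2 R x) (e2 R x)) (e2 R x') := h3
    rw [← hx, ← hx', ad_eq, le_eq] at h4
    have h5 : a + a ≤ b := h4 (by
      unfold Str.lt
      rw [sc_eq, le_eq, add_one_le_iff']
      exact hlt)
    have h6 : a + a ≤ a + j := h5.trans hle
    have h7 : a ≤ j := le_of_add_le_add_left h6
    exact h1 (h.init a j hj h7)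
  rcases lt_trichotomy a b with h1 | h1 | h1
  · exact absurd h1 (key ha hb)
  · exact h1
  · exact absurd h1 (key hb ha)

theorem J_zr (h : PropA piA θ R J) : J R.zr := h.cl.2 0 _ _ (fun i => i.elim0)
theorem J_sc (h : PropA piA θ R J) {x : R.M} (hx : J x) : J (R.sc x) :=
  h.cl.2 1 _ _ (fun i => by fin_cases i; exact hx)
theorem J_ad (h : PropA piA θ R J) {x y : R.M} (hx : J x) (hy : J y) : J (R.ad x y) :=
  h.cl.2 2 _ _ (fun i => by fin_cases i <;> assumption)
theorem J_nm (h : PropA piA θ R J) (n : ℕ) : J (nmS R n) := by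
  induction n with
  | zero => exact J_zr h
  | succ n ih => exact J_sc h ih

theorem J_l3 (h : PropA piA θ R J) {x : R.M} (hx : J (l3 R x)) : J x :=
  h.exp _ (h.exp _ (h.exp _ hx))

theorem top_ge (h : PropA piA θ R J) {a : R.M} (ha : Top R J a) (n : ℕ) : R.le (nmS R n) a := by
  have := h.pic
  rcases PiC.total' R (nmS R n) a with h1 | h1
  · exact h1
  · exact absurd (h.init _ _ (J_nm h n) h1) ha.1

theorem domQ_iff (hQ : ∀ a ∈ piQ, a.Holds R) (h : PropA piA θ R J) {a : R.M}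
    (ha : Top R J a) (y : R.M) :
    DomQ R J y ↔ ∃ j, J j ∧ R.le (l3 R y) (R.ad (e2 R (l3 R a)) j) := by
  constructor
  · rintro ⟨a', j, ha', hj, hle⟩
    rw [top_unique hQ h ha' ha] at hle
    exact ⟨j, hj, hle⟩
  · rintro ⟨j, hj, hle⟩
    exact ⟨a, j, ha, hj, hle⟩

theorem domQ_closed (hQ : ∀ a ∈ piQ, a.Holds R) (h : PropA piA θ R J) :
    ClosedU R (DomQ R J) := by
  have := h.pic
  obtain ⟨a, ha⟩ := h.top
  have hu := hQ axL3u (by simp [piQ])
  have hb := hQ axL3b (by simp [piQ])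
  have step : ∀ x y, DomQ R J y → R.le (l3 R x) (R.sc (l3 R y)) → DomQ R J x := by
    intro x y hy hle
    rw [domQ_iff hQ h ha] at hy ⊢
    obtain ⟨j, hj, h1⟩ := hy
    refine ⟨R.sc j, J_sc h hj, ?_⟩
    rw [sc_eq, le_eq] at hle
    rw [sc_eq, ad_eq, le_eq, ← add_assoc]
    rw [ad_eq, le_eq] at h1
    exact hle.trans (add_le_add h1 le_rfl)
  have hz : DomQ R J R.zr := by
    rw [domQ_iff hQ h ha]
    refine ⟨l3 R R.zr, ?_, ?_⟩
    · have h1 := (hQ axL3m (by simp [piQ]) (cn R.zr (fun _ => R.zr))).2.1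
      exact h.init _ _ (J_zr h) h1
    · rw [ad_eq, le_eq]
      have h2 : (0 : R.M) ≤ e2 R (l3 R a) := PiC.zero_le' R _
      calc l3 R R.zr = 0 + l3 R R.zr := (zero_add _).symm
        _ ≤ _ := add_le_add h2 le_rfl
  refine ⟨⟨R.zr, hz⟩, ?_⟩
  intro n f v hv
  match n, f, v, hv with
  | 0, f, v, hv =>
    have hf : f = (⟨0, Nat.one_pos⟩ : Fin 1) := Subsingleton.elim (α := Fin 1) _ _
    subst hf
    have : R.fn 0 (⟨0, Nat.one_pos⟩ : Fin 1) v = R.zr := by
      unfold Str.zr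
      congr 1
      exact vec0
    rw [this]
    exact hz
  | 1, f, v, hv =>
    rw [vec1 v]
    change Fin 3 at f
    have h1 := hu (cn (v 0) (fun _ => v 0))
    fin_cases f
    · exact step _ (v 0) (hv 0) h1.1
    · exact step _ (v 0) (hv 0) h1.2.1
    · exact step _ (v 0) (hv 0) h1.2.2.1
  | 2, f, v, hv =>
    rw [vec2 v]
    change Fin 3 at f
    have h1 := hb (cn (v 0) (cn (v 1) (fun _ => v 0)))
    fin_cases f
    · rcases h1.1 with h2 | h2
      · exact step _ (v 0) (hv 0) h2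
      · exact step _ (v 1) (hv 1) h2
    · rcases h1.2.1 with h2 | h2
      · exact step _ (v 0) (hv 0) h2
      · exact step _ (v 1) (hv 1) h2
    · rcases h1.2.2 with h2 | h2
      · exact step _ (v 0) (hv 0) h2
      · exact step _ (v 1) (hv 1) h2
  | n + 3, f, _, _ => exact Fin.elim0 f

theorem domQ_init (hQ : ∀ a ∈ piQ, a.Holds R) (h : PropA piA θ R J) : InitU R (DomQ R J) := by
  have := h.pic
  intro x y hy hle
  obtain ⟨a, j, ha, hj, h1⟩ := hy
  exact ⟨a, j, ha, hj, PiC.trans' R ((hQ axL3m (by simp [piQ])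
    (cn x (cn y (fun _ => x)))).1 hle) h1⟩

theorem domQ_J (hQ : ∀ a ∈ piQ, a.Holds R) (h : PropA piA θ R J) {x : R.M} (hx : J x) :
    DomQ R J x := by
  have := h.pic
  obtain ⟨a, ha⟩ := h.top
  refine ⟨a, l3 R x, ha, ?_, ?_⟩
  · exact h.init _ _ hx (hQ axL3m (by simp [piQ]) (cn x (fun _ => x))).2.1
  · rw [ad_eq, le_eq]
    have h2 : (0 : R.M) ≤ e2 R (l3 R a) := PiC.zero_le' R _
    calc l3 R x = 0 + l3 R x := (zero_add _).symm
      _ ≤ _ := add_le_add h2 le_rfl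

theorem lnSurj [PiC R] {x y : R.M} (h : R.le y (R.ln x)) : ∃ z, R.le z x ∧ R.ln z = y :=
  PiC.p0 (S := R) axLenSurj (by simp [pi0]) (cn x (cn y (fun _ => x))) h

theorem propA_ln (h : PropA piA θ R J) : ∀ x, J x → ∃ y, J y ∧ R.ln y = x := by
  have := h.pic
  intro x hx
  obtain ⟨a, ha1, _, ⟨y0, hy0⟩, _⟩ := h.top
  have hxa : R.le x (l3 R y0) := by
    rw [hy0]
    rcases PiC.total' R x a with h1 | h1
    · exact h1
    · exact absurd (h.init _ _ hx h1) ha1
  obtain ⟨y, _, hy⟩ := lnSurj hxa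
  refine ⟨y, h.exp y ?_, hy⟩
  rw [hy]
  exact hx

theorem top_Q (hQ : ∀ a ∈ piQ, a.Holds R) (h : PropA piA θ R J) (hc : ClosedU R (DomQ R J))
    {a : R.M} (ha : Top R J a) :
    ∃ hd, Top (R.sub (DomQ R J) hc) (fun x => J x.1) ⟨e2 R (l3 R a), hd⟩ := by
  have := h.pic
  have hm := hQ axL3m (by simp [piQ])
  have h4 : R.le (e2 R (l3 R a)) a := (hm (cn a (fun _ => a))).2.2.2 (top_ge h ha 4)
  have hlt : R.le (l3 R a) (e2 R (l3 R a)) := by
    have h5 := (hm (cn (l3 R a) (fun _ => a))).2.2.1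
    have h6 : R.le (R.sc (l3 R a)) (e2 R (l3 R a)) := h5
    rw [sc_eq, le_eq, add_one_le_iff'] at h6
    exact h6.le
  obtain ⟨y0, hy0⟩ := ha.2.2.1
  have h7 : R.le (e2 R (l3 R a)) (l3 R y0) := by rw [hy0]; exact h4
  obtain ⟨x1, h8, h9⟩ := lnSurj h7
  obtain ⟨x2, h10, h11⟩ := lnSurj h8
  obtain ⟨x3, h12, h13⟩ := lnSurj h10
  have hx3 : l3 R x3 = e2 R (l3 R a) := by
    unfold l3
    rw [h13, h11, h9]
    rfl
  have hDx3 : DomQ R J x3 := by
    rw [domQ_iff hQ h ha]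
    refine ⟨R.zr, J_zr h, ?_⟩
    rw [hx3, ad_eq, zr_eq, add_zero, le_eq]
  have hin := domQ_init hQ h
  have hd : DomQ R J (e2 R (l3 R a)) := by
    refine hin _ _ hDx3 ?_
    rw [← hx3]
    exact (hm (cn x3 (fun _ => x3))).2.1
  have hdl : DomQ R J (l3 R a) := hin _ _ hd hlt
  refine ⟨hd, ?_, ⟨⟨l3 R a, hdl⟩, ?_⟩, ⟨⟨x3, hDx3⟩, ?_⟩, ?_⟩
  · intro hJ
    have hJ' : J (e2 R (l3 R a)) := hJ
    exact ha.1 (J_l3 h (h.init _ _ hJ' hlt))
  · apply Subtype.ext
    rw [subQ_e2]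
  · apply Subtype.ext
    rw [subQ_l3]
    exact hx3
  · intro y
    obtain ⟨j, hj, hle⟩ := (domQ_iff hQ h ha y.1).1 y.2
    refine ⟨⟨j, domQ_J hQ h hj⟩, hj, ?_⟩
    rw [sub_le, subQ_l3, subQ_ad]
    exact hle

theorem lkJ_sub (h : ∀ x, J x → DomQ R J x) (hc : ClosedU R (DomQ R J))
    (s a y : (R.sub (DomQ R J) hc).M) :
    LkJ θ (R.sub (DomQ R J) hc) (fun x => J x.1) s a y ↔ LkJ θ R J s.1 a.1 y.1 := by
  unfold LkJ
  rw [subQ_satD hc h θ, sub_coe_cn]
  simp only [subQ_pr]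

theorem propA_Q (h : PropA piA θ R J) (hQ : ∀ a ∈ piQ, a.Holds R) :
    ∃ (hc : ClosedU R (DomQ R J)), InitU R (DomQ R J) ∧
      PropA piA θ (R.sub (DomQ R J) hc) (fun x => J x.1) ∧ (∀ x, J x → DomQ R J x) ∧
      ∀ a, Top R J a → ∃ ha, Top (R.sub (DomQ R J) hc) (fun x => J x.1)
        ⟨e2 R (l3 R a), ha⟩ := by
  have := h.pic
  have hc := domQ_closed hQ h
  have hin := domQ_init hQ h
  have hJ : ∀ x, J x → DomQ R J x := fun x hx => domQ_J hQ h hx
  refine ⟨hc, hin, ?_, hJ, fun a ha => top_Q hQ h hc ha⟩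
  refine ⟨PiC.sub hc hin, fun a ha => (h.ax a ha).sub hc hin, ?_, ?_, ?_, ?_, ?_, ?_⟩
  · refine ⟨⟨⟨R.zr, hJ _ (J_zr h)⟩, J_zr h⟩, fun n f v hv => ?_⟩
    exact h.cl.2 n f _ hv
  · intro x y hy hle
    rw [sub_le] at hle
    exact h.init _ _ hy hle
  · intro x hx
    rw [subQ_ln] at hx
    exact h.exp _ hx
  · intro x s hx hs
    rw [lkJ_sub hJ hc, subQ_cons, subQ_zr]
    exact h.lk0 _ _ hx hs
  · intro x s a y hx hl
    rw [lkJ_sub hJ hc] at hl
    rw [lkJ_sub hJ hc, subQ_cons, subQ_sc]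
    exact h.lk1 _ _ _ _ hx hl
  · obtain ⟨a, ha⟩ := h.top
    obtain ⟨hd, ht⟩ := top_Q hQ h hc ha
    exact ⟨_, ht⟩

end main

end Pool.Agent.MP81222b
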