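import Pool.Agent.Lib.MP_81222b_lc.Greedy
import Pool.Agent.Lib.MP_81222b_lc.ThQ

/-!
# The shape of the coding cut (module M6)
-/

namespace Pool.Agent.MP81222b

set_option linter.unusedSectionVars false

/-- Smaller powers of four exist. -/
def axG1 : PiAx where
  P := fun S e => P4 S (e 0) (e 1) → S.le (e 2) (e 0) → ∃ m, S.le m (e 1) ∧ P4 S (e 2) m
  bdef := inferInstance
  nat := fun e h1 h2 => by
    have a1 := (nat_P4 _ _).1 h1
    have a2 : e 2 ≤ e 0 := h2
    refine ⟨(4 ^ e 2 : ℕ), ?_, (nat_P4 _ _).2 rfl⟩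
    show 4 ^ e 2 ≤ e 1
    rw [a1]
    exact Nat.pow_le_pow_right (by norm_num) a2

/-- The size of a string of length `e 1`, multiplied by `4 ^ (e 2)`. -/
def axG2 : PiAx where
  P := fun S e => LenS S (e 0) (e 1) → P4 S (e 2) (e 3) → P4 S (S.ad (e 1) (e 2)) (e 4) →
    (S.le (e 4) (S.ml (e 0) (e 3)) ∧ S.lt (S.ml (e 0) (e 3)) (dbl S (e 4)))
  bdef := inferInstance
  nat := fun e h1 h2 h3 => by
    obtain ⟨a1, a2⟩ := (nat_LenS _ _).1 h1
    have b1 := (nat_P4 _ _).1 h2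
    have b2 : e 4 = 4 ^ (e 1 + e 2) := (nat_P4 _ _).1 h3
    rw [pow_add] at b2
    constructor
    · show e 4 ≤ e 0 * e 3
      rw [b1, b2]
      exact Nat.mul_le_mul_right _ a1
    · show e 0 * e 3 < e 4 + e 4
      rw [b1, b2, ← two_mul, ← mul_assoc]
      exact Nat.mul_lt_mul_of_pos_right a2 (four_pow_pos _)

/-- Powers of four: positive, larger than the exponent, step. -/
def axG3 : PiAx where
  P := fun S e => P4 S (e 0) (e 1) → (e 1 ≠ S.zr ∧ S.le (e 0) (e 1) ∧
    (P4 S (S.sc (e 0)) (qd S (e 1))) ∧ S.le (dbl S (e 1)) (qd S (e 1)))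
  bdef := inferInstance
  nat := fun e h1 => by
    have a1 := (nat_P4 _ _).1 h1
    have hp := four_pow_pos (e 0)
    refine ⟨?_, ?_, ?_, ?_⟩
    · show e 1 ≠ 0
      omega
    · show e 0 ≤ e 1
      rw [a1]
      exact (Nat.lt_pow_self (by norm_num)).le
    · refine (nat_P4 _ _).2 ?_
      rw [nat_qd]
      show 4 * e 1 = 4 ^ (e 0 + 1)
      rw [a1, pow_succ]
      ring
    · show e 1 + e 1 ≤ e 1 + e 1 + (e 1 + e 1)
      omega

/-- Strings of length zero. -/
def axG4 : PiAx where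
  P := fun S e => LenS S (e 0) S.zr → e 0 = S.sc S.zr
  bdef := inferInstance
  nat := fun e h1 => by
    obtain ⟨a1, a2⟩ := (nat_LenS _ _).1 h1
    have a1' : 4 ^ 0 ≤ e 0 := a1
    have a2' : e 0 < 2 * 4 ^ 0 := a2
    show e 0 = 1
    rw [pow_zero] at a1' a2'
    omega

/-- Monotonicity of powers of four. -/
def axG5 : PiAx where
  P := fun S e => P4 S (e 0) (e 1) → P4 S (e 2) (e 3) → S.lt (e 1) (dbl S (e 3)) →
    S.le (e 0) (e 2)
  bdef := inferInstance
  nat := fun e h1 h2 h3 => by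
    have a1 := (nat_P4 _ _).1 h1
    have a2 := (nat_P4 _ _).1 h2
    have a3 : e 1 < e 3 + e 3 := h3
    show e 0 ≤ e 2
    refine four_pow_cmp ?_
    omega

/-- Length is monotone. -/
def axG6 : PiAx where
  P := fun S e => S.le (S.ln (e 1)) (S.ln (e 0)) ∨ S.le (e 0) (e 1)
  bdef := inferInstance
  nat := fun e => by
    rcases Nat.le_total (e 0) (e 1) with h | h
    · exact Or.inr h
    · exact Or.inl (Nat.size_le_size h)

/-- Length is at most the number. -/
def axG7 : PiAx where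
  P := fun S e => S.le (S.ln (e 0)) (e 0)
  bdef := inferInstance
  nat := fun e => sizeN_le (e 0)

/-- The axioms for the coding cut. -/
def piG : List PiAx := piF ++ piQ ++ [axG1, axG2, axG3, axG4, axG5, axG6, axG7]

theorem piG_F {R : Str Lar} (hG : ∀ a ∈ piG, a.Holds R) : ∀ a ∈ piF, a.Holds R :=
  fun a ha => hG a (by simp [piG, ha])
theorem piG_Q {R : Str Lar} (hG : ∀ a ∈ piG, a.Holds R) : ∀ a ∈ piQ, a.Holds R :=
  fun a ha => hG a (by simp [piG, ha])

section
variable {R : Str Lar} [PiC R] (hG : ∀ a ∈ piG, a.Holds R) {E : R.M} {C : R.M → Prop}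
  {Fam : R.M → R.M → Prop}
include hG

theorem P4_ex {k l m : R.M} (h : P4 R k m) (hl : l ≤ k) : ∃ n, n ≤ m ∧ P4 R l n :=
  hG axG1 (by simp [piG]) (cn k (cn m fun _ => l)) h hl

theorem len_ml {s i k m M : R.M} (h : LenS R s i) (hm : P4 R k m) (hM : P4 R (i + k) M) :
    M ≤ s * m ∧ s * m < M + M := by
  have := hG axG2 (by simp [piG]) (cn s (cn i (cn k (cn m fun _ => M)))) h hm hM
  exact ⟨this.1, (lt_eq _ _).1 this.2⟩

theorem P4_pos {k m : R.M} (h : P4 R k m) : 0 < m := by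
  have := (hG axG3 (by simp [piG]) (cn k fun _ => m) h).1
  exact lt_of_le_of_ne (nneg m) (Ne.symm this)

theorem P4_ge {k m : R.M} (h : P4 R k m) : k ≤ m :=
  (hG axG3 (by simp [piG]) (cn k fun _ => m) h).2.1

theorem P4_qd {k m : R.M} (h : P4 R k m) : P4 R (R.sc k) (qd R m) :=
  (hG axG3 (by simp [piG]) (cn k fun _ => m) h).2.2.1

theorem dbl_le_qd {k m : R.M} (h : P4 R k m) : m + m ≤ qd R m :=
  (hG axG3 (by simp [piG]) (cn k fun _ => m) h).2.2.2

theorem P4_mono {k l m n : R.M} (h1 : P4 R k m) (h2 : P4 R l n) (h : m < n + n) : k ≤ l :=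
  hG axG5 (by simp [piG]) (cn k (cn m (cn l fun _ => n))) h1 h2 ((lt_eq _ _).2 h)

variable (h : Shape R E C Fam)
include h

theorem shP4 : ∃ M, P4 R E M := by
  obtain ⟨y, m, hm, _⟩ := h.top
  exact ⟨m, hm⟩

theorem sh_place {i : R.M} (hi : C i) : ∃ k m, i + k = E ∧ P4 R k m := by
  obtain ⟨k, hk⟩ := PiC.sub' R (h.bound i hi)
  obtain ⟨M, hM⟩ := shP4 hG h
  have hkE : k ≤ E := by
    have h1 : i + k = E := hk
    rw [← h1]
    exact le_add_of_nonneg_left (nneg i)
  obtain ⟨m, _, hm⟩ := P4_ex hG hM hkE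
  exact ⟨k, m, hk, hm⟩

/-- Coherence of the lower bounds. -/
theorem sh_coh {i s k m j t l n : R.M} (hs : Fam i s) (hik : i + k = E) (hm : P4 R k m)
    (ht : Fam j t) (hjl : j + l = E) (hn : P4 R l n) (hij : i < j) :
    s * m < t * n ∧ t * n < (s + 1) * m := by
  obtain ⟨k', hk'⟩ := PiC.sub' R (show R.le i j from hij.le)
  have hk'' : i + k' = j := hk'
  have hk'E : k' ≤ E := by
    rw [← hjl, ← hk'']
    exact (le_add_of_nonneg_left (nneg i)).trans (le_add_of_nonneg_right (nneg l))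
  obtain ⟨M, hM⟩ := shP4 hG h
  obtain ⟨p, _, hp⟩ := P4_ex hG hM hk'E
  obtain ⟨c1, c2⟩ := h.coh i s j t k' p hs ht ((lt_eq _ _).2 hij) hk' hp
  rw [lt_eq, ml_eq] at c1 c2
  rw [sc_eq] at c2
  have hkk : k = k' + l := by
    have : i + k = i + (k' + l) := by rw [hik, ← hjl, ← hk'', add_assoc]
    exact add_left_cancel this
  have hmp : m = p * n := by
    have := P4_add (piG_F hG) hp hn
    rw [← hkk] at this
    exact P4_unique (piG_F hG) hm this
  have hn0 := P4_pos hG hn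
  rw [hmp, ← mul_assoc, ← mul_assoc]
  exact ⟨mul_lt_mul_of_pos_right c1 hn0, mul_lt_mul_of_pos_right c2 hn0⟩

omit hG h in
theorem WW_init {w w' : R.M} (hw : WW R E Fam w) (hle : w' ≤ w) : WW R E Fam w' := by
  obtain ⟨i, s, k, m, h1, h2, h3, h4⟩ := hw
  exact ⟨i, s, k, m, h1, h2, h3, hle.trans h4⟩

theorem WW_succ {w : R.M} (hw : WW R E Fam w) : WW R E Fam (w + 1) := by
  obtain ⟨i, s, k, m, h1, h2, h3, h4⟩ := hw
  obtain ⟨t, ht⟩ := h.ex _ (h.succ i (h.len i s h1).1)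
  obtain ⟨l, n, hl, hn⟩ := sh_place hG h (h.len _ _ ht).1
  rw [sc_eq] at hl ht
  have hc := sh_coh hG h h1 h2 h3 ht hl hn (lt_add_one_iff'.2 le_rfl)
  refine ⟨i + 1, t, l, n, ht, hl, hn, ?_⟩
  have h5 : w ≤ s * m := h4
  show w + 1 ≤ t * n
  rw [add_one_le_iff']
  exact lt_of_le_of_lt h5 hc.1

theorem WW_lt {w M : R.M} (hM : P4 R E M) (hw : WW R E Fam w) : w < M + M := by
  obtain ⟨i, s, k, m, h1, h2, h3, h4⟩ := hw
  have hM' : P4 R (i + k) M := by
    have : i + k = E := h2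
    rw [this]; exact hM
  exact lt_of_le_of_lt h4 (len_ml hG (h.len i s h1).2 h3 hM').2

theorem WW_top {M : R.M} (hM : P4 R E M) : WW R E Fam M := by
  obtain ⟨s, hs⟩ := h.ex _ h.zero
  have h1 : s = 1 := hG axG4 (by simp [piG]) (fun _ => s) (h.len _ _ hs).2
  refine ⟨R.zr, s, E, M, hs, ?_, hM, ?_⟩
  · show (0 : R.M) + E = E
    exact zero_add E
  · show M ≤ s * M
    rw [h1, one_mul]

theorem Fam_unique {i s t : R.M} (hs : Fam i s) (ht : Fam i t) : s = t := by
  obtain ⟨k, m, hk, hm⟩ := sh_place hG h (h.len i s hs).1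
  obtain ⟨u, hu⟩ := h.ex _ (h.succ i (h.len i s hs).1)
  obtain ⟨l, n, hl, hn⟩ := sh_place hG h (h.len _ _ hu).1
  rw [sc_eq] at hl hu
  have hlt : i < i + 1 := lt_add_one_iff'.2 le_rfl
  obtain ⟨c1, c2⟩ := sh_coh hG h hs hk hm hu hl hn hlt
  obtain ⟨d1, d2⟩ := sh_coh hG h ht hk hm hu hl hn hlt
  refine le_antisymm ?_ ?_
  · exact (blk d1.le d2).1 c1.le
  · exact (blk c1.le c2).1 d1.le

theorem Fam_WW {i s k m : R.M} (hs : Fam i s) (hik : i + k = E) (hm : P4 R k m) :
    WW R E Fam (s * m) := ⟨i, s, k, m, hs, hik, hm, le_refl (s * m)⟩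

theorem Fam_not_WW {i s k m : R.M} (hs : Fam i s) (hik : i + k = E) (hm : P4 R k m) :
    ¬ WW R E Fam ((s + 1) * m) := by
  rintro ⟨j, t, l, n, ht, hjl, hn, hle⟩
  have hle' : (s + 1) * m ≤ t * n := hle
  have hm0 := P4_pos hG hm
  have hlt : s * m < (s + 1) * m := mul_lt_mul_of_pos_right (lt_add_one_iff'.2 le_rfl) hm0
  rcases lt_trichotomy i j with h1 | h1 | h1
  · exact absurd hle' (not_le.2 (sh_coh hG h hs hik hm ht hjl hn h1).2)
  · subst h1
    obtain rfl := Fam_unique hG h hs ht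
    have hkl : k = l := add_left_cancel (hik.trans (show i + l = E from hjl).symm)
    subst hkl
    obtain rfl := P4_unique (piG_F hG) hm hn
    exact absurd hle' (not_le.2 hlt)
  · have := (sh_coh hG h ht hjl hn hs hik hm h1).1
    exact absurd hle' (not_le.2 (this.trans hlt))

theorem Fam_iff {i s k m : R.M} (hik : i + k = E) (hm : P4 R k m) :
    Fam i s ↔ (LenS R s i ∧ WW R E Fam (s * m) ∧ ¬ WW R E Fam ((s + 1) * m)) := by
  constructor
  · intro hs
    exact ⟨(h.len i s hs).2, Fam_WW hG h hs hik hm, Fam_not_WW hG h hs hik hm⟩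
  · rintro ⟨_, h1, h2⟩
    have hm0 := P4_pos hG hm
    by_cases hC : C i
    · obtain ⟨t, ht⟩ := h.ex i hC
      have h3 := Fam_WW hG h ht hik hm
      have h4 := Fam_not_WW hG h ht hik hm
      have h5 : s * m < (t + 1) * m := by
        rw [← not_le]; intro hle; exact h4 (WW_init h1 hle)
      have h6 : t * m < (s + 1) * m := by
        rw [← not_le]; intro hle; exact h2 (WW_init h3 hle)
      have h7 : s ≤ t := lt_add_one_iff'.1 (lt_of_mul_lt_mul_right h5 (nneg m))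
      have h8 : t ≤ s := lt_add_one_iff'.1 (lt_of_mul_lt_mul_right h6 (nneg m))
      rw [le_antisymm h7 h8]
      exact ht
    · exfalso
      obtain ⟨j, t, l, n, ht, hjl, hn, hle⟩ := h1
      have hle' : s * m ≤ t * n := hle
      have hCj := (h.len j t ht).1
      obtain ⟨u, hu⟩ := h.ex _ (h.succ j hCj)
      have hCj1 := (h.len _ _ hu).1
      obtain ⟨l', n', hl', hn'⟩ := sh_place hG h hCj1
      have hji : R.sc j ≤ i := by
        rcases le_total (R.sc j) i with h5 | h5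
        · exact h5
        · exact absurd (h.init i _ hCj1 h5) hC
      have hc := (sh_coh hG h ht hjl hn hu hl' hn' (by
        rw [sc_eq]; exact lt_add_one_iff'.2 le_rfl)).1
      obtain ⟨p, hp⟩ := PiC.sub' R hji
      have hp' : R.sc j + p = i := hp
      obtain ⟨M, hM⟩ := shP4 hG h
      have hpE : p ≤ E := by
        rw [← hik, ← hp']
        exact (le_add_of_nonneg_left (nneg _)).trans (le_add_of_nonneg_right (nneg k))
      obtain ⟨q, _, hq⟩ := P4_ex hG hM hpE
      have hl'' : l' = p + k := by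
        have : R.sc j + l' = R.sc j + (p + k) := by rw [hl', ← add_assoc, hp', hik]
        exact add_left_cancel this
      have hn'' : n' = q * m := by
        have := P4_add (piG_F hG) hq hm
        rw [← hl''] at this
        exact P4_unique (piG_F hG) hn' this
      have hW := Fam_WW hG h hu hl' hn'
      rw [hn'', ← mul_assoc] at hW
      have h6 : u * q * m < (s + 1) * m := by
        rw [← not_le]; intro hle2; exact h2 (WW_init hW hle2)
      have h7 : u * q ≤ s := lt_add_one_iff'.1 (lt_of_mul_lt_mul_right h6 (nneg m))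
      have h8 : u * n' ≤ s * m := by
        rw [hn'', ← mul_assoc]
        exact mul_le_mul_of_nonneg_right h7 (nneg m)
      exact absurd hc (not_lt.2 (h8.trans hle'))

/-! ### The domain -/

theorem l3_mono {x y : R.M} (hxy : x ≤ y) : l3 R x ≤ l3 R y :=
  (piG_Q hG axL3m (by simp [piQ]) (cn x fun _ => y)).1 hxy

theorem l3_le_self (x : R.M) : l3 R x ≤ x :=
  (piG_Q hG axL3m (by simp [piQ]) (fun _ => x)).2.1

theorem shape_init : InitU R (XD R E Fam) := fun _ _ hy hxy =>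
  WW_init hy (l3_mono hG h hxy)

theorem WW_le_succ {w w' : R.M} (hw : WW R E Fam w) (hle : R.le w' (R.sc w)) :
    WW R E Fam w' := by
  rw [sc_eq, le_eq] at hle
  exact WW_init (WW_succ hG h hw) hle

theorem shape_closed : ClosedU R (XD R E Fam) := by
  have hu := fun x : R.M => piG_Q hG axL3u (by simp [piQ]) (fun _ => x)
  have hb := fun x y : R.M => piG_Q hG axL3b (by simp [piQ]) (cn x fun _ => y)
  have h0 : XD R E Fam R.zr := by
    obtain ⟨M, hM⟩ := shP4 hG h
    refine WW_init (WW_top hG h hM) ?_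
    exact (l3_le_self hG h R.zr).trans (nneg M)
  refine ⟨⟨_, h0⟩, ?_⟩
  intro n f a ha
  match n, f, a, ha with
  | 0, f, a, ha =>
    have hf : f = (⟨0, Nat.one_pos⟩ : Fin 1) := Subsingleton.elim (α := Fin 1) _ _
    rw [hf, vec0 (f := a)]
    exact h0
  | 1, f, a, ha =>
    rw [vec1 a]
    have key : ∀ g : Fin 3, XD R E Fam (R.fn 1 g ![a 0]) := by
      intro g
      fin_cases g
      · exact WW_le_succ hG h (ha 0) (hu (a 0)).1
      · exact WW_le_succ hG h (ha 0) (hu (a 0)).2.1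
      · exact WW_le_succ hG h (ha 0) (hu (a 0)).2.2.1
    exact key f
  | 2, f, a, ha =>
    rw [vec2 a]
    have key : ∀ g : Fin 3, XD R E Fam (R.fn 2 g ![a 0, a 1]) := by
      intro g
      fin_cases g
      · rcases (hb (a 0) (a 1)).1 with h1 | h1
        · exact WW_le_succ hG h (ha 0) h1
        · exact WW_le_succ hG h (ha 1) h1
      · rcases (hb (a 0) (a 1)).2.1 with h1 | h1
        · exact WW_le_succ hG h (ha 0) h1
        · exact WW_le_succ hG h (ha 1) h1
      · rcases (hb (a 0) (a 1)).2.2 with h1 | h1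
        · exact WW_le_succ hG h (ha 0) h1
        · exact WW_le_succ hG h (ha 1) h1
    exact key f
  | n + 3, f, a, ha => exact (f : Fin 0).elim0

theorem XD_of_WW {w : R.M} (hw : WW R E Fam w) : XD R E Fam w :=
  WW_init hw (l3_le_self hG h w)

theorem XD_top {M : R.M} (hM : P4 R E M) : XD R E Fam M := XD_of_WW hG h (WW_top hG h hM)

theorem XD_E : XD R E Fam E := by
  obtain ⟨M, hM⟩ := shP4 hG h
  exact shape_init hG h _ _ (XD_top hG h hM) (P4_ge hG hM)

theorem XD_C {i : R.M} (hi : C i) : XD R E Fam i :=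
  shape_init hG h _ _ (XD_E hG h) (h.bound i hi)

theorem XD_Fam {i s : R.M} (hs : Fam i s) : XD R E Fam s := by
  obtain ⟨k, m, hk, hm⟩ := sh_place hG h (h.len i s hs).1
  refine XD_of_WW hG h (WW_init (Fam_WW hG h hs hk hm) ?_)
  have h1 : (1 : R.M) ≤ m := by
    have := P4_pos hG hm
    rw [← zero_add (1 : R.M)]
    exact add_one_le_iff'.2 this
  calc s = s * 1 := (mul_one s).symm
    _ ≤ s * m := mul_le_mul_of_nonneg_left h1 (nneg s)

/-- Everything below `2 * 4 ^ E` is a value of `l3`. -/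
theorem l3_surj {w M : R.M} (hM : P4 R E M) (hw : w < M + M) : ∃ y, l3 R y = w := by
  obtain ⟨y, m, hm, hy⟩ := h.top
  obtain rfl := P4_unique (piG_F hG) hM hm
  rw [lt_eq] at hy
  have hy' : M + M < R.ln (l3 R y) := hy
  have h1 : R.ln (l3 R y) ≤ l3 R y := hG axG7 (by simp [piG]) (fun _ => l3 R y)
  have h2 : w ≤ R.ln (R.ln (R.ln y)) := (hw.trans hy').le.trans h1
  have hs : ∀ a b : R.M, b ≤ R.ln a → ∃ x, x ≤ a ∧ R.ln x = b := fun a b hab =>
    PiC.p0 (S := R) axLenSurj (by simp [pi0]) (cn a fun _ => b) hab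
  obtain ⟨a, ha, ha'⟩ := hs _ _ h2
  obtain ⟨b, hb, hb'⟩ := hs _ _ ha
  obtain ⟨c, _, hc'⟩ := hs _ _ hb
  refine ⟨c, ?_⟩
  unfold l3
  rw [hc', hb', ha']

theorem shape_exp {x : R.M} (hx : XD R E Fam x) : ∃ y, R.ln y = x := by
  obtain ⟨y, m, hm, hy⟩ := h.top
  rw [lt_eq] at hy
  have hy' : m + m < R.ln (l3 R y) := hy
  have h1 : l3 R x < m + m := WW_lt hG h hm hx
  have h2 : l3 R x < l3 R (R.ln y) := h1.trans hy'
  have h3 : x ≤ R.ln y := by
    rcases le_total x (R.ln y) with h4 | h4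
    · exact h4
    · exact absurd (l3_mono hG h h4) (not_le.2 h2)
  obtain ⟨z, _, hz⟩ := PiC.p0 (S := R) axLenSurj (by simp [pi0]) (cn y fun _ => x) h3
  exact ⟨z, hz⟩

/-! ### The substructure -/

section Y
variable (hcl : ClosedU R (XD R E Fam))

theorem subY_P4 (k m : (R.sub (XD R E Fam) hcl).M) :
    P4 (R.sub (XD R E Fam) hcl) k m ↔ P4 R k.1 m.1 :=
  P4.b0.sub_iff R (XD R E Fam) hcl (shape_init hG h) (cn k fun _ => m)

theorem subY_LenS (s k : (R.sub (XD R E Fam) hcl).M) :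
    LenS (R.sub (XD R E Fam) hcl) s k ↔ LenS R s.1 k.1 :=
  LenS.b0.sub_iff R (XD R E Fam) hcl (shape_init hG h) (cn s fun _ => k)

theorem shape_WY (w : (R.sub (XD R E Fam) hcl).M) :
    WY (R.sub (XD R E Fam) hcl) w ↔ WW R E Fam w.1 := by
  constructor
  · rintro ⟨y, rfl⟩
    rw [subQ_l3]
    exact y.2
  · intro hw
    obtain ⟨M, hM⟩ := shP4 hG h
    obtain ⟨y, hy⟩ := l3_surj hG h hM (WW_lt hG h hM hw)
    refine ⟨⟨y, ?_⟩, ?_⟩
    · show WW R E Fam (l3 R y)
      rw [hy]; exact hw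
    · refine Subtype.ext ?_
      rw [subQ_l3]
      exact hy

theorem shape_isE (e : (R.sub (XD R E Fam) hcl).M) :
    isE (R.sub (XD R E Fam) hcl) e ↔ e.1 = E := by
  have hqd : ∀ m : (R.sub (XD R E Fam) hcl).M, (qd (R.sub (XD R E Fam) hcl) m).1 = qd R m.1 := by
    intro m
    show ((R.sub (XD R E Fam) hcl).ad _ _).1 = R.ad (R.ad m.1 m.1) (R.ad m.1 m.1)
    rw [subQ_ad]
    show R.ad ((R.sub (XD R E Fam) hcl).ad m m).1 ((R.sub (XD R E Fam) hcl).ad m m).1 = _
    rw [subQ_ad]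
  obtain ⟨M, hM⟩ := shP4 hG h
  constructor
  · rintro ⟨m, h1, h2, h3⟩
    rw [subY_P4 hG h] at h1
    rw [shape_WY hG h] at h2 h3
    rw [hqd] at h3
    refine le_antisymm (P4_mono hG h1 hM (WW_lt hG h hM h2)) ?_
    have h4 : M < qd R m.1 := by
      rw [← not_le]; intro hle
      exact h3 (WW_init (WW_top hG h hM) hle)
    have h5 : ¬ (R.sc e.1 ≤ E) := by
      intro hle
      obtain ⟨n, hn, hn'⟩ := P4_ex hG hM hle
      obtain rfl := P4_unique (piG_F hG) hn' (P4_qd hG h1)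
      exact absurd hn (not_le.2 h4)
    rw [not_le, sc_eq, lt_add_one_iff'] at h5
    exact h5
  · intro he
    refine ⟨⟨M, XD_top hG h hM⟩, ?_, ?_, ?_⟩
    · rw [subY_P4 hG h, he]; exact hM
    · rw [shape_WY hG h]; exact WW_top hG h hM
    · rw [shape_WY hG h, hqd]
      intro hw
      have h1 := WW_lt hG h hM hw
      exact absurd (dbl_le_qd hG hM) (not_le.2 h1)

theorem shape_CX (i s : (R.sub (XD R E Fam) hcl).M) :
    CX (R.sub (XD R E Fam) hcl) i s ↔ Fam i.1 s.1 := by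
  constructor
  · rintro ⟨e, k, m, h1, h2, h3, h4, h5, h6⟩
    rw [shape_isE hG h] at h1
    rw [subY_P4 hG h] at h3
    rw [subY_LenS hG h] at h4
    rw [shape_WY hG h, subQ_ml] at h5 h6
    rw [subQ_sc] at h6
    have h2' : i.1 + k.1 = E := by
      have := congrArg Subtype.val h2
      rw [subQ_ad] at this
      exact this.trans h1
    rw [Fam_iff hG h h2' h3]
    refine ⟨h4, h5, ?_⟩
    rw [sc_eq] at h6
    exact h6
  · intro hs
    obtain ⟨k, m, hk, hm⟩ := sh_place hG h (h.len _ _ hs).1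
    obtain ⟨M, hM⟩ := shP4 hG h
    have hkE : k ≤ E := by
      rw [← hk]; exact le_add_of_nonneg_left (nneg _)
    have hXk : XD R E Fam k := shape_init hG h _ _ (XD_E hG h) hkE
    have hXm : XD R E Fam m := by
      obtain ⟨n, hn, hn'⟩ := P4_ex hG hM hkE
      obtain rfl := P4_unique (piG_F hG) hm hn'
      exact shape_init hG h _ _ (XD_top hG h hM) hn
    obtain ⟨a1, a2, a3⟩ := (Fam_iff hG h hk hm).1 hs
    refine ⟨⟨E, XD_E hG h⟩, ⟨k, hXk⟩, ⟨m, hXm⟩, ?_, ?_, ?_, ?_, ?_, ?_⟩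
    · rw [shape_isE hG h]
    · refine Subtype.ext ?_
      rw [subQ_ad]
      exact hk
    · rw [subY_P4 hG h]; exact hm
    · rw [subY_LenS hG h]; exact a1
    · rw [shape_WY hG h, subQ_ml]; exact a2
    · rw [shape_WY hG h, subQ_ml, subQ_sc, sc_eq]; exact a3

end Y

end

end Pool.Agent.MP81222b
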