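import Pool.Agent.Lib.MP_81222b_lc.Sem

/-!
# The Henkin structure and its truth lemma
-/

namespace Pool.Agent.MP81222b

theorem lt_iff_lt {S : Str Lar} [PiC S] {x y : S.M} : S.lt x y ↔ x < y := by
  unfold Str.lt
  rw [sc_eq, le_eq, add_one_le_iff']

section numerals
variable (S : Str Lar) [PiC S]

theorem nmS_addH (a b : ℕ) : nmS S (a + b) = nmS S a + nmS S b := by
  induction b with
  | zero => exact (add_zero _).symm
  | succ b ih =>
    show S.sc (nmS S (a + b)) = nmS S a + S.sc (nmS S b)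
    rw [sc_eq, sc_eq, ih, add_assoc]

theorem nmS_mulH (a b : ℕ) : nmS S (a * b) = nmS S a * nmS S b := by
  induction b with
  | zero => exact (mul_zero _).symm
  | succ b ih =>
    show nmS S (a * b + a) = nmS S a * S.sc (nmS S b)
    rw [nmS_addH, sc_eq, ih, mul_add, mul_one]

theorem nmS_prH (a b : ℕ) : nmS S (pr a b) = prS S (nmS S a) (nmS S b) := by
  unfold pr prS
  rw [nmS_addH, nmS_mulH, nmS_addH]
  rfl

theorem nmS_consH (a b : ℕ) : nmS S (consN a b) = consS S (nmS S a) (nmS S b) := by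
  unfold consN consS
  rw [← nmS_prH]
  rfl

theorem nmS_dblH (a : ℕ) : nmS S (2 * a) = dbl S (nmS S a) := by
  rw [two_mul, nmS_addH]
  rfl

theorem nmS_qdH (a : ℕ) : nmS S (4 * a) = qd S (nmS S a) := by
  rw [show 4 * a = 2 * (2 * a) by ring, nmS_dblH, nmS_dblH]
  rfl

theorem nmS_gn_eq (a b : ℕ) : nmS S ((Fm.eq (.var a) (.var b) : Fm LA).gn) =
    kEq S (dbl S (nmS S a)) (dbl S (nmS S b)) := by
  show nmS S (4 * pr (2 * a) (2 * b) + 1) = _
  unfold kEq
  rw [← nmS_dblH, ← nmS_dblH, ← nmS_prH, ← nmS_qdH]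
  rfl

theorem nmS_gn_rl (r : Fin 9) (a b c : ℕ) : nmS S ((fR r a b c).gn) =
    kRl S r (li3 S (dbl S (nmS S a)) (dbl S (nmS S b)) (dbl S (nmS S c))) := by
  rw [gn_fR]
  unfold kRl li3 li2 li1
  have h0 : S.zr = nmS S 0 := rfl
  rw [h0, ← nmS_dblH, ← nmS_dblH, ← nmS_dblH, ← nmS_consH, ← nmS_consH, ← nmS_consH, ← nmS_prH,
    ← nmS_prH, ← nmS_qdH]
  rfl

theorem nmS_gn_imp (f g : Fm LA) : nmS S ((Fm.imp f g).gn) = kImp S (nmS S f.gn) (nmS S g.gn) := by
  show nmS S (4 * pr f.gn g.gn + 3) = _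
  unfold kImp
  rw [← nmS_prH, ← nmS_qdH]
  rfl

theorem nmS_gn_all (f : Fm LA) : nmS S ((Fm.all f).gn) = kAll S (nmS S f.gn) := by
  show nmS S (4 * f.gn + 4) = _
  unfold kAll
  rw [← nmS_qdH]
  rfl

end numerals

/-! ### The least number principle used -/

instance iEq.tDef {t u : (S : Str Lar) → (ℕ → S.M) → S.M} [TDef t] [TDef u] :
    TDef (fun (S : Str Lar) e => iEq S (t S e) (u S e)) :=
  inferInstanceAs (TDef (fun (S : Str Lar) e => prS S (nmS S cEq) (li2 S (t S e) (u S e))))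

/-- Least number principle for decisions on equalities. -/
def axLnpEq : PiAx where
  P := fun S e => Dig S (e 0) (iEq S (e 2) (e 1)) → ∃ z, S.le z (e 2) ∧
    (Dig S (e 0) (iEq S z (e 1)) ∧
      ∀ w, S.le w z → (S.lt w z → ¬ Dig S (e 0) (iEq S w (e 1))))
  bdef := inferInstance
  nat := fun e h => by
    classical
    have h' : ∃ y : ℕ, Dig natS (e 0) (iEq natS y (e 1)) := ⟨e 2, h⟩
    refine ⟨(Nat.find h' : ℕ), Nat.find_min' h' h, Nat.find_spec h', fun w _ hw => ?_⟩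
    exact Nat.find_min h' hw

/-- The axioms for module H. -/
def piH : List PiAx := [axLnpEq]

/-! ### Closure properties of the cuts -/

section cuts
variable {S : Str Lar} [PiC S] {C : S.M → Prop}
  (hi : ∀ x y, C y → S.le x y → C x) (h0 : C S.zr) (h1 : ∀ x, C x → C (S.sc x))

include h1 in
theorem C_succ {x : S.M} (hx : C x) : C (x + 1) := by
  rw [← sc_eq]; exact h1 x hx

omit [PiC S] in
theorem J3.c {x : S.M} (h : J3 S C x) : C x := h.1
omit [PiC S] in
theorem J4.j {x : S.M} (h : J4 S C x) : J3 S C x := h.1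
omit [PiC S] in
theorem J4.c {x : S.M} (h : J4 S C x) : C x := h.1.1

include hi in
theorem J3.init {x y : S.M} (hy : J3 S C y) (h : x ≤ y) : J3 S C x := by
  refine ⟨hi x y hy.1 h, fun z hz => hi _ _ (hy.2 z hz) ?_⟩
  rw [ad_eq, ad_eq, le_eq]
  exact add_le_add_right h z

theorem J3.add {x y : S.M} (hx : J3 S C x) (hy : J3 S C y) : J3 S C (x + y) := by
  refine ⟨hy.2 x hx.1, fun z hz => ?_⟩
  have := hy.2 _ (hx.2 z hz)
  rw [ad_eq, ad_eq] at this
  rw [ad_eq, ← add_assoc]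
  exact this

include h0 in
theorem J3.zero : J3 S C 0 := by
  refine ⟨h0, fun z hz => ?_⟩
  rw [ad_eq, add_zero]
  exact hz

include h0 h1 in
theorem J3.one : J3 S C 1 := by
  refine ⟨?_, fun z hz => ?_⟩
  · have := C_succ h1 h0
    rwa [zr_eq, zero_add] at this
  · rw [ad_eq]
    exact C_succ h1 hz

include hi in
theorem J4.init {x y : S.M} (hy : J4 S C y) (h : x ≤ y) : J4 S C x := by
  refine ⟨J3.init hi hy.1 h, fun z hz => J3.init hi (hy.2 z hz) ?_⟩
  rw [ml_eq, ml_eq]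
  have h0 : (0 : S.M) ≤ z := PiC.zero_le' S z
  exact mul_le_mul_of_nonneg_left h h0

theorem J4.add {x y : S.M} (hx : J4 S C x) (hy : J4 S C y) : J4 S C (x + y) := by
  refine ⟨hx.1.add hy.1, fun z hz => ?_⟩
  have := (hx.2 z hz).add (hy.2 z hz)
  rw [ml_eq, ml_eq] at this
  rw [ml_eq, mul_add]
  exact this

theorem J4.mul {x y : S.M} (hx : J4 S C x) (hy : J4 S C y) : J4 S C (x * y) := by
  refine ⟨hy.2 x hx.1, fun z hz => ?_⟩
  have := hy.2 _ (hx.2 z hz)
  rw [ml_eq, ml_eq] at this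
  rw [ml_eq, ← mul_assoc]
  exact this

include h0 in
theorem J4.zero : J4 S C 0 := by
  refine ⟨J3.zero h0, fun z hz => ?_⟩
  rw [ml_eq, mul_zero]
  exact J3.zero h0

include h0 h1 in
theorem J4.one : J4 S C 1 := by
  refine ⟨J3.one h0 h1, fun z hz => ?_⟩
  rw [ml_eq, mul_one]
  exact hz

include h0 h1 in
theorem J4.sc {x : S.M} (hx : J4 S C x) : J4 S C (S.sc x) := by
  rw [sc_eq]
  exact hx.add (J4.one h0 h1)

include h0 h1 in
theorem J4.nm (n : ℕ) : J4 S C (nmS S n) := by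
  induction n with
  | zero => exact J4.zero h0
  | succ n ih => exact J4.sc h0 h1 ih

theorem J4.pr {x y : S.M} (hx : J4 S C x) (hy : J4 S C y) : J4 S C (prS S x y) := by
  unfold prS
  rw [ad_eq, ad_eq, ml_eq]
  exact ((hx.add hy).mul (hx.add hy)).add hx

include h0 h1 in
theorem J4.cons {x y : S.M} (hx : J4 S C x) (hy : J4 S C y) : J4 S C (consS S x y) :=
  J4.sc h0 h1 (hx.pr hy)

theorem J4.dbl {x : S.M} (hx : J4 S C x) : J4 S C (dbl S x) := hx.add hx
theorem J4.qd {x : S.M} (hx : J4 S C x) : J4 S C (qd S x) := hx.dbl.dbl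

include h0 h1 in
theorem J4.li2 {x y : S.M} (hx : J4 S C x) (hy : J4 S C y) : J4 S C (li2 S x y) :=
  J4.cons h0 h1 hx (J4.cons h0 h1 hy (J4.zero h0))
include h0 h1 in
theorem J4.li3 {x y z : S.M} (hx : J4 S C x) (hy : J4 S C y) (hz : J4 S C z) :
    J4 S C (li3 S x y z) :=
  J4.cons h0 h1 hx (J4.li2 h0 h1 hy hz)
include h0 h1 in
theorem J4.kImp {x y : S.M} (hx : J4 S C x) (hy : J4 S C y) : J4 S C (kImp S x y) :=
  J4.sc h0 h1 (J4.sc h0 h1 (J4.sc h0 h1 (hx.pr hy).qd))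
include h0 h1 in
theorem J4.kAll {x : S.M} (hx : J4 S C x) : J4 S C (kAll S x) :=
  J4.sc h0 h1 (J4.sc h0 h1 (J4.sc h0 h1 (J4.sc h0 h1 hx.qd)))
include h0 h1 in
theorem J4.kEq {x y : S.M} (hx : J4 S C x) (hy : J4 S C y) : J4 S C (kEq S x y) :=
  J4.sc h0 h1 (hx.pr hy).qd
include h0 h1 in
theorem J4.kRl {x : S.M} (r : ℕ) (hx : J4 S C x) : J4 S C (kRl S r x) :=
  J4.sc h0 h1 (J4.sc h0 h1 (((J4.nm h0 h1 3).pr (J4.nm h0 h1 r)).pr hx).qd)
include h0 h1 in
theorem J4.iEq {x y : S.M} (hx : J4 S C x) (hy : J4 S C y) : J4 S C (iEq S x y) :=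
  (J4.nm h0 h1 _).pr (J4.li2 h0 h1 hx hy)
include h0 h1 in
theorem J4.iRl {x y z : S.M} (r : ℕ) (hx : J4 S C x) (hy : J4 S C y) (hz : J4 S C z) :
    J4 S C (iRl S r x y z) :=
  (J4.nm h0 h1 _).pr (J4.li3 h0 h1 hx hy hz)
include h0 h1 in
theorem J4.lst (n : ℕ) : ∀ e : ℕ → S.M, (∀ i, J4 S C (e i)) → J4 S C (lst S e n) := by
  induction n with
  | zero => intro e _; exact J4.zero h0
  | succ n ih => intro e he; exact J4.cons h0 h1 (he 0) (ih _ fun i => he (i + 1))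

end cuts

theorem le_add_leftH {S : Str Lar} [PiC S] (x y : S.M) : x ≤ y + x := by
  have h0 : (0 : S.M) ≤ y := PiC.zero_le' S y
  calc x = 0 + x := (zero_add x).symm
    _ ≤ y + x := by gcongr

theorem le_add_rightH {S : Str Lar} [PiC S] (x y : S.M) : x ≤ x + y := by
  rw [add_comm]; exact le_add_leftH x y

theorem prS_mono {S : Str Lar} [PiC S] {x y x' y' : S.M} (hx : x ≤ x') (hy : y ≤ y') :
    prS S x y ≤ prS S x' y' := by
  unfold prS
  simp only [ad_eq, ml_eq]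
  have h0 : (0 : S.M) ≤ x + y := PiC.zero_le' S _
  have h0' : (0 : S.M) ≤ x' + y' := PiC.zero_le' S _
  have h1 : x + y ≤ x' + y' := add_le_add hx hy
  exact add_le_add (mul_le_mul h1 h1 h0 h0') hx

theorem consS_mono {S : Str Lar} [PiC S] {x y x' y' : S.M} (hx : x ≤ x') (hy : y ≤ y') :
    consS S x y ≤ consS S x' y' := by
  unfold consS
  rw [sc_eq, sc_eq]
  exact add_le_add (prS_mono hx hy) le_rfl

theorem iEq_mono {S : Str Lar} [PiC S] {x x' : S.M} (y : S.M) (hx : x ≤ x') :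
    iEq S x y ≤ iEq S x' y := by
  unfold iEq li2 li1
  exact prS_mono le_rfl (consS_mono hx le_rfl)

/-! ### The clauses on `J4` -/

section clauses
variable {S : Str Lar} [PiC S] {C D : S.M → Prop} {lk : S.M → S.M → S.M → Prop}
  (h0 : C S.zr) (h1 : ∀ x, C x → C (S.sc x)) (hCl : ∀ i, C i → Cl S lk D i)
include h0 h1 hCl

/-- Common bound. -/
theorem exCl (l : List S.M) (hl : ∀ x ∈ l, J4 S C x) :
    ∃ i, Cl S lk D i ∧ ∀ x ∈ l, S.lt x i := by
  have : ∃ i, J4 S C i ∧ ∀ x ∈ l, x ≤ i := by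
    induction l with
    | nil => exact ⟨0, J4.zero h0, by simp⟩
    | cons a l ih =>
      obtain ⟨i, h2, h3⟩ := ih fun x hx => hl x (List.mem_cons_of_mem _ hx)
      refine ⟨a + i, (hl a (List.mem_cons_self ..)).add h2, fun x hx => ?_⟩
      rcases List.mem_cons.1 hx with rfl | hx
      · exact le_add_rightH _ _
      · exact (h3 x hx).trans (le_add_leftH _ _)
  obtain ⟨i, h2, h3⟩ := this
  refine ⟨i + 1, hCl _ (C_succ h1 h2.c), fun x hx => ?_⟩
  rw [lt_iff_lt, lt_add_one_iff']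
  exact h3 x hx

theorem clBot {s : S.M} (hs : J4 S C s) : ¬ D (prS S S.zr s) := by
  obtain ⟨i, h, hl⟩ := exCl h0 h1 hCl [prS S S.zr s] (by
    simp only [List.mem_singleton, forall_eq]
    exact (J4.zero h0).pr hs)
  exact h.bot s (hl _ (by simp))

theorem clImp {f g s : S.M} (hf : J4 S C f) (hg : J4 S C g) (hs : J4 S C s) :
    D (prS S (kImp S f g) s) ↔ (D (prS S f s) → D (prS S g s)) := by
  obtain ⟨i, h, hl⟩ := exCl h0 h1 hCl [prS S (kImp S f g) s, prS S f s, prS S g s] (by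
    simp only [List.mem_cons, List.not_mem_nil, or_false, forall_eq_or_imp, forall_eq]
    exact ⟨(J4.kImp h0 h1 hf hg).pr hs, hf.pr hs, hg.pr hs⟩)
  exact h.imp f g s (hl _ (by simp)) (hl _ (by simp)) (hl _ (by simp))

theorem clAll1 {f s x : S.M} (hf : J4 S C f) (hs : J4 S C s) (hx : J4 S C x)
    (h : D (prS S (kAll S f) s)) : D (prS S f (consS S x s)) := by
  obtain ⟨i, h', hl⟩ := exCl h0 h1 hCl [prS S (kAll S f) s, prS S f (consS S x s)] (by
    simp only [List.mem_cons, List.not_mem_nil, or_false, forall_eq_or_imp, forall_eq]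
    exact ⟨(J4.kAll h0 h1 hf).pr hs, hf.pr (J4.cons h0 h1 hx hs)⟩)
  exact h'.all1 f s x (hl _ (by simp)) (hl _ (by simp)) h

theorem clAll2 {f s : S.M} (hf : J4 S C f) (hs : J4 S C s)
    (h : D (prS S f (consS S (prS S (kAll S f) s) s))) : D (prS S (kAll S f) s) := by
  obtain ⟨i, h', hl⟩ := exCl h0 h1 hCl
      [prS S (kAll S f) s, prS S f (consS S (prS S (kAll S f) s) s)] (by
    simp only [List.mem_cons, List.not_mem_nil, or_false, forall_eq_or_imp, forall_eq]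
    exact ⟨(J4.kAll h0 h1 hf).pr hs, hf.pr (J4.cons h0 h1 ((J4.kAll h0 h1 hf).pr hs) hs)⟩)
  exact h'.all2 f s (hl _ (by simp)) (hl _ (by simp)) h

theorem clEq {a b s x y : S.M} (ha : J4 S C a) (hb : J4 S C b) (hs : J4 S C s) (hx : J4 S C x)
    (hy : J4 S C y) (hax : lk s a x) (hby : lk s b y) :
    D (prS S (kEq S (dbl S a) (dbl S b)) s) ↔ D (iEq S x y) := by
  obtain ⟨i, h', hl⟩ := exCl h0 h1 hCl [prS S (kEq S (dbl S a) (dbl S b)) s, iEq S x y] (by
    simp only [List.mem_cons, List.not_mem_nil, or_false, forall_eq_or_imp, forall_eq]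
    exact ⟨(J4.kEq h0 h1 ha.dbl hb.dbl).pr hs, J4.iEq h0 h1 hx hy⟩)
  exact h'.eq a b s x y hax hby (hl _ (by simp)) (hl _ (by simp))

theorem clRl (r : Fin 9) {a b c s x y z : S.M} (ha : J4 S C a) (hb : J4 S C b) (hc : J4 S C c)
    (hs : J4 S C s) (hx : J4 S C x) (hy : J4 S C y) (hz : J4 S C z) (hax : lk s a x)
    (hby : lk s b y) (hcz : lk s c z) :
    D (prS S (kRl S r (li3 S (dbl S a) (dbl S b) (dbl S c))) s) ↔ D (iRl S r x y z) := by
  obtain ⟨i, h', hl⟩ := exCl h0 h1 hCl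
      [prS S (kRl S r (li3 S (dbl S a) (dbl S b) (dbl S c))) s, iRl S r x y z] (by
    simp only [List.mem_cons, List.not_mem_nil, or_false, forall_eq_or_imp, forall_eq]
    exact ⟨(J4.kRl h0 h1 r (J4.li3 h0 h1 ha.dbl hb.dbl hc.dbl)).pr hs,
      J4.iRl h0 h1 r hx hy hz⟩)
  exact h'.rl r a b c s x y z hax hby hcz (hl _ (by simp)) (hl _ (by simp))

theorem clRefl {x : S.M} (hx : J4 S C x) : D (iEq S x x) := by
  obtain ⟨i, h', hl⟩ := exCl h0 h1 hCl [iEq S x x] (by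
    simp only [List.mem_singleton, forall_eq]
    exact J4.iEq h0 h1 hx hx)
  exact h'.refl x (hl _ (by simp))

theorem clEucl {x y z : S.M} (hx : J4 S C x) (hy : J4 S C y) (hz : J4 S C z)
    (h2 : D (iEq S x y)) (h3 : D (iEq S x z)) : D (iEq S y z) := by
  obtain ⟨i, h', hl⟩ := exCl h0 h1 hCl [iEq S x y, iEq S x z, iEq S y z] (by
    simp only [List.mem_cons, List.not_mem_nil, or_false, forall_eq_or_imp, forall_eq]
    exact ⟨J4.iEq h0 h1 hx hy, J4.iEq h0 h1 hx hz, J4.iEq h0 h1 hy hz⟩)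
  exact h'.eucl x y z (hl _ (by simp)) (hl _ (by simp)) (hl _ (by simp)) h2 h3

theorem clSymm {x y : S.M} (hx : J4 S C x) (hy : J4 S C y) (h2 : D (iEq S x y)) :
    D (iEq S y x) :=
  clEucl h0 h1 hCl hx hy hx h2 (clRefl h0 h1 hCl hx)

theorem clTrans {x y z : S.M} (hx : J4 S C x) (hy : J4 S C y) (hz : J4 S C z)
    (h2 : D (iEq S x y)) (h3 : D (iEq S y z)) : D (iEq S x z) :=
  clEucl h0 h1 hCl hy hx hz (clSymm h0 h1 hCl hx hy h2) h3

theorem clCong (r : Fin 9) {x y z x' y' z' : S.M} (hx : J4 S C x) (hy : J4 S C y)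
    (hz : J4 S C z) (hx' : J4 S C x') (hy' : J4 S C y') (hz' : J4 S C z')
    (h2 : D (iRl S r x y z)) (h3 : D (iEq S x x')) (h4 : D (iEq S y y')) (h5 : D (iEq S z z')) :
    D (iRl S r x' y' z') := by
  obtain ⟨i, h', hl⟩ := exCl h0 h1 hCl
      [iRl S r x y z, iEq S x x', iEq S y y', iEq S z z', iRl S r x' y' z'] (by
    simp only [List.mem_cons, List.not_mem_nil, or_false, forall_eq_or_imp, forall_eq]
    exact ⟨J4.iRl h0 h1 r hx hy hz, J4.iEq h0 h1 hx hx', J4.iEq h0 h1 hy hy',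
      J4.iEq h0 h1 hz hz', J4.iRl h0 h1 r hx' hy' hz'⟩)
  exact h'.cong r x y z x' y' z' (hl _ (by simp)) (hl _ (by simp)) (hl _ (by simp))
    (hl _ (by simp)) (hl _ (by simp)) h2 h3 h4 h5

/-- Existence of canonical representatives. -/
theorem exCano (hH : ∀ a ∈ piH, a.Holds S) (hi : ∀ x y, C y → S.le x y → C x)
    (hc : ∀ i, C i → ∃ s, ∀ k, S.lt k i → (D k ↔ Dig S s k)) {x : S.M} (hx : J4 S C x) :
    ∃ y, Cano S C D y ∧ D (iEq S y x) := by
  have hix := J4.iEq h0 h1 hx hx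
  obtain ⟨s, hs⟩ := hc (iEq S x x + 1) (C_succ h1 hix.c)
  have hD : ∀ y, y ≤ x → (D (iEq S y x) ↔ Dig S s (iEq S y x)) := by
    intro y hy
    apply hs
    rw [lt_iff_lt, lt_add_one_iff']
    exact iEq_mono x hy
  obtain ⟨z, h2, h3, h4⟩ := hH axLnpEq (by simp [piH]) (cn s (cn x (cn x (fun _ => x))))
    ((hD x le_rfl).1 (clRefl h0 h1 hCl hx))
  have h2' : z ≤ x := h2
  have h3' : D (iEq S z x) := (hD z h2').2 h3
  have hz : J4 S C z := J4.init hi hx h2'
  refine ⟨z, ⟨hz, fun y hy hDy => ?_⟩, h3'⟩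
  have hyz : y < z := lt_iff_lt.1 hy
  have hy' : J4 S C y := J4.init hi hz hyz.le
  have h5 : D (iEq S y x) := clTrans h0 h1 hCl hy' hz hx hDy h3'
  exact h4 y hyz.le hy ((hD y (hyz.le.trans h2')).1 h5)

omit hCl h1 in
theorem cano_ex : ∃ x, Cano S C D x := by
  refine ⟨0, J4.zero h0, fun y hy => ?_⟩
  rw [lt_iff_lt] at hy
  exact absurd hy (not_lt.2 (PiC.zero_le' S y))

end clauses

section truth
variable {S : Str Lar} [PiC S] (hH : ∀ a ∈ piH, a.Holds S) {C D : S.M → Prop}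
  {lk : S.M → S.M → S.M → Prop}
  (hi : ∀ x y, C y → S.le x y → C x) (h0 : C S.zr) (h1 : ∀ x, C x → C (S.sc x))
  (hCl : ∀ i, C i → Cl S lk D i)
  (l0 : ∀ x s, C x → C s → lk (consS S x s) S.zr x)
  (l1 : ∀ x s a y, C x → C s → C a → lk s a y → lk (consS S x s) (S.sc a) y)
  (hc : ∀ i, C i → ∃ s, ∀ k, S.lt k i → (D k ↔ Dig S s k))

include h0 h1 l0 l1 in
theorem lk_lst (n : ℕ) : ∀ (x : ℕ → S.M), (∀ i, J4 S C (x i)) → ∀ a < n,
    lk (lst S x n) (nmS S a) (x a) := by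
  induction n with
  | zero => intro x _ a ha; exact absurd ha (Nat.not_lt_zero a)
  | succ n ih =>
    intro x hx a ha
    have hl := J4.lst h0 h1 n (fun i => x (i + 1)) (fun i => hx (i + 1))
    cases a with
    | zero => exact l0 _ _ (hx 0).c hl.c
    | succ a =>
      exact l1 _ _ _ _ (hx 0).c hl.c (J4.nm h0 h1 a).c
        (ih (fun i => x (i + 1)) (fun i => hx (i + 1)) a (by omega))

include hH hi h0 h1 hCl l0 l1 hc in
theorem henkin_truth_aux (h : ∃ x, Cano S C D x) (f : Fm LA) : ∀ (n : ℕ) (x : ℕ → S.M)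
    (e : ℕ → (HS S C D h).M), (∀ i, J4 S C (x i)) → (∀ i < n, D (iEq S (e i).1 (x i))) →
    f.bd n → (f.Sat (HS S C D h) e ↔ D (prS S (nmS S f.gn) (lst S x n))) := by
  induction f with
  | bot =>
    intro n x e hx _ _
    simp only [Fm.Sat, false_iff]
    exact clBot h0 h1 hCl (J4.lst h0 h1 n x hx)
  | eq t u =>
    intro n x e hx hex hbd
    obtain ⟨a, rfl⟩ := LA_tm t
    obtain ⟨b, rfl⟩ := LA_tm u
    have ha : a < n := hbd.1
    have hb : b < n := hbd.2
    rw [nmS_gn_eq, clEq h0 h1 hCl (J4.nm h0 h1 a) (J4.nm h0 h1 b) (J4.lst h0 h1 n x hx) (hx a)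
      (hx b) (lk_lst h0 h1 l0 l1 n x hx a ha) (lk_lst h0 h1 l0 l1 n x hx b hb)]
    have ea : J4 S C (e a).1 := (e a).2.1
    have eb : J4 S C (e b).1 := (e b).2.1
    simp only [Fm.Sat, val_var]
    constructor
    · intro heq
      have h2 := hex a ha
      have h3 := hex b hb
      rw [← heq] at h3
      exact clEucl h0 h1 hCl ea (hx a) (hx b) h2 h3
    · intro hD
      have h2 : D (iEq S (e a).1 (e b).1) :=
        clTrans h0 h1 hCl ea (hx b) eb (clTrans h0 h1 hCl ea (hx a) (hx b) (hex a ha) hD)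
          (clSymm h0 h1 hCl eb (hx b) (hex b hb))
      have h3 := clSymm h0 h1 hCl ea eb h2
      rcases lt_trichotomy (e a).1 (e b).1 with hlt | heq | hlt
      · exact absurd h2 ((e b).2.2 _ (lt_iff_lt.2 hlt))
      · exact Subtype.ext heq
      · exact absurd h3 ((e a).2.2 _ (lt_iff_lt.2 hlt))
  | rl m r ts =>
    intro n x e hx hex hbd
    obtain ⟨r', i, j, k, hf⟩ := LA_rl r ts
    rw [hf] at hbd ⊢
    have hin : i < n := hbd (0 : Fin 3)
    have hjn : j < n := hbd (1 : Fin 3)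
    have hkn : k < n := hbd (2 : Fin 3)
    have ei : J4 S C (e i).1 := (e i).2.1
    have ej : J4 S C (e j).1 := (e j).2.1
    have ek : J4 S C (e k).1 := (e k).2.1
    rw [nmS_gn_rl, clRl h0 h1 hCl r' (J4.nm h0 h1 i) (J4.nm h0 h1 j) (J4.nm h0 h1 k)
      (J4.lst h0 h1 n x hx) (hx i) (hx j) (hx k) (lk_lst h0 h1 l0 l1 n x hx i hin)
      (lk_lst h0 h1 l0 l1 n x hx j hjn) (lk_lst h0 h1 l0 l1 n x hx k hkn), sat_fR]
    change D (iRl S r' (e i).1 (e j).1 (e k).1) ↔ _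
    constructor
    · intro hD
      exact clCong h0 h1 hCl r' ei ej ek (hx i) (hx j) (hx k) hD (hex i hin) (hex j hjn)
        (hex k hkn)
    · intro hD
      exact clCong h0 h1 hCl r' (hx i) (hx j) (hx k) ei ej ek hD
        (clSymm h0 h1 hCl ei (hx i) (hex i hin)) (clSymm h0 h1 hCl ej (hx j) (hex j hjn))
        (clSymm h0 h1 hCl ek (hx k) (hex k hkn))
  | imp f g ihf ihg =>
    intro n x e hx hex hbd
    rw [nmS_gn_imp, clImp h0 h1 hCl (J4.nm h0 h1 _) (J4.nm h0 h1 _) (J4.lst h0 h1 n x hx)]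
    simp only [Fm.Sat]
    rw [ihf n x e hx hex hbd.1, ihg n x e hx hex hbd.2]
  | all f ih =>
    intro n x e hx hex hbd
    rw [nmS_gn_all]
    have hl := J4.lst h0 h1 n x hx
    have hf := J4.nm h0 h1 (S := S) (C := C) f.gn
    simp only [Fm.Sat]
    have hstep : ∀ (y : S.M) (y' : (HS S C D h).M), J4 S C y → D (iEq S y'.1 y) →
        (f.Sat (HS S C D h) (cn y' e) ↔
          D (prS S (nmS S f.gn) (consS S y (lst S x n)))) := by
      intro y y' hy hyy
      refine ih (n + 1) (cn y x) (cn y' e) ?_ ?_ hbd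
      · intro i
        cases i with
        | zero => exact hy
        | succ i => exact hx i
      · intro i hin
        cases i with
        | zero => exact hyy
        | succ i => exact hex i (by omega)
    constructor
    · intro hall
      apply clAll2 h0 h1 hCl hf hl
      have hk := (J4.kAll h0 h1 hf).pr hl
      obtain ⟨y, hy, hyk⟩ := exCano h0 h1 hCl hH hi hc hk
      exact (hstep _ ⟨y, hy⟩ hk hyk).1 (hall ⟨y, hy⟩)
    · intro hD y
      rw [hstep y.1 y y.2.1 (clRefl h0 h1 hCl y.2.1)]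
      exact clAll1 h0 h1 hCl hf hl y.2.1 hD

include hH hi h0 h1 hCl l0 l1 hc in
/-- The truth lemma. -/
theorem henkin_truth (h : ∃ x, Cano S C D x) (f : Fm LA) (n : ℕ) (e : ℕ → (HS S C D h).M)
    (hf : f.bd n) : f.Sat (HS S C D h) e ↔
      D (prS S (nmS S f.gn) (lst S (fun i => (e i).1) n)) :=
  henkin_truth_aux hH hi h0 h1 hCl l0 l1 hc h f n (fun i => (e i).1) e (fun i => (e i).2.1)
    (fun i _ => clRefl h0 h1 hCl (e i).2.1) hf

end truth

end Pool.Agent.MP81222b
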