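import Pool.Agent.Lib.MP_81222b_lc.Henk

/-!
# The code functions are primitive recursive
-/

namespace Pool.Agent.MP81222b

open Primrec

section basicfun
variable {α : Type} [Primcodable α] {f g h : α → ℕ}

theorem prm_add (hf : Primrec f) (hg : Primrec g) : Primrec fun a => f a + g a :=
  Primrec.nat_add.comp hf hg
theorem prm_mul (hf : Primrec f) (hg : Primrec g) : Primrec fun a => f a * g a :=
  Primrec.nat_mul.comp hf hg
theorem prm_sub (hf : Primrec f) (hg : Primrec g) : Primrec fun a => f a - g a :=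
  Primrec.nat_sub.comp hf hg
theorem prm_div (hf : Primrec f) (hg : Primrec g) : Primrec fun a => f a / g a :=
  Primrec.nat_div.comp hf hg
theorem prm_mod (hf : Primrec f) (hg : Primrec g) : Primrec fun a => f a % g a :=
  Primrec.nat_mod.comp hf hg
theorem prm_c (n : ℕ) : Primrec fun _ : α => n := Primrec.const n
theorem prm_eq (hf : Primrec f) (hg : Primrec g) : PrimrecPred fun a => f a = g a :=
  Primrec.eq.comp hf hg
theorem prm_lt (hf : Primrec f) (hg : Primrec g) : PrimrecPred fun a => f a < g a :=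
  Primrec.nat_lt.comp hf hg

theorem prm_pr (hf : Primrec f) (hg : Primrec g) : Primrec fun a => pr (f a) (g a) :=
  prm_add (prm_mul (prm_add hf hg) (prm_add hf hg)) hf

theorem prm_sqrt (hf : Primrec f) : Primrec fun a => Nat.sqrt (f a) := by
  have h1 : PrimrecRel fun (n k : ℕ) => k * k ≤ n :=
    Primrec.nat_le.comp (Primrec.nat_mul.comp Primrec.snd Primrec.snd) Primrec.fst
  have h2 : Primrec Nat.sqrt := by
    refine (Primrec.nat_findGreatest (f := id) (p := fun n k => k * k ≤ n) Primrec.id h1).of_eq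
      fun n => ?_
    apply le_antisymm
    · rw [Nat.le_sqrt]
      exact Nat.findGreatest_spec (P := fun k => k * k ≤ n) (Nat.zero_le n) (Nat.zero_le _)
    · exact Nat.le_findGreatest (Nat.sqrt_le_self n) (Nat.sqrt_le n)
  exact h2.comp hf

theorem prm_up1 (hf : Primrec f) : Primrec fun a => up1 (f a) :=
  prm_sub hf (prm_mul (prm_sqrt hf) (prm_sqrt hf))
theorem prm_up2 (hf : Primrec f) : Primrec fun a => up2 (f a) :=
  prm_sub (prm_sqrt hf) (prm_sub hf (prm_mul (prm_sqrt hf) (prm_sqrt hf)))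
theorem prm_consN (hf : Primrec f) (hg : Primrec g) : Primrec fun a => consN (f a) (g a) :=
  Primrec.succ.comp (prm_pr hf hg)
theorem prm_hdN (hf : Primrec f) : Primrec fun a => hdN (f a) :=
  prm_up1 (prm_sub hf (prm_c 1))
theorem prm_tlN (hf : Primrec f) : Primrec fun a => tlN (f a) :=
  prm_up2 (prm_sub hf (prm_c 1))
theorem prm_Lk (hf : Primrec f) (hg : Primrec g) : Primrec fun a => Lk (f a) (g a) :=
  prm_hdN (Primrec.nat_iterate hg hf (prm_tlN Primrec.snd).to₂)

/-- Recursion through two smaller arguments. -/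
theorem prm_rec2 {F p q : ℕ → ℕ} {H : ℕ → ℕ → ℕ → ℕ} (c : ℕ) (hp : Primrec p) (hq : Primrec q)
    (hH : Primrec fun x : ℕ × ℕ × ℕ => H x.1 x.2.1 x.2.2)
    (hlt : ∀ u, 0 < u → p u < u ∧ q u < u)
    (h0 : F 0 = c) (h : ∀ u, 0 < u → F u = H u (F (p u)) (F (q u))) : Primrec F := by
  let G : Unit → List ℕ → Option ℕ := fun _ l => some (if l.length = 0 then c else
    H l.length (l.getD (p l.length) 0) (l.getD (q l.length) 0))
  have hlen : Primrec fun x : Unit × List ℕ => x.2.length :=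
    Primrec.list_length.comp Primrec.snd
  have hG : Primrec₂ G := by
    refine Primrec.option_some.comp (Primrec.ite (prm_eq hlen (prm_c 0)) (prm_c c) ?_)
    exact hH.comp (Primrec.pair hlen (Primrec.pair
      ((Primrec.list_getD 0).comp Primrec.snd (hp.comp hlen))
      ((Primrec.list_getD 0).comp Primrec.snd (hq.comp hlen))))
  have key : Primrec₂ (fun (_ : Unit) (n : ℕ) => F n) := by
    refine Primrec.nat_strong_rec _ hG fun a n => ?_
    have hl : ((List.range n).map F).length = n := by simp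
    show some _ = some _
    congr 1
    rw [hl]
    split_ifs with hn
    · rw [hn, h0]
    · obtain ⟨h1, h2⟩ := hlt n (Nat.pos_of_ne_zero hn)
      rw [h n (Nat.pos_of_ne_zero hn)]
      congr 1
      · simp [List.getD, h1]
      · simp [List.getD, h2]
  exact key.comp (Primrec.const ()) Primrec.id

end basicfun

/-! ### Codes of compound formulas -/

section codes
variable {L : Lang}

def cImp (x y : ℕ) : ℕ := 4 * pr x y + 3
def cNeg (x : ℕ) : ℕ := cImp x 0
def cAnd (x y : ℕ) : ℕ := cNeg (cImp x (cNeg y))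
def cAll (x : ℕ) : ℕ := 4 * x + 4
def cEx (x : ℕ) : ℕ := cNeg (cAll (cNeg x))
def cExs (n x : ℕ) : ℕ := cEx^[n] x

theorem gn_imp (f g : Fm L) : (Fm.imp f g).gn = cImp f.gn g.gn := rfl
theorem gn_all (f : Fm L) : (Fm.all f).gn = cAll f.gn := rfl
theorem gn_neg (f : Fm L) : f.neg.gn = cNeg f.gn := rfl
theorem gn_and (f g : Fm L) : (f.and g).gn = cAnd f.gn g.gn := rfl
theorem gn_ex (f : Fm L) : f.ex.gn = cEx f.gn := rfl
theorem gn_exs (f : Fm L) (n : ℕ) : (Fm.exs n f).gn = cExs n f.gn := by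
  induction n with
  | zero => rfl
  | succ n ih =>
    rw [Fm.exs, gn_ex, ih]
    unfold cExs
    rw [Function.iterate_succ_apply']

variable {α : Type} [Primcodable α] {f g h : α → ℕ}

theorem prm_cImp (hf : Primrec f) (hg : Primrec g) : Primrec fun a => cImp (f a) (g a) :=
  prm_add (prm_mul (prm_c 4) (prm_pr hf hg)) (prm_c 3)
theorem prm_cNeg (hf : Primrec f) : Primrec fun a => cNeg (f a) := prm_cImp hf (prm_c 0)
theorem prm_cAnd (hf : Primrec f) (hg : Primrec g) : Primrec fun a => cAnd (f a) (g a) :=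
  prm_cNeg (prm_cImp hf (prm_cNeg hg))
theorem prm_cAll (hf : Primrec f) : Primrec fun a => cAll (f a) :=
  prm_add (prm_mul (prm_c 4) hf) (prm_c 4)
theorem prm_cEx (hf : Primrec f) : Primrec fun a => cEx (f a) := prm_cNeg (prm_cAll (prm_cNeg hf))
theorem prm_cExs (hf : Primrec f) (hg : Primrec g) : Primrec fun a => cExs (f a) (g a) :=
  Primrec.nat_iterate hf hg (prm_cEx Primrec.snd).to₂

/-- Code of the conjunction of the formulas `x_a = x_{B + Lk s a}`, `a < n`. -/
def cCj (B s : ℕ) : ℕ → ℕ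
  | 0 => cNeg 0
  | n + 1 => cAnd (cCj B s n) (4 * pr (2 * n) (2 * (B + Lk s n)) + 1)

theorem gn_cj (B s n : ℕ) :
    (cj n (fun a => (.eq (.var a) (.var (B + Lk s a)) : Fm LA))).gn = cCj B s n := by
  induction n with
  | zero => rfl
  | succ n ih => rw [cj, gn_and, ih]; rfl

theorem prm_cCj (hf : Primrec f) (hg : Primrec g) (hh : Primrec h) :
    Primrec fun a => cCj (f a) (g a) (h a) := by
  have hs : Primrec fun x : α × ℕ × ℕ => cAnd x.2.2
      (4 * pr (2 * x.2.1) (2 * (f x.1 + Lk (g x.1) x.2.1)) + 1) := by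
    have i1 : Primrec fun x : α × ℕ × ℕ => x.2.2 := Primrec.snd.comp Primrec.snd
    have i2 : Primrec fun x : α × ℕ × ℕ => x.2.1 := Primrec.fst.comp Primrec.snd
    have i3 : Primrec fun x : α × ℕ × ℕ => f x.1 := hf.comp Primrec.fst
    have i4 : Primrec fun x : α × ℕ × ℕ => g x.1 := hg.comp Primrec.fst
    exact prm_cAnd i1 (prm_add (prm_mul (prm_c 4) (prm_pr (prm_mul (prm_c 2) i2)
      (prm_mul (prm_c 2) (prm_add i3 (prm_Lk i4 i2))))) (prm_c 1))
  refine (Primrec.nat_rec' (h := fun a x => cAnd x.2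
      (4 * pr (2 * x.1) (2 * (f a + Lk (g a) x.1)) + 1)) hh (prm_c (cNeg 0)) hs).of_eq fun a => ?_
  generalize h a = n
  induction n with
  | zero => rfl
  | succ n ih => rw [cCj, ← ih]

/-- Code of `yb B F s` when `F` has code `x`. -/
def cYb (B x s : ℕ) : ℕ := cExs B (cAnd (cCj B s B) x)

theorem gn_yb (B s : ℕ) (F : Fm LA) : (yb B F s).gn = cYb B F.gn s := by
  unfold yb cYb
  rw [gn_exs, gn_and, gn_cj]

theorem prm_cYb (hf : Primrec f) (hg : Primrec g) (hh : Primrec h) :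
    Primrec fun a => cYb (f a) (g a) (h a) :=
  prm_cExs hf (prm_cAnd (prm_cCj hf hh hf) hg)

end codes

/-! ### Relativisation -/

section relq
variable (D0 : Fm LA)

/-- Code of the relativisation of the formula with code `n`. -/
def cRel (n : ℕ) : ℕ := (relQ D0 (dec n)).gn

/-- One step of the recursion. -/
def cRelStep (n x y : ℕ) : ℕ :=
  if n % 4 = 1 then 4 * pr (2 * (up1 (n / 4) / 2)) (2 * (up2 (n / 4) / 2)) + 1
  else if n % 4 = 2 then
    (if up2 (up1 (n / 4)) < 9 then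
      4 * pr (pr 3 (up2 (up1 (n / 4)))) (consN (2 * (Lk (up2 (n / 4)) 0 / 2))
        (consN (2 * (Lk (up2 (n / 4)) 1 / 2)) (consN (2 * (Lk (up2 (n / 4)) 2 / 2)) 0))) + 2
    else 0)
  else if n % 4 = 3 then cImp x y
  else cAll (cImp D0.gn x)

theorem prm_cRelStep : Primrec fun x : ℕ × ℕ × ℕ => cRelStep D0 x.1 x.2.1 x.2.2 := by
  have n1 : Primrec fun x : ℕ × ℕ × ℕ => x.1 := Primrec.fst
  have x1 : Primrec fun x : ℕ × ℕ × ℕ => x.2.1 := Primrec.fst.comp Primrec.snd
  have y1 : Primrec fun x : ℕ × ℕ × ℕ => x.2.2 := Primrec.snd.comp Primrec.snd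
  have m4 := prm_mod n1 (prm_c 4)
  have d4 := prm_div n1 (prm_c 4)
  have lk : ∀ i, Primrec fun x : ℕ × ℕ × ℕ => 2 * (Lk (up2 (x.1 / 4)) i / 2) := fun i =>
    prm_mul (prm_c 2) (prm_div (prm_Lk (prm_up2 d4) (prm_c i)) (prm_c 2))
  refine Primrec.ite (prm_eq m4 (prm_c 1)) ?_ (Primrec.ite (prm_eq m4 (prm_c 2)) ?_
    (Primrec.ite (prm_eq m4 (prm_c 3)) (prm_cImp x1 y1) (prm_cAll (prm_cImp (prm_c _) x1))))
  · exact prm_add (prm_mul (prm_c 4) (prm_pr (prm_mul (prm_c 2) (prm_div (prm_up1 d4) (prm_c 2)))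
      (prm_mul (prm_c 2) (prm_div (prm_up2 d4) (prm_c 2))))) (prm_c 1)
  · refine Primrec.ite (prm_lt (prm_up2 (prm_up1 d4)) (prm_c 9)) ?_ (prm_c 0)
    exact prm_add (prm_mul (prm_c 4) (prm_pr (prm_pr (prm_c 3) (prm_up2 (prm_up1 d4)))
      (prm_consN (lk 0) (prm_consN (lk 1) (prm_consN (lk 2) (prm_c 0)))))) (prm_c 2)

theorem cRel_eq (n : ℕ) (hn : 0 < n) : cRel D0 n = cRelStep D0 n
    (cRel D0 (if n % 4 = 3 then up1 (n / 4) else n / 4 - 1)) (cRel D0 (up2 (n / 4))) := by
  unfold cRel cRelStep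
  rw [dec]
  rw [dif_neg (by omega)]
  split_ifs with h1 h2 h3 h4
  · rfl
  · exact gn_fR ⟨up2 (up1 (n / 4)), h3⟩ _ _ _
  · rfl
  · rw [relQ, gn_imp]
  · rw [relQ, gn_all, gn_imp]

theorem prm_cRel : Primrec (cRel D0) := by
  have d4 : Primrec fun n : ℕ => n / 4 := prm_div Primrec.id (prm_c 4)
  refine prm_rec2 0 (p := fun n => if n % 4 = 3 then up1 (n / 4) else n / 4 - 1)
    (q := fun n => up2 (n / 4)) (H := cRelStep D0) ?_ ?_ (prm_cRelStep D0) ?_ ?_ ?_
  · exact Primrec.ite (prm_eq (prm_mod Primrec.id (prm_c 4)) (prm_c 3)) (prm_up1 d4)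
      (prm_sub d4 (prm_c 1))
  · exact prm_up2 d4
  · intro u hu
    have a1 := up1_le (u / 4)
    have a2 := up2_le (u / 4)
    constructor
    · show (if u % 4 = 3 then up1 (u / 4) else u / 4 - 1) < u
      split_ifs <;> omega
    · show up2 (u / 4) < u
      omega
  · unfold cRel; rw [dec_zero]; rfl
  · intro u hu; exact cRel_eq D0 u hu

/-! ### Literals, strings and queries -/

/-- Code of the literal. -/
def cLit (k b : ℕ) : ℕ :=
  if b = 1 then cYb (k + 1) (cRel D0 (up1 k)) (up2 k)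
  else if up1 k ≠ 0 ∧ up1 k % 4 = 0 then
    cNeg (cYb (k + 1) (cRel D0 (up1 k / 4 - 1)) (consN k (up2 k)))
  else cNeg (cYb (k + 1) (cRel D0 (up1 k)) (up2 k))

theorem gn_lit (k : ℕ) (b : Bool) : (lit D0 k b).gn = cLit D0 k (if b then 1 else 0) := by
  unfold lit cLit cRel
  cases b with
  | true => simp only [if_true, gn_yb]
  | false =>
    simp only [Bool.false_eq_true, if_false, zero_ne_one]
    split_ifs <;> rw [gn_neg, gn_yb]

theorem prm_cLit {α : Type} [Primcodable α] {f g : α → ℕ} (hf : Primrec f) (hg : Primrec g) :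
    Primrec fun a => cLit D0 (f a) (g a) := by
  have hk1 := prm_add hf (prm_c (α := α) 1)
  have hA : Primrec fun a => cYb (f a + 1) (cRel D0 (up1 (f a))) (up2 (f a)) :=
    prm_cYb hk1 ((prm_cRel D0).comp (prm_up1 hf)) (prm_up2 hf)
  refine Primrec.ite (prm_eq hg (prm_c 1)) hA (Primrec.ite ?_ ?_ (prm_cNeg hA))
  · exact PrimrecPred.and (PrimrecPred.not (prm_eq (prm_up1 hf) (prm_c 0)))
      (prm_eq (prm_mod (prm_up1 hf) (prm_c 4)) (prm_c 0))
  · exact prm_cNeg (prm_cYb hk1 ((prm_cRel D0).comp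
      (prm_sub (prm_div (prm_up1 hf) (prm_c 4)) (prm_c 1))) (prm_consN hf (prm_up2 hf)))

theorem prm_kk : Primrec kk := by
  refine prm_rec2 0 (p := fun n => n / 4) (q := fun n => n / 4)
    (H := fun u x _ => if u < 4 then 0 else x + 1) (prm_div Primrec.id (prm_c 4))
    (prm_div Primrec.id (prm_c 4)) ?_ ?_ ?_ ?_
  · exact Primrec.ite (prm_lt Primrec.fst (prm_c 4)) (prm_c 0)
      (prm_add (Primrec.fst.comp Primrec.snd) (prm_c 1))
  · intro u hu; constructor <;> omega
  · rw [kk_lt (by omega)]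
  · intro u _
    rw [kk]

theorem prm_Psi : Primrec fun u => (Psi D0 u).gn := by
  refine prm_rec2 (cNeg 0) (p := fun n => n / 4) (q := fun n => n / 4)
    (H := fun u x _ => if u < 4 then cNeg 0 else
      cAnd x (cLit D0 (kk (u / 4)) (if u % 4 = 2 then 1 else 0))) (prm_div Primrec.id (prm_c 4))
    (prm_div Primrec.id (prm_c 4)) ?_ ?_ ?_ ?_
  · have n1 : Primrec fun x : ℕ × ℕ × ℕ => x.1 := Primrec.fst
    refine Primrec.ite (prm_lt n1 (prm_c 4)) (prm_c _) (prm_cAnd (Primrec.fst.comp Primrec.snd)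
      (prm_cLit D0 (prm_kk.comp (prm_div n1 (prm_c 4))) ?_))
    exact Primrec.ite (prm_eq (prm_mod n1 (prm_c 4)) (prm_c 2)) (prm_c 1) (prm_c 0)
  · intro u hu; constructor <;> omega
  · rw [Psi]; rfl
  · intro u _
    rw [Psi]
    split_ifs with h1 h2
    · rfl
    · rw [gn_and, gn_lit]
      simp [h2]
    · rw [gn_and, gn_lit]
      simp [h2]

/-- Code of `exQs D0 n f`. -/
def cExQs (d n x : ℕ) : ℕ := (fun y => cEx (cAnd d y))^[n] x

theorem gn_exQs (f : Fm LA) (n : ℕ) : (exQs D0 n f).gn = cExQs D0.gn n f.gn := by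
  induction n with
  | zero => rfl
  | succ n ih =>
    rw [exQs, exQ, gn_ex, gn_and, ih]
    unfold cExQs
    rw [Function.iterate_succ_apply']

/-- The code of the query sentence is a primitive recursive function of the string. -/
theorem prm_sig : Primrec fun u => (sig D0 u).gn := by
  have h : Primrec fun u => cExQs D0.gn (kk u + 1) (cAnd (Psi D0 u).gn (cLit D0 (kk u) 1)) := by
    refine Primrec.nat_iterate (prm_add prm_kk (prm_c 1))
      (prm_cAnd (prm_Psi D0) (prm_cLit D0 prm_kk (prm_c 1))) ?_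
    exact (prm_cEx (prm_cAnd (prm_c _) Primrec.snd)).to₂
  refine h.of_eq fun u => ?_
  unfold sig
  rw [gn_exQs, gn_and, gn_lit]
  rfl

end relq

/-! ### The requested forms -/

theorem primrec_theta (D0 : Fm LA) : Nat.Primrec (fun u => (sig D0 u).gn) :=
  Primrec.nat_iff.1 (prm_sig D0)

theorem primrec_lk : Nat.Primrec (fun n => Lk (up1 n) (up2 n)) :=
  Primrec.nat_iff.1 (prm_Lk (prm_up1 Primrec.id) (prm_up2 Primrec.id))

/-- The formula `x₀ = n` of the relational language. -/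
def numf : ℕ → Fm LA
  | 0 => fR 0 0 0 0
  | n + 1 => .ex (.and (fR 1 0 1 0) (numf n))

theorem primrec_num : Nat.Primrec (fun n => (numf n).gn) := by
  refine Primrec.nat_iff.1 ?_
  have h : Primrec fun n : ℕ => (fun y => cEx (cAnd (fR 1 0 1 0).gn y))^[n] (fR 0 0 0 0).gn :=
    Primrec.nat_iterate Primrec.id (prm_c _) (prm_cEx (prm_cAnd (prm_c _) Primrec.snd)).to₂
  refine h.of_eq fun n => ?_
  induction n with
  | zero => rfl
  | succ n ih => rw [Function.iterate_succ_apply', ih, numf, gn_ex, gn_and]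

end Pool.Agent.MP81222b
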