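import Pool.Agent.Lib.MP_81222b_lc.UCoreO
import Pool.Agent.Lib.MP_81222b_lc.HenkinT
import Pool.Agent.Lib.MP_81222b_lc.Theta

/-!
# Decoding, second part: the even case
-/

namespace Pool.Agent.MP81222b

/-! ### More substructure values -/

section sub
variable {R : Str Lar} {D : R.M → Prop} (h : ClosedU R D)
theorem subE_qd (x : (R.sub D h).M) : (qd (R.sub D h) x).1 = qd R x.1 := by
  unfold qd
  rw [subQ_dbl, subQ_dbl]
theorem subE_kEq (x y : (R.sub D h).M) : (kEq (R.sub D h) x y).1 = kEq R x.1 y.1 := by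
  unfold kEq
  rw [subQ_sc, subE_qd, subQ_pr]
theorem subE_kImp (x y : (R.sub D h).M) : (kImp (R.sub D h) x y).1 = kImp R x.1 y.1 := by
  unfold kImp
  rw [subQ_sc, subQ_sc, subQ_sc, subE_qd, subQ_pr]
theorem subE_kAll (x : (R.sub D h).M) : (kAll (R.sub D h) x).1 = kAll R x.1 := by
  unfold kAll
  rw [subQ_sc, subQ_sc, subQ_sc, subQ_sc, subE_qd]
theorem subE_kRl (r : ℕ) (x : (R.sub D h).M) : (kRl (R.sub D h) r x).1 = kRl R r x.1 := by
  unfold kRl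
  rw [subQ_sc, subQ_sc, subE_qd, subQ_pr, subQ_pr, subQ_nm, subQ_nm]
theorem subE_li1 (x : (R.sub D h).M) : (li1 (R.sub D h) x).1 = li1 R x.1 := by
  unfold li1
  rw [subQ_cons, subQ_zr]
theorem subE_li2 (x y : (R.sub D h).M) : (li2 (R.sub D h) x y).1 = li2 R x.1 y.1 := by
  unfold li2
  rw [subQ_cons, subE_li1]
theorem subE_li3 (x y z : (R.sub D h).M) : (li3 (R.sub D h) x y z).1 = li3 R x.1 y.1 z.1 := by
  unfold li3
  rw [subQ_cons, subE_li2]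
theorem subE_iEq (x y : (R.sub D h).M) : (iEq (R.sub D h) x y).1 = iEq R x.1 y.1 := by
  unfold iEq
  rw [subQ_pr, subQ_nm, subE_li2]
theorem subE_iRl (r : ℕ) (x y z : (R.sub D h).M) :
    (iRl (R.sub D h) r x y z).1 = iRl R r x.1 y.1 z.1 := by
  unfold iRl
  rw [subQ_pr, subQ_nm, subE_li3]
theorem subE_lt (x y : (R.sub D h).M) : (R.sub D h).lt x y ↔ R.lt x.1 y.1 := by
  unfold Str.lt
  rw [sub_le, subQ_sc]
end sub

/-! ### The formulas defining numerals -/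

theorem numf_bd : ∀ n, (numf n).bd 1 := by
  intro n
  have hv : ∀ {i k : ℕ}, i < k → (Tm.var i : Tm LA).bd k := fun h => h
  have hR : ∀ (r : Fin 9) (x y z k : ℕ), x < k → y < k → z < k → (fR r x y z).bd k := by
    intro r x y z k hx hy hz i
    fin_cases i
    · exact hv hx
    · exact hv hy
    · exact hv hz
  induction n with
  | zero => exact hR 0 0 0 0 1 (by omega) (by omega) (by omega)
  | succ n ih =>
    have h : (Fm.and (fR 1 0 1 0) (numf n)).bd 2 := by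
      rw [bd_and]
      exact ⟨hR 1 0 1 0 2 (by omega) (by omega) (by omega), (numf n).bd_mono (by omega) ih⟩
    exact ⟨⟨h, trivial⟩, trivial⟩

theorem sat_numf (R : Str Lar) (J : R.M → Prop) : ∀ (n : ℕ) (c : R.M) (e : ℕ → R.M),
    (numf n).Sat (mkLA R J) (cn c e) ↔ c = nmS R n := by
  intro n
  induction n with
  | zero =>
    intro c e
    rw [numf, sat_fR]
    rfl
  | succ n ih =>
    intro c e
    rw [numf, Fm.sat_ex]
    simp only [Fm.sat_and, sat_fR, ih]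
    constructor
    · rintro ⟨x, h1, h2⟩
      have h1' : c = R.sc x := h1
      rw [h1', h2]
      rfl
    · intro h
      exact ⟨nmS R n, h, rfl⟩

/-! ### Order lemmas for arbitrary structures -/

theorem leS_of_lt {S : Str Lar} [PiC S] {x y : S.M} (h : S.lt x y) : S.le x y := by
  rw [lt_iff_lt] at h
  exact h.le
theorem ltS_of_not_le {S : Str Lar} [PiC S] {x y : S.M} (h : ¬ S.le x y) : S.lt y x := by
  rw [lt_iff_lt]
  exact not_le.1 h
theorem ltS_irrefl {S : Str Lar} [PiC S] (x : S.M) : ¬ S.lt x x := by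
  rw [lt_iff_lt]
  exact lt_irrefl _

/-! ### The even case -/

/-- The hypotheses of the even case. -/
structure EvenH (R : Str Lar) (J : R.M → Prop) (piA : List PiAx) (θL : Fm Lar) (E : R.M)
    (C : R.M → Prop) (Fam : R.M → R.M → Prop) (X : R.M → Prop) (hcl : ClosedU R X) (a : R.M)
    (q : R.M → Prop) : Prop where
  hA : PropA piA θL R J
  hK : ∀ a ∈ piK, a.Holds R
  hH : ∀ a ∈ piH, a.Holds R
  hF : ∀ a ∈ piF, a.Holds R
  hin : InitU R X
  hisE : ∀ e : (R.sub X hcl).M, isE (R.sub X hcl) e ↔ e.1 = E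
  hCX : ∀ i s : (R.sub X hcl).M, CX (R.sub X hcl) i s ↔ Fam i.1 s.1
  hF1 : ∀ i, C i → ∃ s, Fam i s
  hF2 : ∀ i s, Fam i s → C i ∧ X s
  hF3 : ∀ i s, Fam i s → LenS R s i ∧ Grd R q s
  hXC : ∀ i, C i → X i
  hXa : X a
  hE : E = dbl R a
  hCi : ∀ x y, C y → R.le x y → C x
  hC0 : C R.zr
  hC1 : ∀ x, C x → C (R.sc x)
  hCJ : ∀ i, C i → J i
  hCl : ∀ i, C i → Cl R (LkJ θL R J) (Dq R q) i

section
variable {R : Str Lar} {J : R.M → Prop} {piA : List PiAx} {θL : Fm Lar} {E : R.M}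
    {C : R.M → Prop} {Fam : R.M → R.M → Prop} {X : R.M → Prop} {hcl : ClosedU R X} {a : R.M}
    {q : R.M → Prop}
  (H : EvenH R J piA θL E C Fam X hcl a q)
include H

theorem EvenH.even : evenY (R.sub X hcl) := by
  refine ⟨⟨a, H.hXa⟩, ?_⟩
  rw [H.hisE, subQ_dbl]
  exact H.hE.symm

theorem EvenH.nodd (a' δ' : (R.sub X hcl).M) : ¬ oddY (R.sub X hcl) a' δ' := by
  unfold oddY
  rw [H.hisE, subQ_sc, subQ_dbl, H.hE]
  exact fun h => dbl_ne H.hK _ _ h.symm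

theorem EvenH.cy (i : (R.sub X hcl).M) : CY (R.sub X hcl) i ↔ C i.1 :=
  CY_iff hcl H.hCX H.hF1 H.hF2 i

theorem EvenH.dig (s k : (R.sub X hcl).M) : Dig (R.sub X hcl) s k ↔ Dig R s.1 k.1 :=
  Dig.b0.sub_iff R X hcl H.hin (cn s (fun _ => k))

theorem EvenH.dig_iff {i s k : R.M} (h : Fam i s) (hk : R.lt k i) : Dq R q k ↔ Dig R s k := by
  have := H.hA.pic
  obtain ⟨h1, h2⟩ := H.hF3 i s h
  exact grd_dig H.hF h1 h2 (lt_iff_lt.1 hk)

/-- The decoded decisions. -/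
theorem EvenH.dy (k : (R.sub X hcl).M) : DY (R.sub X hcl) k ↔ C k.1 ∧ Dq R q k.1 := by
  have := H.hA.pic
  unfold DY
  constructor
  · rintro ⟨i, s, h1, h2, h3⟩
    rw [H.hCX] at h1
    rw [subE_lt] at h2
    rw [H.dig] at h3
    refine ⟨H.hCi _ _ (H.hF2 _ _ h1).1 ?_, (H.dig_iff h1 h2).2 h3⟩
    rw [lt_iff_lt] at h2
    exact h2.le
  · rintro ⟨h1, h2⟩
    have h3 := H.hC1 _ h1
    obtain ⟨s, hs⟩ := H.hF1 _ h3
    have hl : R.lt k.1 (R.sc k.1) := by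
      rw [lt_iff_lt, sc_eq]
      exact lt_add_one _
    refine ⟨⟨R.sc k.1, H.hXC _ h3⟩, ⟨s, (H.hF2 _ _ hs).2⟩, ?_, ?_, ?_⟩
    · rw [H.hCX]; exact hs
    · rw [subE_lt]; exact hl
    · rw [H.dig]; exact (H.dig_iff hs hl).1 h2

theorem EvenH.dy_of_lt {k i : (R.sub X hcl).M} (hi : C i.1) (hk : (R.sub X hcl).lt k i) :
    DY (R.sub X hcl) k ↔ Dq R q k.1 := by
  have := H.hA.pic
  rw [H.dy]
  refine ⟨fun h => h.2, fun h => ⟨H.hCi _ _ hi ?_, h⟩⟩
  rw [subE_lt, lt_iff_lt] at hk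
  exact hk.le

/-- The clauses in the coding structure. -/
theorem EvenH.cl (i : (R.sub X hcl).M) (hi : CY (R.sub X hcl) i) :
    Cl (R.sub X hcl) (fun s a x => LkJ θL R J s.1 a.1 x.1) (DY (R.sub X hcl)) i := by
  rw [H.cy] at hi
  have hC := H.hCl _ hi
  constructor
  · intro s hs
    rw [H.dy_of_lt hi hs]
    rw [subE_lt] at hs
    rw [subQ_pr, subQ_zr] at hs ⊢
    exact hC.bot _ hs
  · intro f g s h1 h2 h3
    rw [H.dy_of_lt hi h1, H.dy_of_lt hi h2, H.dy_of_lt hi h3]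
    rw [subE_lt] at h1 h2 h3
    rw [subQ_pr] at h1 h2 h3 ⊢
    rw [subQ_pr, subQ_pr]
    rw [subE_kImp] at h1 ⊢
    exact hC.imp _ _ _ h1 h2 h3
  · intro f s x h1 h2
    rw [H.dy_of_lt hi h1, H.dy_of_lt hi h2]
    rw [subE_lt] at h1 h2
    rw [subQ_pr] at h1 h2 ⊢
    rw [subQ_pr]
    rw [subE_kAll] at h1 ⊢
    rw [subQ_cons] at h2 ⊢
    exact hC.all1 _ _ _ h1 h2
  · intro f s h1 h2
    rw [H.dy_of_lt hi h1, H.dy_of_lt hi h2]
    rw [subE_lt] at h1 h2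
    rw [subQ_pr] at h1 h2 ⊢
    rw [subQ_pr, subE_kAll]
    rw [subE_kAll] at h1
    rw [subQ_cons, subQ_pr, subE_kAll] at h2 ⊢
    exact hC.all2 _ _ h1 h2
  · intro a b s x y ha hb h1 h2
    rw [H.dy_of_lt hi h1, H.dy_of_lt hi h2]
    rw [subE_lt] at h1 h2
    rw [subQ_pr, subE_kEq, subQ_dbl, subQ_dbl] at h1 ⊢
    rw [subE_iEq] at h2 ⊢
    exact hC.eq _ _ _ _ _ ha hb h1 h2
  · intro r a b c s x y z ha hb hc h1 h2
    rw [H.dy_of_lt hi h1, H.dy_of_lt hi h2]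
    rw [subE_lt] at h1 h2
    rw [subQ_pr, subE_kRl, subE_li3, subQ_dbl, subQ_dbl, subQ_dbl] at h1 ⊢
    rw [subE_iRl] at h2 ⊢
    exact hC.rl _ _ _ _ _ _ _ _ ha hb hc h1 h2
  · intro x h1
    rw [H.dy_of_lt hi h1]
    rw [subE_lt] at h1
    rw [subE_iEq] at h1 ⊢
    exact hC.refl _ h1
  · intro x y z h1 h2 h3
    rw [H.dy_of_lt hi h1, H.dy_of_lt hi h2, H.dy_of_lt hi h3]
    rw [subE_lt] at h1 h2 h3
    rw [subE_iEq] at h1 h2 h3 ⊢
    rw [subE_iEq, subE_iEq]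
    exact hC.eucl _ _ _ h1 h2 h3
  · intro r x y z x' y' z' h1 h2 h3 h4 h5
    rw [H.dy_of_lt hi h1, H.dy_of_lt hi h2, H.dy_of_lt hi h3, H.dy_of_lt hi h4,
      H.dy_of_lt hi h5]
    rw [subE_lt] at h1 h2 h3 h4 h5
    rw [subE_iRl] at h1 h5 ⊢
    rw [subE_iEq] at h2 h3 h4 ⊢
    rw [subE_iEq, subE_iEq, subE_iRl]
    exact hC.cong _ _ _ _ _ _ _ h1 h2 h3 h4 h5

theorem EvenH.picY : PiC (R.sub X hcl) := by
  have := H.hA.pic
  exact PiC.sub hcl H.hin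

theorem EvenH.cy_init (x y : (R.sub X hcl).M) (hy : CY (R.sub X hcl) y)
    (h : (R.sub X hcl).le x y) : CY (R.sub X hcl) x := by
  rw [H.cy] at hy ⊢
  rw [sub_le] at h
  exact H.hCi _ _ hy h

theorem EvenH.cy_zr : CY (R.sub X hcl) (R.sub X hcl).zr := by
  rw [H.cy, subQ_zr]
  exact H.hC0

theorem EvenH.cy_sc (x : (R.sub X hcl).M) (h : CY (R.sub X hcl) x) :
    CY (R.sub X hcl) ((R.sub X hcl).sc x) := by
  rw [H.cy] at h ⊢
  rw [subQ_sc]
  exact H.hC1 _ h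

theorem EvenH.cano_ex : ∃ x, Cano (R.sub X hcl) (CY (R.sub X hcl)) (DY (R.sub X hcl)) x := by
  have := H.picY
  exact Pool.Agent.MP81222b.cano_ex H.cy_zr

/-- The domain of the decoded structure. -/
theorem EvenH.dom (y : (R.sub X hcl).M) : domM (R.sub X hcl) y ↔
    Cano (R.sub X hcl) (CY (R.sub X hcl)) (DY (R.sub X hcl)) y := by
  unfold domM
  constructor
  · rintro (⟨a', δ', _, ho, _⟩ | ⟨_, h⟩)
    · exact absurd ho (H.nodd _ _)
    · exact h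
  · intro h
    exact Or.inr ⟨H.even, h⟩

theorem EvenH.rel (r : ℕ) (x y z : (R.sub X hcl).M) :
    relM (R.sub X hcl) r x y z ↔ DY (R.sub X hcl) (iRl (R.sub X hcl) r x y z) := by
  unfold relM
  constructor
  · rintro (⟨⟨a', δ', ho⟩, _⟩ | ⟨_, h⟩)
    · exact absurd ho (H.nodd _ _)
    · exact h
  · intro h
    exact Or.inr ⟨H.even, h⟩

/-- The truth lemma for the decoded structure. -/
theorem EvenH.truth (h : ∃ x, Cano (R.sub X hcl) (CY (R.sub X hcl)) (DY (R.sub X hcl)) x)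
    (f : Fm LA) (n : ℕ)
    (e : ℕ → (HS (R.sub X hcl) (CY (R.sub X hcl)) (DY (R.sub X hcl)) h).M) (hf : f.bd n) :
    f.Sat (HS (R.sub X hcl) (CY (R.sub X hcl)) (DY (R.sub X hcl)) h) e ↔
      DY (R.sub X hcl) (prS (R.sub X hcl) (nmS (R.sub X hcl) f.gn)
        (lst (R.sub X hcl) (fun i => (e i).1) n)) := by
  have := H.picY
  have hpic := H.hA.pic
  refine henkin_truth (fun a ha => (H.hH a ha).sub hcl H.hin) H.cy_init H.cy_zr H.cy_sc H.cl
    ?_ ?_ ?_ h f n e hf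
  · intro x s hx hs
    rw [H.cy] at hx hs
    show LkJ θL R J _ _ _
    rw [subQ_cons, subQ_zr]
    exact H.hA.lk0 _ _ (H.hCJ _ hx) (H.hCJ _ hs)
  · intro x s a y hx _ _ hl
    rw [H.cy] at hx
    show LkJ θL R J _ _ _
    rw [subQ_cons, subQ_sc]
    exact H.hA.lk1 _ _ _ _ (H.hCJ _ hx) hl
  · intro i hi
    rw [H.cy] at hi
    obtain ⟨s, hs⟩ := H.hF1 _ hi
    refine ⟨⟨s, (H.hF2 _ _ hs).2⟩, fun k hk => ?_⟩
    rw [H.dy_of_lt hi hk, H.dig]
    rw [subE_lt] at hk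
    exact H.dig_iff hs hk

theorem EvenH.c_nm (n : ℕ) : C (nmS R n) := by
  induction n with
  | zero => exact H.hC0
  | succ n ih => exact H.hC1 _ ih

theorem EvenH.dy_nm (n : ℕ) :
    DY (R.sub X hcl) (nmS (R.sub X hcl) n) ↔ Dq R q (nmS R n) := by
  rw [H.dy, subQ_nm]
  exact ⟨fun h => h.2, fun h => ⟨H.c_nm n, h⟩⟩

/-- Truth of sentences in the decoded structure. -/
theorem EvenH.sent (h : ∃ x, Cano (R.sub X hcl) (CY (R.sub X hcl)) (DY (R.sub X hcl)) x)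
    (σ : Fm LA) (hσ : σ.Closed)
    (e : ℕ → (HS (R.sub X hcl) (CY (R.sub X hcl)) (DY (R.sub X hcl)) h).M) :
    σ.Sat (HS (R.sub X hcl) (CY (R.sub X hcl)) (DY (R.sub X hcl)) h) e ↔
      Dq R q (nmS R (pr σ.gn 0)) := by
  have := H.picY
  rw [H.truth h σ 0 e hσ, ← H.dy_nm]
  have h1 : prS (R.sub X hcl) (nmS (R.sub X hcl) σ.gn) (lst (R.sub X hcl) (fun i => (e i).1) 0) =
      nmS (R.sub X hcl) (pr σ.gn 0) := nmS_prS (R.sub X hcl) σ.gn 0
  rw [h1]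

/-- The truth predicate of the decoded structure. -/
theorem EvenH.tb {θh θn : Fm Lar} {h' : ℕ → ℕ}
    (hθh : ∀ (S : Str Lar) [PiC S] (n : ℕ) (y : S.M),
      θh.Sat S (cn y (fun _ => nmS S n)) ↔ y = nmS S (h' n))
    (hθn : ∀ (S : Str Lar) [PiC S] (n : ℕ) (y : S.M),
      θn.Sat S (cn y (fun _ => nmS S n)) ↔ y = nmS S (numf n).gn)
    (h : ∃ x, Cano (R.sub X hcl) (CY (R.sub X hcl)) (DY (R.sub X hcl)) x)
    (hnum : ∀ (k l : ℕ) (c : (HS (R.sub X hcl) (CY (R.sub X hcl)) (DY (R.sub X hcl)) h).M) e,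
      (numf k).Sat (HS (R.sub X hcl) (CY (R.sub X hcl)) (DY (R.sub X hcl)) h) (cn c e) →
      (numf l).Sat (HS (R.sub X hcl) (CY (R.sub X hcl)) (DY (R.sub X hcl)) h) (cn c e) → k = l)
    (σ : Fm LA) (hσ : σ.Closed) (m : ℕ) (hm : σ.gn = h' m)
    (c : (HS (R.sub X hcl) (CY (R.sub X hcl)) (DY (R.sub X hcl)) h).M)
    (e : ℕ → (HS (R.sub X hcl) (CY (R.sub X hcl)) (DY (R.sub X hcl)) h).M)
    (hc : (numf m).Sat (HS (R.sub X hcl) (CY (R.sub X hcl)) (DY (R.sub X hcl)) h) (cn c e)) :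
    TM (R.sub X hcl) θh θn c.1 ↔
      ∀ e, σ.Sat (HS (R.sub X hcl) (CY (R.sub X hcl)) (DY (R.sub X hcl)) h) e := by
  have := H.picY
  have key : ∀ k : ℕ, DY (R.sub X hcl) (prS (R.sub X hcl) (nmS (R.sub X hcl) (numf k).gn)
      (li1 (R.sub X hcl) c.1)) ↔
      (numf k).Sat (HS (R.sub X hcl) (CY (R.sub X hcl)) (DY (R.sub X hcl)) h) (cn c e) := by
    intro k
    rw [H.truth h (numf k) 1 (cn c e) (numf_bd k)]
    rfl
  have hz : ∀ k : ℕ, prS (R.sub X hcl) (nmS (R.sub X hcl) k) (R.sub X hcl).zr =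
      nmS (R.sub X hcl) (pr k 0) := fun k => nmS_prS (R.sub X hcl) k 0
  have hT : DY (R.sub X hcl) (prS (R.sub X hcl) (nmS (R.sub X hcl) (h' m)) (R.sub X hcl).zr) ↔
      ∀ e, σ.Sat (HS (R.sub X hcl) (CY (R.sub X hcl)) (DY (R.sub X hcl)) h) e := by
    rw [hz, H.dy_nm, ← hm]
    constructor
    · intro hD e'
      exact (H.sent h σ hσ e').2 hD
    · intro hall
      exact (H.sent h σ hσ e).1 (hall e)
  rw [← hT]
  unfold TM
  constructor
  · rintro (⟨a', δ', _, ho, _⟩ | ⟨_, n, y, z, hn, hD, hmin, hz', hDz⟩)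
    · exact absurd ho (H.nodd _ _)
    · -- `n` is standard
      have hle : (R.sub X hcl).le n (nmS (R.sub X hcl) m) := by
        by_contra hlt
        exact hmin _ _ (ltS_of_not_le hlt) ((hθn _ m _).2 rfl) ((key m).2 hc)
      obtain ⟨k, _, rfl⟩ := le_nmS (R.sub X hcl) m n hle
      rw [hθn] at hn
      rw [hn] at hD
      have h2 := (key k).1 hD
      obtain rfl := hnum k m c e h2 hc
      rw [hθh] at hz'
      rw [hz'] at hDz
      exact hDz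
  · intro hD
    refine Or.inr ⟨H.even, nmS (R.sub X hcl) m, nmS (R.sub X hcl) (numf m).gn,
      nmS (R.sub X hcl) (h' m), (hθn _ m _).2 rfl, (key m).2 hc, ?_, (hθh _ m _).2 rfl, hD⟩
    intro n' y' hlt hn' hD'
    have hle : (R.sub X hcl).le n' (nmS (R.sub X hcl) m) := leS_of_lt hlt
    obtain ⟨k, _, rfl⟩ := le_nmS (R.sub X hcl) m n' hle
    rw [hθn] at hn'
    rw [hn'] at hD'
    have h2 := (key k).1 hD'
    obtain rfl := hnum k m c e h2 hc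
    exact ltS_irrefl _ hlt

/-- Transport of the truth predicate to a structure of the form `mkLT R' J' T'`. -/
theorem EvenH.final {θh θn : Fm Lar} {h' : ℕ → ℕ}
    (hθh : ∀ (S : Str Lar) [PiC S] (n : ℕ) (y : S.M),
      θh.Sat S (cn y (fun _ => nmS S n)) ↔ y = nmS S (h' n))
    (hθn : ∀ (S : Str Lar) [PiC S] (n : ℕ) (y : S.M),
      θn.Sat S (cn y (fun _ => nmS S n)) ↔ y = nmS S (numf n).gn)
    (h : ∃ x, Cano (R.sub X hcl) (CY (R.sub X hcl)) (DY (R.sub X hcl)) x)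
    {R' : Str Lar} [PiC R'] {J' : R'.M → Prop}
    (hHS : HS (R.sub X hcl) (CY (R.sub X hcl)) (DY (R.sub X hcl)) h = mkLA R' J')
    {g : Fm LA → ℕ} (hg : ∀ σ : Fm LA, σ.Closed → σ.gn = h' (g σ)) :
    ∃ T' : R'.M → Prop,
      expT (HS (R.sub X hcl) (CY (R.sub X hcl)) (DY (R.sub X hcl)) h)
        (fun c => TM (R.sub X hcl) θh θn c.1) = mkLT R' J' T' ∧
      ∀ σ : Fm LA, σ.Closed → (T' (nmS R' (g σ)) ↔ ∀ e, σ.Sat (mkLA R' J') e) := by
  have hnum : ∀ Q : Str LA, Q = mkLA R' J' → ∀ (k l : ℕ) (c : Q.M) e,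
      (numf k).Sat Q (cn c e) → (numf l).Sat Q (cn c e) → k = l := by
    rintro _ rfl k l c e h1 h2
    rw [sat_numf] at h1 h2
    exact nmS_inj R' (h1.symm.trans h2)
  have htr : ∀ (Q : Str LA) (T : Q.M → Prop), Q = mkLA R' J' →
      (∀ σ : Fm LA, σ.Closed → ∀ (c : Q.M) (e : ℕ → Q.M), (numf (g σ)).Sat Q (cn c e) →
        (T c ↔ ∀ e, σ.Sat Q e)) →
      ∃ T' : R'.M → Prop, expT Q T = mkLT R' J' T' ∧
        ∀ σ : Fm LA, σ.Closed → (T' (nmS R' (g σ)) ↔ ∀ e, σ.Sat (mkLA R' J') e) := by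
    rintro _ T rfl hT
    refine ⟨T, rfl, fun σ hσ => ?_⟩
    exact hT σ hσ (nmS R' (g σ)) (fun _ => nmS R' (g σ)) ((sat_numf R' J' _ _ _).2 rfl)
  refine htr _ _ hHS ?_
  intro σ hσ c e hc
  exact H.tb hθh hθn h (hnum _ hHS) σ hσ (g σ) (hg σ hσ) c e hc

end

end Pool.Agent.MP81222b
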