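import Pool.Agent.Lib.MP_81222b_lc.Sem

/-!
# Greedy strings
-/

namespace Pool.Agent.MP81222b

set_option linter.unusedSectionVars false

/-! ### The notions in the natural numbers -/

theorem nat_e2 (x : ℕ) : e2 natS x = (2 ^ x.size : ℕ) := by
  show 2 ^ ((0 + 1 : ℕ).size * x.size) = 2 ^ x.size
  have h1 : (0 + 1 : ℕ).size = 1 := Nat.size_one
  rw [h1, one_mul]

theorem nat_qd (x : ℕ) : qd natS x = (4 * x : ℕ) := by
  show x + x + (x + x) = 4 * x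
  ring

theorem nat_lt (x y : ℕ) : natS.lt x y ↔ x < y := Iff.rfl

theorem nat_P4 (k m : ℕ) : P4 natS k m ↔ m = 4 ^ k := by
  constructor
  · rintro ⟨x, _, hk, hm⟩
    have h1 : x.size = k := hk
    have h2 : m = e2 natS x * e2 natS x := hm
    rw [nat_e2, h1] at h2
    rw [h2, ← mul_pow]
    rfl
  · intro h
    rcases Nat.eq_zero_or_pos k with h0 | h0
    · subst h0
      refine ⟨(0 : ℕ), Nat.zero_le _, Nat.size_zero, ?_⟩
      show m = e2 natS (0 : ℕ) * e2 natS (0 : ℕ)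
      rw [nat_e2, Nat.size_zero, h]
      rfl
    · refine ⟨(2 ^ (k - 1) : ℕ), ?_, ?_, ?_⟩
      · show 2 ^ (k - 1) ≤ m
        rw [h]
        calc 2 ^ (k - 1) ≤ 2 ^ k := Nat.pow_le_pow_right (by norm_num) (by omega)
          _ ≤ 4 ^ k := Nat.pow_le_pow_left (by norm_num) k
      · show (2 ^ (k - 1)).size = k
        rw [Nat.size_pow]; omega
      · show m = e2 natS (2 ^ (k - 1) : ℕ) * e2 natS (2 ^ (k - 1) : ℕ)
        rw [nat_e2, Nat.size_pow, h, show k - 1 + 1 = k by omega, ← mul_pow]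
        rfl

theorem nat_Pw (m : ℕ) : Pw natS m ↔ ∃ k, m = 4 ^ k := by
  constructor
  · rintro ⟨k, _, h⟩
    exact ⟨k, (nat_P4 k m).1 h⟩
  · rintro ⟨k, h⟩
    refine ⟨k, ?_, (nat_P4 k m).2 h⟩
    show k ≤ m
    rw [h]
    exact (Nat.lt_pow_self (by norm_num)).le

theorem nat_LenS (s k : ℕ) : LenS natS s k ↔ 4 ^ k ≤ s ∧ s < 2 * 4 ^ k := by
  constructor
  · rintro ⟨m, h1, h2, h3⟩
    obtain rfl := (nat_P4 k m).1 h2
    have e2 : 4 ^ k ≤ s := h1
    have e3 : s < 4 ^ k + 4 ^ k := h3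
    constructor <;> omega
  · rintro ⟨h1, h2⟩
    refine ⟨(4 ^ k : ℕ), h1, (nat_P4 k _).2 rfl, ?_⟩
    show s < 4 ^ k + 4 ^ k
    omega

theorem nat_Dig (s k : ℕ) : Dig natS s k ↔ ∃ u j : ℕ, 4 ^ k ≤ u ∧ u < 2 * 4 ^ k ∧
    (4 * u + 2) * 4 ^ j ≤ s ∧ s < (4 * u + 3) * 4 ^ j := by
  constructor
  · rintro ⟨u, _, m, _, hm, hu, h1, h2⟩
    obtain ⟨j, rfl⟩ := (nat_Pw m).1 hm
    obtain ⟨h3, h4⟩ := (nat_LenS u k).1 hu
    have h1' : (qd natS u + 1 + 1) * 4 ^ j ≤ s := h1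
    have h2' : s < (qd natS u + 1 + 1 + 1) * 4 ^ j := h2
    rw [nat_qd] at h1' h2'
    exact ⟨u, j, h3, h4, h1', h2'⟩
  · rintro ⟨u, j, h3, h4, h1, h2⟩
    have hp : 1 ≤ 4 ^ j := Nat.one_le_pow _ _ (by norm_num)
    refine ⟨u, ?_, (4 ^ j : ℕ), ?_, (nat_Pw _).2 ⟨j, rfl⟩, (nat_LenS u k).2 ⟨h3, h4⟩, ?_, ?_⟩
    · show u ≤ s
      nlinarith
    · show 4 ^ j ≤ s
      nlinarith
    · show (qd natS u + 1 + 1) * 4 ^ j ≤ s
      rw [nat_qd]
      exact h1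
    · show s < (qd natS u + 1 + 1 + 1) * 4 ^ j
      rw [nat_qd]
      exact h2

/-! ### The list of axioms -/

theorem four_pow_pos (k : ℕ) : 1 ≤ 4 ^ k := Nat.one_le_pow _ _ (by norm_num)

theorem four_pow_cmp {a b : ℕ} (h : 4 ^ a < 2 * 4 ^ b) : a ≤ b := by
  by_contra hc
  have h1 : 4 ^ (b + 1) ≤ 4 ^ a := Nat.pow_le_pow_right (by norm_num) (by omega)
  have h2 : 4 ^ (b + 1) = 4 * 4 ^ b := by ring
  have := four_pow_pos b
  omega

/-- The string `1`. -/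
def axF1 : PiAx where
  P := fun S _ => LenS S (S.sc S.zr) S.zr ∧ Pw S (S.sc S.zr)
  bdef := inferInstance
  nat := fun _ => ⟨(nat_LenS _ _).2 ⟨le_rfl, by show (1 : ℕ) < 2 * 4 ^ 0; norm_num⟩,
    (nat_Pw _).2 ⟨0, rfl⟩⟩

/-- The string `1` has no proper blocks. -/
def axF2 : PiAx where
  P := fun S e => e 0 ≠ S.zr → Pw S (e 1) → ¬ S.le (S.ml (qd S (e 0)) (e 1)) (S.sc S.zr)
  bdef := inferInstance
  nat := fun e h0 h1 h2 => by
    obtain ⟨j, hj⟩ := (nat_Pw _).1 h1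
    have h3 : (e 0 + e 0 + (e 0 + e 0)) * e 1 ≤ 1 := h2
    rw [hj] at h3
    have h4 : 1 ≤ 4 ^ j := four_pow_pos j
    have h5 : e 0 ≠ 0 := h0
    have h6 : 4 ≤ e 0 + e 0 + (e 0 + e 0) := by omega
    have h7 := Nat.mul_le_mul h6 h4
    omega

/-- Lengths of the extensions. -/
def axF3 : PiAx where
  P := fun S e => LenS S (e 0) (e 1) → LenS S (S.sc (S.sc (qd S (e 0)))) (S.sc (e 1)) ∧
    LenS S (S.sc (qd S (e 0))) (S.sc (e 1))
  bdef := inferInstance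
  nat := fun e h => by
    obtain ⟨h1, h2⟩ := (nat_LenS _ _).1 h
    have h3 : 4 ^ (e 1 + 1) = 4 * 4 ^ (e 1) := by ring
    constructor
    · refine (nat_LenS _ _).2 ?_
      show 4 ^ (e 1 + 1) ≤ e 0 + e 0 + (e 0 + e 0) + 1 + 1 ∧
        e 0 + e 0 + (e 0 + e 0) + 1 + 1 < 2 * 4 ^ (e 1 + 1)
      rw [h3]
      constructor <;> omega
    · refine (nat_LenS _ _).2 ?_
      show 4 ^ (e 1 + 1) ≤ e 0 + e 0 + (e 0 + e 0) + 1 ∧
        e 0 + e 0 + (e 0 + e 0) + 1 < 2 * 4 ^ (e 1 + 1)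
      rw [h3]
      constructor <;> omega

/-- Powers of four. -/
def axF4 : PiAx where
  P := fun S e => Pw S (e 0) → e 0 = S.sc S.zr ∨ ∃ m, S.le m (e 0) ∧ (Pw S m ∧ e 0 = qd S m)
  bdef := inferInstance
  nat := fun e h => by
    obtain ⟨j, hj⟩ := (nat_Pw _).1 h
    rcases Nat.eq_zero_or_pos j with h0 | h0
    · left
      rw [h0] at hj
      exact hj
    · right
      obtain ⟨i, rfl⟩ : ∃ i, j = i + 1 := ⟨j - 1, by omega⟩
      have hj' : e 0 = 4 * 4 ^ i := by rw [hj]; ring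
      refine ⟨(4 ^ i : ℕ), ?_, (nat_Pw _).2 ⟨i, rfl⟩, ?_⟩
      · show 4 ^ i ≤ e 0
        omega
      · rw [nat_qd]; exact hj'

/-- Two different strings of the same length have a longest common initial part. -/
def axF5 : PiAx where
  P := fun S e => LenS S (e 0) (e 2) → LenS S (e 1) (e 2) → e 0 ≠ e 1 →
    ∃ u, S.le u (e 0) ∧ (∃ m, S.le m (e 0) ∧ (u ≠ S.zr ∧ Pw S m ∧
      S.le (S.ml (qd S u) m) (e 0) ∧ S.lt (e 0) (S.ml (qd S (S.sc u)) m) ∧
      S.le (S.ml (qd S u) m) (e 1) ∧ S.lt (e 1) (S.ml (qd S (S.sc u)) m) ∧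
      ∀ y, S.le y (S.sc (S.sc (qd S u))) → ¬ (S.le (S.ml y m) (e 0) ∧ S.lt (e 0) (S.ml (S.sc y) m) ∧
        S.le (S.ml y m) (e 1) ∧ S.lt (e 1) (S.ml (S.sc y) m))))
  bdef := inferInstance
  nat := fun e h1 h2 h3 => by
    obtain ⟨a1, a2⟩ := (nat_LenS _ _).1 h1
    obtain ⟨b1, b2⟩ := (nat_LenS _ _).1 h2
    have h3' : e 0 ≠ e 1 := h3
    have hex : ∃ j, e 0 / 4 ^ j = e 1 / 4 ^ j := by
      refine ⟨e 2, ?_⟩
      have c1 : e 0 / 4 ^ e 2 = 1 := Nat.div_eq_of_lt_le (by omega) (by omega)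
      have c2 : e 1 / 4 ^ e 2 = 1 := Nat.div_eq_of_lt_le (by omega) (by omega)
      rw [c1, c2]
    classical
    have hj := Nat.find_spec hex
    have hmin := fun i (hi : i < Nat.find hex) => Nat.find_min hex hi
    have hle : Nat.find hex ≤ e 2 := by
      refine Nat.find_min' hex ?_
      have c1 : e 0 / 4 ^ e 2 = 1 := Nat.div_eq_of_lt_le (by omega) (by omega)
      have c2 : e 1 / 4 ^ e 2 = 1 := Nat.div_eq_of_lt_le (by omega) (by omega)
      rw [c1, c2]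
    generalize Nat.find hex = j at hj hmin hle
    rcases Nat.eq_zero_or_pos j with h0 | h0
    · exfalso
      rw [h0, pow_zero, Nat.div_one, Nat.div_one] at hj
      exact h3' hj
    obtain ⟨i, rfl⟩ : ∃ i, j = i + 1 := ⟨j - 1, by omega⟩
    have hi := hmin i (by omega)
    have hpow : 4 ^ (i + 1) = 4 * 4 ^ i := by ring
    have hpi := four_pow_pos i
    have key : ∀ t : ℕ, 4 * (t / 4 ^ (i + 1)) * 4 ^ i ≤ t ∧
        t < 4 * (t / 4 ^ (i + 1) + 1) * 4 ^ i := by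
      intro t
      have d1 := Nat.div_mul_le_self t (4 ^ (i + 1))
      have d2 := Nat.lt_div_mul_add (a := t) (b := 4 ^ (i + 1)) (by omega)
      have d3 : t / 4 ^ (i + 1) * 4 ^ (i + 1) = 4 * (t / 4 ^ (i + 1)) * 4 ^ i := by
        rw [hpow]; ring
      have d4 : 4 * (t / 4 ^ (i + 1) + 1) * 4 ^ i = t / 4 ^ (i + 1) * 4 ^ (i + 1) +
          4 ^ (i + 1) := by rw [hpow]; ring
      rw [d4, ← d3]
      exact ⟨d1, d2⟩
    have hu : 1 ≤ e 0 / 4 ^ (i + 1) := by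
      rw [Nat.le_div_iff_mul_le (by omega), one_mul]
      exact (Nat.pow_le_pow_right (by norm_num) hle).trans a1
    obtain ⟨k1, k2⟩ := key (e 0)
    obtain ⟨k3, k4⟩ := key (e 1)
    rw [← hj] at k3 k4
    refine ⟨(e 0 / 4 ^ (i + 1) : ℕ), Nat.div_le_self _ _, (4 ^ i : ℕ), ?_, ?_,
      (nat_Pw _).2 ⟨i, rfl⟩, ?_, ?_, ?_, ?_, ?_⟩
    · show 4 ^ i ≤ e 0
      exact (Nat.pow_le_pow_right (by norm_num) (by omega)).trans a1
    · show e 0 / 4 ^ (i + 1) ≠ 0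
      omega
    · show qd natS (e 0 / 4 ^ (i + 1) : ℕ) * 4 ^ i ≤ e 0
      rw [nat_qd]; exact k1
    · show e 0 < qd natS (e 0 / 4 ^ (i + 1) + 1 : ℕ) * 4 ^ i
      rw [nat_qd]; exact k2
    · show qd natS (e 0 / 4 ^ (i + 1) : ℕ) * 4 ^ i ≤ e 1
      rw [nat_qd]; exact k3
    · show e 1 < qd natS (e 0 / 4 ^ (i + 1) + 1 : ℕ) * 4 ^ i
      rw [nat_qd]; exact k4
    · intro y _ hy
      obtain ⟨y1, y2, y3, y4⟩ := hy
      have z1 : e 0 / 4 ^ i = y := Nat.div_eq_of_lt_le y1 y2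
      have z2 : e 1 / 4 ^ i = y := Nat.div_eq_of_lt_le y3 y4
      exact hi (z1.trans z2.symm)

/-- Initial parts. -/
def axF6 : PiAx where
  P := fun S e => LenS S (e 0) (e 1) → S.ad (e 2) (e 3) = e 1 →
    ∃ m, S.le m (e 0) ∧ (∃ s, S.le s (e 0) ∧ (P4 S (e 3) m ∧ LenS S s (e 2) ∧
      S.le (S.ml s m) (e 0) ∧ S.lt (e 0) (S.ml (S.sc s) m)))
  bdef := inferInstance
  nat := fun e h1 h2 => by
    obtain ⟨a1, a2⟩ := (nat_LenS _ _).1 h1
    have h2' : e 2 + e 3 = e 1 := h2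
    have hp := four_pow_pos (e 3)
    have hpow : 4 ^ e 1 = 4 ^ e 2 * 4 ^ e 3 := by rw [← h2', pow_add]
    refine ⟨(4 ^ e 3 : ℕ), ?_, (e 0 / 4 ^ e 3 : ℕ), Nat.div_le_self _ _, (nat_P4 _ _).2 rfl,
      (nat_LenS _ _).2 ⟨?_, ?_⟩, ?_, ?_⟩
    · show 4 ^ e 3 ≤ e 0
      refine (Nat.pow_le_pow_right (by norm_num) ?_).trans a1
      omega
    · rw [Nat.le_div_iff_mul_le (by omega), ← hpow]
      exact a1
    · rw [Nat.div_lt_iff_lt_mul (by omega), mul_assoc, ← hpow]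
      exact a2
    · exact Nat.div_mul_le_self _ _
    · show e 0 < (e 0 / 4 ^ e 3 + 1) * 4 ^ e 3
      have := Nat.lt_div_mul_add (a := e 0) (b := 4 ^ e 3) (by omega)
      rw [add_mul, one_mul]
      exact this

/-- Products of powers of four. -/
def axF7 : PiAx where
  P := fun S e => Pw S (e 0) → Pw S (e 1) → Pw S (S.ml (e 0) (e 1))
  bdef := inferInstance
  nat := fun e h1 h2 => by
    obtain ⟨i, hi⟩ := (nat_Pw _).1 h1
    obtain ⟨j, hj⟩ := (nat_Pw _).1 h2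
    refine (nat_Pw _).2 ⟨i + j, ?_⟩
    show e 0 * e 1 = 4 ^ (i + j)
    rw [pow_add, hi, hj]

/-- The last digit. -/
def axF8 : PiAx where
  P := fun S e => LenS S (e 0) (e 1) → e 1 ≠ S.zr → ∃ u, S.le u (e 0) ∧ (u ≠ S.zr ∧
    S.le (qd S u) (e 0) ∧ S.lt (e 0) (qd S (S.sc u)))
  bdef := inferInstance
  nat := fun e h1 h2 => by
    obtain ⟨a1, a2⟩ := (nat_LenS _ _).1 h1
    have h2' : e 1 ≠ 0 := h2
    have hpow : 4 ^ e 1 = 4 * 4 ^ (e 1 - 1) := by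
      rw [← pow_succ', show e 1 - 1 + 1 = e 1 by omega]
    have := four_pow_pos (e 1 - 1)
    refine ⟨(e 0 / 4 : ℕ), Nat.div_le_self _ _, ?_, ?_, ?_⟩
    · show e 0 / 4 ≠ 0
      omega
    · show e 0 / 4 + e 0 / 4 + (e 0 / 4 + e 0 / 4) ≤ e 0
      omega
    · show e 0 < (e 0 / 4 + 1) + (e 0 / 4 + 1) + ((e 0 / 4 + 1) + (e 0 / 4 + 1))
      omega

/-- Positive powers of four are divisible by four. -/
def axF9 : PiAx where
  P := fun S e => P4 S (e 0) (e 1) → e 0 ≠ S.zr → ∃ m, S.le m (e 1) ∧ (Pw S m ∧ e 1 = qd S m)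
  bdef := inferInstance
  nat := fun e h1 h2 => by
    have a1 := (nat_P4 _ _).1 h1
    have h2' : e 0 ≠ 0 := h2
    have hpow : 4 ^ e 0 = 4 * 4 ^ (e 0 - 1) := by
      rw [← pow_succ', show e 0 - 1 + 1 = e 0 by omega]
    refine ⟨(4 ^ (e 0 - 1) : ℕ), ?_, (nat_Pw _).2 ⟨_, rfl⟩, ?_⟩
    · show 4 ^ (e 0 - 1) ≤ e 1
      omega
    · rw [nat_qd]
      show e 1 = 4 * 4 ^ (e 0 - 1)
      omega

/-- Division by four. -/
def axF10 : PiAx where
  P := fun S e => S.le (S.sc (qd S (e 0))) (qd S (e 1)) →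
    ¬ S.lt (qd S (e 1)) (S.sc (S.sc (S.sc (qd S (e 0)))))
  bdef := inferInstance
  nat := fun e h1 h2 => by
    have a1 : e 0 + e 0 + (e 0 + e 0) + 1 ≤ e 1 + e 1 + (e 1 + e 1) := h1
    have a2 : e 1 + e 1 + (e 1 + e 1) < e 0 + e 0 + (e 0 + e 0) + 1 + 1 + 1 := h2
    omega

/-- The length is unique. -/
def axF11 : PiAx where
  P := fun S e => LenS S (e 0) (e 1) → LenS S (e 0) (e 2) → e 1 = e 2
  bdef := inferInstance
  nat := fun e h1 h2 => by
    obtain ⟨a1, a2⟩ := (nat_LenS _ _).1 h1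
    obtain ⟨b1, b2⟩ := (nat_LenS _ _).1 h2
    exact le_antisymm (four_pow_cmp (by omega)) (four_pow_cmp (by omega))

/-- Powers of four are unique. -/
def axF12 : PiAx where
  P := fun S e => (P4 S (e 0) (e 1) → P4 S (e 0) (e 2) → e 1 = e 2) ∧
    (P4 S (e 0) (e 1) → P4 S (e 2) (e 1) → e 0 = e 2)
  bdef := inferInstance
  nat := fun e => by
    constructor
    · intro h1 h2
      exact ((nat_P4 _ _).1 h1).trans ((nat_P4 _ _).1 h2).symm
    · intro h1 h2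
      have h3 := ((nat_P4 _ _).1 h1).symm.trans ((nat_P4 _ _).1 h2)
      exact Nat.pow_right_injective (le_refl 2 |>.trans (by norm_num)) h3

/-- Products of powers of four, with exponents. -/
def axF13 : PiAx where
  P := fun S e => P4 S (e 0) (e 1) → P4 S (e 2) (e 3) → P4 S (S.ad (e 0) (e 2)) (S.ml (e 1) (e 3))
  bdef := inferInstance
  nat := fun e h1 h2 => by
    refine (nat_P4 _ _).2 ?_
    show e 1 * e 3 = 4 ^ (e 0 + e 2)
    rw [pow_add, (nat_P4 _ _).1 h1, (nat_P4 _ _).1 h2]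

/-- The place of a digit: `t = e 0` has length `j = e 1`, `u = e 2` has length `k = e 3`,
`m = e 4`, `k + e 5 = j` and `e 6 = 4 ^ (e 5)`. -/
def axF14 : PiAx where
  P := fun S e => LenS S (e 0) (e 1) → LenS S (e 2) (e 3) → Pw S (e 4) →
    S.le (S.ml (S.sc (S.sc (qd S (e 2)))) (e 4)) (e 0) →
    S.lt (e 0) (S.ml (S.sc (S.sc (S.sc (qd S (e 2))))) (e 4)) →
    S.ad (e 3) (e 5) = e 1 → P4 S (e 5) (e 6) → e 6 = qd S (e 4)
  bdef := inferInstance
  nat := fun e h1 h2 h3 h4 h5 h6 h7 => by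
    obtain ⟨a1, a2⟩ := (nat_LenS _ _).1 h1
    obtain ⟨b1, b2⟩ := (nat_LenS _ _).1 h2
    obtain ⟨a, ha⟩ := (nat_Pw _).1 h3
    have h4' : (e 2 + e 2 + (e 2 + e 2) + 1 + 1) * e 4 ≤ e 0 := h4
    have h5' : e 0 < (e 2 + e 2 + (e 2 + e 2) + 1 + 1 + 1) * e 4 := h5
    have h6' : e 3 + e 5 = e 1 := h6
    rw [ha] at h4' h5'
    have hp := four_pow_pos a
    have c1 : 4 ^ (e 3 + 1 + a) = 4 * 4 ^ e 3 * 4 ^ a := by rw [pow_add, pow_succ]; ring
    have c2 : 4 * 4 ^ e 3 * 4 ^ a ≤ (e 2 + e 2 + (e 2 + e 2) + 1 + 1) * 4 ^ a :=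
      Nat.mul_le_mul_right _ (by omega)
    have c3 : (e 2 + e 2 + (e 2 + e 2) + 1 + 1 + 1) * 4 ^ a ≤ 2 * (4 * 4 ^ e 3) * 4 ^ a :=
      Nat.mul_le_mul_right _ (by omega)
    have c4 : 2 * (4 * 4 ^ e 3) * 4 ^ a = 2 * 4 ^ (e 3 + 1 + a) := by rw [c1]; ring
    have d1 : e 3 + 1 + a ≤ e 1 := four_pow_cmp (by omega)
    have d2 : e 1 ≤ e 3 + 1 + a := four_pow_cmp (by omega)
    have d3 : e 5 = a + 1 := by omega
    have d4 := (nat_P4 _ _).1 h7
    rw [nat_qd, ha, d4, d3, pow_succ]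
    show 4 ^ a * 4 = 4 * 4 ^ a
    ring

/-- `4 ^ k` is a power of four. -/
def axF15 : PiAx where
  P := fun S e => P4 S (e 0) (e 1) → Pw S (e 1)
  bdef := inferInstance
  nat := fun _ h1 => (nat_Pw _).2 ⟨_, (nat_P4 _ _).1 h1⟩

/-- Strings are not zero. -/
def axF16 : PiAx where
  P := fun S e => LenS S (e 0) (e 1) → e 0 ≠ S.zr
  bdef := inferInstance
  nat := fun e h1 => by
    obtain ⟨a1, _⟩ := (nat_LenS _ _).1 h1
    have := four_pow_pos (e 1)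
    show e 0 ≠ 0
    omega

/-- The list of axioms for greedy strings. -/
def piF : List PiAx := [axF1, axF2, axF3, axF4, axF5, axF6, axF7, axF8, axF9, axF10, axF11, axF12,
  axF13, axF14, axF15, axF16]

/-! ### Translation to the semiring notation -/

section
variable {S : Str Lar} [PiC S]

theorem lt_eq (x y : S.M) : S.lt x y ↔ x < y := by
  show S.sc x ≤ y ↔ x < y
  rw [sc_eq, add_one_le_iff']

theorem dbl_eq (x : S.M) : dbl S x = 2 * x := by
  show x + x = 2 * x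
  ring

theorem qd_eq (x : S.M) : qd S x = 4 * x := by
  show x + x + (x + x) = 4 * x
  ring

theorem qd1_eq (x : S.M) : S.sc (qd S x) = 4 * x + 1 := by rw [sc_eq, qd_eq]
theorem qd2_eq (x : S.M) : S.sc (S.sc (qd S x)) = 4 * x + 2 := by
  rw [sc_eq, sc_eq, qd_eq]; ring
theorem qd3_eq (x : S.M) : S.sc (S.sc (S.sc (qd S x))) = 4 * x + 3 := by
  rw [sc_eq, sc_eq, sc_eq, qd_eq]; ring

theorem grd_iff (q : S.M → Prop) (s : S.M) : Grd S q s ↔
    ∀ u m, u ≠ 0 → Pw S m → 4 * u * m ≤ s → s < 4 * (u + 1) * m →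
      (q u → (4 * u + 2) * m ≤ s ∧ s < (4 * u + 3) * m) ∧
      (¬ q u → (4 * u + 1) * m ≤ s ∧ s < (4 * u + 2) * m) := by
  unfold Grd
  have h2 : ∀ x : S.M, x + 1 + 1 = x + 2 := fun x => by ring
  have h3 : ∀ x : S.M, x + 2 + 1 = x + 3 := fun x => by ring
  simp only [lt_eq, le_eq, ml_eq, qd_eq, sc_eq, zr_eq, h2, h3]

theorem nneg (x : S.M) : 0 ≤ x := PiC.zero_le' S x

/-- Blocks. -/
theorem blk {s m t y : S.M} (h1 : s * m ≤ t) (h2 : t < (s + 1) * m) : y * m ≤ t ↔ y ≤ s := by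
  constructor
  · intro h
    rw [← lt_add_one_iff']
    have h3 : y * m < (s + 1) * m := lt_of_le_of_lt h h2
    exact lt_of_mul_lt_mul_right h3 (nneg m)
  · intro h
    exact (mul_le_mul_of_nonneg_right h (nneg m)).trans h1

end

/-! ### Lengths and powers of four -/

section
variable {S : Str Lar} [PiC S] (hF : ∀ a ∈ piF, a.Holds S)
include hF

theorem len_one : LenS S 1 0 :=
  (hF axF1 (by simp [piF]) (fun _ => S.zr)).1

theorem pw_one : Pw S (1 : S.M) :=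
  (hF axF1 (by simp [piF]) (fun _ => S.zr)).2

theorem len_succ' {s i : S.M} (h : LenS S s i) :
    LenS S (S.sc (S.sc (qd S s))) (S.sc i) ∧ LenS S (S.sc (qd S s)) (S.sc i) :=
  hF axF3 (by simp [piF]) (cn s fun _ => i) h

theorem len_succ {s i : S.M} (h : LenS S s i) :
    LenS S (4 * s + 2) (i + 1) ∧ LenS S (4 * s + 1) (i + 1) := by
  have := len_succ' hF h
  rw [qd2_eq, qd1_eq, sc_eq] at this
  exact this

theorem pw_cases {m : S.M} (h : Pw S m) : m = 1 ∨ ∃ n, Pw S n ∧ m = 4 * n := by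
  rcases hF axF4 (by simp [piF]) (fun _ => m) h with h1 | ⟨n, _, h1, h2⟩
  · exact Or.inl h1
  · exact Or.inr ⟨n, h1, h2.trans (qd_eq n)⟩

theorem pw_mul {m n : S.M} (h1 : Pw S m) (h2 : Pw S n) : Pw S (m * n) :=
  hF axF7 (by simp [piF]) (cn m fun _ => n) h1 h2

theorem len_unique {s i j : S.M} (h1 : LenS S s i) (h2 : LenS S s j) : i = j :=
  hF axF11 (by simp [piF]) (cn s (cn i fun _ => j)) h1 h2

theorem P4_unique {k m n : S.M} (h1 : P4 S k m) (h2 : P4 S k n) : m = n :=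
  (hF axF12 (by simp [piF]) (cn k (cn m fun _ => n))).1 h1 h2

theorem P4_inj {k l m : S.M} (h1 : P4 S k m) (h2 : P4 S l m) : k = l :=
  (hF axF12 (by simp [piF]) (cn k (cn m fun _ => l))).2 h1 h2

theorem P4_add {a m b n : S.M} (h1 : P4 S a m) (h2 : P4 S b n) : P4 S (a + b) (m * n) :=
  hF axF13 (by simp [piF]) (cn a (cn m (cn b fun _ => n))) h1 h2

theorem P4_succ_cases {k m : S.M} (h : P4 S k m) (hk : k ≠ 0) : ∃ n, Pw S n ∧ m = 4 * n := by
  obtain ⟨n, _, h1, h2⟩ := hF axF9 (by simp [piF]) (cn k fun _ => m) h hk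
  exact ⟨n, h1, h2.trans (qd_eq n)⟩

/-! ### Greedy strings -/

variable {q : S.M → Prop}

theorem grd_one : LenS S 1 0 ∧ Grd S q 1 := by
  refine ⟨len_one hF, ?_⟩
  intro u m hu hm h1 _
  exact (hF axF2 (by simp [piF]) (cn u fun _ => m) hu hm h1).elim

theorem grd_ext {s : S.M} {c : S.M} (hc : c < 4) (h : Grd S q s)
    (h0 : (q s → c = 2) ∧ (¬ q s → c = 1)) : Grd S q (4 * s + c) := by
  rw [grd_iff] at h ⊢
  intro u m hu hm h1 h2
  have hb1 : s * 4 ≤ 4 * s + c := by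
    rw [mul_comm]; exact le_add_of_nonneg_right (nneg c)
  have hb2 : 4 * s + c < (s + 1) * 4 := by
    have : (s + 1) * 4 = 4 * s + 4 := by ring
    rw [this]
    exact add_lt_add_right hc _
  have hb : ∀ y : S.M, y * 4 ≤ 4 * s + c ↔ y ≤ s := fun y => blk hb1 hb2
  rcases pw_cases hF hm with rfl | ⟨n, hn, rfl⟩
  · rw [mul_one, mul_comm 4 u, hb] at h1
    rw [mul_one, ← not_le, mul_comm 4 (u + 1), hb, not_le, lt_add_one_iff'] at h2
    obtain rfl : u = s := le_antisymm h1 h2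
    simp only [mul_one]
    constructor
    · intro hq
      rw [h0.1 hq]
      refine ⟨le_rfl, ?_⟩
      exact add_lt_add_right (by norm_num) _
    · intro hq
      rw [h0.2 hq]
      refine ⟨le_rfl, ?_⟩
      exact add_lt_add_right (by norm_num) _
  · have hc4 : ∀ y : S.M, y * (4 * n) ≤ 4 * s + c ↔ y * n ≤ s := by
      intro y
      rw [show y * (4 * n) = (y * n) * 4 by ring]
      exact hb _
    rw [hc4] at h1
    rw [← not_le, hc4, not_le] at h2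
    have := h u n hu hn h1 h2
    simp only [← not_le, hc4] at this ⊢
    exact this

theorem grd_succ {s i : S.M} (hl : LenS S s i) (h : Grd S q s) :
    LenS S (4 * s + 2) (i + 1) ∧ LenS S (4 * s + 1) (i + 1) ∧
      (q s → Grd S q (4 * s + 2)) ∧ (¬ q s → Grd S q (4 * s + 1)) := by
  obtain ⟨h1, h2⟩ := len_succ hF hl
  have h24 : (2 : S.M) < 4 := by norm_num
  have h14 : (1 : S.M) < 4 := by norm_num
  exact ⟨h1, h2, fun hq => grd_ext hF h24 h ⟨fun _ => rfl, fun hn => (hn hq).elim⟩,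
    fun hq => grd_ext hF h14 h ⟨fun hn => (hq hn).elim, fun _ => rfl⟩⟩

theorem grd_succ' {s i : S.M} (hl : LenS S s i) (h : Grd S q s) :
    LenS S (S.sc (S.sc (qd S s))) (S.sc i) ∧ LenS S (S.sc (qd S s)) (S.sc i) ∧
      (q s → Grd S q (S.sc (S.sc (qd S s)))) ∧ (¬ q s → Grd S q (S.sc (qd S s))) := by
  rw [qd2_eq, qd1_eq, sc_eq]
  exact grd_succ hF hl h

/-- Every greedy string has a greedy extension. -/
theorem grd_next {s i : S.M} (hl : LenS S s i) (h : Grd S q s) :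
    ∃ t, LenS S t (i + 1) ∧ Grd S q t := by
  obtain ⟨h1, h2, h3, h4⟩ := grd_succ hF hl h
  by_cases hq : q s
  · exact ⟨_, h1, h3 hq⟩
  · exact ⟨_, h2, h4 hq⟩

theorem grd_unique {s t i : S.M} (hs : LenS S s i) (ht : LenS S t i) (gs : Grd S q s)
    (gt : Grd S q t) : s = t := by
  by_contra hne
  obtain ⟨u, hus, m, hms, hu, hm, h1, h2, h3, h4, h5⟩ :=
    hF axF5 (by simp [piF]) (cn s (cn t fun _ => i)) hs ht hne
  rw [grd_iff] at gs gt
  simp only [cn_zero, cn_one, lt_eq, le_eq, ml_eq, qd_eq, sc_eq, zr_eq] at *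
  have g1 := gs u m hu hm h1 h2
  have g2 := gt u m hu hm h3 h4
  have e2 : 4 * u + 1 + 1 = 4 * u + 2 := by ring
  have e3 : 4 * u + 2 + 1 = 4 * u + 3 := by ring
  by_cases hq : q u
  · obtain ⟨a1, a2⟩ := g1.1 hq
    obtain ⟨b1, b2⟩ := g2.1 hq
    refine h5 (4 * u + 2) (by rw [e2]) ⟨a1, ?_, b1, ?_⟩
    · rw [e3]; exact a2
    · rw [e3]; exact b2
  · obtain ⟨a1, a2⟩ := g1.2 hq
    obtain ⟨b1, b2⟩ := g2.2 hq
    refine h5 (4 * u + 1) ?_ ⟨a1, ?_, b1, ?_⟩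
    · exact le_add_of_nonneg_right (nneg _)
    · rw [e2]; exact a2
    · rw [e2]; exact b2

/-- The last digit of a greedy string is not zero. -/
theorem grd_last {t j : S.M} (hl : LenS S t j) (h : Grd S q t) (hj : j ≠ 0) :
    ∃ u, 4 * u + 1 ≤ t ∧ t < 4 * u + 3 := by
  obtain ⟨u, _, hu, h1, h2⟩ := hF axF8 (by simp [piF]) (cn t fun _ => j) hl hj
  simp only [cn_zero, lt_eq, le_eq, qd_eq, sc_eq, zr_eq] at *
  have hp := pw_one hF
  rw [grd_iff] at h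
  have h3 := h u 1 hu hp (by rw [mul_one]; exact h1) (by rw [mul_one]; exact h2)
  simp only [mul_one] at h3
  refine ⟨u, ?_⟩
  by_cases hq : q u
  · obtain ⟨a1, a2⟩ := h3.1 hq
    refine ⟨le_trans ?_ a1, a2⟩
    exact add_le_add_right (by norm_num) _
  · obtain ⟨a1, a2⟩ := h3.2 hq
    refine ⟨a1, lt_of_lt_of_le a2 ?_⟩
    exact add_le_add_right (by norm_num) _

theorem not_dvd_four {t u x : S.M} (h1 : 4 * u + 1 ≤ t) (h2 : t < 4 * u + 3) : 4 * x ≠ t := by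
  rintro rfl
  refine hF axF10 (by simp [piF]) (cn u fun _ => x) ?_ ?_
  · rw [cn_zero, cn_one, le_eq, qd1_eq, qd_eq]
    exact h1
  · rw [cn_zero, cn_one, lt_eq, qd3_eq, qd_eq]
    exact h2

theorem len_ne_zero {s k : S.M} (h : LenS S s k) : s ≠ 0 :=
  hF axF16 (by simp [piF]) (cn s fun _ => k) h

theorem P4.pw {k m : S.M} (h : P4 S k m) : Pw S m :=
  hF axF15 (by simp [piF]) (cn k fun _ => m) h

theorem grd_prefix' {t i k j : S.M} (hl : LenS S t j) (h : Grd S q t) (hij : i + k = j) :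
    ∃ s m, LenS S s i ∧ Grd S q s ∧ P4 S k m ∧ s * m ≤ t ∧ t < (s + 1) * m ∧ s ≤ t := by
  obtain ⟨m, _, s, hs, hm, hls, h1, h2⟩ :=
    hF axF6 (by simp [piF]) (cn t (cn j (cn i fun _ => k))) hl hij
  simp only [cn_zero, cn_one, cn_two, cn_three, lt_eq, le_eq, ml_eq, sc_eq] at *
  refine ⟨s, m, hls, ?_, hm, h1, h2, hs⟩
  rw [grd_iff] at h ⊢
  intro u n hu hn a1 a2
  have hb : ∀ y : S.M, y * (n * m) ≤ t ↔ y * n ≤ s := fun y => by
    rw [← mul_assoc]; exact blk h1 h2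
  have := h u (n * m) hu (pw_mul hF hn (P4.pw hF hm)) ((hb _).2 a1)
    (by rw [← not_le, hb, not_le]; exact a2)
  simp only [← not_le, hb] at this ⊢
  exact this

theorem grd_prefix {t i k j : S.M} (hl : LenS S t j) (h : Grd S q t) (hij : i < j)
    (hk : i + k = j) : ∃ s m, LenS S s i ∧ Grd S q s ∧ P4 S k m ∧ s * m < t ∧
      t < (s + 1) * m ∧ s ≤ t := by
  obtain ⟨s, m, h1, h2, h3, h4, h5, h6⟩ := grd_prefix' hF hl h hk
  have hk0 : k ≠ 0 := by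
    rintro rfl
    rw [add_zero] at hk
    exact absurd hk hij.ne
  have hj0 : j ≠ 0 := by
    rintro rfl
    exact absurd hij (not_lt.2 (nneg i))
  obtain ⟨n, _, hn⟩ := P4_succ_cases hF h3 hk0
  obtain ⟨u, hu1, hu2⟩ := grd_last hF hl h hj0
  refine ⟨s, m, h1, h2, h3, lt_of_le_of_ne h4 ?_, h5, h6⟩
  have := not_dvd_four hF (x := s * n) hu1 hu2
  rw [hn, show s * (4 * n) = 4 * (s * n) by ring]
  exact this

theorem Dq_iff {s k : S.M} (hl : LenS S s k) (h : Grd S q s) : Dq S q k ↔ q s := by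
  constructor
  · rintro ⟨t, h1, h2, h3⟩
    rw [grd_unique hF hl h1 h h2]
    exact h3
  · intro hq
    exact ⟨s, hl, h, hq⟩

theorem grd_dig {t k j : S.M} (hl : LenS S t j) (h : Grd S q t) (hk : k < j) :
    Dq S q k ↔ Dig S t k := by
  obtain ⟨l, hkl⟩ := PiC.sub' S (show S.le k j from hk.le)
  obtain ⟨s, m, h1, h2, h3, h4, h5, h6⟩ := grd_prefix' hF hl h hkl
  have hl0 : l ≠ 0 := by
    rintro rfl
    have : k + 0 = j := hkl
    rw [add_zero] at this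
    exact absurd this hk.ne
  rw [Dq_iff hF h1 h2]
  obtain ⟨n, hn, hmn⟩ := P4_succ_cases hF h3 hl0
  have hs0 : s ≠ 0 := len_ne_zero hF h1
  subst hmn
  rw [grd_iff] at h
  have g := h s n hs0 hn (by rw [mul_comm 4 s, mul_assoc]; exact h4)
    (by rw [mul_comm 4 (s + 1), mul_assoc]; exact h5)
  constructor
  · intro hq
    obtain ⟨a1, a2⟩ := g.1 hq
    refine ⟨s, h6, n, ?_, hn, h1, ?_, ?_⟩
    · refine le_trans ?_ a1
      have h12 : (1 : S.M) ≤ 4 * s + 2 := le_add_of_nonneg_of_le (nneg _) one_le_two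
      calc n = 1 * n := (one_mul n).symm
        _ ≤ (4 * s + 2) * n := mul_le_mul_of_nonneg_right h12 (nneg n)
    · rw [qd2_eq]; exact a1
    · rw [lt_eq, qd3_eq]; exact a2
  · rintro ⟨u, _, n', _, hn', hu, a1, a2⟩
    by_contra hq
    obtain ⟨b1, b2⟩ := g.2 hq
    have e1 : 4 * n = qd S n' :=
      hF axF14 (by simp [piF]) (cn t (cn j (cn u (cn k (cn n' (cn l fun _ => 4 * n)))))) hl hu hn'
        a1 a2 hkl h3
    rw [qd2_eq] at a1
    rw [qd3_eq, lt_eq] at a2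
    rw [qd_eq] at e1
    have h40 : (0 : S.M) < 4 := by norm_num
    obtain rfl : n = n' := le_antisymm (le_of_mul_le_mul_left e1.le h40)
      (le_of_mul_le_mul_left e1.ge h40)
    have e2 : 4 * s + 1 + 1 = 4 * s + 2 := by ring
    have hb : ∀ y : S.M, y * n ≤ t ↔ y ≤ 4 * s + 1 := fun y => blk b1 (by rw [e2]; exact b2)
    have c1 : 4 * u + 2 ≤ 4 * s + 1 := (hb _).1 a1
    have c2 : 4 * s + 1 < 4 * u + 3 := by
      rw [← not_le, ← hb, not_le]; exact a2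
    refine not_dvd_four hF (t := 4 * s) (u := u) (x := s) ?_ ?_ rfl
    · have : 4 * u + 1 + 1 ≤ 4 * s + 1 := by
        rw [show 4 * u + 1 + 1 = 4 * u + 2 by ring]; exact c1
      exact le_of_add_le_add_right this
    · refine lt_of_le_of_lt ?_ c2
      exact le_add_of_nonneg_right (nneg 1)

end

end Pool.Agent.MP81222b
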