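import Pool.Agent.Lib.MP_81222b_lc.Rep
import Pool.Agent.Lib.MP_81222b_lc.Greedy

/-!
# Greedy strings at standard indices
-/

namespace Pool.Agent.MP81222b

/-! ### Strings of standard length -/

theorem kk_of_len : ∀ (n s : ℕ), 4 ^ n ≤ s → s < 2 * 4 ^ n → kk s = n := by
  intro n
  induction n with
  | zero =>
    intro s h1 h2
    exact kk_lt (by omega)
  | succ n ih =>
    intro s h1 h2
    rw [pow_succ] at h1 h2
    have hp := four_pow_pos n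
    rw [kk_ge (by omega), ih (s / 4) (by omega) (by omega)]

theorem dg_iff : ∀ (n s k : ℕ), 4 ^ n ≤ s → s < 2 * 4 ^ n → k < n →
    (dg s k ↔ ∃ u j : ℕ, 4 ^ k ≤ u ∧ u < 2 * 4 ^ k ∧
      (4 * u + 2) * 4 ^ j ≤ s ∧ s < (4 * u + 3) * 4 ^ j) := by
  intro n
  induction n with
  | zero => intro s k _ _ h; omega
  | succ n ih =>
    intro s k h1 h2 hk
    have h1' := h1
    have h2' := h2
    rw [pow_succ] at h1' h2'
    have hp := four_pow_pos n
    have hkk : kk (s / 4) = n := kk_of_len n (s / 4) (by omega) (by omega)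
    rw [dg, if_neg (by omega), hkk]
    by_cases hkn : k = n
    · subst hkn
      rw [if_pos rfl]
      constructor
      · intro h
        exact ⟨s / 4, 0, by omega, by omega, by omega, by omega⟩
      · rintro ⟨u, j, a1, a2, a3, a4⟩
        have hj : j = 0 := by
          by_contra hj
          obtain ⟨i, rfl⟩ := Nat.exists_eq_succ_of_ne_zero hj
          rw [Nat.succ_eq_add_one, pow_succ] at a3
          have hi := four_pow_pos i
          have : (4 * u + 2) * (4 ^ i * 4) ≥ (4 * u + 2) * 4 := by nlinarith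
          omega
        subst hj
        omega
    · rw [if_neg hkn, ih (s / 4) k (by omega) (by omega) (by omega)]
      have hk4 : 4 ^ (k + 1) ≤ 4 ^ n := Nat.pow_le_pow_right (by norm_num) (by omega)
      rw [pow_succ] at hk4
      constructor
      · rintro ⟨u, j, a1, a2, a3, a4⟩
        refine ⟨u, j + 1, a1, a2, ?_, ?_⟩
        · rw [pow_succ, ← mul_assoc]; omega
        · rw [pow_succ, ← mul_assoc]; omega
      · rintro ⟨u, j, a1, a2, a3, a4⟩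
        rcases Nat.eq_zero_or_pos j with rfl | hj
        · omega
        · obtain ⟨i, rfl⟩ := Nat.exists_eq_succ_of_ne_zero (by omega : j ≠ 0)
          rw [Nat.succ_eq_add_one, pow_succ, ← mul_assoc] at a3 a4
          exact ⟨u, i, a1, a2, by omega, by omega⟩

theorem dg_iff_Dig {n s k : ℕ} (h : LenS natS s n) (hk : k < n) : dg s k ↔ Dig natS s k := by
  obtain ⟨h1, h2⟩ := (nat_LenS s n).1 h
  rw [nat_Dig]
  exact dg_iff n s k h1 h2 hk

/-! ### Literals -/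

/-- The statement number `k`. -/
def Vx (Q : Str LA) (k : ℕ) (x : ℕ → Q.M) : Prop :=
  (dec (up1 k)).Sat Q (fun a => x (Lk (up2 k) a))

theorem dec_univ {n : ℕ} (h0 : n ≠ 0) (h4 : n % 4 = 0) : dec n = .all (dec (n / 4 - 1)) := by
  have : n = 4 * (n / 4 - 1) + 4 := by omega
  rw [this, dec_all]
  congr 2
  omega

theorem LitS.iff {Q : Str LA} {k : ℕ} {b : Prop} {x : ℕ → Q.M} (h : LitS Q k b x) :
    b ↔ Vx Q k x := by
  constructor
  · exact h.1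
  · intro hV
    by_contra hb
    obtain ⟨h1, h2⟩ := h.2 hb
    by_cases hc : up1 k ≠ 0 ∧ up1 k % 4 = 0
    · refine h1 hc ?_
      unfold Vx at hV
      rw [dec_univ hc.1 hc.2] at hV
      exact hV (x k)
    · exact h2 hc hV

theorem LitS.congr {Q : Str LA} {k : ℕ} {b c : Prop} {x : ℕ → Q.M} (hbc : b ↔ c)
    (h : LitS Q k b x) : LitS Q k c x := by
  rw [← propext hbc]; exact h

theorem LitS.upd {Q : Str LA} {k n : ℕ} {b : Prop} {x y : ℕ → Q.M} (hkn : k < n)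
    (hxy : ∀ i < n, x i = y i) (h : LitS Q k b x) : LitS Q k b y := by
  have h1 : (fun a => x (Lk (up2 k) a)) = fun a => y (Lk (up2 k) a) := by
    funext a
    refine hxy _ ?_
    have := Lk_le (up2 k) a
    have := up2_le k
    omega
  unfold LitS at h ⊢
  rw [← h1, ← hxy k hkn]
  exact h

/-- A negative literal can be witnessed by changing the value at `n`. -/
theorem exists_neg_lit {Q : Str LA} {n : ℕ} {x : ℕ → Q.M} (h : ¬ Vx Q n x) :
    ∃ y : ℕ → Q.M, (∀ i < n, x i = y i) ∧ ∀ b : Prop, ¬ b → LitS Q n b y := by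
  by_cases hc : up1 n ≠ 0 ∧ up1 n % 4 = 0
  · unfold Vx at h
    rw [dec_univ hc.1 hc.2] at h
    simp only [Fm.Sat, not_forall] at h
    obtain ⟨v, hv⟩ := h
    refine ⟨fun i => if i = n then v else x i, fun i hi => (if_neg (by omega)).symm, ?_⟩
    intro b hb
    refine ⟨fun h => absurd h hb, fun _ => ⟨fun _ => ?_, fun h => absurd hc h⟩⟩
    have hn : ∀ a, Lk (up2 n) a < n := by
      intro a
      have h1 := Lk_le (up2 n) a
      have h2 : up2 n < n := by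
        unfold up2
        have h3 : n - Nat.sqrt n * Nat.sqrt n ≠ 0 := hc.1
        have h4 := Nat.sqrt_le_self n
        have : Nat.sqrt n ≠ 0 := by
          intro h0
          have h5 := Nat.sqrt_eq_zero.1 h0
          rw [h5] at h3
          exact h3 rfl
        omega
      omega
    have h1 : (fun a => if Lk (up2 n) a = n then v else x (Lk (up2 n) a)) =
        fun a => x (Lk (up2 n) a) := by
      funext a
      exact if_neg (hn a).ne
    simp only [if_true, h1]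
    exact hv
  · refine ⟨x, fun _ _ => rfl, ?_⟩
    intro b hb
    exact ⟨fun h => absurd h hb, fun _ => ⟨fun h => absurd h hc, fun _ => h⟩⟩

/-! ### The greedy strings of standard length -/

section
variable {S : Str Lar} [PiC S] (hF : ∀ a ∈ piF, a.Holds S) {q : S.M → Prop} {Q : Str LA}
  (hq : ∀ u : ℕ, q (nmS S u) ↔ QS Q u)

theorem len_nmS {s n : ℕ} : LenS S (nmS S s) (nmS S n) ↔ LenS natS s n := by
  have := BDef.nmS S LenS.b0 (cn s (fun _ => n))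
  simp only [cn_zero, cn_one] at this
  exact this

theorem dig_nmS {s n : ℕ} : Dig S (nmS S s) (nmS S n) ↔ Dig natS s n := by
  have := BDef.nmS S Dig.b0 (cn s (fun _ => n))
  simp only [cn_zero, cn_one] at this
  exact this

include hF hq

theorem std_grd (n : ℕ) : ∃ s : ℕ, LenS natS s n ∧ Grd S q (nmS S s) ∧
    ∃ x : ℕ → Q.M, ∀ k < n, LitS Q k (Dq S q (nmS S k)) x := by
  induction n with
  | zero =>
    obtain ⟨x⟩ := Q.inh
    refine ⟨1, (nat_LenS 1 0).2 ⟨by norm_num, by norm_num⟩, (grd_one hF).2, fun _ => x, ?_⟩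
    intro k hk
    omega
  | succ n ih =>
    obtain ⟨s, hl, hg, x, hx⟩ := ih
    obtain ⟨hl1, hl2⟩ := (nat_LenS s n).1 hl
    have hkk : kk s = n := kk_of_len n s hl1 hl2
    have hlS : LenS S (nmS S s) (nmS S n) := len_nmS.2 hl
    have hD : Dq S q (nmS S n) ↔ q (nmS S s) := Dq_iff hF hlS hg
    have hdg : ∀ k < n, (dg s k ↔ Dq S q (nmS S k)) := by
      intro k hk
      rw [dg_iff_Dig hl hk, grd_dig hF hlS hg (nmS_lt_of_lt S hk), dig_nmS]
    obtain ⟨_, _, hg1, hg2⟩ := grd_succ' hF hlS hg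
    have e1 : S.sc (S.sc (qd S (nmS S s))) = nmS S (4 * s + 2) := by
      rw [nmS_qd]; rfl
    have e2 : S.sc (qd S (nmS S s)) = nmS S (4 * s + 1) := by
      rw [nmS_qd]; rfl
    rw [e1] at hg1
    rw [e2] at hg2
    have len' : ∀ c : ℕ, c < 4 → LenS natS (4 * s + c : ℕ) (n + 1 : ℕ) := by
      intro c hc
      rw [nat_LenS, pow_succ]
      omega
    by_cases hqs : q (nmS S s)
    · refine ⟨4 * s + 2, len' 2 (by norm_num), hg1 hqs, ?_⟩
      obtain ⟨y, hy1, hy2⟩ := (hq s).1 hqs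
      rw [hkk] at hy1 hy2
      refine ⟨y, ?_⟩
      intro k hk
      rcases Nat.lt_succ_iff_lt_or_eq.1 hk with h | rfl
      · exact (hy1 k h).congr (hdg k h)
      · exact ⟨fun _ => hy2, fun h => absurd (hD.2 hqs) h⟩
    · refine ⟨4 * s + 1, len' 1 (by norm_num), hg2 hqs, ?_⟩
      have hV : ¬ Vx Q n x := by
        intro hV
        refine hqs ((hq s).2 ⟨x, ?_, ?_⟩)
        · intro k hk
          rw [hkk] at hk
          exact (hx k hk).congr (hdg k hk).symm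
        · rw [hkk]; exact hV
      obtain ⟨y, hy, hb⟩ := exists_neg_lit hV
      refine ⟨y, ?_⟩
      intro k hk
      rcases Nat.lt_succ_iff_lt_or_eq.1 hk with h | rfl
      · exact (hx k h).upd h hy
      · exact hb _ (fun h => hqs (hD.1 h))

/-- The decisions below a standard bound are the truth values of an assignment. -/
theorem std_val (n : ℕ) : ∃ x : ℕ → Q.M, (∀ k < n, (Dq S q (nmS S k) ↔ Vx Q k x)) ∧
    ∀ k < n, LitS Q k (Dq S q (nmS S k)) x := by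
  obtain ⟨_, _, _, x, hx⟩ := std_grd hF hq n
  exact ⟨x, fun k hk => (hx k hk).iff, hx⟩

theorem std_sent (σ : Fm LA) (hσ : σ.Closed) (e : ℕ → Q.M) :
    Dq S q (nmS S (pr σ.gn 0)) ↔ σ.Sat Q e := by
  obtain ⟨x, hx, _⟩ := std_val hF hq (pr σ.gn 0 + 1)
  rw [hx _ (Nat.lt_succ_self _)]
  unfold Vx
  rw [up1_pr, dec_gn]
  exact σ.sat_closed Q hσ _ _

end

/-! ### The clauses -/

theorem Vx_pr (Q : Str LA) (f s : ℕ) (x : ℕ → Q.M) :
    Vx Q (pr f s) x ↔ (dec f).Sat Q (fun a => x (Lk s a)) := by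
  unfold Vx
  rw [up1_pr, up2_pr]

theorem Lk_cons_fun {M : Type} (x : ℕ → M) (y s : ℕ) :
    (fun a => x (Lk (consN y s) a)) = cn (x y) (fun a => x (Lk s a)) := by
  funext a
  cases a with
  | zero => rw [Lk_cons_zero]; rfl
  | succ a => rw [Lk_cons_succ]; rfl

theorem Vx_imp (Q : Str LA) (f g s : ℕ) (x : ℕ → Q.M) :
    Vx Q (pr (4 * pr f g + 3) s) x ↔ (Vx Q (pr f s) x → Vx Q (pr g s) x) := by
  rw [Vx_pr, Vx_pr, Vx_pr, dec_imp, up1_pr, up2_pr]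
  rfl

theorem Vx_all (Q : Str LA) (f s : ℕ) (x : ℕ → Q.M) :
    Vx Q (pr (4 * f + 4) s) x ↔ ∀ v, (dec f).Sat Q (cn v (fun a => x (Lk s a))) := by
  rw [Vx_pr, dec_all]
  rfl

theorem Vx_cons (Q : Str LA) (f y s : ℕ) (x : ℕ → Q.M) :
    Vx Q (pr f (consN y s)) x ↔ (dec f).Sat Q (cn (x y) (fun a => x (Lk s a))) := by
  rw [Vx_pr, Lk_cons_fun]

theorem Vx_eq (Q : Str LA) (a b s : ℕ) (x : ℕ → Q.M) :
    Vx Q (pr (4 * pr (2 * a) (2 * b) + 1) s) x ↔ x (Lk s a) = x (Lk s b) := by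
  rw [Vx_pr, dec_eqc, up1_pr, up2_pr]
  have h1 : 2 * a / 2 = a := by omega
  have h2 : 2 * b / 2 = b := by omega
  rw [h1, h2]
  rfl

theorem Vx_rl (Q : Str LA) (r : Fin 9) (a b c s : ℕ) (x : ℕ → Q.M) :
    Vx Q (pr (4 * pr (pr 3 r) (consN (2 * a) (consN (2 * b) (consN (2 * c) 0))) + 2) s) x ↔
      Q.rl 3 (r : Fin 9) ![x (Lk s a), x (Lk s b), x (Lk s c)] := by
  rw [Vx_pr, dec_rl, sat_fR]

theorem Vx_iEq (Q : Str LA) (y z : ℕ) (x : ℕ → Q.M) :
    Vx Q (pr cEq (consN y (consN z 0))) x ↔ x y = x z := by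
  have h := Vx_eq Q 0 1 (consN y (consN z 0)) x
  have h1 : Lk (consN y (consN z 0)) 1 = z := by
    rw [show (1 : ℕ) = 0 + 1 from rfl, Lk_cons_succ, Lk_cons_zero]
  rw [Lk_cons_zero, h1] at h
  exact h

theorem Vx_iRl (Q : Str LA) (r : Fin 9) (y z w : ℕ) (x : ℕ → Q.M) :
    Vx Q (pr (cRl r) (consN y (consN z (consN w 0)))) x ↔
      Q.rl 3 (r : Fin 9) ![x y, x z, x w] := by
  have h := Vx_rl Q r 0 1 2 (consN y (consN z (consN w 0))) x
  have h1 : Lk (consN y (consN z (consN w 0))) 1 = z := by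
    rw [show (1 : ℕ) = 0 + 1 from rfl, Lk_cons_succ, Lk_cons_zero]
  have h2 : Lk (consN y (consN z (consN w 0))) 2 = w := by
    rw [show (2 : ℕ) = 0 + 1 + 1 from rfl, Lk_cons_succ, Lk_cons_succ, Lk_cons_zero]
  rw [Lk_cons_zero, h1, h2] at h
  exact h

section
variable (S : Str Lar) [PiC S]

/-- Pairs below a standard number are standard. -/
theorem std_pr {n : ℕ} {x y : S.M} (h : S.lt (prS S x y) (nmS S n)) :
    ∃ a b : ℕ, x = nmS S a ∧ y = nmS S b ∧ pr a b < n := by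
  obtain ⟨k, hk, hx⟩ := lt_nmS S n _ h
  obtain ⟨a, _, rfl⟩ := le_nmS S k x (by rw [← hx]; exact le_prS_left S x y)
  obtain ⟨b, _, rfl⟩ := le_nmS S k y (by rw [← hx]; exact le_prS_right S _ y)
  rw [nmS_prS] at hx
  exact ⟨a, b, rfl, rfl, by rw [nmS_inj S hx]; exact hk⟩

theorem le_sc' (x : S.M) : S.le x (S.sc x) := by
  have : x ≤ S.sc x := by rw [sc_eq]; exact (lt_add_one x).le
  exact this

/-- Elements below a standard number are standard. -/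
theorem std_le {x : S.M} {y : S.M} {n : ℕ} (h : S.le x y) (hy : y = nmS S n) :
    ∃ a : ℕ, x = nmS S a := by
  obtain ⟨a, _, ha⟩ := le_nmS S n x (by rw [← hy]; exact h)
  exact ⟨a, ha⟩

theorem std_prS {x y : S.M} {n : ℕ} (h : prS S x y = nmS S n) :
    (∃ a : ℕ, x = nmS S a) ∧ ∃ b : ℕ, y = nmS S b :=
  ⟨std_le S (le_prS_left S x y) h, std_le S (le_prS_right S x y) h⟩

theorem std_consS {x y : S.M} {n : ℕ} (h : consS S x y = nmS S n) :
    (∃ a : ℕ, x = nmS S a) ∧ ∃ b : ℕ, y = nmS S b := by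
  obtain ⟨k, hk⟩ := std_le S (le_sc' S (prS S x y)) h
  exact std_prS S hk

theorem std_dbl {x : S.M} {n : ℕ} (h : dbl S x = nmS S n) : ∃ a : ℕ, x = nmS S a := by
  refine std_le S ?_ h
  have : x ≤ x + x := le_add_of_nonneg_left (PiC.zero_le' S x)
  exact this

theorem std_qd {x : S.M} {n : ℕ} (h : qd S x = nmS S n) : ∃ a : ℕ, x = nmS S a := by
  obtain ⟨k, hk⟩ := std_dbl S h
  exact std_dbl S hk

theorem std_sc {x : S.M} {n : ℕ} (h : S.sc x = nmS S n) : ∃ a : ℕ, x = nmS S a :=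
  std_le S (le_sc' S x) h

theorem std_kEq {x y : S.M} {n : ℕ} (h : kEq S x y = nmS S n) :
    (∃ a : ℕ, x = nmS S a) ∧ ∃ b : ℕ, y = nmS S b := by
  obtain ⟨k, hk⟩ := std_sc S h
  obtain ⟨l, hl⟩ := std_qd S hk
  exact std_prS S hl

theorem std_kImp {x y : S.M} {n : ℕ} (h : kImp S x y = nmS S n) :
    (∃ a : ℕ, x = nmS S a) ∧ ∃ b : ℕ, y = nmS S b := by
  obtain ⟨k, hk⟩ := std_sc S h
  obtain ⟨k, hk⟩ := std_sc S hk
  obtain ⟨k, hk⟩ := std_sc S hk
  obtain ⟨l, hl⟩ := std_qd S hk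
  exact std_prS S hl

theorem std_kAll {x : S.M} {n : ℕ} (h : kAll S x = nmS S n) : ∃ a : ℕ, x = nmS S a := by
  obtain ⟨k, hk⟩ := std_sc S h
  obtain ⟨k, hk⟩ := std_sc S hk
  obtain ⟨k, hk⟩ := std_sc S hk
  obtain ⟨k, hk⟩ := std_sc S hk
  exact std_qd S hk

theorem std_kRl {r : ℕ} {v : S.M} {n : ℕ} (h : kRl S r v = nmS S n) :
    ∃ a : ℕ, v = nmS S a := by
  obtain ⟨k, hk⟩ := std_sc S h
  obtain ⟨k, hk⟩ := std_sc S hk
  obtain ⟨l, hl⟩ := std_qd S hk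
  exact (std_prS S hl).2

theorem std_li1 {x : S.M} {n : ℕ} (h : li1 S x = nmS S n) : ∃ a : ℕ, x = nmS S a :=
  (std_consS S h).1

theorem std_li2 {x y : S.M} {n : ℕ} (h : li2 S x y = nmS S n) :
    (∃ a : ℕ, x = nmS S a) ∧ ∃ b : ℕ, y = nmS S b := by
  obtain ⟨h1, k, hk⟩ := std_consS S h
  exact ⟨h1, std_li1 S hk⟩

theorem std_li3 {x y z : S.M} {n : ℕ} (h : li3 S x y z = nmS S n) :
    (∃ a : ℕ, x = nmS S a) ∧ (∃ b : ℕ, y = nmS S b) ∧ ∃ c : ℕ, z = nmS S c := by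
  obtain ⟨h1, k, hk⟩ := std_consS S h
  exact ⟨h1, std_li2 S hk⟩

theorem std_iEq {x y : S.M} {n : ℕ} (h : S.lt (iEq S x y) (nmS S n)) :
    ∃ a b : ℕ, x = nmS S a ∧ y = nmS S b ∧ pr cEq (consN a (consN b 0)) < n := by
  obtain ⟨_, b, _, hb, _⟩ := std_pr S h
  obtain ⟨⟨a, rfl⟩, ⟨c, rfl⟩⟩ := std_li2 S hb
  rw [nmS_iEq] at h
  exact ⟨a, c, rfl, rfl, (nmS_lt_iff S _ _).1 h⟩

theorem std_iRl {r : ℕ} {x y z : S.M} {n : ℕ} (h : S.lt (iRl S r x y z) (nmS S n)) :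
    ∃ a b c : ℕ, x = nmS S a ∧ y = nmS S b ∧ z = nmS S c ∧
      pr (cRl r) (consN a (consN b (consN c 0))) < n := by
  obtain ⟨_, b, _, hb, _⟩ := std_pr S h
  obtain ⟨⟨a, rfl⟩, ⟨c, rfl⟩, ⟨d, rfl⟩⟩ := std_li3 S hb
  rw [nmS_iRl] at h
  exact ⟨a, c, d, rfl, rfl, rfl, (nmS_lt_iff S _ _).1 h⟩

end

section
variable {S : Str Lar} [PiC S] (hF : ∀ a ∈ piF, a.Holds S) {q : S.M → Prop} {Q : Str LA}
  (hq : ∀ u : ℕ, q (nmS S u) ↔ QS Q u) {lk : S.M → S.M → S.M → Prop}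
  (hlk : ∀ (s a : ℕ) y, lk (nmS S s) (nmS S a) y → y = nmS S (Lk s a))
include hF hq hlk

theorem std_cl (n : ℕ) : Cl S lk (Dq S q) (nmS S n) := by
  obtain ⟨x, hx, hL⟩ := std_val hF hq n
  constructor
  · -- bot
    intro s hs hD
    obtain ⟨a, b, ha, rfl, hk⟩ := std_pr S hs
    have hz : S.zr = nmS S 0 := rfl
    rw [hz] at hD
    obtain rfl : 0 = a := nmS_inj S ha
    rw [nmS_prS, hx _ hk, Vx_pr, dec_zero] at hD
    exact hD
  · -- imp
    intro f g s h1 h2 h3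
    obtain ⟨c, s, hc, rfl, k1⟩ := std_pr S h1
    obtain ⟨⟨f, rfl⟩, ⟨g, rfl⟩⟩ := std_kImp S hc
    rw [nmS_kImp, nmS_prS] at h1
    rw [nmS_prS] at h2 h3
    rw [nmS_kImp, nmS_prS, nmS_prS, nmS_prS, hx _ ((nmS_lt_iff S _ _).1 h1),
      hx _ ((nmS_lt_iff S _ _).1 h2), hx _ ((nmS_lt_iff S _ _).1 h3), Vx_imp]
  · -- all1
    intro f s y h1 h2 hD
    obtain ⟨c, s, hc, rfl, k1⟩ := std_pr S h1
    obtain ⟨f, rfl⟩ := std_kAll S hc
    obtain ⟨_, c', _, hc', _⟩ := std_pr S h2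
    obtain ⟨⟨y, rfl⟩, -⟩ := std_consS S hc'
    rw [nmS_kAll, nmS_prS] at h1 hD
    rw [nmS_consS, nmS_prS] at h2 ⊢
    rw [hx _ ((nmS_lt_iff S _ _).1 h1), Vx_all] at hD
    rw [hx _ ((nmS_lt_iff S _ _).1 h2), Vx_cons]
    exact hD _
  · -- all2
    intro f s h1 h2 hD
    obtain ⟨c, s, hc, rfl, k1⟩ := std_pr S h1
    obtain ⟨f, rfl⟩ := std_kAll S hc
    rw [nmS_kAll, nmS_prS] at h1 h2 hD ⊢
    rw [nmS_consS, nmS_prS] at h2 hD
    have l1 := (nmS_lt_iff S _ _).1 h1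
    have l2 := (nmS_lt_iff S _ _).1 h2
    rw [hx _ l2, Vx_cons] at hD
    by_contra hn
    obtain ⟨hn1, -⟩ := (hL _ l1).2 hn
    rw [up1_pr, up2_pr] at hn1
    refine hn1 ⟨by omega, by omega⟩ ?_
    rw [show (4 * f + 4) / 4 - 1 = f by omega]
    exact hD
  · -- eq
    intro a b s y z hy hz h1 h2
    obtain ⟨c, s, hc, rfl, k1⟩ := std_pr S h1
    obtain ⟨⟨a', ha⟩, ⟨b', hb⟩⟩ := std_kEq S hc
    obtain ⟨a, rfl⟩ := std_dbl S ha
    obtain ⟨b, rfl⟩ := std_dbl S hb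
    obtain rfl := hlk s a y hy
    obtain rfl := hlk s b z hz
    rw [nmS_dbl, nmS_dbl, nmS_kEq, nmS_prS] at h1
    rw [nmS_iEq] at h2
    rw [nmS_dbl, nmS_dbl, nmS_kEq, nmS_prS, nmS_iEq, hx _ ((nmS_lt_iff S _ _).1 h1),
      hx _ ((nmS_lt_iff S _ _).1 h2), Vx_eq, Vx_iEq]
  · -- rl
    intro r a b c s y z w hy hz hw h1 h2
    obtain ⟨c0, s, hc, rfl, k1⟩ := std_pr S h1
    obtain ⟨v, hv⟩ := std_kRl S hc
    obtain ⟨⟨a', ha⟩, ⟨b', hb⟩, ⟨c', hc'⟩⟩ := std_li3 S hv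
    obtain ⟨a, rfl⟩ := std_dbl S ha
    obtain ⟨b, rfl⟩ := std_dbl S hb
    obtain ⟨c, rfl⟩ := std_dbl S hc'
    obtain rfl := hlk s a y hy
    obtain rfl := hlk s b z hz
    obtain rfl := hlk s c w hw
    rw [nmS_dbl, nmS_dbl, nmS_dbl, nmS_li3, nmS_kRl, nmS_prS] at h1
    rw [nmS_iRl] at h2
    rw [nmS_dbl, nmS_dbl, nmS_dbl, nmS_li3, nmS_kRl, nmS_prS, nmS_iRl,
      hx _ ((nmS_lt_iff S _ _).1 h1), hx _ ((nmS_lt_iff S _ _).1 h2), Vx_rl, Vx_iRl]
  · -- refl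
    intro y h
    obtain ⟨a, b, rfl, -, -⟩ := std_iEq S h
    rw [nmS_iEq] at h ⊢
    rw [hx _ ((nmS_lt_iff S _ _).1 h), Vx_iEq]
  · -- eucl
    intro y z w h1 h2 h3 d1 d2
    obtain ⟨a, b, rfl, rfl, -⟩ := std_iEq S h1
    obtain ⟨a', c, ha, rfl, -⟩ := std_iEq S h2
    rw [nmS_iEq] at h1 h2 h3 d1 d2 ⊢
    rw [hx _ ((nmS_lt_iff S _ _).1 h1), Vx_iEq] at d1
    rw [hx _ ((nmS_lt_iff S _ _).1 h2), Vx_iEq] at d2
    rw [hx _ ((nmS_lt_iff S _ _).1 h3), Vx_iEq]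
    exact d1.symm.trans d2
  · -- cong
    intro r y z w y' z' w' h1 h2 h3 h4 h5 d1 d2 d3 d4
    obtain ⟨a, b, c, rfl, rfl, rfl, -⟩ := std_iRl S h1
    obtain ⟨a', b', c', rfl, rfl, rfl, -⟩ := std_iRl S h5
    rw [nmS_iRl] at h1 h5 d1 ⊢
    rw [nmS_iEq] at h2 h3 h4 d2 d3 d4
    rw [hx _ ((nmS_lt_iff S _ _).1 h1), Vx_iRl] at d1
    rw [hx _ ((nmS_lt_iff S _ _).1 h2), Vx_iEq] at d2
    rw [hx _ ((nmS_lt_iff S _ _).1 h3), Vx_iEq] at d3
    rw [hx _ ((nmS_lt_iff S _ _).1 h4), Vx_iEq] at d4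
    rw [hx _ ((nmS_lt_iff S _ _).1 h5), Vx_iRl, ← d2, ← d3, ← d4]
    exact d1

end

end Pool.Agent.MP81222b
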