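import Pool.Agent.Lib.MP_81222b_lc.Dec
import Pool.Agent.Lib.MP_81222b_lc.Stdix
import Pool.Agent.Lib.MP_81222b_lc.ThQ
import Pool.Agent.Lib.MP_81222b_lc.HenkinT

/-!
# The encoding has the shape required for coding, in both cases
-/

namespace Pool.Agent.MP81222b

/-! ### Axioms -/

/-- The number `(4 ^ (i + 1) - 1) / 3` is a string of length `i`. -/
def axV1 : PiAx where
  P := fun R e => P4 R (R.sc (e 0)) (e 1) → R.sc (R.ad (e 2) (dbl R (e 2))) = e 1 →
    LenS R (e 2) (e 0)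
  bdef := inferInstance
  nat := fun e h1 h2 => by
    have h1' : e 1 = 4 ^ (e 0 + 1) := (nat_P4 _ _).1 h1
    have h2' : e 2 + (e 2 + e 2) + 1 = e 1 := h2
    rw [h1', pow_succ] at h2'
    rw [nat_LenS]
    have := four_pow_pos (e 0)
    omega

/-- Existence of `(m - 1) / 3` for powers of four. -/
def axV2 : PiAx where
  P := fun R e => P4 R (R.sc (e 0)) (e 1) → ∃ s, R.le s (e 1) ∧
    R.sc (R.ad s (dbl R s)) = e 1
  bdef := inferInstance
  nat := fun e h1 => by
    have h1' : e 1 = 4 ^ (e 0 + 1) := (nat_P4 _ _).1 h1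
    have h3 : ∃ s : ℕ, s ≤ 4 ^ (e 0 + 1) ∧ s + (s + s) + 1 = 4 ^ (e 0 + 1) := by
      generalize e 0 + 1 = k
      induction k with
      | zero => exact ⟨0, by norm_num, by norm_num⟩
      | succ k ih =>
        obtain ⟨s, h4, h5⟩ := ih
        exact ⟨4 * s + 1, by rw [pow_succ]; omega, by rw [pow_succ]; omega⟩
    obtain ⟨s, h4, h5⟩ := h3
    rw [← h1'] at h4 h5
    exact ⟨s, h4, h5⟩

/-- Coherence of the strings `(4 ^ (i + 1) - 1) / 3`. Variables: `i m₁ s j m₂ t k m`. -/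
def axV3 : PiAx where
  P := fun R e => P4 R (R.sc (e 0)) (e 1) → R.sc (R.ad (e 2) (dbl R (e 2))) = e 1 →
    P4 R (R.sc (e 3)) (e 4) → R.sc (R.ad (e 5) (dbl R (e 5))) = e 4 → R.lt (e 0) (e 3) →
    R.ad (e 0) (e 6) = e 3 → P4 R (e 6) (e 7) →
    (R.lt (R.ml (e 2) (e 7)) (e 5) ∧ R.lt (e 5) (R.ml (R.sc (e 2)) (e 7)))
  bdef := inferInstance
  nat := fun e h1 h2 h3 h4 h5 h6 h7 => by
    have h1' : e 1 = 4 ^ (e 0 + 1) := (nat_P4 _ _).1 h1
    have h2' : e 2 + (e 2 + e 2) + 1 = e 1 := h2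
    have h3' : e 4 = 4 ^ (e 3 + 1) := (nat_P4 _ _).1 h3
    have h4' : e 5 + (e 5 + e 5) + 1 = e 4 := h4
    have h5' : e 0 < e 3 := h5
    have h6' : e 0 + e 6 = e 3 := h6
    have h7' : e 7 = 4 ^ e 6 := (nat_P4 _ _).1 h7
    have h8 : 4 ^ (e 3 + 1) = 4 ^ (e 0 + 1) * 4 ^ e 6 := by
      rw [← h6', ← pow_add]; congr 1; omega
    have h9 : 4 ≤ 4 ^ e 6 := by
      calc 4 = 4 ^ 1 := by norm_num
        _ ≤ 4 ^ e 6 := Nat.pow_le_pow_right (by norm_num) (by omega)
    have h10 : e 4 = e 1 * e 7 := by rw [h3', h1', h7', h8]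
    show e 2 * e 7 < e 5 ∧ e 5 < (e 2 + 1) * e 7
    rw [← h7'] at h9
    have h11 : e 5 + (e 5 + e 5) + 1 = (e 2 + (e 2 + e 2) + 1) * e 7 := by
      rw [h4', h10, h2']
    constructor <;> nlinarith

/-- `x` is at most the square of `e2 x`. -/
def axV4 : PiAx where
  P := fun R e => R.le (e 0) (R.ml (e2 R (e 0)) (e2 R (e 0)))
  bdef := inferInstance
  nat := fun e => by
    show e 0 ≤ e2 natS (e 0) * e2 natS (e 0)
    rw [nat_e2]
    have h1 := Nat.lt_size_self (e 0)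
    nlinarith

theorem growV {c : ℕ} (h : 20 ≤ c) : 75 * c ^ 2 + 2 ≤ 2 ^ (c - 1) := by
  obtain ⟨k, rfl⟩ := Nat.exists_eq_add_of_le h
  clear h
  induction k with
  | zero => norm_num
  | succ k ih =>
    have e1 : 20 + (k + 1) - 1 = (20 + k - 1) + 1 := by omega
    rw [e1, pow_succ 2 (20 + k - 1)]
    have h3 : ∀ t : ℕ, 20 ≤ t → (t + 1) ^ 2 ≤ 2 * t ^ 2 := by
      intro t ht
      nlinarith
    have h4 : (20 + (k + 1)) ^ 2 ≤ 2 * (20 + k) ^ 2 := h3 (20 + k) (by omega)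
    omega

theorem topN {L e c p s : ℕ} (h2 : 2 ^ (e - 1) ≤ L) (h1 : 2 ^ (c - 1) ≤ e) (h3 : p ≤ 2 * c)
    (hc : 20 ≤ c) (hs : s ≤ p) : 2 * 4 ^ (2 * ((p + s) * (p + s) + p) + 1) < L := by
  have h5 : (p + s) * (p + s) ≤ (4 * c) * (4 * c) := Nat.mul_le_mul (by omega) (by omega)
  have h6 : 2 * (2 * ((p + s) * (p + s) + p) + 1) + 1 < e - 1 := by
    have := growV hc
    have h8 : 2 * (2 * ((p + s) * (p + s) + p) + 1) + 1 + 1 < e := by nlinarith
    omega
  have h7 : 2 * 4 ^ (2 * ((p + s) * (p + s) + p) + 1) =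
      2 ^ (2 * (2 * ((p + s) * (p + s) + p) + 1) + 1) := by
    generalize 2 * ((p + s) * (p + s) + p) + 1 = n
    rw [pow_succ, pow_mul, mul_comm]
    norm_num
  rw [h7]
  exact lt_of_lt_of_le (Nat.pow_lt_pow_right (by norm_num) h6) h2

theorem topN' {a s : ℕ} (hc : 20 ≤ a.size.size.size) (hs : s ≤ 2 ^ a.size.size.size.size) :
    2 * 4 ^ (2 * ((2 ^ a.size.size.size.size + s) * (2 ^ a.size.size.size.size + s) +
      2 ^ a.size.size.size.size) + 1) < a.size := by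
  generalize a.size = L at hc hs ⊢
  have he : 2 ^ (L.size.size - 1) ≤ L.size := Nat.lt_size.1 (by omega)
  have hp : 0 < 2 ^ (L.size.size - 1) := by positivity
  have hL : 2 ^ (L.size - 1) ≤ L := Nat.lt_size.1 (by omega)
  generalize L.size = e at hc hs he hL hp ⊢
  generalize hcd : e.size = c at hc hs he hp ⊢
  have h4 : 0 < c.size := Nat.size_pos.2 (by omega)
  have h5 : 2 ^ (c.size - 1) ≤ c := Nat.lt_size.1 (by omega)
  have h6 : 2 ^ c.size = 2 * 2 ^ (c.size - 1) := by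
    rw [← pow_succ']
    congr 1
    omega
  exact topN hL he (by omega) hc hs

theorem dbl_natS (x : ℕ) : (dbl natS x : ℕ) = 2 * x := (two_mul x).symm
theorem prS_natS (x y : ℕ) : (prS natS x y : ℕ) = (x + y) * (x + y) + x := rfl

/-- The size estimate for the coding. Variables: `a`, `s`. -/
def axV5 : PiAx where
  P := fun R e => R.le (nmS R 20) (l3 R (e 0)) → R.le (e 1) (e2 R (l3 R (e 0))) →
    (∃ m, R.le m (R.ln (e 0)) ∧ (P4 R (R.sc (dbl R (prS R (e2 R (l3 R (e 0))) (e 1)))) m ∧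
      R.lt (dbl R m) (R.ln (e 0)))) ∧
    (∃ m, R.le m (R.ln (e 0)) ∧ (P4 R (dbl R (e2 R (l3 R (e 0)))) m ∧
      R.lt (dbl R m) (R.ln (e 0))))
  bdef := inferInstance
  nat := fun e => by
    simp only [l3_natS, e2_natS, lt_natS, nm_natS, natS_le, natS_ln, natS_sc, dbl_natS, prS_natS,
      nat_P4]
    intro h1 h2
    have key := topN' h1 h2
    generalize (e 0).size.size.size.size = c at h2 key ⊢
    generalize (e 0).size = L at h1 key ⊢
    generalize e 1 = s at h2 key ⊢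
    have hle : 4 ^ (2 * 2 ^ c) ≤ 4 ^ (2 * ((2 ^ c + s) * (2 ^ c + s) + 2 ^ c) + 1) :=
      Nat.pow_le_pow_right (by norm_num) (by
        have : 0 ≤ (2 ^ c + s) * (2 ^ c + s) := Nat.zero_le _
        omega)
    generalize 4 ^ (2 * ((2 ^ c + s) * (2 ^ c + s) + 2 ^ c) + 1) = m at hle key ⊢
    generalize 4 ^ (2 * 2 ^ c) = n at hle ⊢
    exact ⟨⟨m, by omega, rfl, by omega⟩, ⟨n, by omega, rfl, by omega⟩⟩

/-- The axioms for module A3. -/
def piV : List PiAx := [axV1, axV2, axV3, axV4, axV5]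

/-! ### The dichotomy -/

section core
variable {piA : List PiAx} {θ θL : Fm Lar} {R : Str Lar} {J T : R.M → Prop}

theorem Cl.mono {S : Str Lar} [PiC S] {lk : S.M → S.M → S.M → Prop} {D : S.M → Prop} {i j : S.M}
    (h : Cl S lk D j) (hij : i ≤ j) : Cl S lk D i := by
  have hm : ∀ {x : S.M}, S.lt x i → S.lt x j := by
    intro x hx
    unfold Str.lt at hx ⊢
    rw [le_eq] at hx ⊢
    exact hx.trans hij
  exact
    { bot := fun s h1 => h.bot s (hm h1)
      imp := fun f g s h1 h2 h3 => h.imp f g s (hm h1) (hm h2) (hm h3)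
      all1 := fun f s x h1 h2 => h.all1 f s x (hm h1) (hm h2)
      all2 := fun f s h1 h2 => h.all2 f s (hm h1) (hm h2)
      eq := fun a b s x y h1 h2 h3 h4 => h.eq a b s x y h1 h2 (hm h3) (hm h4)
      rl := fun r a b c s x y z h1 h2 h3 h4 h5 => h.rl r a b c s x y z h1 h2 h3 (hm h4) (hm h5)
      refl := fun x h1 => h.refl x (hm h1)
      eucl := fun x y z h1 h2 h3 => h.eucl x y z (hm h1) (hm h2) (hm h3)
      cong := fun r x y z x' y' z' h1 h2 h3 h4 h5 =>
        h.cong r x y z x' y' z' (hm h1) (hm h2) (hm h3) (hm h4) (hm h5) }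

theorem nmS_sub {D : R.M → Prop} (hc : ClosedU R D) (n : ℕ) :
    (nmS (R.sub D hc) n).1 = nmS R n := by
  induction n with
  | zero => exact subQ_zr hc
  | succ n ih =>
    show ((R.sub D hc).sc (nmS (R.sub D hc) n)).1 = R.sc (nmS R n)
    rw [subQ_sc, ih]

/-- Values of represented functions inside the cut. -/
theorem satD_rep (h : PropA piA θL R J) {χ : Fm Lar} {F : ℕ → ℕ}
    (hχ : ∀ (S : Str Lar) [PiC S] (n : ℕ) (y : S.M),
      χ.Sat S (cn y (fun _ => nmS S n)) ↔ y = nmS S (F n)) (n : ℕ) (y : R.M) (hy : J y) :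
    χ.SatD R J (cn y (fun _ => nmS R n)) ↔ y = nmS R (F n) := by
  have := h.pic
  have := PiC.sub h.cl h.init
  have h1 := Fm.sat_substr R J h.cl χ
    (cn (⟨y, hy⟩ : (R.sub J h.cl).M) (fun _ => nmS (R.sub J h.cl) n))
  rw [sub_coe_cn] at h1
  simp only [nmS_sub h.cl] at h1
  rw [← h1, hχ (R.sub J h.cl) n]
  rw [← nmS_sub h.cl (F n)]
  exact Subtype.ext_iff

theorem lkJ_std (h : PropA piA θL R J)
    (hL : ∀ (S : Str Lar) [PiC S] (n : ℕ) (y : S.M),
      θL.Sat S (cn y (fun _ => nmS S n)) ↔ y = nmS S (Lk (up1 n) (up2 n)))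
    (s a : ℕ) (y : R.M) (hy : LkJ θL R J (nmS R s) (nmS R a) y) : y = nmS R (Lk s a) := by
  have := h.pic
  obtain ⟨_, _, hJy, hs⟩ := hy
  rw [nmS_prS] at hs
  have := (satD_rep h hL (pr s a) y hJy).1 hs
  rw [up1_pr, up2_pr] at this
  exact this

variable (h : PropA piA θL R J) (hF : ∀ a ∈ piF, a.Holds R)
include h hF

theorem Jtwo_init {x y : R.M} (hy : Jtwo θ θL R J T y) (hxy : R.le x y) :
    Jtwo θ θL R J T x := by
  have := h.pic
  obtain ⟨h1, ⟨s, h2, h3⟩, h4⟩ := hy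
  obtain ⟨k, hk⟩ := PiC.sub' R hxy
  obtain ⟨s', m, h5, h6, _⟩ := grd_prefix' hF h2 h3 hk
  exact ⟨h.init _ _ h1 hxy, ⟨s', h5, h6⟩, h4.mono hxy⟩

variable {Q : Str LA} (hq : ∀ u : ℕ, qK θ R J T (nmS R u) ↔ QS Q u)
    (hL : ∀ (S : Str Lar) [PiC S] (n : ℕ) (y : S.M),
      θL.Sat S (cn y (fun _ => nmS S n)) ↔ y = nmS S (Lk (up1 n) (up2 n)))
include hq hL

theorem Jtwo_nm (n : ℕ) : Jtwo θ θL R J T (nmS R n) := by
  have := h.pic
  obtain ⟨s, h1, h2, _⟩ := std_grd hF hq n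
  exact ⟨J_nm h n, ⟨nmS R s, len_nmS.2 h1, h2⟩, std_cl hF hq (lkJ_std h hL) n⟩

omit hF hq hL h in
theorem Jtwo_sc (hmx : ¬ ∃ d, isMx θ θL R J T d) {x : R.M} (hx : Jtwo θ θL R J T x) :
    Jtwo θ θL R J T (R.sc x) := by
  by_contra hc
  exact hmx ⟨x, hx, hc⟩

omit hq hL in
theorem isMx_unique {d d' : R.M} (hd : isMx θ θL R J T d) (hd' : isMx θ θL R J T d') :
    d = d' := by
  have := h.pic
  have key : ∀ {d d' : R.M}, isMx θ θL R J T d → isMx θ θL R J T d' → ¬ d < d' := by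
    intro d d' hd hd' hlt
    refine hd.2 (Jtwo_init h hF hd'.1 ?_)
    rw [sc_eq, le_eq, add_one_le_iff']
    exact hlt
  rcases lt_trichotomy d d' with h1 | h1 | h1
  · exact absurd h1 (key hd hd')
  · exact h1
  · exact absurd h1 (key hd' hd)

theorem isMx_std {d : R.M} (hd : isMx θ θL R J T d) (n : ℕ) : R.lt (nmS R n) d := by
  have := h.pic
  by_contra hc
  have hle : R.le (R.sc d) (nmS R (n + 1)) := by
    show R.le (R.sc d) (R.sc (nmS R n))
    rcases PiC.total' R (R.sc (nmS R n)) d with h1 | h1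
    · exact absurd h1 hc
    · rw [sc_eq, sc_eq, le_eq]
      rw [sc_eq, le_eq] at h1
      by_contra h2
      push Not at h2
      have h3 : nmS R n < d := lt_of_add_lt_add_right h2
      exact hc (by
        unfold Str.lt
        rw [sc_eq, le_eq, add_one_le_iff']
        exact h3)
  exact hd.2 (Jtwo_init h hF (Jtwo_nm h hF hq hL (n + 1)) hle)

omit hF hq hL in
/-- Elements of the cut are below `e2 (l3 a)`. -/
theorem J_le_a0 (hQ : ∀ a ∈ piQ, a.Holds R) {a : R.M} (ha : Top R J a) {x : R.M} (hx : J x) :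
    R.le x (e2 R (l3 R a)) := by
  have := h.pic
  rcases PiC.total' R x (e2 R (l3 R a)) with hc | hc
  · exact hc
  exfalso
  have h1 : J (e2 R (l3 R a)) := h.init _ _ hx hc
  have hlt : R.le (l3 R a) (e2 R (l3 R a)) := by
    have h5 := (hQ axL3m (by simp [piQ]) (cn (l3 R a) (fun _ => a))).2.2.1
    have h6 : R.le (R.sc (l3 R a)) (e2 R (l3 R a)) := h5
    rw [sc_eq, le_eq, add_one_le_iff'] at h6
    exact h6.le
  exact ha.1 (J_l3 h (h.init _ _ h1 hlt))

omit hF hq hL in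
theorem J_ml {x y : R.M} (hx : J x) (hy : J y) : J (R.ml x y) :=
  h.cl.2 2 _ _ (fun i => by fin_cases i <;> assumption)
omit hF hq hL in
theorem J_e2 {x : R.M} (hx : J x) : J (e2 R x) :=
  h.cl.2 2 _ _ (fun i => by
    fin_cases i
    · exact J_sc h (J_zr h)
    · exact hx)

omit hF hq hL in
/-- Existence of powers of four in the cut. -/
theorem J_P4 (hV : ∀ a ∈ piV, a.Holds R) {k : R.M} (hk : J k) : ∃ m, J m ∧ P4 R k m := by
  obtain ⟨x, hx, hxk⟩ := propA_ln h k hk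
  exact ⟨R.ml (e2 R x) (e2 R x), J_ml h (J_e2 h hx) (J_e2 h hx), x,
    hV axV4 (by simp [piV]) (cn x (fun _ => x)), hxk, rfl⟩

omit hF hq hL in
theorem J_len {s i : R.M} (hi : J i) (hs : LenS R s i) : J s := by
  have := h.pic
  obtain ⟨m, _, ⟨x, _, hx, rfl⟩, hlt⟩ := hs
  have hx' : J x := h.exp x (by rw [hx]; exact hi)
  have hm : J (R.ml (e2 R x) (e2 R x)) := J_ml h (J_e2 h hx') (J_e2 h hx')
  refine h.init _ _ (J_ad h hm hm) ?_
  have h1 : R.le (R.sc s) (R.ad (R.ml (e2 R x) (e2 R x)) (R.ml (e2 R x) (e2 R x))) := hlt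
  rw [sc_eq, le_eq, add_one_le_iff'] at h1
  exact h1.le

omit hF hq hL in
theorem top_top (hV : ∀ a ∈ piV, a.Holds R) (hQ : ∀ a ∈ piQ, a.Holds R) {a s : R.M}
    (ha : Top R J a) (hs : J s) :
    (∃ y m, P4 R (R.sc (dbl R (prS R (e2 R (l3 R a)) s))) m ∧ R.lt (dbl R m) (R.ln (l3 R y))) ∧
    (∃ y m, P4 R (dbl R (e2 R (l3 R a))) m ∧ R.lt (dbl R m) (R.ln (l3 R y))) := by
  have := h.pic
  obtain ⟨y, hy⟩ := ha.2.2.1
  have h20 : R.le (nmS R 20) (l3 R a) := by
    rcases PiC.total' R (nmS R 20) (l3 R a) with h1 | h1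
    · exact h1
    · exact absurd (J_l3 h (h.init _ _ (J_nm h 20) h1)) ha.1
  have hsa : R.le s (e2 R (l3 R a)) := J_le_a0 h hQ ha hs
  obtain ⟨⟨m, _, h2, h3⟩, ⟨m', _, h4, h5⟩⟩ := hV axV5 (by simp [piV])
    (cn a (cn s (fun _ => a))) h20 hsa
  refine ⟨⟨y, m, h2, ?_⟩, ⟨y, m', h4, ?_⟩⟩
  · rw [hy]; exact h3
  · rw [hy]; exact h5

/-- The two cases of the encoding. -/
theorem vcore (hV : ∀ a ∈ piV, a.Holds R) (hQ : ∀ a ∈ piQ, a.Holds R) :
    (∃ a d s, Top R J a ∧ isMx θ θL R J T d ∧ LenS R s d ∧ Grd R (qK θ R J T) s ∧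
      (∀ n : ℕ, R.lt (nmS R n) d) ∧
      (∀ E, codE θ θL R J T E ↔ E = R.sc (dbl R (prS R (e2 R (l3 R a)) s))) ∧
      Shape R (R.sc (dbl R (prS R (e2 R (l3 R a)) s))) J (FamK θ θL R J T)) ∨
    ((¬ ∃ d, isMx θ θL R J T d) ∧ ∃ a, Top R J a ∧
      (∀ E, codE θ θL R J T E ↔ E = dbl R (e2 R (l3 R a))) ∧
      Shape R (dbl R (e2 R (l3 R a))) (Jtwo θ θL R J T) (FamK θ θL R J T)) := by
  have := h.pic
  obtain ⟨a, ha⟩ := h.top
  by_cases hmx : ∃ d, isMx θ θL R J T d
  · left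
    obtain ⟨d, hd⟩ := hmx
    obtain ⟨hJd, ⟨s, hs1, hs2⟩, _⟩ := hd.1
    have hJs : J s := J_len h hJd hs1
    refine ⟨a, d, s, ha, hd, hs1, hs2, isMx_std h hF hq hL hd, ?_, ?_⟩
    · intro E
      constructor
      · rintro (⟨a', d', s', ha', hd', hs1', hs2', rfl⟩ | ⟨hno, _⟩)
        · have e1 := isMx_unique h hF hd' hd
          subst e1
          rw [grd_unique hF hs1' hs1 hs2' hs2, top_unique hQ h ha' ha]
        · exact absurd ⟨d, hd⟩ hno
      · rintro rfl
        exact Or.inl ⟨a, d, s, ha, hd, hs1, hs2, rfl⟩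
    · have hFam : ∀ i t, FamK θ θL R J T i t ↔
          (J i ∧ ∃ m, P4 R (R.sc i) m ∧ R.sc (R.ad t (dbl R t)) = m) := by
        intro i t
        constructor
        · rintro (⟨_, h1, h2⟩ | ⟨hno, _⟩)
          · exact ⟨h1, h2⟩
          · exact absurd ⟨d, hd⟩ hno
        · rintro ⟨h1, h2⟩
          exact Or.inl ⟨⟨d, hd⟩, h1, h2⟩
      refine
        { init := fun x y hy hx => h.init x y hy hx
          zero := J_zr h
          succ := fun x hx => J_sc h hx
          bound := ?_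
          ex := ?_
          len := ?_
          coh := ?_
          top := (top_top h hV hQ ha hJs).1 }
      · intro x hx
        have h1 := J_le_a0 h hQ ha hx
        refine PiC.trans' R (show R.le x (e2 R (l3 R a)) from h1)
          (PiC.trans' R (le_prS_left R (e2 R (l3 R a)) s) ?_)
        rw [sc_eq, le_eq]
        generalize prS R (e2 R (l3 R a)) s = p
        show p ≤ p + p + 1
        exact (le_add_rightH p p).trans (le_add_rightH _ _)
      · intro i hi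
        obtain ⟨m, hm, hP⟩ := J_P4 h hV (J_sc h hi)
        obtain ⟨t, _, ht⟩ := hV axV2 (by simp [piV]) (cn i (cn m (fun _ => i))) hP
        exact ⟨t, (hFam i t).2 ⟨hi, m, hP, ht⟩⟩
      · intro i t ht
        obtain ⟨h1, m, h2, h3⟩ := (hFam i t).1 ht
        exact ⟨h1, hV axV1 (by simp [piV]) (cn i (cn m (cn t (fun _ => i)))) h2 h3⟩
      · intro i t j t' k m h1 h2 h3 h4 h5
        obtain ⟨_, m1, h6, h7⟩ := (hFam i t).1 h1
        obtain ⟨_, m2, h8, h9⟩ := (hFam j t').1 h2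
        exact hV axV3 (by simp [piV]) (cn i (cn m1 (cn t (cn j (cn m2 (cn t' (cn k
          (cn m (fun _ => i))))))))) h6 h7 h8 h9 h3 h4 h5
  · right
    refine ⟨hmx, a, ha, ?_, ?_⟩
    · intro E
      constructor
      · rintro (⟨a', d', s', ha', hd', _⟩ | ⟨_, a', ha', rfl⟩)
        · exact absurd ⟨d', hd'⟩ hmx
        · rw [top_unique hQ h ha' ha]
      · rintro rfl
        exact Or.inr ⟨hmx, a, ha, rfl⟩
    · have hFam : ∀ i t, FamK θ θL R J T i t ↔
          (Jtwo θ θL R J T i ∧ LenS R t i ∧ Grd R (qK θ R J T) t) := by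
        intro i t
        constructor
        · rintro (⟨hd, _⟩ | ⟨_, h1⟩)
          · exact absurd hd hmx
          · exact h1
        · intro h1
          exact Or.inr ⟨hmx, h1⟩
      refine
        { init := fun x y hy hx => Jtwo_init h hF hy hx
          zero := Jtwo_nm h hF hq hL 0
          succ := fun x hx => Jtwo_sc hmx hx
          bound := ?_
          ex := ?_
          len := ?_
          coh := ?_
          top := (top_top h hV hQ ha (J_zr h)).2 }
      · intro x hx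
        have h1 := J_le_a0 h hQ ha hx.1
        refine PiC.trans' R (show R.le x (e2 R (l3 R a)) from h1) ?_
        rw [le_eq]
        generalize e2 R (l3 R a) = p
        show p ≤ p + p
        exact le_add_rightH p p
      · intro i hi
        obtain ⟨s, hs1, hs2⟩ := hi.2.1
        exact ⟨s, (hFam i s).2 ⟨hi, hs1, hs2⟩⟩
      · intro i t ht
        obtain ⟨h1, h2, _⟩ := (hFam i t).1 ht
        exact ⟨h1, h2⟩
      · intro i t j t' k m h1 h2 h3 h4 h5
        obtain ⟨_, h6, h7⟩ := (hFam i t).1 h1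
        obtain ⟨_, h8, h9⟩ := (hFam j t').1 h2
        have h3' : i < j := by
          unfold Str.lt at h3
          rw [sc_eq, le_eq, add_one_le_iff'] at h3
          exact h3
        obtain ⟨t0, m0, h10, h11, h12, h13, h14, _⟩ := grd_prefix hF h8 h9 h3' h4
        have e1 : t0 = t := grd_unique hF h10 h6 h11 h7
        have e2 : m0 = m := P4_unique hF h12 h5
        subst e1
        subst e2
        constructor
        · unfold Str.lt
          rw [sc_eq, le_eq, add_one_le_iff', ml_eq]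
          exact h13
        · unfold Str.lt
          rw [sc_eq, le_eq, add_one_le_iff', ml_eq, sc_eq]
          exact h14

end core

/-! ### The query predicate at standard arguments -/

theorem mkLA_congr {R R' : Str Lar} {J : R.M → Prop} {J' : R'.M → Prop} (hR : R = R')
    (hJ : HEq J J') : mkLA R J = mkLA R' J' := by
  subst hR
  rw [eq_of_heq hJ]

theorem relLA_sub (R : Str Lar) (J D : R.M → Prop) (hc : ClosedU R D) (r : ℕ)
    (x y z : (R.sub D hc).M) :
    relLA (R.sub D hc) (fun x => J x.1) r x y z ↔ relLA R J r x.1 y.1 z.1 := by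
  unfold relLA
  split
  · rw [Subtype.ext_iff, subQ_zr]
  · rw [Subtype.ext_iff, subQ_sc]
  · rw [Subtype.ext_iff, subQ_hf]
  · rw [Subtype.ext_iff, subQ_ln]
  · rw [Subtype.ext_iff, subQ_ad]
  · rw [Subtype.ext_iff, subQ_ml]
  · rw [Subtype.ext_iff, subQ_sm]
  · rw [sub_le]
  · rfl

theorem mkLA_sub (R : Str Lar) (J D : R.M → Prop) (hc : ClosedU R D)
    (hc' : ClosedU (mkLA R J) D) :
    (mkLA R J).sub D hc' = mkLA (R.sub D hc) (fun x => J x.1) := by
  unfold mkLA Str.sub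
  congr 1
  · funext n f a
    exact (f : Fin 0).elim0
  · funext n r a
    by_cases hn : n = 3
    · subst hn
      exact propext (relLA_sub R J D hc _ (a 0) (a 1) (a 2)).symm
    · have : LA.Rl n = 0 := by
        show (match n with | 3 => 9 | _ => 0) = 0
        split
        · exact absurd rfl hn
        · rfl
      rw [this] at r
      exact r.elim0

theorem mkLA_sub' (R : Str Lar) (J D D' : R.M → Prop) (hDD : D = D')
    (hc' : ClosedU (mkLA R J) D) (hc : ClosedU R D') :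
    (mkLA R J).sub D hc' = mkLA (R.sub D' hc) (fun x => J x.1) := by
  subst hDD
  exact mkLA_sub R J D hc hc'

/-- The query predicate at standard arguments is the meaning of the query sentence. -/
theorem qK_std {piA : List PiAx} {θ θL : Fm Lar} {R : Str Lar} {J T : R.M → Prop}
    (h : PropA piA θL R J) (hc : ClosedU R (DomQ R J)) {D0 : Fm LA} (hD0 : D0.bd 1)
    (hD : ∀ x, DomD D0 (mkLA R J) x ↔ DomQ R J x) {g : Fm LA → ℕ} {Θ : ℕ → ℕ}
    (hΘ : ∀ u, Θ u = g (sig D0 u))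
    (hθ : ∀ (S : Str Lar) [PiC S] (n : ℕ) (y : S.M),
      θ.Sat S (cn y (fun _ => nmS S n)) ↔ y = nmS S (Θ n))
    (hT : ∀ σ : Fm LA, σ.Closed → (T (nmS R (g σ)) ↔ ∀ e, σ.Sat (mkLA R J) e)) (u : ℕ) :
    qK θ R J T (nmS R u) ↔ QS (mkLA (R.sub (DomQ R J) hc) (fun x => J x.1)) u := by
  have h1 : qK θ R J T (nmS R u) ↔ T (nmS R (Θ u)) := by
    constructor
    · rintro ⟨_, y, hJy, hTy, hs⟩
      rw [(satD_rep h hθ u y hJy).1 hs] at hTy
      exact hTy
    · intro ht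
      exact ⟨J_nm h u, _, J_nm h _, ht, (satD_rep h hθ u _ (J_nm h _)).2 rfl⟩
  rw [h1, hΘ, hT _ (sig_closed hD0 u)]
  have hex : ∃ x, DomD D0 (mkLA R J) x := by
    obtain ⟨x, hx⟩ := hc.1
    exact ⟨x, (hD x).2 hx⟩
  have hDD : DomD D0 (mkLA R J) = DomQ R J := funext fun x => propext (hD x)
  have h2 : ∀ e, (sig D0 u).Sat (mkLA R J) e ↔
      QS ((mkLA R J).sub (DomD D0 (mkLA R J)) (closedLA _ _ hex)) u := fun e =>
    sat_sig hD0 (mkLA R J) hex u e
  rw [mkLA_sub' R J _ _ hDD _ hc] at h2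
  constructor
  · intro H
    obtain ⟨x, _⟩ := hex
    exact (h2 (fun _ => x)).1 (H _)
  · intro H e
    exact (h2 e).2 H

end Pool.Agent.MP81222b
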