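import Pool.Agent.Lib.MP_81222b_lc.KI
import Pool.Agent.Lib.MP_81222b_lc.VCore
import Pool.Agent.Lib.MP_81222b_lc.UCoreE
import Pool.Agent.Lib.MP_81222b_lc.Seq
import Pool.Agent.Lib.MP_81222b_lc.Cuts
import Pool.Agent.Lib.MP_81222b_lc.Shape
import Pool.Agent.Lib.MP_81222b_lc.IndIso

/-!
# The decoded structure is a model of `A + TB`
-/

namespace Pool.Agent.MP81222b

/-! ### Two bounded facts -/

def axL3le : PiAx where
  P := fun S e => S.le (l3 S (e 0)) (e 0)
  bdef := inferInstance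
  nat := fun _ => ((sizeN_le _).trans (sizeN_le _)).trans (sizeN_le _)

def axP4le : PiAx where
  P := fun S e => P4 S (e 0) (e 1) → S.le (e 0) (e 1)
  bdef := inferInstance
  nat := fun e h => by
    have h' : (e 1 : ℕ) = 4 ^ (e 0) := (nat_P4 _ _).1 h
    show e 0 ≤ e 1
    rw [h']
    exact (Nat.lt_pow_self (by norm_num)).le

def piW : List PiAx := [axL3le, axP4le]

/-- The list of all bounded axioms. -/
def piAll : List PiAx := piC ++ seqAx ++ piH ++ piF ++ piG ++ piQ ++ piK ++ piV ++ piW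

theorem piAll_sub {l : List PiAx} {R : Str Lar} (hR : ∀ a ∈ piAll, a.Holds R)
    (h : ∀ a ∈ l, a ∈ piAll) : ∀ a ∈ l, a.Holds R := fun a ha => hR a (h a ha)

/-- `θ` represents the function `F`. -/
def Rp (θ : Fm Lar) (F : ℕ → ℕ) : Prop :=
  ∀ (S : Str Lar) [PiC S] (n : ℕ) (y : S.M),
    θ.Sat S (cn y (fun _ => nmS S n)) ↔ y = nmS S (F n)

section shapes
variable {R : Str Lar} [PiC R] {E : R.M} {C : R.M → Prop} {Fam : R.M → R.M → Prop}

theorem shape_small (_ : ∀ a ∈ piG, a.Holds R) (hF : ∀ a ∈ piF, a.Holds R)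
    (hW : ∀ a ∈ piW, a.Holds R) (h : Shape R E C Fam) {y : R.M} (hy : R.le (l3 R y) E) :
    XD R E Fam y := by
  obtain ⟨s, hs⟩ := h.ex _ h.zero
  obtain ⟨_, m, hm, _⟩ := h.top
  refine ⟨R.zr, s, E, m, hs, ?_, hm, ?_⟩
  · rw [ad_eq, zr_eq, zero_add]
  · have h1 : R.le E m := hW axP4le (by simp [piW]) (cn E (fun _ => m)) hm
    have h2 := (h.len _ _ hs).2
    have h3 : (1 : R.M) ≤ s := by
      have := len_ne_zero hF h2
      rw [← zero_add (1 : R.M), add_one_le_iff']
      exact lt_of_le_of_ne (PiC.zero_le' R s) (Ne.symm this)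
    have h4 : (0 : R.M) ≤ m := PiC.zero_le' R m
    have h5 : m ≤ s * m := le_mul_of_one_le_left h4 h3
    exact PiC.trans' R hy (PiC.trans' R h1 h5)

theorem shape_small' (hG : ∀ a ∈ piG, a.Holds R) (hF : ∀ a ∈ piF, a.Holds R)
    (hW : ∀ a ∈ piW, a.Holds R) (h : Shape R E C Fam) {y : R.M} (hy : R.le y E) :
    XD R E Fam y :=
  shape_small hG hF hW h (PiC.trans' R (hW axL3le (by simp [piW]) (fun _ => y)) hy)

end shapes

section core
variable {θ θL θh θn : Fm Lar} {D0 : Fm LA} {g : Fm LA → ℕ} {Θ h' : ℕ → ℕ}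

/-- For every model of `A + TB`, the coded number and cut have the right shape and the structure
decoded from the coding structure is a model of `A + TB`. -/
theorem core (hD0 : D0.bd 1)
    (hD : ∀ (R : Str Lar) (J : R.M → Prop) (x : R.M), DomD D0 (mkLA R J) x ↔ DomQ R J x)
    (hΘ : ∀ u, Θ u = g (sig D0 u)) (hθ : Rp θ Θ)
    (hθL : Rp θL (fun n => Lk (up1 n) (up2 n))) (hθh : Rp θh h')
    (hθn : Rp θn (fun n => (numf n).gn))
    (hg : ∀ σ : Fm LA, σ.Closed → σ.gn = h' (g σ)) {R : Str Lar} {J T : R.M → Prop}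
    (hA : PropA piAll θL R J)
    (hT : ∀ σ : Fm LA, σ.Closed → (T (nmS R (g σ)) ↔ ∀ e, σ.Sat (mkLA R J) e)) :
    ∃ E C, (∀ E', codE θ θL R J T E' ↔ E' = E) ∧ Shape R E C (FamK θ θL R J T) ∧
      ∀ hcl : ClosedU R (XD R E (FamK θ θL R J T)),
        ∃ h : (MI θh θn).Valid (R.sub _ hcl),
          Mod ((MI θh θn).ind _ h) (addTB {fA piAll θL} NI g) := by
  have := hA.pic
  have hF : ∀ a ∈ piF, a.Holds R := piAll_sub hA.ax (by intro a ha; simp only [piAll, List.mem_append]; tauto)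
  have hG : ∀ a ∈ piG, a.Holds R := piAll_sub hA.ax (by intro a ha; simp only [piAll, List.mem_append]; tauto)
  have hQ : ∀ a ∈ piQ, a.Holds R := piAll_sub hA.ax (by intro a ha; simp only [piAll, List.mem_append]; tauto)
  have hK : ∀ a ∈ piK, a.Holds R := piAll_sub hA.ax (by intro a ha; simp only [piAll, List.mem_append]; tauto)
  have hV : ∀ a ∈ piV, a.Holds R := piAll_sub hA.ax (by intro a ha; simp only [piAll, List.mem_append]; tauto)
  have hH : ∀ a ∈ piH, a.Holds R := piAll_sub hA.ax (by intro a ha; simp only [piAll, List.mem_append]; tauto)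
  have hW : ∀ a ∈ piW, a.Holds R := piAll_sub hA.ax (by intro a ha; simp only [piAll, List.mem_append]; tauto)
  obtain ⟨hcQ, hinQ, hAQ, hJQ, htQ⟩ := propA_Q hA hQ
  have hq := qK_std hA hcQ hD0 (hD R J) hΘ hθ hT
  have hσ := fun (σ : Fm LA) (hσ : σ.Closed) => std_sent hF hq σ hσ
  rcases vcore hA hF hq hθL hV hQ with ⟨a, d, s, ht, hmx, hlen, hgr, hd, hcod, hsh⟩ |
    ⟨hno, a, ht, hcod, hsh⟩
  · refine ⟨_, J, hcod, hsh, fun hcl => ?_⟩
    have hJd : J d := hmx.1.1
    have hJs : J s := J_len hA hJd hlen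
    have hsa : s ≤ e2 R (l3 R a) := J_le_a0 hA hQ ht hJs
    -- the number `E` is large
    have hE : ∀ x : R.M, x ≤ e2 R (l3 R a) →
        e2 R (l3 R a) + x ≤ R.sc (dbl R (prS R (e2 R (l3 R a)) s)) := by
      intro x hx
      have h1 : e2 R (l3 R a) ≤ prS R (e2 R (l3 R a)) s := le_prS_left R _ _
      have h2 : dbl R (prS R (e2 R (l3 R a)) s) =
        prS R (e2 R (l3 R a)) s + prS R (e2 R (l3 R a)) s := rfl
      rw [sc_eq, h2]
      exact (add_le_add h1 (hx.trans h1)).trans (le_add_of_nonneg_right (zero_le_one))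
    have h0 : ∀ x : R.M, (0 : R.M) ≤ x := fun x => PiC.zero_le' R x
    have H : OddH R J piAll θL _ (FamK θ θL R J T) _ hcl a s d (qK θ R J T) hcQ θh h' :=
      { hA := hA
        hK := hK
        hQ := hQ
        hF := hF
        hin := shape_init hG hsh
        hisE := shape_isE hG hsh hcl
        hCX := shape_CX hG hsh hcl
        hF1 := hsh.ex
        hF2 := fun i t hit => by
          obtain ⟨hi, hl⟩ := hsh.len _ _ hit
          have hJt : J t := J_len hA hi hl
          have hta : t ≤ e2 R (l3 R a) := J_le_a0 hA hQ ht hJt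
          refine ⟨hi, shape_small' hG hF hW hsh ?_⟩
          exact hta.trans ((le_add_of_nonneg_right (h0 0)).trans (hE 0 (h0 _)))
        hXQ := fun y hy => by
          rw [domQ_iff hQ hA ht] at hy
          obtain ⟨j, hj, hle⟩ := hy
          have hja : j ≤ e2 R (l3 R a) := J_le_a0 hA hQ ht hj
          exact shape_small hG hF hW hsh (PiC.trans' R hle (hE j hja))
        hXδ := shape_small' hG hF hW hsh
          (hsa.trans ((le_add_of_nonneg_right (h0 0)).trans (hE 0 (h0 _))))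
        hXa := shape_small' hG hF hW hsh
          ((le_add_of_nonneg_right (h0 0)).trans (hE 0 (h0 _)))
        ht := ht
        hE := rfl
        hlen := hlen
        hg := hgr
        hd := hd
        hσ := fun σ hs => by
          have hs' := hσ σ hs
          constructor
          · intro h e; exact (hs' e).1 h
          · intro h
            obtain ⟨x0, hx0⟩ := hcQ.1
            exact (hs' (fun _ => ⟨x0, hx0⟩)).2 (h _)
        hθh := hθh }
    obtain ⟨hv, hTh⟩ := interpU_iso (MI θh θn) (S := R.sub _ hcl)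
      (P := fun S => domM S) (Q := fun r S => relM S r) (W := fun S => TM S θh θn)
      ⟨MI_D θh θn _, fun r a => MI_R3 θh θn _ r a, fun r a => MI_R1 θh θn _ r a⟩
      (mkLA (R.sub (DomQ R J) hcQ) (fun x => J x.1)) (fun x => TM (R.sub _ hcl) θh θn (H.em x))
      H.em (fun x y hxy => Subtype.ext (congrArg Subtype.val hxy : (H.em x).1 = (H.em y).1))
      (fun x => by
        rw [H.dom]
        constructor
        · intro hx; exact ⟨⟨x.1, hx⟩, rfl⟩
        · rintro ⟨b, rfl⟩; exact b.2)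
      (fun r x y z => by rw [H.rel, H.relLA]; exact Iff.rfl)
      (fun b => Iff.rfl)
    refine ⟨hv, (hTh _).1 ?_⟩
    refine (mod_addTB piAll θL (R.sub (DomQ R J) hcQ) (fun x => J x.1) _ g).2 ⟨hAQ, fun σ hs => ?_⟩
    exact H.tb σ hs (hg σ hs) _ (subQ_nm hcQ _)
  · refine ⟨_, _, hcod, hsh, fun hcl => ?_⟩
    have h0 : ∀ x : R.M, (0 : R.M) ≤ x := fun x => PiC.zero_le' R x
    have hE : e2 R (l3 R a) ≤ dbl R (e2 R (l3 R a)) := by
      have h2 : dbl R (e2 R (l3 R a)) = e2 R (l3 R a) + e2 R (l3 R a) := rfl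
      rw [h2]
      exact le_add_of_nonneg_right (h0 _)
    have hJX : ∀ x, J x → XD R (dbl R (e2 R (l3 R a))) (FamK θ θL R J T) x := by
      intro x hx
      have hxa : x ≤ e2 R (l3 R a) := J_le_a0 hA hQ ht hx
      exact shape_small' hG hF hW hsh (hxa.trans hE)
    have H : EvenH R J piAll θL _ (Jtwo θ θL R J T) (FamK θ θL R J T) _ hcl (e2 R (l3 R a))
        (qK θ R J T) :=
      { hA := hA
        hK := hK
        hH := hH
        hF := hF
        hin := shape_init hG hsh
        hisE := shape_isE hG hsh hcl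
        hCX := shape_CX hG hsh hcl
        hF1 := hsh.ex
        hF2 := fun i t hit => by
          obtain ⟨hi, hl⟩ := hsh.len _ _ hit
          exact ⟨hi, hJX _ (J_len hA hi.1 hl)⟩
        hF3 := fun i t hit => by
          rcases hit with ⟨hmx, _⟩ | ⟨_, _, h1, h2⟩
          · exact absurd hmx hno
          · exact ⟨h1, h2⟩
        hXC := fun i hi => hJX _ hi.1
        hXa := shape_small' hG hF hW hsh hE
        hE := rfl
        hCi := fun x y hy hle => Jtwo_init hA hF hy hle
        hC0 := hsh.zero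
        hC1 := fun x hx => Jtwo_sc hno hx
        hCJ := fun i hi => hi.1
        hCl := fun i hi => hi.2.2 }
    have hc := H.cano_ex
    obtain ⟨hv, hTh⟩ := interpU_iso (MI θh θn) (S := R.sub _ hcl)
      (P := fun S => domM S) (Q := fun r S => relM S r) (W := fun S => TM S θh θn)
      ⟨MI_D θh θn _, fun r a => MI_R3 θh θn _ r a, fun r a => MI_R1 θh θn _ r a⟩
      (HS (R.sub _ hcl) (CY (R.sub _ hcl)) (DY (R.sub _ hcl)) hc)
      (fun c => TM (R.sub _ hcl) θh θn c.1)
      (fun x => x.1) (fun x y hxy => Subtype.ext hxy)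
      (fun x => by
        rw [H.dom]
        constructor
        · intro hx; exact ⟨⟨x, hx⟩, rfl⟩
        · rintro ⟨b, rfl⟩; exact b.2)
      (fun r x y z => by rw [H.rel]; exact Iff.rfl)
      (fun b => Iff.rfl)
    refine ⟨hv, (hTh _).1 ?_⟩
    obtain ⟨x0, hx0⟩ := hc
    have hfA : (fA piAll θL).Sat (HS (R.sub _ hcl) (CY (R.sub _ hcl)) (DY (R.sub _ hcl)) ⟨x0, hx0⟩)
        (fun _ => ⟨x0, hx0⟩) := by
      rw [H.sent _ _ (fA_closed piAll θL)]
      obtain ⟨y0, hy0⟩ := hcQ.1
      refine (hσ _ (fA_closed piAll θL) (fun _ => ⟨y0, hy0⟩)).2 ?_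
      exact (sat_fA_mk piAll θL (R.sub (DomQ R J) hcQ) (fun x => J x.1) _).2 hAQ
    obtain ⟨R', J', hHS, hA'⟩ := (sat_fA piAll θL _ _).1 hfA
    have := hA'.pic
    obtain ⟨T', hT', hTB⟩ := H.final hθh hθn ⟨x0, hx0⟩ hHS hg
    rw [hT', mod_addTB]
    exact ⟨hA', hTB⟩

end core

end Pool.Agent.MP81222b
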