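import Pool.Agent.Lib.MP_81222b_lc.KM

/-!
# The decoded structure `M(Y)`: definitions over an arbitrary `Y : Str Lar`
-/

namespace Pool.Agent.MP81222b

section udefs
variable {t u v : (S : Str Lar) → (ℕ → S.M) → S.M}
instance [TDef t] [TDef u] : UDef (fun S e => P4 S (t S e) (u S e)) :=
  P4.bDef.uDef
instance [TDef t] : UDef (fun S e => Pw S (t S e)) := Pw.bDef.uDef
instance [TDef t] [TDef u] : UDef (fun S e => LenS S (t S e) (u S e)) :=
  LenS.bDef.uDef
instance [TDef t] [TDef u] : UDef (fun S e => Dig S (t S e) (u S e)) :=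
  Dig.bDef.uDef
instance (r : ℕ) [TDef t] [TDef u] [TDef v] : TDef (fun S e => iRl S r (t S e) (u S e) (v S e)) :=
  inferInstanceAs (TDef (fun S e =>
    prS S (nmS S (cRl r)) (li3 S (t S e) (u S e) (v S e))))
instance [TDef t] [TDef u] : TDef (fun S e => iEq S (t S e) (u S e)) :=
  inferInstanceAs (TDef (fun S e => prS S (nmS S cEq) (li2 S (t S e) (u S e))))
end udefs

section dec
variable (Y : Str Lar)
/-- The decoded cut. -/
def CY (i : Y.M) : Prop := ∃ s, CX Y i s
/-- The decoded decisions. -/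
def DY (k : Y.M) : Prop := ∃ i s, CX Y i s ∧ Y.lt k i ∧ Dig Y s k
/-- The coded number is `2 * pr a δ + 1`. -/
def oddY (a δ : Y.M) : Prop := isE Y (Y.sc (dbl Y (prS Y a δ)))
/-- The coded number is even. -/
def evenY : Prop := ∃ a, isE Y (dbl Y a)
/-- The domain of the decoded structure. -/
def domM (y : Y.M) : Prop :=
  (∃ a δ j, oddY Y a δ ∧ CY Y j ∧ Y.le (l3 Y y) (Y.ad a j)) ∨
    (evenY Y ∧ Cano Y (CY Y) (DY Y) y)
/-- The relations of the decoded structure. -/
def relM (r : ℕ) (x y z : Y.M) : Prop :=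
  ((∃ a δ, oddY Y a δ) ∧ relLA Y (CY Y) r x y z) ∨ (evenY Y ∧ DY Y (iRl Y r x y z))
/-- The truth predicate of the decoded structure; `θh` represents the translation of Goedel
numbers, `θn` represents the codes of the formulas `numf n`. -/
def TM (θh θn : Fm Lar) (c : Y.M) : Prop :=
  (∃ a δ m, oddY Y a δ ∧ CY Y c ∧ θh.Sat Y (cn m (fun _ => c)) ∧ Dig Y δ (prS Y m Y.zr)) ∨
  (evenY Y ∧ ∃ n y m, θn.Sat Y (cn y (fun _ => n)) ∧ DY Y (prS Y y (li1 Y c)) ∧
    (∀ n' y', Y.lt n' n → θn.Sat Y (cn y' (fun _ => n')) → ¬ DY Y (prS Y y' (li1 Y c))) ∧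
    θh.Sat Y (cn m (fun _ => n)) ∧ DY Y (prS Y m Y.zr))
end dec

section udefs2
variable {t u v : (S : Str Lar) → (ℕ → S.M) → S.M}

theorem sat.u2 (θ : Fm Lar) : UDef (fun S e => θ.Sat S (cn (e 0) (fun _ => e 1))) := by
  refine ⟨θ.ren (fun i => match i with
    | 0 => 0
    | _ + 1 => 1), fun S e => ?_⟩
  have e1 : (fun i => e (match i with
    | 0 => 0
    | _ + 1 => 1)) = cn (e 0) (fun _ => e 1) := by
    funext i; cases i <;> rfl
  rw [sat_ren, e1]
instance sat.ud (θ : Fm Lar) [TDef t] [TDef u] :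
    UDef (fun S e => θ.Sat S (cn (t S e) (fun _ => u S e))) :=
  UDef.app2 (P := fun S x y => θ.Sat S (cn x (fun _ => y))) (sat.u2 θ) t u

theorem WY.u0 : UDef (fun S e => WY S (e 0)) := by unfold WY; infer_instance
instance WY.ud [TDef t] : UDef (fun S e => WY S (t S e)) := WY.u0.app1 t
theorem isE.u0 : UDef (fun S e => isE S (e 0)) := by unfold isE; infer_instance
instance isE.ud [TDef t] : UDef (fun S e => isE S (t S e)) := isE.u0.app1 t
theorem CX.u0 : UDef (fun S e => CX S (e 0) (e 1)) := by unfold CX; infer_instance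
instance CX.ud [TDef t] [TDef u] : UDef (fun S e => CX S (t S e) (u S e)) := CX.u0.app2 t u
theorem CY.u0 : UDef (fun S e => CY S (e 0)) := by unfold CY; infer_instance
instance CY.ud [TDef t] : UDef (fun S e => CY S (t S e)) := CY.u0.app1 t
theorem DY.u0 : UDef (fun S e => DY S (e 0)) := by unfold DY; infer_instance
instance DY.ud [TDef t] : UDef (fun S e => DY S (t S e)) := DY.u0.app1 t
theorem oddY.u0 : UDef (fun S e => oddY S (e 0) (e 1)) := by unfold oddY; infer_instance
instance oddY.ud [TDef t] [TDef u] : UDef (fun S e => oddY S (t S e) (u S e)) :=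
  oddY.u0.app2 t u
instance evenY.ud : UDef (fun S _ => evenY S) := by unfold evenY; infer_instance
theorem J3Y.u0 : UDef (fun S e => J3 S (CY S) (e 0)) := by unfold J3; infer_instance
instance J3Y.ud [TDef t] : UDef (fun S e => J3 S (CY S) (t S e)) :=
  UDef.app1 (P := fun S x => J3 S (CY S) x) J3Y.u0 t
theorem J4Y.u0 : UDef (fun S e => J4 S (CY S) (e 0)) := by unfold J4; infer_instance
instance J4Y.ud [TDef t] : UDef (fun S e => J4 S (CY S) (t S e)) :=
  UDef.app1 (P := fun S x => J4 S (CY S) x) J4Y.u0 t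
theorem CanoY.u0 : UDef (fun S e => Cano S (CY S) (DY S) (e 0)) := by unfold Cano; infer_instance
instance CanoY.ud [TDef t] : UDef (fun S e => Cano S (CY S) (DY S) (t S e)) :=
  UDef.app1 (P := fun S x => Cano S (CY S) (DY S) x) CanoY.u0 t
theorem domM.u0 : UDef (fun S e => domM S (e 0)) := by unfold domM; infer_instance
theorem relLAY.u0 (r : ℕ) : UDef (fun S e => relLA S (CY S) r (e 0) (e 1) (e 2)) := by
  unfold relLA
  split <;> infer_instance
theorem relM.u0 (r : ℕ) : UDef (fun S e => relM S r (e 0) (e 1) (e 2)) := by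
  unfold relM
  have := relLAY.u0 r
  infer_instance
theorem TM.u0 (θh θn : Fm Lar) : UDef (fun S e => TM S θh θn (e 0)) := by
  unfold TM; infer_instance
end udefs2

end Pool.Agent.MP81222b
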