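import Pool.Agent.Lib.MP_81222b_lc.Fol

/-!
# Definitions for the statement: `S^1_2`, relative interpretations, sequential theories, `TB`
-/

namespace Pool.Agent.MP81222b

variable {L : Lang}

/-! ### The language and theory `S^1_2` of Buss -/

/-- The signature of `S^1_2`: constant `0`; unary `S`, half, length; binary `+`, `*`, smash;
binary relation `≤`. -/
def Lar : Lang where
  Fn := fun n => match n with
    | 0 => 1
    | 1 => 3
    | 2 => 3
    | _ => 0
  Rl := fun n => match n with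
    | 2 => 1
    | _ => 0

def tZ : Tm Lar := .fn 0 (⟨0, Nat.one_pos⟩ : Fin 1) ![]
def tS (t : Tm Lar) : Tm Lar := .fn 1 (⟨0, by decide⟩ : Fin 3) ![t]
def tH (t : Tm Lar) : Tm Lar := .fn 1 (⟨1, by decide⟩ : Fin 3) ![t]
def tN (t : Tm Lar) : Tm Lar := .fn 1 (⟨2, by decide⟩ : Fin 3) ![t]
def tA (t u : Tm Lar) : Tm Lar := .fn 2 (⟨0, by decide⟩ : Fin 3) ![t, u]
def tM (t u : Tm Lar) : Tm Lar := .fn 2 (⟨1, by decide⟩ : Fin 3) ![t, u]
def tP (t u : Tm Lar) : Tm Lar := .fn 2 (⟨2, by decide⟩ : Fin 3) ![t, u]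
def fLe (t u : Tm Lar) : Fm Lar := .rl 2 (⟨0, by decide⟩ : Fin 1) ![t, u]
def fNe (t u : Tm Lar) : Fm Lar := .neg (.eq t u)

/-- Shift all variables of a term by one. -/
def Tm.up (t : Tm L) : Tm L := t.sub (fun i => .var (i + 1))

/-- The 32 axioms `BASIC` of Buss. -/
def basic : List (Fm Lar) :=
  let x : Tm Lar := .var 0
  let y : Tm Lar := .var 1
  let z : Tm Lar := .var 2
  let u : Tm Lar := .var 3
  let o : Tm Lar := tS tZ
  let w : Tm Lar := tS (tS tZ)
  [ .imp (fLe y x) (fLe y (tS x)),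
    fNe x (tS x),
    fLe tZ x,
    .iff (.and (fLe x y) (fNe x y)) (fLe (tS x) y),
    .imp (fNe x tZ) (fNe (tM w x) tZ),
    .or (fLe y x) (fLe x y),
    .imp (.and (fLe x y) (fLe y x)) (.eq x y),
    .imp (.and (fLe x y) (fLe y z)) (fLe x z),
    .eq (tN tZ) tZ,
    .imp (fNe x tZ) (.and (.eq (tN (tM w x)) (tS (tN x))) (.eq (tN (tS (tM w x))) (tS (tN x)))),
    .eq (tN o) o,
    .imp (fLe x y) (fLe (tN x) (tN y)),
    .eq (tN (tP x y)) (tS (tM (tN x) (tN y))),
    .eq (tP tZ y) o,
    .imp (fNe x tZ) (.and (.eq (tP o (tM w x)) (tM w (tP o x)))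
      (.eq (tP o (tS (tM w x))) (tM w (tP o x)))),
    .eq (tP x y) (tP y x),
    .imp (.eq (tN x) (tN y)) (.eq (tP x z) (tP y z)),
    .imp (.eq (tN x) (tA (tN u) (tN z))) (.eq (tP x y) (tM (tP u y) (tP z y))),
    fLe x (tA x y),
    .imp (.and (fLe x y) (fNe x y)) (.and (fLe (tS (tM w x)) (tM w y)) (fNe (tS (tM w x)) (tM w y))),
    .eq (tA x y) (tA y x),
    .eq (tA x tZ) x,
    .eq (tA x (tS y)) (tS (tA x y)),
    .eq (tA (tA x y) z) (tA x (tA y z)),
    .iff (fLe (tA x y) (tA x z)) (fLe y z),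
    .eq (tM x tZ) tZ,
    .eq (tM x (tS y)) (tA (tM x y) x),
    .eq (tM x y) (tM y x),
    .eq (tM x (tA y z)) (tA (tM x y) (tM x z)),
    .imp (fLe o x) (.iff (fLe (tM x y) (tM x z)) (fLe y z)),
    .imp (fNe x tZ) (.eq (tN x) (tS (tN (tH x)))),
    .iff (.eq x (tH y)) (.or (.eq (tM w x) y) (.eq (tS (tM w x)) y)) ]

/-- Universal quantifier bounded by the term `t`. -/
def ball (t : Tm Lar) (f : Fm Lar) : Fm Lar := .all (.imp (fLe (.var 0) t.up) f)

/-- Sharply bounded formulas. -/
inductive Sharp : Fm Lar → Prop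
  | bot : Sharp .bot
  | eq (t u : Tm Lar) : Sharp (.eq t u)
  | rl (n : ℕ) (r : Fin (Lar.Rl n)) (ts : Fin n → Tm Lar) : Sharp (.rl n r ts)
  | imp (f g : Fm Lar) : Sharp f → Sharp g → Sharp (.imp f g)
  | sball (t : Tm Lar) (f : Fm Lar) : Sharp f → Sharp (ball (tN t) f)

/-- `BQ true` is the class of `Σ^b_1` formulas and `BQ false` the class of `Π^b_1` formulas
(in the connectives `⊥`, `→`, `∀`). -/
inductive BQ : Bool → Fm Lar → Prop
  | sharp (b : Bool) (f : Fm Lar) : Sharp f → BQ b f
  | imp (b : Bool) (f g : Fm Lar) : BQ (!b) f → BQ b g → BQ b (.imp f g)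
  | sball (b : Bool) (t : Tm Lar) (f : Fm Lar) : BQ b f → BQ b (ball (tN t) f)
  | ball (t : Tm Lar) (f : Fm Lar) : BQ false f → BQ false (ball t f)

/-- Polynomial induction for the formula `f` in the variable `0`. -/
def pind (f : Fm Lar) : Fm Lar :=
  .imp (f.sub (fun i => match i with
      | 0 => tZ
      | j + 1 => .var j))
    (.imp (.all (.imp (f.sub (fun i => match i with
      | 0 => tH (.var 0)
      | j + 1 => .var (j + 1))) f))
    (.all f))

/-- Buss's theory `S^1_2`: the universal closures of `BASIC` and of `Σ^b_1`-polynomial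
induction. -/
def S12 : Set (Fm Lar) :=
  {g | ∃ (k : ℕ) (f : Fm Lar), (f ∈ basic ∨ ∃ a, BQ true a ∧ f = pind a) ∧ f.bd k ∧
    g = Fm.alls k f}

/-! ### Relative interpretations -/

/-- A relative interpretation of the language `L₁` in the language `L₂` (one-dimensional, equality
translated by equality).  The formula `fn n f` has the value as variable `0` and the arguments as
variables `1, …, n`; the formula `rl n r` has the arguments as variables `0, …, n-1`. -/
structure Interp (L₁ L₂ : Lang) where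
  dom : Fm L₂
  fn : (n : ℕ) → Fin (L₁.Fn n) → Fm L₂
  rl : (n : ℕ) → Fin (L₁.Rl n) → Fm L₂
  dom_bd : dom.bd 1
  fn_bd : ∀ n f, (fn n f).bd (n + 1)
  rl_bd : ∀ n r, (rl n r).bd n

/-- The assignment given by a finite vector (extended arbitrarily). -/
noncomputable def xt (S : Str L) {n : ℕ} (a : Fin n → S.M) : ℕ → S.M :=
  fun i => if h : i < n then a ⟨i, h⟩ else Classical.choice S.inh

variable {L₁ L₂ : Lang}

/-- `x` lies in the domain of the interpretation. -/
def Interp.D (I : Interp L₁ L₂) (S : Str L₂) (x : S.M) : Prop := I.dom.Sat S (fun _ => x)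

/-- `y` is a value of the interpreted function symbol `f` at `a`. -/
def Interp.F (I : Interp L₁ L₂) (S : Str L₂) (n : ℕ) (f : Fin (L₁.Fn n)) (a : Fin n → S.M)
    (y : S.M) : Prop := (I.fn n f).Sat S (cn y (xt S a))

/-- `a` satisfies the interpreted relation symbol `r`. -/
def Interp.R (I : Interp L₁ L₂) (S : Str L₂) (n : ℕ) (r : Fin (L₁.Rl n)) (a : Fin n → S.M) :
    Prop := (I.rl n r).Sat S (xt S a)

/-- The interpretation defines a structure inside `S`: the domain is non-empty and the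
interpreted function symbols are functions on it. -/
def Interp.Valid (I : Interp L₁ L₂) (S : Str L₂) : Prop :=
  (∃ x, I.D S x) ∧
    ∀ (n : ℕ) (f : Fin (L₁.Fn n)) (a : Fin n → S.M), (∀ i, I.D S (a i)) →
      ∃! y, I.D S y ∧ I.F S n f a y

/-- The structure defined by a valid interpretation. -/
noncomputable def Interp.ind (I : Interp L₁ L₂) (S : Str L₂) (h : I.Valid S) : Str L₁ where
  M := {x : S.M // I.D S x}
  inh := ⟨⟨h.1.choose, h.1.choose_spec⟩⟩
  fn := fun n f a =>
    ⟨(h.2 n f (fun i => (a i).1) (fun i => (a i).2)).choose,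
      (h.2 n f (fun i => (a i).1) (fun i => (a i).2)).choose_spec.1.1⟩
  rl := fun n r a => I.R S n r (fun i => (a i).1)

/-- `I` interprets the theory `T₁` in the theory `T₂`: in every model of `T₂` the interpretation
`I` is valid and defines a model of `T₁`. -/
def Interp.Interprets (I : Interp L₁ L₂) (T₂ : Set (Fm L₂)) (T₁ : Set (Fm L₁)) : Prop :=
  ∀ S : Str L₂, Mod S T₂ → ∃ h : I.Valid S, Mod (I.ind S h) T₁

/-- The theory `T₂` interprets the theory `T₁`. -/
def Intp (T₂ : Set (Fm L₂)) (T₁ : Set (Fm L₁)) : Prop :=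
  ∃ I : Interp L₁ L₂, I.Interprets T₂ T₁

/-- The theories are mutually interpretable. -/
def MutInt (T₁ : Set (Fm L₁)) (T₂ : Set (Fm L₂)) : Prop := Intp T₂ T₁ ∧ Intp T₁ T₂

/-- A finite signature. -/
def Lang.FinSig (L : Lang) : Prop := ∃ K, ∀ n, K ≤ n → L.Fn n = 0 ∧ L.Rl n = 0

/-- The theory is sequential: it directly interprets adjunctive set theory, by a one-dimensional
identity preserving interpretation whose domain is the whole universe; that is, by a formula
`ε(x₀, x₁)` (`x₀` is an element of `x₁`). -/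
def Sequential (A : Set (Fm L)) : Prop :=
  ∃ ε : Fm L, ε.bd 2 ∧ ∀ S : Str L, Mod S A →
    (∃ x, ∀ y, ¬ ε.Sat S (cn y (fun _ => x))) ∧
    ∀ x y, ∃ z, ∀ w, ε.Sat S (cn w (fun _ => z)) ↔ (ε.Sat S (cn w (fun _ => y)) ∨ w = x)

/-! ### Goedel numbers and numerals -/

/-- A pairing function. -/
def pr (x y : ℕ) : ℕ := (x + y) * (x + y) + x

/-- Code of a vector of numbers. -/
def vc : (n : ℕ) → (Fin n → ℕ) → ℕ
  | 0, _ => 0
  | n + 1, v => pr (v 0) (vc n (fun i => v i.succ)) + 1

/-- Goedel number of a term. -/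
def Tm.gn : Tm L → ℕ
  | .var i => 2 * i
  | .fn n f ts => 2 * pr (pr n f) (vc n (fun i => (ts i).gn)) + 1

/-- Goedel number of a formula. -/
def Fm.gn : Fm L → ℕ
  | .bot => 0
  | .eq t u => 4 * pr t.gn u.gn + 1
  | .rl n r ts => 4 * pr (pr n r) (vc n (fun i => (ts i).gn)) + 2
  | .imp f g => 4 * pr f.gn g.gn + 3
  | .all f => 4 * f.gn + 4

/-- The efficient (binary) numerals. -/
def numeral : ℕ → Tm Lar
  | 0 => tZ
  | n + 1 => if (n + 1) % 2 = 0 then tM (tS (tS tZ)) (numeral ((n + 1) / 2))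
      else tS (tM (tS (tS tZ)) (numeral ((n + 1) / 2)))
  decreasing_by all_goals omega

/-- Finite conjunction. -/
def Fm.conj (n : ℕ) (g : Fin n → Fm L) : Fm L := (List.ofFn g).foldr Fm.and (.neg .bot)

/-- `n` existential quantifiers. -/
def Fm.exs : ℕ → Fm L → Fm L
  | 0, f => f
  | n + 1, f => .ex (Fm.exs n f)

/-- The translation of `x₀ = t` under an interpretation, where the variable `i` of the term `t`
becomes the variable `i + 1`. -/
def Interp.tm (I : Interp L₁ L₂) : Tm L₁ → Fm L₂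
  | .var i => .eq (.var 0) (.var (i + 1))
  | .fn n f ts => Fm.exs n (.and
      (Fm.conj n (fun i => .and (I.dom.sub (fun _ => .var i))
        ((I.tm (ts i)).sub (fun k => match k with
          | 0 => .var i
          | j + 1 => .var (n + 1 + j)))))
      ((I.fn n f).sub (fun k => match k with
        | 0 => .var n
        | j + 1 => .var j)))

/-! ### Tarski biconditionals -/

/-- The signature `L` expanded by a fresh unary relation symbol. -/
def Lang.addT (L : Lang) : Lang where
  Fn := L.Fn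
  Rl := fun n => match n with
    | 1 => L.Rl 1 + 1
    | n => L.Rl n

/-- Old relation symbols in the expanded signature. -/
def oldRl : (n : ℕ) → Fin (L.Rl n) → Fin (L.addT.Rl n)
  | 0, r => r
  | 1, r => (r.castSucc : Fin (L.Rl 1 + 1))
  | _ + 2, r => r

/-- The atomic formula `T(t)` in the expanded signature. -/
def fT (t : Tm L.addT) : Fm L.addT := .rl 1 (Fin.last (L.Rl 1) : Fin (L.Rl 1 + 1)) ![t]

/-- Terms of `L` as terms of the expanded signature. -/
def Tm.toT : Tm L → Tm L.addT
  | .var i => .var i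
  | .fn n f ts => .fn n f (fun i => (ts i).toT)

/-- Formulas of `L` as formulas of the expanded signature. -/
def Fm.toT : Fm L → Fm L.addT
  | .bot => .bot
  | .eq t u => .eq t.toT u.toT
  | .rl n r ts => .rl n (oldRl n r) (fun i => (ts i).toT)
  | .imp f g => .imp f.toT g.toT
  | .all f => .all f.toT

/-- The numbering `g` of formulas is effectively equivalent to the numbering `Fm.gn` (on
sentences). -/
def EffNum (g : Fm L → ℕ) : Prop :=
  ∃ h h' : ℕ → ℕ, Computable h ∧ Computable h' ∧ ∀ f : Fm L, f.Closed → g f = h f.gn ∧ f.gn = h' (g f)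

/-- The Tarski biconditional for the sentence `f`: for the `x` in the domain of `N` that is the
value of the `N`-translation of the efficient numeral of the Goedel number `g f` of `f`,
`T(x) ↔ f`. -/
def tbAx (N : Interp Lar L) (g : Fm L → ℕ) (f : Fm L) : Fm L.addT :=
  .all (.imp N.dom.toT (.imp (N.tm (numeral (g f))).toT (.iff (fT (.var 0)) f.toT)))

/-- The theory `A + TB^-_N`, for the Goedel numbering `g`. -/
def addTB (A : Set (Fm L)) (N : Interp Lar L) (g : Fm L → ℕ) : Set (Fm L.addT) :=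
  {f | (∃ a ∈ A, f = a.toT) ∨ ∃ s : Fm L, s.Closed ∧ f = tbAx N g s}

end Pool.Agent.MP81222b
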