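import Pool.Agent.Lib.MP_81222b_lc.Defs
import Pool.Agent.Lib.MP_81222b_lc.Ar

/-!
# Expansions by a unary predicate
-/

namespace Pool.Agent.MP81222b

variable {L : Lang}

/-- The expansion of `S` by the unary predicate `T`. -/
@[reducible] def expT (S : Str L) (T : S.M → Prop) : Str L.addT where
  M := S.M
  inh := S.inh
  fn := S.fn
  rl := fun n => match n with
    | 0 => fun r a => S.rl 0 r a
    | 1 => fun (r : Fin (L.Rl 1 + 1)) a => if h : r.1 < L.Rl 1 then S.rl 1 ⟨r.1, h⟩ a else T (a 0)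
    | n + 2 => fun r a => S.rl (n + 2) r a

/-- The reduct to the old signature. -/
@[reducible] def reductT (S : Str L.addT) : Str L where
  M := S.M
  inh := S.inh
  fn := S.fn
  rl := fun n r a => S.rl n (oldRl n r) a

/-- The new predicate. -/
def predT (S : Str L.addT) (x : S.M) : Prop := S.rl 1 (Fin.last (L.Rl 1) : Fin (L.Rl 1 + 1)) ![x]

theorem expT_rl (S : Str L) (T : S.M → Prop) (n : ℕ) (r : Fin (L.Rl n)) (a : Fin n → S.M) :
    (expT S T).rl n (oldRl n r) a ↔ S.rl n r a := by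
  match n, r, a with
  | 0, r, a => exact Iff.rfl
  | 1, r, a =>
    show (if h : (r.castSucc : Fin (L.Rl 1 + 1)).1 < L.Rl 1 then
      S.rl 1 ⟨(r.castSucc : Fin (L.Rl 1 + 1)).1, h⟩ a else T (a 0)) ↔ S.rl 1 r a
    rw [dif_pos (show (r.castSucc : Fin (L.Rl 1 + 1)).1 < L.Rl 1 from r.2)]
    rfl
  | n + 2, r, a => exact Iff.rfl

theorem expT_T (S : Str L) (T : S.M → Prop) (a : Fin 1 → S.M) :
    (expT S T).rl 1 (Fin.last (L.Rl 1) : Fin (L.Rl 1 + 1)) a ↔ T (a 0) := by
  show (if h : (Fin.last (L.Rl 1)).1 < L.Rl 1 then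
      S.rl 1 ⟨(Fin.last (L.Rl 1)).1, h⟩ a else T (a 0)) ↔ T (a 0)
  rw [dif_neg (by rw [Fin.val_last]; omega)]

theorem val_toT (S : Str L) (T : S.M → Prop) (e : ℕ → S.M) (t : Tm L) :
    t.toT.val (expT S T) e = t.val S e := by
  induction t with
  | var i => rfl
  | fn n f ts ih =>
    show S.fn n f (fun i => (ts i).toT.val (expT S T) e) = S.fn n f (fun i => (ts i).val S e)
    simp only [ih]

theorem sat_toT (S : Str L) (T : S.M → Prop) (f : Fm L) : ∀ e : ℕ → S.M,
    f.toT.Sat (expT S T) e ↔ f.Sat S e := by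
  induction f with
  | bot => intro e; exact Iff.rfl
  | eq t u =>
    intro e
    show t.toT.val (expT S T) e = u.toT.val (expT S T) e ↔ t.val S e = u.val S e
    rw [val_toT, val_toT]
  | rl n r ts =>
    intro e
    show (expT S T).rl n (oldRl n r) (fun i => (ts i).toT.val (expT S T) e) ↔
      S.rl n r (fun i => (ts i).val S e)
    rw [expT_rl]
    simp only [val_toT]
  | imp f g ihf ihg => intro e; exact imp_congr (ihf e) (ihg e)
  | all f ih => intro e; exact forall_congr' fun x => ih (cn x e)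

theorem sat_fT (S : Str L) (T : S.M → Prop) (t : Tm L.addT) (e : ℕ → S.M) :
    (fT t).Sat (expT S T) e ↔ T (t.val (expT S T) e) := by
  show (expT S T).rl 1 (Fin.last (L.Rl 1) : Fin (L.Rl 1 + 1)) _ ↔ _
  rw [expT_T]
  exact Iff.rfl

theorem sat_fT_var (S : Str L) (T : S.M → Prop) (i : ℕ) (e : ℕ → S.M) :
    (fT (.var i : Tm L.addT)).Sat (expT S T) e ↔ T (e i) := sat_fT S T _ e

/-- Every relation symbol of the expanded signature is old or new. -/
theorem addT_rl (n : ℕ) (r : Fin (L.addT.Rl n)) :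
    (∃ r' : Fin (L.Rl n), r = oldRl n r') ∨
      ∃ h : n = 1, r = h ▸ (Fin.last (L.Rl 1) : Fin (L.Rl 1 + 1)) := by
  match n, r with
  | 0, r => exact Or.inl ⟨r, rfl⟩
  | 1, r =>
    by_cases h : (r : Fin (L.Rl 1 + 1)).1 < L.Rl 1
    · exact Or.inl ⟨⟨(r : Fin (L.Rl 1 + 1)).1, h⟩, rfl⟩
    · right
      refine ⟨rfl, ?_⟩
      have h1 : (r : Fin (L.Rl 1 + 1)).1 < L.Rl 1 + 1 := (r : Fin (L.Rl 1 + 1)).2
      exact Fin.ext (show (r : Fin (L.Rl 1 + 1)).1 = (Fin.last (L.Rl 1)).1 by
        rw [Fin.val_last]; omega)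
  | n + 2, r => exact Or.inl ⟨r, rfl⟩

theorem val_reduct (S : Str L.addT) (e : ℕ → S.M) (t : Tm L.addT) :
    t.val S e = t.val (expT (reductT S) (predT S)) e := by
  induction t with
  | var i => rfl
  | fn n f ts ih =>
    show S.fn n f (fun i => (ts i).val S e) =
      S.fn n f (fun i => (ts i).val (expT (reductT S) (predT S)) e)
    simp only [ih]

theorem rl_reduct (S : Str L.addT) (n : ℕ) (r : Fin (L.addT.Rl n)) (a : Fin n → S.M) :
    S.rl n r a ↔ (expT (reductT S) (predT S)).rl n r a := by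
  rcases addT_rl n r with ⟨r', rfl⟩ | ⟨h, rfl⟩
  · rw [expT_rl]
  · subst h
    show S.rl 1 (Fin.last (L.Rl 1) : Fin (L.Rl 1 + 1)) a ↔
      (expT (reductT S) (predT S)).rl 1 (Fin.last (L.Rl 1) : Fin (L.Rl 1 + 1)) a
    rw [expT_T]
    unfold predT
    rw [← vec1 a]

theorem sat_reduct (S : Str L.addT) (f : Fm L.addT) : ∀ e : ℕ → S.M,
    f.Sat S e ↔ f.Sat (expT (reductT S) (predT S)) e := by
  induction f with
  | bot => intro e; exact Iff.rfl
  | eq t u =>
    intro e
    show t.val S e = u.val S e ↔ t.val (expT (reductT S) (predT S)) e =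
      u.val (expT (reductT S) (predT S)) e
    rw [← val_reduct S e t, ← val_reduct S e u]
  | rl n r ts =>
    intro e
    show S.rl n r (fun i => (ts i).val S e) ↔ (expT (reductT S) (predT S)).rl n r
      (fun i => (ts i).val (expT (reductT S) (predT S)) e)
    rw [rl_reduct]
    have : (fun i => (ts i).val S e) =
        (fun i => (ts i).val (expT (reductT S) (predT S)) e) :=
      funext fun i => val_reduct S e (ts i)
    rw [this]
  | imp f g ihf ihg => intro e; exact imp_congr (ihf e) (ihg e)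
  | all f ih => intro e; exact forall_congr' fun x => ih (cn x e)

theorem mod_reduct (S : Str L.addT) (T : Set (Fm L.addT)) :
    Mod S T ↔ Mod (expT (reductT S) (predT S)) T :=
  forall_congr' fun f => imp_congr Iff.rfl (forall_congr' fun e => sat_reduct S f e)

end Pool.Agent.MP81222b
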