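import Pool.Agent.Lib.MP_81222b_lc.Th
import Pool.Agent.Lib.MP_81222b_lc.Expand

/-!
# Definability over the structures `(R, J, T)` in the relational language
-/

namespace Pool.Agent.MP81222b

/-- The relational structure given by `R`, `J`, `T`. -/
@[reducible] def mkLT (R : Str Lar) (J T : R.M → Prop) : Str LA.addT := expT (mkLA R J) T

/-- Predicates on triples `(R, J, T)` defined by a formula. -/
class VDef (P : (R : Str Lar) → (J T : R.M → Prop) → (ℕ → R.M) → Prop) : Prop where
  ex : ∃ f : Fm LA.addT, ∀ R J T e, P R J T e ↔ f.Sat (mkLT R J T) e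

/-- Functions on triples `(R, J, T)` whose graph is defined by a formula. -/
class GDef (t : (R : Str Lar) → (J T : R.M → Prop) → (ℕ → R.M) → R.M) : Prop where
  ex : ∃ f : Fm LA.addT, ∀ R J T e y, y = t R J T e ↔ f.Sat (mkLT R J T) (cn y e)

/-- Atomic formulas. -/
def gR (r : Fin 9) (x y z : ℕ) : Fm LA.addT := (fR r x y z).toT

theorem sat_gR (R : Str Lar) (J T : R.M → Prop) (r : Fin 9) (x y z : ℕ) (e : ℕ → R.M) :
    (gR r x y z).Sat (mkLT R J T) e ↔ relLA R J r (e x) (e y) (e z) := by
  unfold gR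
  rw [sat_toT, sat_fR]
  rfl

section rename
variable {L : Lang}
/-- Renaming of variables. -/
def Fm.ren (f : Fm L) (ρ : ℕ → ℕ) : Fm L := f.sub (fun i => .var (ρ i))
theorem sat_ren (S : Str L) (f : Fm L) (ρ : ℕ → ℕ) (e : ℕ → S.M) :
    (f.ren ρ).Sat S e ↔ f.Sat S (fun i => e (ρ i)) := by
  unfold Fm.ren; rw [Fm.sat_sub]; rfl
end rename

/-- Insertion of a dummy variable at position `1`. -/
def ins1 : ℕ → ℕ
  | 0 => 0
  | n + 1 => n + 2

theorem cn_ins1 {M : Type} (x y : M) (e : ℕ → M) :
    (fun i => cn x (cn y e) (ins1 i)) = cn x e := by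
  funext i; cases i <;> rfl

section vdef
variable {P Q : (R : Str Lar) → (J T : R.M → Prop) → (ℕ → R.M) → Prop}

instance : VDef (fun _ _ _ _ => False) := ⟨.bot, fun _ _ _ _ => Iff.rfl⟩
instance : VDef (fun _ _ _ _ => True) := ⟨.neg .bot, fun _ _ _ _ => by simp [Fm.Sat]⟩
instance [h : VDef P] : VDef (fun R J T e => ¬ P R J T e) := by
  obtain ⟨f, hf⟩ := h.ex; exact ⟨.neg f, fun _ _ _ _ => by simp [hf]⟩
instance [h : VDef P] [h' : VDef Q] : VDef (fun R J T e => P R J T e → Q R J T e) := by
  obtain ⟨f, hf⟩ := h.ex; obtain ⟨g, hg⟩ := h'.ex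
  exact ⟨.imp f g, fun _ _ _ _ => by simp [Fm.Sat, hf, hg]⟩
instance [h : VDef P] [h' : VDef Q] : VDef (fun R J T e => P R J T e ∧ Q R J T e) := by
  obtain ⟨f, hf⟩ := h.ex; obtain ⟨g, hg⟩ := h'.ex
  exact ⟨.and f g, fun _ _ _ _ => by simp [hf, hg]⟩
instance [h : VDef P] [h' : VDef Q] : VDef (fun R J T e => P R J T e ∨ Q R J T e) := by
  obtain ⟨f, hf⟩ := h.ex; obtain ⟨g, hg⟩ := h'.ex
  exact ⟨.or f g, fun _ _ _ _ => by simp [hf, hg]⟩
instance [h : VDef P] [h' : VDef Q] : VDef (fun R J T e => P R J T e ↔ Q R J T e) := by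
  obtain ⟨f, hf⟩ := h.ex; obtain ⟨g, hg⟩ := h'.ex
  exact ⟨.iff f g, fun _ _ _ _ => by simp [hf, hg]⟩
instance {P : (R : Str Lar) → (J T : R.M → Prop) → (ℕ → R.M) → R.M → Prop}
    [h : VDef (fun R J T e => P R J T (fun n => e (n + 1)) (e 0))] :
    VDef (fun R J T e => ∀ x, P R J T e x) := by
  obtain ⟨f, hf⟩ := h.ex
  refine ⟨.all f, fun R J T e => ?_⟩
  show (∀ x, P R J T e x) ↔ ∀ x : R.M, f.Sat (mkLT R J T) (cn x e)
  simp only [← hf, cn_zero, cn_succ]
instance {P : (R : Str Lar) → (J T : R.M → Prop) → (ℕ → R.M) → R.M → Prop}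
    [h : VDef (fun R J T e => P R J T (fun n => e (n + 1)) (e 0))] :
    VDef (fun R J T e => ∃ x, P R J T e x) := by
  obtain ⟨f, hf⟩ := h.ex
  refine ⟨.ex f, fun R J T e => ?_⟩
  rw [Fm.sat_ex]
  show (∃ x, P R J T e x) ↔ ∃ x : R.M, f.Sat (mkLT R J T) (cn x e)
  simp only [← hf, cn_zero, cn_succ]
instance {n : ℕ} {P : Fin n → (R : Str Lar) → (J T : R.M → Prop) → (ℕ → R.M) → Prop}
    [h : ∀ i, VDef (P i)] : VDef (fun R J T e => ∀ i : Fin n, P i R J T e) := by
  choose f hf using fun i => (h i).ex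
  refine ⟨Fm.conj n f, fun R J T e => ?_⟩
  have key : ∀ l : List (Fm LA.addT), (l.foldr Fm.and (.neg .bot)).Sat (mkLT R J T) e ↔
      ∀ f ∈ l, f.Sat (mkLT R J T) e := by
    intro l
    induction l with
    | nil => simp [Fm.Sat]
    | cons a l ih => simp only [List.foldr_cons, Fm.sat_and, ih, List.forall_mem_cons]
  unfold Fm.conj
  rw [key]
  simp only [List.forall_mem_ofFn_iff, hf]

end vdef

section gdef

instance gvar (i : ℕ) : GDef (fun _ _ _ e => e i) :=
  ⟨.eq (.var 0) (.var (i + 1)), fun _ _ _ _ _ => Iff.rfl⟩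

/-- Substitution of one definable function. -/
theorem VDef.bind {P : (R : Str Lar) → (J T : R.M → Prop) → R.M → (ℕ → R.M) → Prop}
    (h : VDef (fun R J T e => P R J T (e 0) (fun n => e (n + 1))))
    (t : (R : Str Lar) → (J T : R.M → Prop) → (ℕ → R.M) → R.M) [ht : GDef t] :
    VDef (fun R J T e => P R J T (t R J T e) e) := by
  obtain ⟨f, hf⟩ := h.ex
  obtain ⟨g, hg⟩ := ht.ex
  refine ⟨.ex (.and g f), fun R J T e => ?_⟩
  rw [Fm.sat_ex]
  simp only [Fm.sat_and]
  constructor
  · intro H
    refine ⟨t R J T e, (hg R J T e _).1 rfl, ?_⟩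
    rw [← hf]
    exact H
  · rintro ⟨x, h1, h2⟩
    rw [← hg] at h1
    rw [← hf] at h2
    rw [← h1]
    exact h2

theorem GDef.bind {s : (R : Str Lar) → (J T : R.M → Prop) → R.M → (ℕ → R.M) → R.M}
    (h : GDef (fun R J T e => s R J T (e 0) (fun n => e (n + 1))))
    (t : (R : Str Lar) → (J T : R.M → Prop) → (ℕ → R.M) → R.M) [ht : GDef t] :
    GDef (fun R J T e => s R J T (t R J T e) e) := by
  obtain ⟨f, hf⟩ := h.ex
  obtain ⟨g, hg⟩ := ht.ex
  -- variables of the body: `x, y, e`
  refine ⟨.ex (.and (g.ren ins1) (f.ren (fun i => match i with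
    | 0 => 1
    | 1 => 0
    | n + 2 => n + 2))), fun R J T e y => ?_⟩
  rw [Fm.sat_ex]
  simp only [Fm.sat_and, sat_ren]
  have e1 : ∀ x : R.M, (fun i => cn x (cn y e) (ins1 i)) = cn x e := fun x => cn_ins1 x y e
  have e2 : ∀ x : R.M, (fun i => cn x (cn y e) (match i with
      | 0 => 1
      | 1 => 0
      | n + 2 => n + 2)) = cn y (cn x e) := by
    intro x; funext i
    match i with
    | 0 => rfl
    | 1 => rfl
    | n + 2 => rfl
  constructor
  · intro H
    refine ⟨t R J T e, ?_, ?_⟩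
    · erw [e1]; exact (hg R J T e _).1 rfl
    · erw [e2]; exact (hf R J T (cn (t R J T e) e) y).1 H
  · rintro ⟨x, h1, h2⟩
    erw [e1] at h1
    erw [e2] at h2
    have h3 : x = t R J T e := (hg R J T e x).2 h1
    have h4 := (hf R J T (cn x e) y).2 h2
    rw [h3] at h4
    exact h4

theorem VDef.ren {P : (R : Str Lar) → (J T : R.M → Prop) → (ℕ → R.M) → Prop} (h : VDef P)
    (ρ : ℕ → ℕ) : VDef (fun R J T e => P R J T (fun i => e (ρ i))) := by
  obtain ⟨f, hf⟩ := h.ex
  refine ⟨f.ren ρ, fun R J T e => ?_⟩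
  rw [sat_ren, hf]

theorem GDef.ren {t : (R : Str Lar) → (J T : R.M → Prop) → (ℕ → R.M) → R.M} (h : GDef t)
    (ρ : ℕ → ℕ) : GDef (fun R J T e => t R J T (fun i => e (ρ i))) := by
  obtain ⟨f, hf⟩ := h.ex
  refine ⟨f.ren (fun i => match i with
    | 0 => 0
    | n + 1 => ρ n + 1), fun R J T e y => ?_⟩
  have e1 : (fun i => cn y e (match i with
      | 0 => 0
      | n + 1 => ρ n + 1)) = cn y (fun i => e (ρ i)) := by
    funext i
    cases i <;> rfl
  rw [sat_ren]
  erw [e1]
  rw [hf]

variable {t u v w : (R : Str Lar) → (J T : R.M → Prop) → (ℕ → R.M) → R.M}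

theorem GDef.shift (h : GDef t) : GDef (fun R J T e => t R J T (fun i => e (i + 1))) :=
  h.ren (fun i => i + 1)

/-- Swap of the first two variables. -/
def sw01 : ℕ → ℕ
  | 0 => 1
  | 1 => 0
  | n + 2 => n + 2

theorem GDef.app1 {s : (R : Str Lar) → (J T : R.M → Prop) → R.M → R.M}
    (h : GDef (fun R J T e => s R J T (e 0)))
    (t : (R : Str Lar) → (J T : R.M → Prop) → (ℕ → R.M) → R.M) [ht : GDef t] :
    GDef (fun R J T e => s R J T (t R J T e)) :=
  GDef.bind (s := fun R J T x _ => s R J T x) h t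

theorem GDef.app2 {s : (R : Str Lar) → (J T : R.M → Prop) → R.M → R.M → R.M}
    (h : GDef (fun R J T e => s R J T (e 0) (e 1)))
    (t u : (R : Str Lar) → (J T : R.M → Prop) → (ℕ → R.M) → R.M) [ht : GDef t] [hu : GDef u] :
    GDef (fun R J T e => s R J T (t R J T e) (u R J T e)) := by
  have h1 : GDef (fun R J T e => s R J T (e 1) (e 0)) := h.ren sw01
  have := hu.shift
  have h2 : GDef (fun R J T e => s R J T (e 0) (u R J T (fun i => e (i + 1)))) :=
    GDef.bind (s := fun R J T x e => s R J T (e 0) x) h1 (fun R J T e => u R J T (fun i => e (i + 1)))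
  exact GDef.bind (s := fun R J T x e => s R J T x (u R J T e)) h2 t

theorem VDef.app1 {P : (R : Str Lar) → (J T : R.M → Prop) → R.M → Prop}
    (h : VDef (fun R J T e => P R J T (e 0)))
    (t : (R : Str Lar) → (J T : R.M → Prop) → (ℕ → R.M) → R.M) [ht : GDef t] :
    VDef (fun R J T e => P R J T (t R J T e)) :=
  VDef.bind (P := fun R J T x _ => P R J T x) h t

theorem VDef.app2 {P : (R : Str Lar) → (J T : R.M → Prop) → R.M → R.M → Prop}
    (h : VDef (fun R J T e => P R J T (e 0) (e 1)))
    (t u : (R : Str Lar) → (J T : R.M → Prop) → (ℕ → R.M) → R.M) [ht : GDef t] [hu : GDef u] :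
    VDef (fun R J T e => P R J T (t R J T e) (u R J T e)) := by
  have h1 : VDef (fun R J T e => P R J T (e 1) (e 0)) := h.ren sw01
  have := hu.shift
  have h2 : VDef (fun R J T e => P R J T (e 0) (u R J T (fun i => e (i + 1)))) :=
    VDef.bind (P := fun R J T x e => P R J T (e 0) x) h1 (fun R J T e => u R J T (fun i => e (i + 1)))
  exact VDef.bind (P := fun R J T x e => P R J T x (u R J T e)) h2 t

/-- Reversal of the first three variables. -/
def sw012 : ℕ → ℕ
  | 0 => 2
  | 1 => 1
  | 2 => 0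
  | n + 3 => n + 3

theorem VDef.app3 {P : (R : Str Lar) → (J T : R.M → Prop) → R.M → R.M → R.M → Prop}
    (h : VDef (fun R J T e => P R J T (e 0) (e 1) (e 2)))
    (t u v : (R : Str Lar) → (J T : R.M → Prop) → (ℕ → R.M) → R.M)
    [ht : GDef t] [hu : GDef u] [hv : GDef v] :
    VDef (fun R J T e => P R J T (t R J T e) (u R J T e) (v R J T e)) := by
  have h1 : VDef (fun R J T e => P R J T (e 2) (e 1) (e 0)) := h.ren sw012
  have h0 := hv.shift.shift
  have h2 : VDef (fun R J T e => P R J T (e 1) (e 0) (v R J T (fun i => e (i + 1 + 1)))) :=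
    VDef.bind (P := fun R J T x e => P R J T (e 1) (e 0) x) h1
      (fun R J T e => v R J T (fun i => e (i + 1 + 1)))
  have h3 := hu.shift
  have h4 : VDef (fun R J T e => P R J T (e 0) (u R J T (fun i => e (i + 1)))
      (v R J T (fun i => e (i + 1)))) :=
    VDef.bind (P := fun R J T x e => P R J T (e 0) x (v R J T (fun i => e (i + 1)))) h2
      (fun R J T e => u R J T (fun i => e (i + 1)))
  exact VDef.bind (P := fun R J T x e => P R J T x (u R J T e) (v R J T e)) h4 t

end gdef

/-! ### Atomic functions and predicates -/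

section atoms
variable {t u v : (R : Str Lar) → (J T : R.M → Prop) → (ℕ → R.M) → R.M}

instance : GDef (fun R _ _ _ => R.zr) :=
  ⟨gR 0 0 0 0, fun R J T e y => by rw [sat_gR]; exact Iff.rfl⟩
theorem gsc : GDef (fun R _ _ e => R.sc (e 0)) :=
  ⟨gR 1 1 0 0, fun R J T e y => by rw [sat_gR]; exact Iff.rfl⟩
theorem ghf : GDef (fun R _ _ e => R.hf (e 0)) :=
  ⟨gR 2 1 0 0, fun R J T e y => by rw [sat_gR]; exact Iff.rfl⟩
theorem gln : GDef (fun R _ _ e => R.ln (e 0)) :=
  ⟨gR 3 1 0 0, fun R J T e y => by rw [sat_gR]; exact Iff.rfl⟩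
theorem gad : GDef (fun R _ _ e => R.ad (e 0) (e 1)) :=
  ⟨gR 4 1 2 0, fun R J T e y => by rw [sat_gR]; exact Iff.rfl⟩
theorem gml : GDef (fun R _ _ e => R.ml (e 0) (e 1)) :=
  ⟨gR 5 1 2 0, fun R J T e y => by rw [sat_gR]; exact Iff.rfl⟩
theorem gsm : GDef (fun R _ _ e => R.sm (e 0) (e 1)) :=
  ⟨gR 6 1 2 0, fun R J T e y => by rw [sat_gR]; exact Iff.rfl⟩
theorem vle : VDef (fun R _ _ e => R.le (e 0) (e 1)) :=
  ⟨gR 7 0 1 0, fun R J T e => by rw [sat_gR]; exact Iff.rfl⟩
theorem vJ : VDef (fun _ J _ e => J (e 0)) :=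
  ⟨gR 8 0 0 0, fun R J T e => by rw [sat_gR]; exact Iff.rfl⟩
theorem vT : VDef (fun _ _ T e => T (e 0)) :=
  ⟨fT (.var 0), fun R J T e => by rw [sat_fT_var]⟩
theorem veq : VDef (fun _ _ _ e => e 0 = e 1) :=
  ⟨.eq (.var 0) (.var 1), fun _ _ _ _ => Iff.rfl⟩

instance [GDef t] : GDef (fun R J T e => R.sc (t R J T e)) := gsc.app1 t
instance [GDef t] : GDef (fun R J T e => R.hf (t R J T e)) := ghf.app1 t
instance [GDef t] : GDef (fun R J T e => R.ln (t R J T e)) := gln.app1 t
instance [GDef t] [GDef u] : GDef (fun R J T e => R.ad (t R J T e) (u R J T e)) := gad.app2 t u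
instance [GDef t] [GDef u] : GDef (fun R J T e => R.ml (t R J T e) (u R J T e)) := gml.app2 t u
instance [GDef t] [GDef u] : GDef (fun R J T e => R.sm (t R J T e) (u R J T e)) := gsm.app2 t u
instance [GDef t] [GDef u] : VDef (fun R J T e => R.le (t R J T e) (u R J T e)) := vle.app2 t u
instance [GDef t] : VDef (fun R J T e => J (t R J T e)) := vJ.app1 t
instance [GDef t] : VDef (fun R J T e => T (t R J T e)) := vT.app1 t
instance [GDef t] [GDef u] : VDef (fun R J T e => t R J T e = u R J T e) := veq.app2 t u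
instance [GDef t] [GDef u] : VDef (fun R J T e => t R J T e ≠ u R J T e) :=
  inferInstanceAs (VDef (fun R J T e => ¬ (t R J T e = u R J T e)))

instance [GDef t] [GDef u] : VDef (fun R J T e => R.lt (t R J T e) (u R J T e)) :=
  inferInstanceAs (VDef (fun R J T e => R.le (R.sc (t R J T e)) (u R J T e)))
instance [GDef t] : GDef (fun R J T e => dbl R (t R J T e)) :=
  inferInstanceAs (GDef (fun R J T e => R.ad (t R J T e) (t R J T e)))
instance [GDef t] : GDef (fun R J T e => qd R (t R J T e)) :=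
  inferInstanceAs (GDef (fun R J T e => dbl R (dbl R (t R J T e))))
instance [GDef t] : GDef (fun R J T e => e2 R (t R J T e)) :=
  inferInstanceAs (GDef (fun R J T e => R.sm (R.sc R.zr) (t R J T e)))
instance [GDef t] : GDef (fun R J T e => l3 R (t R J T e)) :=
  inferInstanceAs (GDef (fun R J T e => R.ln (R.ln (R.ln (t R J T e)))))
instance [GDef t] [GDef u] : GDef (fun R J T e => prS R (t R J T e) (u R J T e)) :=
  inferInstanceAs (GDef (fun R J T e =>
    R.ad (R.ml (R.ad (t R J T e) (u R J T e)) (R.ad (t R J T e) (u R J T e))) (t R J T e)))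
instance [GDef t] [GDef u] : GDef (fun R J T e => consS R (t R J T e) (u R J T e)) :=
  inferInstanceAs (GDef (fun R J T e => R.sc (prS R (t R J T e) (u R J T e))))
instance [GDef t] : GDef (fun R J T e => li1 R (t R J T e)) :=
  inferInstanceAs (GDef (fun R J T e => consS R (t R J T e) R.zr))
instance [GDef t] [GDef u] : GDef (fun R J T e => li2 R (t R J T e) (u R J T e)) :=
  inferInstanceAs (GDef (fun R J T e => consS R (t R J T e) (li1 R (u R J T e))))
instance [GDef t] [GDef u] [GDef v] :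
    GDef (fun R J T e => li3 R (t R J T e) (u R J T e) (v R J T e)) :=
  inferInstanceAs (GDef (fun R J T e => consS R (t R J T e) (li2 R (u R J T e) (v R J T e))))
instance nmS.gDef (n : ℕ) : GDef (fun R _ _ _ => nmS R n) := by
  induction n with
  | zero => exact inferInstanceAs (GDef (fun R _ _ _ => R.zr))
  | succ n ih => exact inferInstanceAs (GDef (fun R _ _ _ => R.sc (nmS R n)))
instance [GDef t] [GDef u] : GDef (fun R J T e => kEq R (t R J T e) (u R J T e)) :=
  inferInstanceAs (GDef (fun R J T e => R.sc (qd R (prS R (t R J T e) (u R J T e)))))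
instance (r : ℕ) [GDef t] : GDef (fun R J T e => kRl R r (t R J T e)) :=
  inferInstanceAs (GDef (fun R J T e =>
    R.sc (R.sc (qd R (prS R (prS R (nmS R 3) (nmS R r)) (t R J T e))))))
instance [GDef t] [GDef u] : GDef (fun R J T e => kImp R (t R J T e) (u R J T e)) :=
  inferInstanceAs (GDef (fun R J T e => R.sc (R.sc (R.sc (qd R (prS R (t R J T e) (u R J T e)))))))
instance [GDef t] : GDef (fun R J T e => kAll R (t R J T e)) :=
  inferInstanceAs (GDef (fun R J T e => R.sc (R.sc (R.sc (R.sc (qd R (t R J T e)))))))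
instance [GDef t] [GDef u] : GDef (fun R J T e => iEq R (t R J T e) (u R J T e)) :=
  inferInstanceAs (GDef (fun R J T e => prS R (nmS R cEq) (li2 R (t R J T e) (u R J T e))))
instance (r : ℕ) [GDef t] [GDef u] [GDef v] :
    GDef (fun R J T e => iRl R r (t R J T e) (u R J T e) (v R J T e)) :=
  inferInstanceAs (GDef (fun R J T e =>
    prS R (nmS R (cRl r)) (li3 R (t R J T e) (u R J T e) (v R J T e))))
end atoms

/-! ### Formulas of the language of arithmetic -/

theorem fin3 (f : Fin 3) : f = ⟨0, by decide⟩ ∨ f = ⟨1, by decide⟩ ∨ f = ⟨2, by decide⟩ := by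
  fin_cases f
  · left; rfl
  · right; left; rfl
  · right; right; rfl

theorem gval (τ : Tm Lar) : GDef (fun R _ _ e => τ.val R e) := by
  induction τ with
  | var i => exact gvar i
  | fn n f ts ih =>
    match n, f, ts, ih with
    | 0, f, ts, ih =>
      have hf : f = (⟨0, Nat.one_pos⟩ : Fin 1) := Subsingleton.elim (α := Fin 1) _ _
      subst hf
      have : (fun (R : Str Lar) (J T : R.M → Prop) (e : ℕ → R.M) =>
          Tm.val R e (.fn 0 (⟨0, Nat.one_pos⟩ : Fin 1) ts)) = fun R _ _ _ => R.zr := by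
        funext R J T e
        simp only [Tm.val, Str.zr]
        congr 1
        exact vec0
      rw [this]
      infer_instance
    | 1, f, ts, ih =>
      have h0 := ih 0
      have key : ∀ (g : Fin 3) (R : Str Lar) (e : ℕ → R.M), Tm.val R e (.fn 1 g ts) =
          R.fn 1 g ![(ts 0).val R e] := by
        intro g R e
        simp only [Tm.val]
        congr 1
        rw [vec1 (fun i => _)]
      rcases fin3 f with h | h | h
      · have : (fun (R : Str Lar) (J T : R.M → Prop) (e : ℕ → R.M) =>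
            Tm.val R e (.fn 1 f ts)) = fun R _ _ e => R.sc ((ts 0).val R e) := by
          funext R J T e; rw [h, key]; rfl
        rw [this]; infer_instance
      · have : (fun (R : Str Lar) (J T : R.M → Prop) (e : ℕ → R.M) =>
            Tm.val R e (.fn 1 f ts)) = fun R _ _ e => R.hf ((ts 0).val R e) := by
          funext R J T e; rw [h, key]; rfl
        rw [this]; infer_instance
      · have : (fun (R : Str Lar) (J T : R.M → Prop) (e : ℕ → R.M) =>
            Tm.val R e (.fn 1 f ts)) = fun R _ _ e => R.ln ((ts 0).val R e) := by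
          funext R J T e; rw [h, key]; rfl
        rw [this]; infer_instance
    | 2, f, ts, ih =>
      have h0 := ih 0
      have h1 := ih 1
      have key : ∀ (g : Fin 3) (R : Str Lar) (e : ℕ → R.M), Tm.val R e (.fn 2 g ts) =
          R.fn 2 g ![(ts 0).val R e, (ts 1).val R e] := by
        intro g R e
        simp only [Tm.val]
        congr 1
        rw [vec2 (fun i => _)]
      rcases fin3 f with h | h | h
      · have : (fun (R : Str Lar) (J T : R.M → Prop) (e : ℕ → R.M) =>
            Tm.val R e (.fn 2 f ts)) = fun R _ _ e => R.ad ((ts 0).val R e) ((ts 1).val R e) := by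
          funext R J T e; rw [h, key]; rfl
        rw [this]; infer_instance
      · have : (fun (R : Str Lar) (J T : R.M → Prop) (e : ℕ → R.M) =>
            Tm.val R e (.fn 2 f ts)) = fun R _ _ e => R.ml ((ts 0).val R e) ((ts 1).val R e) := by
          funext R J T e; rw [h, key]; rfl
        rw [this]; infer_instance
      · have : (fun (R : Str Lar) (J T : R.M → Prop) (e : ℕ → R.M) =>
            Tm.val R e (.fn 2 f ts)) = fun R _ _ e => R.sm ((ts 0).val R e) ((ts 1).val R e) := by
          funext R J T e; rw [h, key]; rfl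
        rw [this]; infer_instance
    | n + 3, f, ts, ih => exact (f : Fin 0).elim0

theorem vrl (n : ℕ) (r : Fin (Lar.Rl n)) (ts : Fin n → Tm Lar) :
    VDef (fun R _ _ e => R.rl n r (fun i => (ts i).val R e)) := by
  match n, r, ts with
  | 0, r, ts => exact (r : Fin 0).elim0
  | 1, r, ts => exact (r : Fin 0).elim0
  | 2, r, ts =>
    have h0 := gval (ts 0)
    have h1 := gval (ts 1)
    have hr : r = (⟨0, by decide⟩ : Fin 1) := Subsingleton.elim (α := Fin 1) _ _
    have : (fun (R : Str Lar) (J T : R.M → Prop) (e : ℕ → R.M) =>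
        R.rl 2 r (fun i => (ts i).val R e)) =
        fun R _ _ e => R.le ((ts 0).val R e) ((ts 1).val R e) := by
      funext R J T e
      rw [hr, vec2 (fun i => (ts i).val R e)]
      rfl
    rw [this]; infer_instance
  | n + 3, r, ts => exact (r : Fin 0).elim0

theorem vsat (f : Fm Lar) : VDef (fun R _ _ e => f.Sat R e) := by
  induction f with
  | bot => exact inferInstanceAs (VDef (fun _ _ _ _ => False))
  | eq t u =>
    have := gval t
    have := gval u
    exact inferInstanceAs (VDef (fun R _ _ e => t.val R e = u.val R e))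
  | rl n r ts => exact vrl n r ts
  | imp f g hf hg => exact inferInstanceAs (VDef (fun R _ _ e => f.Sat R e → g.Sat R e))
  | all f hf =>
    have : VDef (fun R J T e => f.Sat R (cn (e 0) (fun n => e (n + 1)))) := by
      simpa only [cn_eta] using hf
    exact inferInstanceAs (VDef (fun R _ _ e => ∀ x, f.Sat R (cn x e)))

theorem vsatD (f : Fm Lar) : VDef (fun R J _ e => f.SatD R J e) := by
  induction f with
  | bot => exact inferInstanceAs (VDef (fun _ _ _ _ => False))
  | eq t u =>
    have := gval t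
    have := gval u
    exact inferInstanceAs (VDef (fun R _ _ e => t.val R e = u.val R e))
  | rl n r ts => exact vrl n r ts
  | imp f g hf hg => exact inferInstanceAs (VDef (fun R J _ e => f.SatD R J e → g.SatD R J e))
  | all f hf =>
    have : VDef (fun R J T e => f.SatD R J (cn (e 0) (fun n => e (n + 1)))) := by
      simpa only [cn_eta] using hf
    exact inferInstanceAs (VDef (fun R J _ e => ∀ x, J x → f.SatD R J (cn x e)))

theorem UDef.vDef {P : (S : Str Lar) → (ℕ → S.M) → Prop} (h : UDef P) :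
    VDef (fun R _ _ e => P R e) := by
  obtain ⟨f, hf⟩ := h.ex
  have : (fun (R : Str Lar) (J T : R.M → Prop) (e : ℕ → R.M) => P R e) =
      fun R _ _ e => f.Sat R e := by
    funext R J T e; exact propext (hf R e)
  rw [this]
  exact vsat f

section
variable {t u : (R : Str Lar) → (J T : R.M → Prop) → (ℕ → R.M) → R.M}
instance [GDef t] [GDef u] : VDef (fun R J T e => P4 R (t R J T e) (u R J T e)) :=
  VDef.app2 (P := fun R _ _ x y => P4 R x y) P4.b0.uDef.vDef t u
instance [GDef t] : VDef (fun R J T e => Pw R (t R J T e)) :=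
  VDef.app1 (P := fun R _ _ x => Pw R x) Pw.b0.uDef.vDef t
instance [GDef t] [GDef u] : VDef (fun R J T e => LenS R (t R J T e) (u R J T e)) :=
  VDef.app2 (P := fun R _ _ x y => LenS R x y) LenS.b0.uDef.vDef t u
instance [GDef t] [GDef u] : VDef (fun R J T e => Dig R (t R J T e) (u R J T e)) :=
  VDef.app2 (P := fun R _ _ x y => Dig R x y) Dig.b0.uDef.vDef t u
end

end Pool.Agent.MP81222b
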