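import Pool.Agent.Lib.MP_81222b_lc.Sigma1

/-!
# Graphs of computable functions are `Σ_1`-definable over the standard model
-/

namespace Pool.Agent.MP81222b

open Nat.Partrec (Code)

/-- Kleene normal form. -/
theorem computable_normal {F : ℕ → ℕ} (hF : Computable F) :
    ∃ G : ℕ → ℕ, Nat.Primrec G ∧ ∀ x y, F x = y ↔ ∃ k, G (Nat.pair k x) = y + 1 := by
  have h1 : Nat.Partrec (fun n => Part.some (F n)) := Partrec.nat_iff.1 hF
  obtain ⟨c, hc⟩ := Code.exists_code.1 h1
  refine ⟨fun n => Encodable.encode (Code.evaln n.unpair.1 c n.unpair.2), ?_, ?_⟩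
  · have h2 : Primrec (fun n : ℕ => Code.evaln n.unpair.1 c n.unpair.2) :=
      Code.primrec_evaln.comp (Primrec.pair (Primrec.pair (Primrec.fst.comp Primrec.unpair)
        (Primrec.const c)) (Primrec.snd.comp Primrec.unpair))
    exact Primrec.nat_iff.1 (Primrec.encode.comp h2)
  · intro x y
    simp only [Nat.unpair_pair]
    have h3 : ∀ k, Encodable.encode (Code.evaln k c x) = y + 1 ↔ y ∈ Code.evaln k c x := by
      intro k
      cases Code.evaln k c x with
      | none => simp
      | some z => simp [eq_comm]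
    simp only [h3]
    rw [← Code.evaln_complete, hc]
    simp [eq_comm]

theorem sgF_of_computable {F : ℕ → ℕ} (hF : Computable F) : SgF F := by
  obtain ⟨G, hG, h⟩ := computable_normal hF
  have h1 := sgF_of_primrec hG
  -- variables: w (value) , p (pair), k | x y
  refine (((sg_pair 2 3 1).and ((h1.app 1 0).and (sg_succ 0 4))).ex.ex.ex).congr fun e => ?_
  simp only [cn_two, cn_zero, cn_one, cn_three, cn_four]
  rw [h]
  constructor
  · rintro ⟨k, hk⟩
    exact ⟨k, Nat.pair k (e 0), _, rfl, hk, rfl⟩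
  · rintro ⟨k, p, w, h1, h2, h3⟩
    exact ⟨k, by rw [h1, h2, h3]⟩

/-- The graph of a computable function is `Σ_1`-definable over the standard model. -/
theorem sigma1_of_computable {F : ℕ → ℕ} (hF : Computable F) :
    ∃ f : Fm Lar, Bdd f ∧ ∀ e : ℕ → ℕ, F (e 0) = e 1 ↔ ∃ w : ℕ, f.Sat natS (cn w e) :=
  sgF_of_computable hF

end Pool.Agent.MP81222b
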