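import Pool.Agent.Lib.MP_81222b_lc.Core
import Pool.Agent.Lib.MP_81222b_lc.Cons
import Pool.Agent.Lib.MP_81222b_lc.Sigma1C

/-!
# The main theorem
-/

namespace Pool.Agent.MP81222b

theorem rep_of_computable {F : ℕ → ℕ} (hF : Computable F) : ∃ θ : Fm Lar, θ.bd 2 ∧
    (∀ e : ℕ → ℕ, θ.Sat natS e ↔ e 0 = F (e 1)) ∧
    ∀ (S : Str Lar) [PiC S] (n : ℕ) (y : S.M),
      θ.Sat S (cn y (fun _ => nmS S n)) ↔ y = nmS S (F n) := by
  obtain ⟨f, hb, hf⟩ := sigma1_of_computable hF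
  have hg : ∀ x y : ℕ, F x = y ↔ ∃ w : ℕ, G3 f natS w x y := fun x y =>
    hf (cn x (cn y (fun _ => (0 : ℕ))))
  refine ⟨wit f, wit_bd f, ?_, ?_⟩
  · intro e
    rw [sat_wit]
    constructor
    · rintro ⟨w, h, _⟩
      exact ((hg _ _).2 ⟨w, h⟩).symm
    · intro h
      obtain ⟨w, hw⟩ := (hg (e 1) (e 0)).1 h.symm
      refine ⟨w, hw, ?_⟩
      intro w' _ y' _ h'
      rw [h]
      exact ((hg _ _).2 ⟨w', h'⟩).symm
  · intro S _ n y
    rw [sat_wit]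
    simp only [cn_zero, cn_one]
    obtain ⟨w₀, hw₀⟩ := (hg n (F n)).1 rfl
    constructor
    · rintro ⟨w, h, hu⟩
      by_cases h1 : S.le (nmS S w₀) (S.ad w y)
      · by_cases h2 : S.le (nmS S (F n)) (S.ad w y)
        · exact (hu _ h1 _ h2 ((G3_nmS S hb _ _ _).2 hw₀)).symm
        · have h3 : S.le (S.ad w y) (nmS S (F n)) := (PiC.total' S _ _).resolve_right h2
          have hw : w ≤ w + y := le_add_of_nonneg_right (PiC.zero_le' S _)
          have hy : y ≤ w + y := le_add_of_nonneg_left (PiC.zero_le' S _)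
          obtain ⟨a, _, rfl⟩ := le_nmS S _ w (PiC.trans' S hw h3)
          obtain ⟨b, _, rfl⟩ := le_nmS S _ y (PiC.trans' S hy h3)
          rw [G3_nmS S hb] at h
          rw [(hg n b).2 ⟨a, h⟩]
      · have h3 : S.le (S.ad w y) (nmS S w₀) := (PiC.total' S _ _).resolve_right h1
        have hw : w ≤ w + y := le_add_of_nonneg_right (PiC.zero_le' S _)
        have hy : y ≤ w + y := le_add_of_nonneg_left (PiC.zero_le' S _)
        obtain ⟨a, _, rfl⟩ := le_nmS S _ w (PiC.trans' S hw h3)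
        obtain ⟨b, _, rfl⟩ := le_nmS S _ y (PiC.trans' S hy h3)
        rw [G3_nmS S hb] at h
        rw [(hg n b).2 ⟨a, h⟩]
    · rintro rfl
      refine ⟨nmS S w₀, (G3_nmS S hb _ _ _).2 hw₀, ?_⟩
      intro w' hw' y' hy' h'
      rw [nmS_ad] at hw' hy'
      obtain ⟨a, _, rfl⟩ := le_nmS S _ w' hw'
      obtain ⟨b, _, rfl⟩ := le_nmS S _ y' hy'
      rw [G3_nmS S hb] at h'
      rw [(hg n b).2 ⟨a, h'⟩]


/-! ### The domain formula of the smaller model -/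

theorem DomQ.v0 : VDef (fun R J _ e => DomQ R J (e 0)) := by
  unfold DomQ; infer_instance

/-- The formula defining the domain of the smaller model. -/
noncomputable def D0Q : Fm LA := (DomQ.v0.fm.ren (clp 1)).noT

theorem D0Q_bd : D0Q.bd 1 := bd_noT _ (ren_clp_bd _ 0)

theorem D0Q_dom (R : Str Lar) (J : R.M → Prop) (x : R.M) :
    DomD D0Q (mkLA R J) x ↔ DomQ R J x := by
  unfold DomD D0Q
  rw [sat_noT, sat_ren]
  exact DomQ.v0.sat R J _ _

/-! ### Sequentiality -/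

theorem MemS.v0 : VDef (fun R _ _ e => MemS R (e 0) (e 1)) :=
  UDef.vDef (P := fun R e => MemS R (e 0) (e 1)) (BDef.uDef inferInstance)

/-- The membership formula. -/
noncomputable def memF : Fm LA := (MemS.v0.fm.ren (clp 2)).noT

theorem memF_bd : memF.bd 2 := bd_noT _ (ren_clp_bd _ 1)

theorem memF_sat (R : Str Lar) (J : R.M → Prop) (w z : R.M) :
    memF.Sat (mkLA R J) (cn w (fun _ => z)) ↔ MemS R w z := by
  unfold memF
  rw [sat_noT, sat_ren]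
  exact MemS.v0.sat R J _ _

theorem seqA (θL : Fm Lar) : Sequential {fA piAll θL} := by
  refine ⟨memF, memF_bd, fun S hS => ?_⟩
  obtain ⟨R, J, rfl, hA⟩ := (mod_A piAll θL S).1 hS
  have := hA.pic
  have hs : ∀ a ∈ seqAx, a.Holds R :=
    piAll_sub hA.ax (by intro a ha; simp only [piAll, List.mem_append]; tauto)
  obtain ⟨⟨x, hx⟩, h2⟩ := seq_of hs
  refine ⟨⟨x, fun y => ?_⟩, fun x y => ?_⟩
  · rw [memF_sat]; exact hx y
  · obtain ⟨z, hz⟩ := h2 x y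
    refine ⟨z, fun w => ?_⟩
    rw [memF_sat, memF_sat]
    exact hz w

/-! ### The interpretation of `S^1_2` in `A` -/

theorem intA (θL : Fm Lar) : NI.Interprets {fA piAll θL} S12 := by
  intro S hS
  obtain ⟨R, J, rfl, hA⟩ := (mod_A piAll θL S).1 hS
  have := hA.pic
  have hv := NI_valid R J hA.cl
  refine ⟨hv, (NI_mod R J hv hA.cl S12).1 ?_⟩
  refine cut_S12 (piAll_sub hA.ax (by intro a ha; simp only [piAll, List.mem_append]; tauto))
    hA.cl hA.init fun x hx => ?_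
  obtain ⟨y, _, hy⟩ := propA_ln hA x hx
  exact ⟨y, hy⟩

/-! ### The theory `U` -/

/-- The theory of all coding structures. -/
def UU (θ θL : Fm Lar) (g : Fm LA → ℕ) : Set (Fm Lar) :=
  {f | f.Closed ∧ ∀ (R : Str Lar) (J T : R.M → Prop), PropA piAll θL R J →
    (∀ σ : Fm LA, σ.Closed → (T (nmS R (g σ)) ↔ ∀ e, σ.Sat (mkLA R J) e)) →
    ∀ (hcl : ClosedU R (XK θ θL R J T)) e, f.Sat (R.sub _ hcl) e}

theorem XK_eq {θ θL : Fm Lar} {R : Str Lar} {J T : R.M → Prop} {E : R.M}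
    (h : ∀ E', codE θ θL R J T E' ↔ E' = E) : XK θ θL R J T = XD R E (FamK θ θL R J T) := by
  funext y
  refine propext ?_
  unfold XK
  constructor
  · rintro ⟨E', hE', hy⟩
    rw [h] at hE'
    rw [← hE']
    exact hy
  · intro hy
    exact ⟨E, (h E).2 rfl, hy⟩

section main
variable {θ θL θh θn : Fm Lar} {g : Fm LA → ℕ} {Θ h' : ℕ → ℕ}

theorem core' (hΘ : ∀ u, Θ u = g (sig D0Q u)) (hθ : Rp θ Θ)
    (hθL : Rp θL (fun n => Lk (up1 n) (up2 n))) (hθh : Rp θh h')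
    (hθn : Rp θn (fun n => (numf n).gn))
    (hg : ∀ σ : Fm LA, σ.Closed → σ.gn = h' (g σ)) {R : Str Lar} {J T : R.M → Prop}
    (hA : PropA piAll θL R J)
    (hT : ∀ σ : Fm LA, σ.Closed → (T (nmS R (g σ)) ↔ ∀ e, σ.Sat (mkLA R J) e)) :
    ∃ hcl : ClosedU R (XK θ θL R J T), InitU R (XK θ θL R J T) ∧
      (∀ x, XK θ θL R J T x → ∃ y, R.ln y = x) ∧
      ∃ h : (MI θh θn).Valid (R.sub _ hcl),
        Mod ((MI θh θn).ind _ h) (addTB {fA piAll θL} NI g) := by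
  have := hA.pic
  have hG : ∀ a ∈ piG, a.Holds R :=
    piAll_sub hA.ax (by intro a ha; simp only [piAll, List.mem_append]; tauto)
  obtain ⟨E, C, hcod, hsh, H⟩ := core D0Q_bd D0Q_dom hΘ hθ hθL hθh hθn hg hA hT
  rw [XK_eq hcod]
  exact ⟨shape_closed hG hsh, shape_init hG hsh, fun x hx => shape_exp hG hsh hx, H _⟩

theorem S12_closed : ∀ f ∈ S12, f.Closed := by
  rintro f ⟨k, a, _, hk, rfl⟩
  exact (a.bd_alls k 0).2 (by rw [zero_add]; exact hk)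

theorem S12_sub (hΘ : ∀ u, Θ u = g (sig D0Q u)) (hθ : Rp θ Θ)
    (hθL : Rp θL (fun n => Lk (up1 n) (up2 n))) (hθh : Rp θh h')
    (hθn : Rp θn (fun n => (numf n).gn))
    (hg : ∀ σ : Fm LA, σ.Closed → σ.gn = h' (g σ)) : S12 ⊆ UU θ θL g := by
  intro f hf
  refine ⟨S12_closed f hf, fun R J T hA hT hcl e => ?_⟩
  have := hA.pic
  obtain ⟨_, hin, hexp, _⟩ := core' hΘ hθ hθL hθh hθn hg hA hT
  exact cut_S12 (piAll_sub hA.ax (by intro a ha; simp only [piAll, List.mem_append]; tauto))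
    hcl hin hexp f hf e

theorem U_in_V (hΘ : ∀ u, Θ u = g (sig D0Q u)) (hθ : Rp θ Θ)
    (hθL : Rp θL (fun n => Lk (up1 n) (up2 n))) (hθh : Rp θh h')
    (hθn : Rp θn (fun n => (numf n).gn))
    (hg : ∀ σ : Fm LA, σ.Closed → σ.gn = h' (g σ)) :
    (KI θ θL).Interprets (addTB {fA piAll θL} NI g) (UU θ θL g) := by
  intro S hS
  obtain ⟨R, J, T, rfl, hA, hT⟩ := mod_addTB_eq piAll θL g S hS
  obtain ⟨hcl, _⟩ := core' hΘ hθ hθL hθh hθn hg hA hT
  obtain ⟨hv, hTh⟩ := interpV_iso (KI θ θL) (P := fun R J T x => XK θ θL R J T x)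
    ⟨KI_D θ θL R J T, KI_F θ θL R J T, KI_R θ θL R J T⟩ hcl
  refine ⟨hv, (hTh _).1 ?_⟩
  intro f hf e
  exact hf.2 R J T hA hT hcl e

theorem V_in_U (hΘ : ∀ u, Θ u = g (sig D0Q u)) (hθ : Rp θ Θ)
    (hθL : Rp θL (fun n => Lk (up1 n) (up2 n))) (hθh : Rp θh h')
    (hθn : Rp θn (fun n => (numf n).gn))
    (hg : ∀ σ : Fm LA, σ.Closed → σ.gn = h' (g σ)) :
    (MI θh θn).Interprets (UU θ θL g) (addTB {fA piAll θL} NI g) := by
  intro Y hY
  have hval : validF (MI θh θn) ∈ UU θ θL g := by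
    refine ⟨?_, fun R J T hA hT hcl e => ?_⟩
    · unfold validF
      exact ⟨⟨(MI θh θn).dom_bd, trivial⟩, trivial⟩
    · obtain ⟨_, _, _, hv, _⟩ := core' hΘ hθ hθL hθh hθn hg hA hT
      exact (sat_validF (MI θh θn) LAT_Fn _ e).2 hv
  obtain ⟨y0⟩ := Y.inh
  have hv : (MI θh θn).Valid Y := (sat_validF (MI θh θn) LAT_Fn Y (fun _ => y0)).1 (hY _ hval _)
  refine ⟨hv, fun f hf e => ?_⟩
  have hfc : f.Closed := by
    rcases hf with ⟨a, ha, rfl⟩ | ⟨σ, hσ, rfl⟩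
    · rw [Set.mem_singleton_iff] at ha
      subst ha
      exact toT_bd (fA_closed piAll θL)
    · have h1 : NI.dom.toT.bd 1 := toT_bd NI.dom_bd
      have h2 : (NI.tm (numeral (g σ))).toT.bd 1 := toT_bd (NI.tm_bd _ (numeral_bd _))
      have h3 : σ.toT.bd 1 := Fm.bd_mono _ (Nat.zero_le 1) (toT_bd hσ)
      have h4 : (fT (.var 0) : Fm LA.addT).bd 1 := by
        intro i
        fin_cases i
        exact Nat.zero_lt_one
      exact ⟨h1, h2, ⟨⟨⟨h4, h3⟩, ⟨h3, h4⟩, trivial⟩, trivial⟩⟩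
  have hmem : trI (MI θh θn) f ∈ UU θ θL g := by
    refine ⟨trI_closed (MI θh θn) LAT_Fn hfc, fun R J T hA hT hcl e => ?_⟩
    obtain ⟨_, _, _, hv, hm⟩ := core' hΘ hθ hθL hθh hθn hg hA hT
    obtain ⟨z0⟩ := ((MI θh θn).ind _ hv).inh
    exact (sat_trI_mod (MI θh θn) LAT_Fn _ hv hfc e (fun _ => z0)).2 (hm f hf _)
  exact (sat_trI_mod (MI θh θn) LAT_Fn Y hv hfc (fun _ => y0) e).1 (hY _ hmem _)

end main

/-- The main theorem. -/
theorem main : ∃ (L : Lang) (A : Set (Fm L)) (N : Interp Lar L),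
    L.FinSig ∧ A.Finite ∧ (∀ f ∈ A, f.Closed) ∧ (∃ S : Str L, Mod S A) ∧ Sequential A ∧
    N.Interprets A S12 ∧
    ∀ g : Fm L → ℕ, EffNum g → ∃ U : Set (Fm Lar), (∀ f ∈ U, f.Closed) ∧ S12 ⊆ U ∧
      MutInt U (addTB A N g) := by
  obtain ⟨θL, _, hθLn, hθL⟩ := rep_of_primrec primrec_lk
  obtain ⟨θn, _, _, hθn⟩ := rep_of_primrec primrec_num
  refine ⟨LA, {fA piAll θL}, NI, ?_, Set.finite_singleton _, ?_, ?_, seqA θL, intA θL, ?_⟩
  · refine ⟨4, fun n hn => ⟨rfl, ?_⟩⟩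
    match n, hn with
    | n + 4, _ => rfl
  · intro f hf
    rw [Set.mem_singleton_iff] at hf
    subst hf
    exact fA_closed piAll θL
  · obtain ⟨R, J, h⟩ := exists_propA piAll θL hθLn
    exact ⟨mkLA R J, (mod_A piAll θL _).2 ⟨R, J, rfl, h⟩⟩
  · rintro g ⟨h, h', hh, hh', hg⟩
    obtain ⟨θh, _, _, hθh⟩ := rep_of_computable hh'
    have hΘc : Computable (fun u => h ((sig D0Q u).gn)) :=
      hh.comp (Primrec.nat_iff.2 (primrec_theta D0Q)).to_comp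
    obtain ⟨θ, _, _, hθ⟩ := rep_of_computable hΘc
    have hΘ : ∀ u, (fun u => h ((sig D0Q u).gn)) u = g (sig D0Q u) := fun u =>
      ((hg _ (sig_closed D0Q_bd u)).1).symm
    have hg' : ∀ σ : Fm LA, σ.Closed → σ.gn = h' (g σ) := fun σ hσ => (hg σ hσ).2
    refine ⟨UU θ θL g, fun f hf => hf.1, S12_sub hΘ hθ hθL hθh hθn hg',
      ⟨KI θ θL, U_in_V hΘ hθ hθL hθh hθn hg'⟩, ⟨MI θh θn, V_in_U hΘ hθ hθL hθh hθn hg'⟩⟩

end Pool.Agent.MP81222b
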