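import Mathlib

/-!
# First-order logic with de Bruijn indices

A small self-contained development of first-order logic with equality over finite signatures.
-/

namespace Pool.Agent.MP81222b

/-- A signature: `Fn n` function symbols and `Rl n` relation symbols of arity `n`. -/
structure Lang where
  Fn : ℕ → ℕ
  Rl : ℕ → ℕ

/-- Terms; `var i` is the variable with de Bruijn index `i`. -/
inductive Tm (L : Lang) : Type
  | var : ℕ → Tm L
  | fn : (n : ℕ) → Fin (L.Fn n) → (Fin n → Tm L) → Tm L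

/-- Formulas of first-order logic with equality; `all f` binds the variable `0` of `f`. -/
inductive Fm (L : Lang) : Type
  | bot : Fm L
  | eq : Tm L → Tm L → Fm L
  | rl : (n : ℕ) → Fin (L.Rl n) → (Fin n → Tm L) → Fm L
  | imp : Fm L → Fm L → Fm L
  | all : Fm L → Fm L

/-- First-order structures (with non-empty carrier). -/
structure Str (L : Lang) where
  M : Type
  inh : Nonempty M
  fn : (n : ℕ) → Fin (L.Fn n) → (Fin n → M) → M
  rl : (n : ℕ) → Fin (L.Rl n) → (Fin n → M) → Prop

/-- Extend an assignment by a new value for the variable `0`. -/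
def cn {M : Type} (x : M) (e : ℕ → M) : ℕ → M
  | 0 => x
  | n + 1 => e n

@[simp] theorem cn_zero {M : Type} (x : M) (e : ℕ → M) : cn x e 0 = x := rfl
@[simp] theorem cn_succ {M : Type} (x : M) (e : ℕ → M) (n : ℕ) : cn x e (n + 1) = e n := rfl
@[simp] theorem cn_one {M : Type} (x : M) (e : ℕ → M) : cn x e 1 = e 0 := rfl
@[simp] theorem cn_two {M : Type} (x : M) (e : ℕ → M) : cn x e 2 = e 1 := rfl
@[simp] theorem cn_three {M : Type} (x : M) (e : ℕ → M) : cn x e 3 = e 2 := rfl
@[simp] theorem cn_four {M : Type} (x : M) (e : ℕ → M) : cn x e 4 = e 3 := rfl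

theorem cn_tail {M : Type} (x : M) (e : ℕ → M) : (fun n => cn x e (n + 1)) = e := rfl

theorem cn_eta {M : Type} (e : ℕ → M) : cn (e 0) (fun n => e (n + 1)) = e := by
  funext n; cases n <;> rfl

theorem comp_cn {M N : Type} (g : M → N) (x : M) (e : ℕ → M) :
    (fun i => g (cn x e i)) = cn (g x) (fun i => g (e i)) := by
  funext n; cases n <;> rfl

variable {L : Lang}

/-- Value of a term. -/
def Tm.val (S : Str L) (e : ℕ → S.M) : Tm L → S.M
  | .var i => e i
  | .fn n f ts => S.fn n f (fun i => (ts i).val S e)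

/-- Satisfaction (Tarski). -/
def Fm.Sat (S : Str L) : Fm L → (ℕ → S.M) → Prop
  | .bot, _ => False
  | .eq t u, e => t.val S e = u.val S e
  | .rl n r ts, e => S.rl n r (fun i => (ts i).val S e)
  | .imp f g, e => f.Sat S e → g.Sat S e
  | .all f, e => ∀ x, f.Sat S (cn x e)

/-- All variables of the term are `< k`. -/
def Tm.bd (k : ℕ) : Tm L → Prop
  | .var i => i < k
  | .fn _ _ ts => ∀ i, (ts i).bd k

/-- All free variables of the formula are `< k`. -/
def Fm.bd : ℕ → Fm L → Prop
  | _, .bot => True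
  | k, .eq t u => t.bd k ∧ u.bd k
  | k, .rl _ _ ts => ∀ i, (ts i).bd k
  | k, .imp f g => f.bd k ∧ g.bd k
  | k, .all f => f.bd (k + 1)

/-- A sentence is a formula without free variables. -/
def Fm.Closed (f : Fm L) : Prop := f.bd 0

/-- Substitution of terms for the variables of a term. -/
def Tm.sub (σ : ℕ → Tm L) : Tm L → Tm L
  | .var i => σ i
  | .fn n f ts => .fn n f (fun i => (ts i).sub σ)

/-- Lifting of a substitution under a quantifier. -/
def lft (σ : ℕ → Tm L) : ℕ → Tm L
  | 0 => .var 0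
  | n + 1 => (σ n).sub (fun i => .var (i + 1))

/-- Capture-free substitution of terms for the free variables of a formula. -/
def Fm.sub : (ℕ → Tm L) → Fm L → Fm L
  | _, .bot => .bot
  | σ, .eq t u => .eq (t.sub σ) (u.sub σ)
  | σ, .rl n r ts => .rl n r (fun i => (ts i).sub σ)
  | σ, .imp f g => .imp (f.sub σ) (g.sub σ)
  | σ, .all f => .all (f.sub (lft σ))

theorem Tm.val_sub (S : Str L) (σ : ℕ → Tm L) (e : ℕ → S.M) (t : Tm L) :
    (t.sub σ).val S e = t.val S (fun i => (σ i).val S e) := by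
  induction t with
  | var i => rfl
  | fn n f ts ih => simp only [Tm.sub, Tm.val, ih]

theorem val_lft (S : Str L) (σ : ℕ → Tm L) (x : S.M) (e : ℕ → S.M) :
    (fun i => (lft σ i).val S (cn x e)) = cn x (fun i => (σ i).val S e) := by
  funext i
  cases i with
  | zero => rfl
  | succ n => simp only [lft, Tm.val_sub, Tm.val, cn_succ]

theorem Fm.sat_sub (S : Str L) (f : Fm L) : ∀ (σ : ℕ → Tm L) (e : ℕ → S.M),
    (f.sub σ).Sat S e ↔ f.Sat S (fun i => (σ i).val S e) := by
  induction f with
  | bot => intro σ e; rfl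
  | eq t u => intro σ e; simp only [Fm.sub, Fm.Sat, Tm.val_sub]
  | rl n r ts => intro σ e; simp only [Fm.sub, Fm.Sat, Tm.val_sub]
  | imp f g ihf ihg => intro σ e; simp only [Fm.sub, Fm.Sat, ihf, ihg]
  | all f ih =>
    intro σ e
    simp only [Fm.sub, Fm.Sat, ih, val_lft]

theorem Tm.val_congr (S : Str L) {k : ℕ} {e e' : ℕ → S.M} (h : ∀ i < k, e i = e' i) (t : Tm L)
    (ht : t.bd k) : t.val S e = t.val S e' := by
  induction t with
  | var i => exact h i ht
  | fn n f ts ih =>
    simp only [Tm.val]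
    congr 1
    funext i
    exact ih i (ht i)

theorem Fm.sat_congr (S : Str L) (f : Fm L) : ∀ {k : ℕ} {e e' : ℕ → S.M},
    (∀ i < k, e i = e' i) → f.bd k → (f.Sat S e ↔ f.Sat S e') := by
  induction f with
  | bot => intro k e e' _ _; rfl
  | eq t u =>
    intro k e e' h hf
    simp only [Fm.Sat, Tm.val_congr S h t hf.1, Tm.val_congr S h u hf.2]
  | rl n r ts =>
    intro k e e' h hf
    simp only [Fm.Sat]
    have : (fun i => (ts i).val S e) = (fun i => (ts i).val S e') := by
      funext i; exact Tm.val_congr S h _ (hf i)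
    rw [this]
  | imp f g ihf ihg =>
    intro k e e' h hf
    simp only [Fm.Sat, ihf h hf.1, ihg h hf.2]
  | all f ih =>
    intro k e e' h hf
    simp only [Fm.Sat]
    refine forall_congr' fun x => ih (k := k + 1) ?_ hf
    intro i hi
    cases i with
    | zero => rfl
    | succ n => exact h n (by omega)

theorem Fm.sat_closed (S : Str L) {f : Fm L} (hf : f.Closed) (e e' : ℕ → S.M) :
    f.Sat S e ↔ f.Sat S e' :=
  f.sat_congr S (k := 0) (fun i hi => absurd hi (Nat.not_lt_zero i)) hf

theorem Tm.bd_mono {k l : ℕ} (h : k ≤ l) (t : Tm L) (ht : t.bd k) : t.bd l := by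
  induction t with
  | var i => exact lt_of_lt_of_le ht h
  | fn n f ts ih => exact fun i => ih i (ht i)

theorem Fm.bd_mono (f : Fm L) : ∀ {k l : ℕ}, k ≤ l → f.bd k → f.bd l := by
  induction f with
  | bot => intro k l _ _; trivial
  | eq t u => intro k l h hf; exact ⟨t.bd_mono h hf.1, u.bd_mono h hf.2⟩
  | rl n r ts => intro k l h hf i; exact (ts i).bd_mono h (hf i)
  | imp f g ihf ihg => intro k l h hf; exact ⟨ihf h hf.1, ihg h hf.2⟩
  | all f ih => intro k l h hf; exact ih (by omega : k + 1 ≤ l + 1) hf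

theorem Tm.bd_sub {k l : ℕ} {σ : ℕ → Tm L} (hσ : ∀ i < k, (σ i).bd l) (t : Tm L) (ht : t.bd k) :
    (t.sub σ).bd l := by
  induction t with
  | var i => exact hσ i ht
  | fn n f ts ih => exact fun i => ih i (ht i)

theorem lft_bd {k l : ℕ} {σ : ℕ → Tm L} (hσ : ∀ i < k, (σ i).bd l) :
    ∀ i < k + 1, (lft σ i).bd (l + 1) := by
  intro i hi
  cases i with
  | zero => exact Nat.succ_pos l
  | succ n =>
    exact Tm.bd_sub (k := l) (fun j hj => by show j + 1 < l + 1; omega) _ (hσ n (by omega))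

theorem Fm.bd_sub (f : Fm L) : ∀ {k l : ℕ} {σ : ℕ → Tm L}, (∀ i < k, (σ i).bd l) → f.bd k →
    (f.sub σ).bd l := by
  induction f with
  | bot => intro k l σ _ _; trivial
  | eq t u => intro k l σ h hf; exact ⟨t.bd_sub h hf.1, u.bd_sub h hf.2⟩
  | rl n r ts => intro k l σ h hf i; exact (ts i).bd_sub h (hf i)
  | imp f g ihf ihg => intro k l σ h hf; exact ⟨ihf h hf.1, ihg h hf.2⟩
  | all f ih => intro k l σ h hf; exact ih (lft_bd h) hf

/-- Every term has only finitely many variables. -/
theorem Tm.exists_bd (t : Tm L) : ∃ k, t.bd k := by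
  induction t with
  | var i => exact ⟨i + 1, Nat.lt_succ_self i⟩
  | fn n f ts ih =>
    choose k hk using ih
    refine ⟨Finset.univ.sup k, fun i => (ts i).bd_mono ?_ (hk i)⟩
    exact Finset.le_sup (f := k) (Finset.mem_univ i)

theorem Fm.exists_bd (f : Fm L) : ∃ k, f.bd k := by
  induction f with
  | bot => exact ⟨0, trivial⟩
  | eq t u =>
    obtain ⟨k, hk⟩ := t.exists_bd
    obtain ⟨l, hl⟩ := u.exists_bd
    exact ⟨max k l, t.bd_mono (le_max_left _ _) hk, u.bd_mono (le_max_right _ _) hl⟩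
  | rl n r ts =>
    choose k hk using fun i => (ts i).exists_bd
    refine ⟨Finset.univ.sup k, fun i => (ts i).bd_mono ?_ (hk i)⟩
    exact Finset.le_sup (f := k) (Finset.mem_univ i)
  | imp f g ihf ihg =>
    obtain ⟨k, hk⟩ := ihf
    obtain ⟨l, hl⟩ := ihg
    exact ⟨max k l, f.bd_mono (le_max_left _ _) hk, g.bd_mono (le_max_right _ _) hl⟩
  | all f ih =>
    obtain ⟨k, hk⟩ := ih
    exact ⟨k, f.bd_mono (Nat.le_succ k) hk⟩

/-- `k` universal quantifiers in front of `f`. -/
def Fm.alls : ℕ → Fm L → Fm L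
  | 0, f => f
  | k + 1, f => .all (Fm.alls k f)

theorem Fm.bd_alls (f : Fm L) : ∀ (k l : ℕ), (Fm.alls k f).bd l ↔ f.bd (l + k) := by
  intro k
  induction k with
  | zero => intro l; rfl
  | succ k ih => intro l; simp only [Fm.alls, Fm.bd, ih]; rw [show l + 1 + k = l + (k + 1) by omega]

theorem Fm.sat_alls (S : Str L) (f : Fm L) : ∀ (k : ℕ) (e : ℕ → S.M),
    (Fm.alls k f).Sat S e ↔ ∀ e' : ℕ → S.M, (∀ i, e' (i + k) = e i) → f.Sat S e' := by
  intro k
  induction k with
  | zero =>
    intro e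
    constructor
    · intro h e' he
      have : e' = e := by funext i; exact he i
      rw [this]; exact h
    · intro h; exact h e (fun i => rfl)
  | succ k ih =>
    intro e
    simp only [Fm.alls, Fm.Sat]
    constructor
    · intro h e' he
      refine (ih (cn (e' k) e)).1 (h (e' k)) e' ?_
      intro i
      cases i with
      | zero => simp
      | succ n => rw [cn_succ, ← he n]; congr 1; omega
    · intro h x
      rw [ih]
      intro e' he
      apply h e'
      intro i
      rw [← cn_succ x e i, ← he (i + 1)]; congr 1; omega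

theorem Fm.sat_alls_closed (S : Str L) (f : Fm L) {k : ℕ} (hf : f.bd k) (e : ℕ → S.M) :
    (Fm.alls k f).Sat S e ↔ ∀ e' : ℕ → S.M, f.Sat S e' := by
  rw [Fm.sat_alls]
  constructor
  · intro h e'
    rw [f.sat_congr S (k := k) (e' := fun i => if i < k then e' i else e (i - k)) (by
      intro i hi; simp [hi]) hf]
    apply h
    intro i
    simp
  · intro h e' _; exact h e'

/-- Derived connectives. -/
def Fm.neg (f : Fm L) : Fm L := .imp f .bot
def Fm.and (f g : Fm L) : Fm L := .neg (.imp f (.neg g))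
def Fm.or (f g : Fm L) : Fm L := .imp (.neg f) g
def Fm.iff (f g : Fm L) : Fm L := .and (.imp f g) (.imp g f)
def Fm.ex (f : Fm L) : Fm L := .neg (.all (.neg f))

@[simp] theorem Fm.sat_neg (S : Str L) (f : Fm L) (e) : (f.neg).Sat S e ↔ ¬ f.Sat S e := Iff.rfl
@[simp] theorem Fm.sat_and (S : Str L) (f g : Fm L) (e) :
    (f.and g).Sat S e ↔ f.Sat S e ∧ g.Sat S e := by
  simp only [Fm.and, Fm.sat_neg, Fm.Sat]; tauto
@[simp] theorem Fm.sat_or (S : Str L) (f g : Fm L) (e) :
    (f.or g).Sat S e ↔ f.Sat S e ∨ g.Sat S e := by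
  simp only [Fm.or, Fm.sat_neg, Fm.Sat]; tauto
@[simp] theorem Fm.sat_iff (S : Str L) (f g : Fm L) (e) :
    (f.iff g).Sat S e ↔ (f.Sat S e ↔ g.Sat S e) := by
  simp only [Fm.iff, Fm.sat_and, Fm.Sat]; tauto
@[simp] theorem Fm.sat_ex (S : Str L) (f : Fm L) (e) :
    (f.ex).Sat S e ↔ ∃ x, f.Sat S (cn x e) := by
  simp only [Fm.ex, Fm.sat_neg, Fm.Sat]; push Not; rfl

/-- Satisfaction is invariant under isomorphism. -/
theorem Tm.val_iso (S S' : Str L) (φ : S.M → S'.M)
    (hfn : ∀ n f a, φ (S.fn n f a) = S'.fn n f (fun i => φ (a i))) (e : ℕ → S.M) (t : Tm L) :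
    φ (t.val S e) = t.val S' (fun i => φ (e i)) := by
  induction t with
  | var i => rfl
  | fn n f ts ih => simp only [Tm.val, hfn, ih]

theorem Fm.sat_iso (S S' : Str L) (φ : S.M → S'.M) (hinj : Function.Injective φ)
    (hsur : Function.Surjective φ)
    (hfn : ∀ n f a, φ (S.fn n f a) = S'.fn n f (fun i => φ (a i)))
    (hrl : ∀ n r a, S.rl n r a ↔ S'.rl n r (fun i => φ (a i))) (f : Fm L) :
    ∀ e : ℕ → S.M, f.Sat S e ↔ f.Sat S' (fun i => φ (e i)) := by
  induction f with
  | bot => intro e; rfl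
  | eq t u =>
    intro e
    simp only [Fm.Sat, ← Tm.val_iso S S' φ hfn]
    exact hinj.eq_iff.symm
  | rl n r ts =>
    intro e
    simp only [Fm.Sat, ← Tm.val_iso S S' φ hfn, hrl]
  | imp f g ihf ihg => intro e; simp only [Fm.Sat, ihf, ihg]
  | all f ih =>
    intro e
    simp only [Fm.Sat, ih, comp_cn]
    exact ⟨fun h y => by obtain ⟨x, rfl⟩ := hsur y; exact h x, fun h x => h (φ x)⟩

/-! ### Theories -/

/-- A structure is a model of a set of sentences. -/
def Mod (S : Str L) (T : Set (Fm L)) : Prop := ∀ f ∈ T, ∀ e, f.Sat S e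

end Pool.Agent.MP81222b
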