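import Pool.Agent.Lib.MP_81222b_lc.LA

/-!
# The query sentences of the greedy Henkin construction
-/

namespace Pool.Agent.MP81222b

variable {L : Lang}

/-- First `n` values from `a`, the others from `e`. -/
def glue {M : Type} (n : ℕ) (a e : ℕ → M) : ℕ → M := fun i => if i < n then a i else e (i - n)

theorem glue_lt {M : Type} {n i : ℕ} (a e : ℕ → M) (h : i < n) : glue n a e i = a i := if_pos h
theorem glue_add {M : Type} (n i : ℕ) (a e : ℕ → M) : glue n a e (n + i) = e i := by
  unfold glue; rw [if_neg (by omega)]; congr 1; omega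

theorem glue_succ {M : Type} (n : ℕ) (a e : ℕ → M) (x : M) :
    glue (n + 1) (fun i => if i = n then x else a i) e = glue n a (cn x e) := by
  funext i
  rcases lt_trichotomy i n with h1 | h1 | h1
  · rw [glue_lt _ _ (by omega), glue_lt _ _ h1]
    exact if_neg (by omega)
  · subst h1
    rw [glue_lt _ _ (by omega)]
    have : glue i a (cn x e) (i + 0) = cn x e 0 := glue_add i 0 a (cn x e)
    rw [show (if i = i then x else a i) = x from if_pos rfl]
    exact this.symm
  · obtain ⟨k, rfl⟩ := Nat.exists_eq_add_of_lt h1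
    rw [show n + k + 1 = (n + 1) + k by omega, glue_add,
      show (n + 1) + k = n + (k + 1) by omega, glue_add]
    rfl

theorem glue_succ' {M : Type} (n : ℕ) (a e : ℕ → M) :
    glue n a (cn (a n) e) = glue (n + 1) a e := by
  rw [← glue_succ]
  congr 1
  funext i
  by_cases h : i = n
  · rw [if_pos h, h]
  · rw [if_neg h]

theorem sat_exs (S : Str L) (f : Fm L) : ∀ (n : ℕ) (e : ℕ → S.M),
    (Fm.exs n f).Sat S e ↔ ∃ a : ℕ → S.M, f.Sat S (glue n a e) := by
  intro n
  induction n with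
  | zero =>
    intro e
    have : ∀ a : ℕ → S.M, glue 0 a e = e := by intro a; funext i; simp [glue]
    simp only [Fm.exs, this]
    obtain ⟨x⟩ := S.inh
    exact ⟨fun h => ⟨fun _ => x, h⟩, fun ⟨_, h⟩ => h⟩
  | succ n ih =>
    intro e
    simp only [Fm.exs, Fm.sat_ex, ih]
    constructor
    · rintro ⟨x, a, h⟩
      exact ⟨fun i => if i = n then x else a i, by rw [glue_succ]; exact h⟩
    · rintro ⟨a, h⟩
      exact ⟨a n, a, by rw [glue_succ']; exact h⟩

theorem exs_bd (f : Fm L) : ∀ (n k : ℕ), (Fm.exs n f).bd k ↔ f.bd (k + n) := by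
  intro n
  induction n with
  | zero => intro k; rfl
  | succ n ih =>
    intro k
    simp only [Fm.exs, Fm.ex, Fm.neg, Fm.bd, and_true, ih]
    rw [show k + 1 + n = k + (n + 1) by omega]

theorem bd_and {f g : Fm L} {k : ℕ} : (f.and g).bd k ↔ f.bd k ∧ g.bd k := by
  simp only [Fm.and, Fm.neg, Fm.bd, and_true]
theorem bd_neg {f : Fm L} {k : ℕ} : (f.neg).bd k ↔ f.bd k := by
  simp only [Fm.neg, Fm.bd, and_true]

/-- Conjunction of `g 0, …, g (n-1)`. -/
def cj : ℕ → (ℕ → Fm L) → Fm L
  | 0, _ => .neg .bot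
  | n + 1, g => .and (cj n g) (g n)

theorem sat_cj (S : Str L) (g : ℕ → Fm L) (e) : ∀ n, (cj n g).Sat S e ↔ ∀ i < n, (g i).Sat S e := by
  intro n
  induction n with
  | zero => simp [cj, Fm.Sat]
  | succ n ih =>
    simp only [cj, Fm.sat_and, ih]
    constructor
    · rintro ⟨h1, h2⟩ i hi
      rcases Nat.lt_succ_iff_lt_or_eq.1 hi with h | rfl
      · exact h1 i h
      · exact h2
    · intro h; exact ⟨fun i hi => h i (by omega), h n (by omega)⟩

theorem cj_bd (g : ℕ → Fm L) (k : ℕ) : ∀ n, (∀ i < n, (g i).bd k) → (cj n g).bd k := by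
  intro n
  induction n with
  | zero => intro _; exact ⟨trivial, trivial⟩
  | succ n ih =>
    intro h
    rw [cj, bd_and]
    exact ⟨ih fun i hi => h i (by omega), h n (by omega)⟩

section
variable (D0 : Fm LA)

/-- `x` satisfies the domain formula. -/
def DomD (S : Str LA) (x : S.M) : Prop := D0.Sat S (fun _ => x)

/-- Relativisation of quantifiers to the domain formula. -/
def relQ : Fm LA → Fm LA
  | .bot => .bot
  | .eq t u => .eq t u
  | .rl n r ts => .rl n r ts
  | .imp f g => .imp (relQ f) (relQ g)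
  | .all f => .all (.imp D0 (relQ f))

variable {D0} (hD0 : D0.bd 1)
include hD0

theorem sat_D0 (S : Str LA) (x : S.M) (e) : D0.Sat S (cn x e) ↔ DomD D0 S x :=
  D0.sat_congr S (k := 1) (by intro i hi; interval_cases i; rfl) hD0

theorem relQ_bd (f : Fm LA) : ∀ k, f.bd k → (relQ D0 f).bd k := by
  induction f with
  | bot => intro k h; exact h
  | eq t u => intro k h; exact h
  | rl n r ts => intro k h; exact h
  | imp f g ihf ihg => intro k h; exact ⟨ihf k h.1, ihg k h.2⟩
  | all f ih => intro k h; exact ⟨D0.bd_mono (by omega) hD0, ih _ h⟩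

omit hD0 in
/-- A relational language: every non-empty set is the carrier of a substructure. -/
theorem closedLA (S : Str LA) (D : S.M → Prop) (h : ∃ x, D x) : ClosedU S D :=
  ⟨h, fun _ f _ _ => (f : Fin 0).elim0⟩

theorem sat_relQ (S : Str LA) (h : ∃ x, DomD D0 S x) (f : Fm LA) :
    ∀ e : ℕ → (S.sub (DomD D0 S) (closedLA S _ h)).M,
    (relQ D0 f).Sat S (fun i => (e i).1) ↔ f.Sat (S.sub (DomD D0 S) (closedLA S _ h)) e := by
  induction f with
  | bot => intro e; rfl
  | eq t u =>
    intro e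
    simp only [relQ, Fm.Sat, ← Tm.val_substr S (DomD D0 S) (closedLA S _ h) e]
    exact Subtype.ext_iff.symm
  | rl n r ts =>
    intro e
    simp only [relQ, Fm.Sat, ← Tm.val_substr S (DomD D0 S) (closedLA S _ h) e]
  | imp f g ihf ihg => intro e; simp only [relQ, Fm.Sat, ihf, ihg]
  | all f ih =>
    intro e
    simp only [relQ, Fm.Sat, sat_D0 hD0]
    constructor
    · intro H x
      rw [← ih, sub_coe_cn]
      exact H x.1 x.2
    · intro H x hx
      have := (ih (cn ⟨x, hx⟩ e)).2 (H ⟨x, hx⟩)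
      rw [sub_coe_cn] at this
      exact this

omit hD0 in
/-- The formula `F` at the assignment `a ↦ x_{Lk s a}` (for `a < B`). -/
def yb (B : ℕ) (F : Fm LA) (s : ℕ) : Fm LA :=
  Fm.exs B (.and (cj B (fun a => .eq (.var a) (.var (B + Lk s a)))) F)

omit hD0 in
theorem sat_yb (S : Str LA) {B : ℕ} {F : Fm LA} (hF : F.bd B) (s : ℕ) (e : ℕ → S.M) :
    (yb B F s).Sat S e ↔ F.Sat S (fun a => e (Lk s a)) := by
  unfold yb
  rw [sat_exs]
  simp only [Fm.sat_and, sat_cj, Fm.Sat, val_var]
  have key : ∀ a : ℕ → S.M, (∀ i < B, glue B a e i = glue B a e (B + Lk s i)) →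
      (F.Sat S (glue B a e) ↔ F.Sat S (fun a => e (Lk s a))) := by
    intro a ha
    refine F.sat_congr S (k := B) (fun i hi => ?_) hF
    rw [ha i hi, glue_add]
  constructor
  · rintro ⟨a, h1, h2⟩
    exact (key a h1).1 h2
  · intro h
    refine ⟨fun i => e (Lk s i), ?_, ?_⟩
    · intro i hi
      rw [glue_add, glue_lt _ _ hi]
    · refine (key _ ?_).2 h
      intro i hi
      rw [glue_add, glue_lt _ _ hi]

omit hD0 in
theorem yb_bd {B K : ℕ} {F : Fm LA} (hF : F.bd B) {s : ℕ} (hs : ∀ a < B, Lk s a < K) :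
    (yb B F s).bd K := by
  unfold yb
  rw [exs_bd, bd_and]
  refine ⟨cj_bd _ _ _ fun i hi => ⟨?_, ?_⟩, F.bd_mono (by omega) hF⟩
  · show i < K + B; omega
  · show B + Lk s i < K + B
    have := hs i hi; omega

omit hD0 in
/-- The literal of stage `k` (decision `b`). -/
def lit (D0 : Fm LA) (k : ℕ) (b : Bool) : Fm LA :=
  if b then yb (k + 1) (relQ D0 (dec (up1 k))) (up2 k)
  else if up1 k ≠ 0 ∧ up1 k % 4 = 0 then
    .neg (yb (k + 1) (relQ D0 (dec (up1 k / 4 - 1))) (consN k (up2 k)))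
  else .neg (yb (k + 1) (relQ D0 (dec (up1 k))) (up2 k))

theorem lit_bd (k : ℕ) (b : Bool) : (lit D0 k b).bd (k + 1) := by
  have h1 := up1_le k
  have h2 := up2_le k
  have h3 : ∀ a, Lk (up2 k) a < k + 1 := fun a => by have := Lk_le (up2 k) a; omega
  unfold lit
  split_ifs with hb ha
  · exact yb_bd (relQ_bd hD0 _ _ ((dec _).bd_mono (by omega) (dec_bd _))) fun a _ => h3 a
  · rw [bd_neg]
    refine yb_bd (relQ_bd hD0 _ _ ((dec _).bd_mono (by omega) (dec_bd _))) fun a _ => ?_
    cases a with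
    | zero => rw [Lk_cons_zero]; omega
    | succ a => rw [Lk_cons_succ]; exact h3 a
  · rw [bd_neg]
    exact yb_bd (relQ_bd hD0 _ _ ((dec _).bd_mono (by omega) (dec_bd _))) fun a _ => h3 a

omit hD0 in
/-- Semantic literal in the structure `Q`. -/
def LitS (Q : Str LA) (k : ℕ) (b : Prop) (x : ℕ → Q.M) : Prop :=
  (b → (dec (up1 k)).Sat Q (fun a => x (Lk (up2 k) a))) ∧
  (¬ b → (up1 k ≠ 0 ∧ up1 k % 4 = 0 →
      ¬ (dec (up1 k / 4 - 1)).Sat Q (cn (x k) (fun a => x (Lk (up2 k) a)))) ∧
    (¬ (up1 k ≠ 0 ∧ up1 k % 4 = 0) → ¬ (dec (up1 k)).Sat Q (fun a => x (Lk (up2 k) a))))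

theorem sat_lit (S : Str LA) (h : ∃ x, DomD D0 S x) (k : ℕ) (b : Bool)
    (x : ℕ → (S.sub (DomD D0 S) (closedLA S _ h)).M) :
    (lit D0 k b).Sat S (fun i => (x i).1) ↔ LitS (S.sub (DomD D0 S) (closedLA S _ h)) k b x := by
  have h1 := up1_le k
  have A : (yb (k + 1) (relQ D0 (dec (up1 k))) (up2 k)).Sat S (fun i => (x i).1) ↔
      (dec (up1 k)).Sat (S.sub (DomD D0 S) (closedLA S _ h)) (fun a => x (Lk (up2 k) a)) := by
    rw [sat_yb S (relQ_bd hD0 _ _ ((dec _).bd_mono (by omega) (dec_bd _)))]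
    exact sat_relQ hD0 S h _ (fun a => x (Lk (up2 k) a))
  have B : (yb (k + 1) (relQ D0 (dec (up1 k / 4 - 1))) (consN k (up2 k))).Sat S
        (fun i => (x i).1) ↔
      (dec (up1 k / 4 - 1)).Sat (S.sub (DomD D0 S) (closedLA S _ h))
        (cn (x k) (fun a => x (Lk (up2 k) a))) := by
    rw [sat_yb S (relQ_bd hD0 _ _ ((dec _).bd_mono (by omega) (dec_bd _)))]
    rw [← sat_relQ hD0 S h _ (cn (x k) (fun a => x (Lk (up2 k) a)))]
    have : (fun a => (x (Lk (consN k (up2 k)) a)).1) =
        (fun i => (cn (x k) (fun a => x (Lk (up2 k) a)) i).1) := by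
      funext a
      cases a with
      | zero => rw [Lk_cons_zero]; rfl
      | succ a => rw [Lk_cons_succ]; rfl
    rw [this]
  unfold lit LitS
  cases b with
  | true =>
    simp only [if_true, A, forall_const, not_true_eq_false, false_imp_iff, and_true]
  | false =>
    simp only [Bool.false_eq_true, if_false, false_imp_iff, true_and, not_false_eq_true,
      forall_const]
    split_ifs with hc
    · simp only [Fm.sat_neg, B]
      exact ⟨fun h => ⟨fun _ => h, fun h' => absurd hc h'⟩, fun h => h.1 hc⟩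
    · simp only [Fm.sat_neg, A]
      exact ⟨fun h => ⟨fun h' => absurd h' hc, fun _ => h⟩, fun h => h.2 hc⟩

omit hD0 in
/-- A relativised existential quantifier. -/
def exQ (D0 f : Fm LA) : Fm LA := .ex (.and D0 f)

omit hD0 in
/-- Iterated relativised existential quantifiers. -/
def exQs (D0 : Fm LA) : ℕ → Fm LA → Fm LA
  | 0, f => f
  | n + 1, f => exQ D0 (exQs D0 n f)

theorem exQs_bd (f : Fm LA) : ∀ n k, f.bd (k + n) → (exQs D0 n f).bd k := by
  intro n
  induction n with
  | zero => intro k h; exact h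
  | succ n ih =>
    intro k h
    have h1 := ih (k + 1) (by rw [show k + 1 + n = k + (n + 1) by omega]; exact h)
    have h2 : (Fm.and D0 (exQs D0 n f)).bd (k + 1) := by
      rw [bd_and]; exact ⟨D0.bd_mono (by omega) hD0, h1⟩
    exact ⟨⟨h2, trivial⟩, trivial⟩

theorem sat_exQs (S : Str LA) (f : Fm LA) : ∀ (n : ℕ) (e : ℕ → S.M),
    (exQs D0 n f).Sat S e ↔ ∃ a : ℕ → S.M, (∀ i < n, DomD D0 S (a i)) ∧
      f.Sat S (glue n a e) := by
  intro n
  induction n with
  | zero =>
    intro e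
    have : ∀ a : ℕ → S.M, glue 0 a e = e := by intro a; funext i; simp [glue]
    simp only [exQs, this]
    obtain ⟨x⟩ := S.inh
    exact ⟨fun h => ⟨fun _ => x, by simp, h⟩, fun ⟨_, _, h⟩ => h⟩
  | succ n ih =>
    intro e
    simp only [exQs, exQ, Fm.sat_ex, Fm.sat_and, ih, sat_D0 hD0]
    constructor
    · rintro ⟨x, hx, a, ha, h⟩
      refine ⟨fun i => if i = n then x else a i, ?_, ?_⟩
      · intro i hi
        by_cases h1 : i = n
        · simp only [h1, if_true]; exact hx
        · simp only [h1, if_false]; exact ha i (by omega)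
      rw [glue_succ]; exact h
    · rintro ⟨a, ha, h⟩
      exact ⟨a n, ha n (by omega), a, fun i hi => ha i (by omega), by rw [glue_succ']; exact h⟩

end

/-! ### Strings of decisions in base four -/

/-- Length of a string. -/
def kk (u : ℕ) : ℕ := if u < 4 then 0 else kk (u / 4) + 1
termination_by u
decreasing_by omega

/-- Decision `k` of the string `u`. -/
def dg (u : ℕ) (k : ℕ) : Prop := if u < 4 then False else if k = kk (u / 4) then u % 4 = 2
  else dg (u / 4) k
termination_by u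
decreasing_by omega

/-- The conjunction of the literals of the string `u`. -/
def Psi (D0 : Fm LA) (u : ℕ) : Fm LA :=
  if u < 4 then .neg .bot
  else .and (Psi D0 (u / 4)) (lit D0 (kk (u / 4)) (decide (u % 4 = 2)))
termination_by u
decreasing_by omega

/-- The query sentence of the string `u`. -/
def sig (D0 : Fm LA) (u : ℕ) : Fm LA :=
  exQs D0 (kk u + 1) (.and (Psi D0 u) (lit D0 (kk u) true))

theorem kk_lt {u : ℕ} (h : u < 4) : kk u = 0 := by rw [kk, if_pos h]
theorem kk_ge {u : ℕ} (h : ¬ u < 4) : kk u = kk (u / 4) + 1 := by rw [kk, if_neg h]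

theorem Psi_bd {D0 : Fm LA} (hD0 : D0.bd 1) (u : ℕ) : (Psi D0 u).bd (kk u) := by
  induction u using Nat.strong_induction_on with
  | _ u ih =>
    rw [Psi]
    split_ifs with h
    · exact ⟨trivial, trivial⟩
    · rw [bd_and, kk_ge h]
      exact ⟨Fm.bd_mono _ (Nat.le_succ _) (ih (u / 4) (by omega)), lit_bd hD0 _ _⟩

theorem sig_closed {D0 : Fm LA} (hD0 : D0.bd 1) (u : ℕ) : (sig D0 u).Closed := by
  refine exQs_bd hD0 _ _ 0 ?_
  rw [bd_and]
  exact ⟨Fm.bd_mono _ (by omega) (Psi_bd hD0 u), Fm.bd_mono _ (by omega) (lit_bd hD0 _ _)⟩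

theorem sat_Psi {D0 : Fm LA} (hD0 : D0.bd 1) (S : Str LA) (h : ∃ x, DomD D0 S x) (u : ℕ)
    (x : ℕ → (S.sub (DomD D0 S) (closedLA S _ h)).M) :
    (Psi D0 u).Sat S (fun i => (x i).1) ↔
      ∀ k < kk u, LitS (S.sub (DomD D0 S) (closedLA S _ h)) k (dg u k) x := by
  induction u using Nat.strong_induction_on with
  | _ u ih =>
    rw [Psi]
    split_ifs with hu
    · rw [kk_lt hu]
      simp [Fm.Sat]
    · rw [Fm.sat_and, ih (u / 4) (by omega), sat_lit hD0 S h, kk_ge hu]
      have hdg : ∀ k, dg u k = if k = kk (u / 4) then u % 4 = 2 else dg (u / 4) k := by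
        intro k; rw [dg, if_neg hu]
      constructor
      · rintro ⟨h1, h2⟩ k hk
        rw [hdg]
        by_cases hk' : k = kk (u / 4)
        · rw [if_pos hk', hk']
          simpa using h2
        · rw [if_neg hk']
          exact h1 k (by omega)
      · intro H
        constructor
        · intro k hk
          have := H k (by omega)
          rw [hdg, if_neg (by omega)] at this
          exact this
        · have := H (kk (u / 4)) (by omega)
          rw [hdg, if_pos rfl] at this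
          simpa using this

/-- The meaning of the query sentence. -/
theorem sat_sig {D0 : Fm LA} (hD0 : D0.bd 1) (S : Str LA) (h : ∃ x, DomD D0 S x) (u : ℕ)
    (e : ℕ → S.M) : (sig D0 u).Sat S e ↔
      ∃ x : ℕ → (S.sub (DomD D0 S) (closedLA S _ h)).M,
        (∀ k < kk u, LitS (S.sub (DomD D0 S) (closedLA S _ h)) k (dg u k) x) ∧
        (dec (up1 (kk u))).Sat (S.sub (DomD D0 S) (closedLA S _ h))
          (fun a => x (Lk (up2 (kk u)) a)) := by
  have hbd : (Fm.and (Psi D0 u) (lit D0 (kk u) true)).bd (kk u + 1) := by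
    rw [bd_and]
    exact ⟨Fm.bd_mono _ (by omega) (Psi_bd hD0 u), lit_bd hD0 _ _⟩
  have hL : ∀ x : ℕ → (S.sub (DomD D0 S) (closedLA S _ h)).M,
      (Fm.and (Psi D0 u) (lit D0 (kk u) true)).Sat S (fun i => (x i).1) ↔
      ((∀ k < kk u, LitS (S.sub (DomD D0 S) (closedLA S _ h)) k (dg u k) x) ∧
        (dec (up1 (kk u))).Sat (S.sub (DomD D0 S) (closedLA S _ h))
          (fun a => x (Lk (up2 (kk u)) a))) := by
    intro x
    rw [Fm.sat_and, sat_Psi hD0 S h, sat_lit hD0 S h]
    simp [LitS]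
  unfold sig
  rw [sat_exQs hD0]
  constructor
  · rintro ⟨a, ha, hs⟩
    obtain ⟨x0, hx0⟩ := h
    classical
    refine ⟨fun i => if hi : i < kk u + 1 then ⟨a i, ha i hi⟩ else ⟨x0, hx0⟩, ?_⟩
    rw [← hL]
    refine (Fm.sat_congr S _ (k := kk u + 1) (fun i hi => ?_) hbd).1 hs
    rw [glue_lt _ _ hi]
    simp only [hi, dif_pos]
  · rintro ⟨x, hx⟩
    rw [← hL] at hx
    refine ⟨fun i => (x i).1, fun i _ => (x i).2, ?_⟩
    refine (Fm.sat_congr S _ (k := kk u + 1) (fun i hi => ?_) hbd).1 hx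
    rw [glue_lt _ _ hi]

end Pool.Agent.MP81222b
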