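import Pool.Agent.Lib.MP_81222b_lc.AForm

/-!
# The interpretations `K` and `M`
-/

namespace Pool.Agent.MP81222b

variable {L : Lang}

/-- Renaming all variables `≥ n` to `0`. -/
def clp (n : ℕ) (i : ℕ) : ℕ := if i < n then i else 0

theorem ren_clp_bd (f : Fm L) (n : ℕ) : (f.ren (clp (n + 1))).bd (n + 1) := by
  obtain ⟨k, hk⟩ := f.exists_bd
  unfold Fm.ren
  refine f.bd_sub (k := k) (fun i _ => ?_) hk
  show clp (n + 1) i < n + 1
  unfold clp
  split_ifs <;> omega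

/-- Formula of a definable predicate of triples. -/
noncomputable def VDef.fm {P : (R : Str Lar) → (J T : R.M → Prop) → (ℕ → R.M) → Prop}
    (h : VDef P) : Fm LA.addT := h.ex.choose
theorem VDef.sat {P : (R : Str Lar) → (J T : R.M → Prop) → (ℕ → R.M) → Prop}
    (h : VDef P) (R : Str Lar) (J T : R.M → Prop) (e : ℕ → R.M) :
    h.fm.Sat (mkLT R J T) e ↔ P R J T e := (h.ex.choose_spec R J T e).symm

/-- Formula of a definable predicate. -/
noncomputable def UDef.fm {P : (S : Str L) → (ℕ → S.M) → Prop} (h : UDef P) : Fm L := h.ex.choose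
theorem UDef.sat {P : (S : Str L) → (ℕ → S.M) → Prop} (h : UDef P) (S : Str L) (e : ℕ → S.M) :
    h.fm.Sat S e ↔ P S e := (h.ex.choose_spec S e).symm

/-! ### Graph formulas for the functions of `Lar` -/

/-- Shifts of indices. -/
def sh1 (f : Fin 3) : Fin 9 := ⟨f.1 + 1, by have := f.2; omega⟩
def sh4 (f : Fin 3) : Fin 9 := ⟨f.1 + 4, by have := f.2; omega⟩

/-- Graphs of the functions of `Lar`. -/
def gF : (n : ℕ) → Fin (Lar.Fn n) → Fm LA
  | 0, _ => fR 0 0 0 0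
  | 1, f => fR (sh1 f) 1 0 0
  | 2, f => fR (sh4 f) 1 2 0
  | _ + 3, f => (f : Fin 0).elim0

/-- The relations of `Lar`. -/
def gRl : (n : ℕ) → Fin (Lar.Rl n) → Fm LA
  | 0, r => (r : Fin 0).elim0
  | 1, r => (r : Fin 0).elim0
  | 2, _ => fR 7 0 1 0
  | _ + 3, r => (r : Fin 0).elim0

theorem gF_bd (n : ℕ) (f : Fin (Lar.Fn n)) : (gF n f).bd (n + 1) := by
  match n, f with
  | 0, f => exact fR_bd (by omega) (by omega) (by omega)
  | 1, f => exact fR_bd (by omega) (by omega) (by omega)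
  | 2, f => exact fR_bd (by omega) (by omega) (by omega)
  | n + 3, f => exact (f : Fin 0).elim0

theorem gRl_bd (n : ℕ) (r : Fin (Lar.Rl n)) : (gRl n r).bd n := by
  match n, r with
  | 0, r => exact (r : Fin 0).elim0
  | 1, r => exact (r : Fin 0).elim0
  | 2, r => exact fR_bd (by omega) (by omega) (by omega)
  | n + 3, r => exact (r : Fin 0).elim0

theorem sat_gF (R : Str Lar) (J : R.M → Prop) (n : ℕ) (f : Fin (Lar.Fn n)) (a : Fin n → R.M)
    (e : ℕ → R.M) (he : ∀ i : Fin n, e i = a i) (y : R.M) :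
    (gF n f).Sat (mkLA R J) (cn y e) ↔ y = R.fn n f a := by
  match n, f, a, he with
  | 0, f, a, he =>
    show (fR 0 0 0 0).Sat (mkLA R J) (cn y e) ↔ _
    rw [sat_fR]
    show y = R.zr ↔ _
    have h1 : R.zr = R.fn 0 f a := by
      unfold Str.zr
      rw [show f = (⟨0, Nat.one_pos⟩ : Fin 1) from Subsingleton.elim (α := Fin 1) _ _]
      congr 1
      exact vec0.symm
    rw [h1]
  | 1, f, a, he =>
    have ha : a = ![e 0] := by rw [vec1 a, ← he 0]; rfl
    show (fR (sh1 f) 1 0 0).Sat (mkLA R J) (cn y e) ↔ _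
    rw [sat_fR, ha]
    have h3 : (f : Fin 3) = ⟨0, by decide⟩ ∨ (f : Fin 3) = ⟨1, by decide⟩ ∨
      (f : Fin 3) = ⟨2, by decide⟩ := fin3 f
    rcases h3 with rfl | rfl | rfl <;> exact Iff.rfl
  | 2, f, a, he =>
    have ha : a = ![e 0, e 1] := by rw [vec2 a, ← he 0, ← he 1]; rfl
    show (fR (sh4 f) 1 2 0).Sat (mkLA R J) (cn y e) ↔ _
    rw [sat_fR, ha]
    have h3 : (f : Fin 3) = ⟨0, by decide⟩ ∨ (f : Fin 3) = ⟨1, by decide⟩ ∨
      (f : Fin 3) = ⟨2, by decide⟩ := fin3 f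
    rcases h3 with rfl | rfl | rfl <;> exact Iff.rfl
  | n + 3, f, a, he => exact (f : Fin 0).elim0

theorem sat_gRl (R : Str Lar) (J : R.M → Prop) (n : ℕ) (r : Fin (Lar.Rl n)) (a : Fin n → R.M)
    (e : ℕ → R.M) (he : ∀ i : Fin n, e i = a i) :
    (gRl n r).Sat (mkLA R J) e ↔ R.rl n r a := by
  match n, r, a, he with
  | 0, r, a, he => exact (r : Fin 0).elim0
  | 1, r, a, he => exact (r : Fin 0).elim0
  | 2, r, a, he =>
    have ha : a = ![e 0, e 1] := by rw [vec2 a, ← he 0, ← he 1]; rfl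
    show (fR 7 0 1 0).Sat (mkLA R J) e ↔ _
    rw [sat_fR, ha]
    have hr : r = (⟨0, by decide⟩ : Fin 1) := Subsingleton.elim (α := Fin 1) _ _
    rw [hr]
    exact Iff.rfl
  | n + 3, r, a, he => exact (r : Fin 0).elim0

theorem toT_tm_bd {t : Tm L} : ∀ {k : ℕ}, t.bd k → t.toT.bd k := by
  induction t with
  | var i => intro k h; exact h
  | fn n f ts ih => intro k h i; exact ih i (h i)

theorem toT_bd {f : Fm L} : ∀ {k : ℕ}, f.bd k → f.toT.bd k := by
  induction f with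
  | bot => intro k _; trivial
  | eq t u => intro k h; exact ⟨toT_tm_bd h.1, toT_tm_bd h.2⟩
  | rl n r ts => intro k h i; exact toT_tm_bd (h i)
  | imp f g hf hg => intro k h; exact ⟨hf h.1, hg h.2⟩
  | all f hf => intro k h; exact hf (k := k + 1) h

/-- The interpretation of arithmetic with definable domain. -/
noncomputable def KI (θ θL : Fm Lar) : Interp Lar LA.addT where
  dom := (XK.v0 θ θL).fm.ren (clp 1)
  fn := fun n f => (gF n f).toT
  rl := fun n r => (gRl n r).toT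
  dom_bd := ren_clp_bd _ 0
  fn_bd := fun n f => toT_bd (gF_bd n f)
  rl_bd := fun n r => toT_bd (gRl_bd n r)

theorem KI_D (θ θL : Fm Lar) (R : Str Lar) (J T : R.M → Prop) (x : R.M) :
    (KI θ θL).D (mkLT R J T) x ↔ XK θ θL R J T x := by
  unfold Interp.D KI
  rw [sat_ren]
  exact VDef.sat _ R J T _

theorem KI_F (θ θL : Fm Lar) (R : Str Lar) (J T : R.M → Prop) (n : ℕ) (f : Fin (Lar.Fn n))
    (a : Fin n → R.M) (y : R.M) : (KI θ θL).F (mkLT R J T) n f a y ↔ y = R.fn n f a := by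
  unfold Interp.F KI
  rw [sat_toT]
  exact sat_gF R J n f a _ (fun i => xt_lt _ _ i.2) y

theorem KI_R (θ θL : Fm Lar) (R : Str Lar) (J T : R.M → Prop) (n : ℕ) (r : Fin (Lar.Rl n))
    (a : Fin n → R.M) : (KI θ θL).R (mkLT R J T) n r a ↔ R.rl n r a := by
  unfold Interp.R KI
  rw [sat_toT]
  exact sat_gRl R J n r a _ (fun i => xt_lt _ _ i.2)

/-! ### The decoding interpretation -/

/-- The formulas for the relations of the decoded structure. -/
noncomputable def mRl (θh θn : Fm Lar) : (n : ℕ) → Fin (LA.addT.Rl n) → Fm Lar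
  | 0, r => (r : Fin 0).elim0
  | 1, _ => (TM.u0 θh θn).fm.ren (clp 1)
  | 2, r => (r : Fin 0).elim0
  | 3, r => (relM.u0 (r : Fin 9).1).fm.ren (clp 3)
  | _ + 4, r => (r : Fin 0).elim0

/-- The decoding interpretation. -/
noncomputable def MI (θh θn : Fm Lar) : Interp LA.addT Lar where
  dom := domM.u0.fm.ren (clp 1)
  fn := fun _ (f : Fin 0) => f.elim0
  rl := mRl θh θn
  dom_bd := ren_clp_bd _ 0
  fn_bd := fun _ (f : Fin 0) => f.elim0
  rl_bd := fun n r => by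
    match n, r with
    | 0, r => exact (r : Fin 0).elim0
    | 1, r => exact ren_clp_bd _ 0
    | 2, r => exact (r : Fin 0).elim0
    | 3, r => exact ren_clp_bd _ 2
    | n + 4, r => exact (r : Fin 0).elim0

theorem MI_D (θh θn : Fm Lar) (Y : Str Lar) (x : Y.M) : (MI θh θn).D Y x ↔ domM Y x := by
  unfold Interp.D MI
  rw [sat_ren]
  exact UDef.sat _ Y _

theorem MI_R3 (θh θn : Fm Lar) (Y : Str Lar) (r : Fin 9) (a : Fin 3 → Y.M) :
    (MI θh θn).R Y 3 r a ↔ relM Y r.1 (a 0) (a 1) (a 2) := by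
  show ((relM.u0 (r : Fin 9).1).fm.ren (clp 3)).Sat Y (xt Y a) ↔ _
  rw [sat_ren, UDef.sat]
  have h0 : xt Y a (clp 3 0) = a 0 := xt_lt a 0 (by omega)
  have h1 : xt Y a (clp 3 1) = a 1 := xt_lt a 1 (by omega)
  have h2 : xt Y a (clp 3 2) = a 2 := xt_lt a 2 (by omega)
  show relM Y r.1 (xt Y a (clp 3 0)) (xt Y a (clp 3 1)) (xt Y a (clp 3 2)) ↔ _
  rw [h0, h1, h2]

theorem MI_R1 (θh θn : Fm Lar) (Y : Str Lar) (r : Fin (LA.addT.Rl 1)) (a : Fin 1 → Y.M) :
    (MI θh θn).R Y 1 r a ↔ TM Y θh θn (a 0) := by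
  show ((TM.u0 θh θn).fm.ren (clp 1)).Sat Y (xt Y a) ↔ _
  rw [sat_ren, UDef.sat]
  have h0 : xt Y a (clp 1 0) = a 0 := xt_lt a 0 (by omega)
  show TM Y θh θn (xt Y a (clp 1 0)) ↔ _
  rw [h0]

end Pool.Agent.MP81222b
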