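import Pool.Agent.Lib.MP_81222b_lc.Dfn

/-!
# The coding structure `K(R, J, T)` and the decoded structure `M(Y)`
-/

namespace Pool.Agent.MP81222b

/-! ### Encoding -/

section enc
variable (θ θL : Fm Lar) (R : Str Lar) (J T : R.M → Prop)

/-- The query predicate: the truth value of the query sentence with number `Θ u`. -/
def qK (u : R.M) : Prop := J u ∧ ∃ y, J y ∧ T y ∧ θ.SatD R J (cn y (fun _ => u))

/-- The decisions. -/
def dK (k : R.M) : Prop := Dq R (qK θ R J T) k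

/-- The levels up to which the clauses hold. -/
def Jtwo (i : R.M) : Prop :=
  J i ∧ (∃ s, LenS R s i ∧ Grd R (qK θ R J T) s) ∧ Cl R (LkJ θL R J) (dK θ R J T) i

/-- The last such level. -/
def isMx (d : R.M) : Prop := Jtwo θ θL R J T d ∧ ¬ Jtwo θ θL R J T (R.sc d)

/-- The number to be coded. -/
def codE (E : R.M) : Prop :=
  (∃ a d s, Top R J a ∧ isMx θ θL R J T d ∧ LenS R s d ∧ Grd R (qK θ R J T) s ∧
    E = R.sc (dbl R (prS R (e2 R (l3 R a)) s))) ∨
  ((¬ ∃ d, isMx θ θL R J T d) ∧ ∃ a, Top R J a ∧ E = dbl R (e2 R (l3 R a)))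

/-- The family of strings to be coded. -/
def FamK (i s : R.M) : Prop :=
  ((∃ d, isMx θ θL R J T d) ∧ J i ∧ ∃ m, P4 R (R.sc i) m ∧ R.sc (R.ad s (dbl R s)) = m) ∨
  ((¬ ∃ d, isMx θ θL R J T d) ∧ Jtwo θ θL R J T i ∧ LenS R s i ∧ Grd R (qK θ R J T) s)

/-- The domain of the coding structure. -/
def XK (y : R.M) : Prop := ∃ E, codE θ θL R J T E ∧ XD R E (FamK θ θL R J T) y

end enc

theorem cl_iff (S : Str Lar) (lk : S.M → S.M → S.M → Prop) (D : S.M → Prop) (i : S.M) :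
    Cl S lk D i ↔ ((((∀ s, S.lt (prS S S.zr s) i → ¬ D (prS S S.zr s)) ∧
  (∀ f g s, S.lt (prS S (kImp S f g) s) i → S.lt (prS S f s) i → S.lt (prS S g s) i →
    (D (prS S (kImp S f g) s) ↔ (D (prS S f s) → D (prS S g s))))) ∧
  ((∀ f s x, S.lt (prS S (kAll S f) s) i → S.lt (prS S f (consS S x s)) i →
    D (prS S (kAll S f) s) → D (prS S f (consS S x s))) ∧
  (∀ f s, S.lt (prS S (kAll S f) s) i →
    S.lt (prS S f (consS S (prS S (kAll S f) s) s)) i →
    D (prS S f (consS S (prS S (kAll S f) s) s)) → D (prS S (kAll S f) s)))) ∧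
  ((∀ a b s x y, lk s a x → lk s b y → S.lt (prS S (kEq S (dbl S a) (dbl S b)) s) i →
    S.lt (iEq S x y) i → (D (prS S (kEq S (dbl S a) (dbl S b)) s) ↔ D (iEq S x y))) ∧
  (∀ r : Fin 9, ∀ a b c s x y z, lk s a x → lk s b y → lk s c z →
    S.lt (prS S (kRl S r (li3 S (dbl S a) (dbl S b) (dbl S c))) s) i → S.lt (iRl S r x y z) i →
    (D (prS S (kRl S r (li3 S (dbl S a) (dbl S b) (dbl S c))) s) ↔ D (iRl S r x y z))))) ∧
  ((∀ x, S.lt (iEq S x x) i → D (iEq S x x)) ∧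
  (∀ x y z, S.lt (iEq S x y) i → S.lt (iEq S x z) i → S.lt (iEq S y z) i →
    D (iEq S x y) → D (iEq S x z) → D (iEq S y z)) ∧
  (∀ r : Fin 9, ∀ x y z x' y' z', S.lt (iRl S r x y z) i → S.lt (iEq S x x') i →
    S.lt (iEq S y y') i → S.lt (iEq S z z') i → S.lt (iRl S r x' y' z') i →
    D (iRl S r x y z) → D (iEq S x x') → D (iEq S y y') → D (iEq S z z') →
    D (iRl S r x' y' z'))) :=
  ⟨fun h => ⟨⟨⟨⟨h.bot, h.imp⟩, ⟨h.all1, h.all2⟩⟩, ⟨h.eq, h.rl⟩⟩, h.refl, h.eucl, h.cong⟩,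
    fun h => ⟨h.1.1.1.1, h.1.1.1.2, h.1.1.2.1, h.1.1.2.2, h.1.2.1, h.1.2.2, h.2.1, h.2.2.1,
      h.2.2.2⟩⟩

theorem vand {P Q : (R : Str Lar) → (J T : R.M → Prop) → (ℕ → R.M) → Prop}
    (h : VDef P) (h' : VDef Q) : VDef (fun R J T e => P R J T e ∧ Q R J T e) := inferInstance

section vdefs
variable {t u v : (R : Str Lar) → (J T : R.M → Prop) → (ℕ → R.M) → R.M}

theorem Top.v0 : VDef (fun R J _ e => Top R J (e 0)) := by
  unfold Top; infer_instance
instance Top.vd [GDef t] : VDef (fun R J T e => Top R J (t R J T e)) :=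
  VDef.app1 (P := fun R J _ x => Top R J x) Top.v0 t

theorem satD.v2 (θ : Fm Lar) : VDef (fun R J _ e => θ.SatD R J (cn (e 0) (fun _ => e 1))) := by
  have h := (vsatD θ).ren (fun i => match i with
    | 0 => 0
    | _ + 1 => 1)
  have e1 : ∀ {M : Type} (e : ℕ → M), (fun i => e (match i with
    | 0 => 0
    | _ + 1 => 1)) = cn (e 0) (fun _ => e 1) := by
    intro M e; funext i; cases i <;> rfl
  simp only [e1] at h
  exact h
instance satD.vd (θ : Fm Lar) [GDef t] [GDef u] :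
    VDef (fun R J T e => θ.SatD R J (cn (t R J T e) (fun _ => u R J T e))) :=
  VDef.app2 (P := fun R J _ x y => θ.SatD R J (cn x (fun _ => y))) (satD.v2 θ) t u

theorem LkJ.v0 (θ : Fm Lar) : VDef (fun R J _ e => LkJ θ R J (e 0) (e 1) (e 2)) := by
  unfold LkJ; infer_instance
instance LkJ.vd (θ : Fm Lar) [GDef t] [GDef u] [GDef v] :
    VDef (fun R J T e => LkJ θ R J (t R J T e) (u R J T e) (v R J T e)) :=
  VDef.app3 (P := fun R J _ x y z => LkJ θ R J x y z) (LkJ.v0 θ) t u v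

theorem qK.v0 (θ : Fm Lar) : VDef (fun R J T e => qK θ R J T (e 0)) := by
  unfold qK; infer_instance
instance qK.vd (θ : Fm Lar) [GDef t] : VDef (fun R J T e => qK θ R J T (t R J T e)) :=
  VDef.app1 (P := fun R J T x => qK θ R J T x) (qK.v0 θ) t

theorem Grd.v0 (θ : Fm Lar) : VDef (fun R J T e => Grd R (qK θ R J T) (e 0)) := by
  unfold Grd; infer_instance
instance Grd.vd (θ : Fm Lar) [GDef t] : VDef (fun R J T e => Grd R (qK θ R J T) (t R J T e)) :=
  VDef.app1 (P := fun R J T x => Grd R (qK θ R J T) x) (Grd.v0 θ) t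

theorem dK.v0 (θ : Fm Lar) : VDef (fun R J T e => dK θ R J T (e 0)) := by
  unfold dK Dq; infer_instance
instance dK.vd (θ : Fm Lar) [GDef t] : VDef (fun R J T e => dK θ R J T (t R J T e)) :=
  VDef.app1 (P := fun R J T x => dK θ R J T x) (dK.v0 θ) t

theorem Cl.v0 (θ θL : Fm Lar) : VDef (fun R J T e => Cl R (LkJ θL R J) (dK θ R J T) (e 0)) := by
  simp only [cl_iff]
  refine vand (vand (vand (vand ?_ ?_) (vand ?_ ?_)) (vand ?_ ?_)) (vand ?_ (vand ?_ ?_)) <;>
    infer_instance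
instance Cl.vd (θ θL : Fm Lar) [GDef t] :
    VDef (fun R J T e => Cl R (LkJ θL R J) (dK θ R J T) (t R J T e)) :=
  VDef.app1 (P := fun R J T x => Cl R (LkJ θL R J) (dK θ R J T) x) (Cl.v0 θ θL) t

theorem Jtwo.v0 (θ θL : Fm Lar) : VDef (fun R J T e => Jtwo θ θL R J T (e 0)) := by
  unfold Jtwo; infer_instance
instance Jtwo.vd (θ θL : Fm Lar) [GDef t] : VDef (fun R J T e => Jtwo θ θL R J T (t R J T e)) :=
  VDef.app1 (P := fun R J T x => Jtwo θ θL R J T x) (Jtwo.v0 θ θL) t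

theorem isMx.v0 (θ θL : Fm Lar) : VDef (fun R J T e => isMx θ θL R J T (e 0)) := by
  unfold isMx; infer_instance
instance isMx.vd (θ θL : Fm Lar) [GDef t] : VDef (fun R J T e => isMx θ θL R J T (t R J T e)) :=
  VDef.app1 (P := fun R J T x => isMx θ θL R J T x) (isMx.v0 θ θL) t

theorem codE.v0 (θ θL : Fm Lar) : VDef (fun R J T e => codE θ θL R J T (e 0)) := by
  unfold codE; infer_instance
instance codE.vd (θ θL : Fm Lar) [GDef t] : VDef (fun R J T e => codE θ θL R J T (t R J T e)) :=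
  VDef.app1 (P := fun R J T x => codE θ θL R J T x) (codE.v0 θ θL) t

theorem FamK.v0 (θ θL : Fm Lar) : VDef (fun R J T e => FamK θ θL R J T (e 0) (e 1)) := by
  unfold FamK; infer_instance
instance FamK.vd (θ θL : Fm Lar) [GDef t] [GDef u] :
    VDef (fun R J T e => FamK θ θL R J T (t R J T e) (u R J T e)) :=
  VDef.app2 (P := fun R J T x y => FamK θ θL R J T x y) (FamK.v0 θ θL) t u

theorem XK.v0 (θ θL : Fm Lar) : VDef (fun R J T e => XK θ θL R J T (e 0)) := by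
  unfold XK XD WW; infer_instance

end vdefs

end Pool.Agent.MP81222b
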