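import Pool.Agent.Lib.MP_81222b_lc.Alg

/-!
# The relational language of the theory `A`, codes, and the Henkin queries
-/

namespace Pool.Agent.MP81222b

/-- The signature of the theory `A`: nine ternary relation symbols. -/
def LA : Lang where
  Fn := fun _ => 0
  Rl := fun n => match n with
    | 3 => 9
    | _ => 0

/-- Atomic formulas of `LA`. -/
def fR (r : Fin 9) (x y z : ℕ) : Fm LA := .rl 3 (r : Fin 9) ![.var x, .var y, .var z]

/-- The nine relations, on a structure for `Lar` with a distinguished subset `J`. -/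
def relLA (R : Str Lar) (J : R.M → Prop) (r : ℕ) (x y z : R.M) : Prop :=
  match r with
  | 0 => x = R.zr
  | 1 => y = R.sc x
  | 2 => y = R.hf x
  | 3 => y = R.ln x
  | 4 => z = R.ad x y
  | 5 => z = R.ml x y
  | 6 => z = R.sm x y
  | 7 => R.le x y
  | _ => J x

/-- The relational structure. -/
@[reducible] def mkLA (R : Str Lar) (J : R.M → Prop) : Str LA where
  M := R.M
  inh := R.inh
  fn := fun _ (f : Fin 0) _ => f.elim0
  rl := fun n r a => match n, r, a with
    | 3, (r : Fin 9), a => relLA R J r.1 (a 0) (a 1) (a 2)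
    | _, _, _ => False

theorem sat_fR (S : Str LA) (r : Fin 9) (x y z : ℕ) (e) :
    (fR r x y z).Sat S e ↔ S.rl 3 (r : Fin 9) ![e x, e y, e z] := by
  simp only [fR, Fm.Sat]
  have : (fun i => ((![.var x, .var y, .var z] : Fin 3 → Tm LA) i).val S e) = ![e x, e y, e z] := by
    funext i; fin_cases i <;> rfl
  rw [this]

/-! ### Pairing on the natural numbers -/

def up1 (n : ℕ) : ℕ := n - Nat.sqrt n * Nat.sqrt n
def up2 (n : ℕ) : ℕ := Nat.sqrt n - (n - Nat.sqrt n * Nat.sqrt n)

theorem sqrt_pr (x y : ℕ) : Nat.sqrt (pr x y) = x + y := by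
  unfold pr
  rw [Nat.sqrt_add_eq]
  omega

@[simp] theorem up1_pr (x y : ℕ) : up1 (pr x y) = x := by
  unfold up1; rw [sqrt_pr]; unfold pr; omega
@[simp] theorem up2_pr (x y : ℕ) : up2 (pr x y) = y := by
  unfold up2; rw [sqrt_pr]; unfold pr; omega

theorem up1_le (n : ℕ) : up1 n ≤ n := Nat.sub_le _ _
theorem up2_le (n : ℕ) : up2 n ≤ n := (Nat.sub_le _ _).trans (Nat.sqrt_le_self n)

theorem le_pr_left (x y : ℕ) : x ≤ pr x y := Nat.le_add_left _ _
theorem le_pr_right (x y : ℕ) : y ≤ pr x y := by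
  unfold pr; nlinarith

def consN (x s : ℕ) : ℕ := pr x s + 1
def hdN (s : ℕ) : ℕ := up1 (s - 1)
def tlN (s : ℕ) : ℕ := up2 (s - 1)
/-- Entry `a` of the list coded by `s`. -/
def Lk (s a : ℕ) : ℕ := hdN (tlN^[a] s)

@[simp] theorem hdN_cons (x s : ℕ) : hdN (consN x s) = x := by simp [hdN, consN]
@[simp] theorem tlN_cons (x s : ℕ) : tlN (consN x s) = s := by simp [tlN, consN]
@[simp] theorem Lk_cons_zero (x s : ℕ) : Lk (consN x s) 0 = x := by simp [Lk]
@[simp] theorem Lk_cons_succ (x s a : ℕ) : Lk (consN x s) (a + 1) = Lk s a := by simp [Lk]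
theorem tlN_le (s : ℕ) : tlN s ≤ s := (up2_le _).trans (Nat.sub_le _ _)
theorem hdN_le (s : ℕ) : hdN s ≤ s := (up1_le _).trans (Nat.sub_le _ _)
theorem Lk_le (s a : ℕ) : Lk s a ≤ s := by
  unfold Lk
  refine (hdN_le _).trans ?_
  induction a with
  | zero => exact le_rfl
  | succ a ih =>
    rw [Function.iterate_succ_apply']
    exact (tlN_le _).trans ih

/-! ### Decoding of formulas -/

/-- Every number is a code of a formula. -/
def dec (n : ℕ) : Fm LA :=
  if h0 : n = 0 then .bot
  else if n % 4 = 1 then .eq (.var (up1 (n / 4) / 2)) (.var (up2 (n / 4) / 2))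
  else if n % 4 = 2 then
    (if h : up2 (up1 (n / 4)) < 9 then
      fR ⟨up2 (up1 (n / 4)), h⟩ (Lk (up2 (n / 4)) 0 / 2) (Lk (up2 (n / 4)) 1 / 2)
        (Lk (up2 (n / 4)) 2 / 2)
    else .bot)
  else if h3 : n % 4 = 3 then .imp (dec (up1 (n / 4))) (dec (up2 (n / 4)))
  else .all (dec (n / 4 - 1))
termination_by n
decreasing_by
  · have := up1_le (n / 4); omega
  · have := up2_le (n / 4); omega
  · omega

theorem dec_zero : dec 0 = .bot := by unfold dec; simp
theorem dec_eqc (m : ℕ) : dec (4 * m + 1) = .eq (.var (up1 m / 2)) (.var (up2 m / 2)) := by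
  unfold dec
  have h1 : (4 * m + 1) % 4 = 1 := by omega
  have h2 : (4 * m + 1) / 4 = m := by omega
  rw [dif_neg (by omega), if_pos h1, h2]
theorem dec_imp (m : ℕ) : dec (4 * m + 3) = .imp (dec (up1 m)) (dec (up2 m)) := by
  rw [dec]
  have h1 : (4 * m + 3) % 4 = 3 := by omega
  have h2 : (4 * m + 3) / 4 = m := by omega
  rw [dif_neg (by omega), if_neg (by omega), if_neg (by omega), dif_pos h1, h2]
theorem dec_all (m : ℕ) : dec (4 * m + 4) = .all (dec m) := by
  rw [dec]
  have h2 : (4 * m + 4) / 4 - 1 = m := by omega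
  rw [dif_neg (by omega), if_neg (by omega), if_neg (by omega), dif_neg (by omega), h2]

theorem vc_three (v : Fin 3 → ℕ) : vc 3 v = consN (v 0) (consN (v 1) (consN (v 2) 0)) := by
  simp only [vc, consN]
  rfl

theorem dec_rl (r : Fin 9) (i j k : ℕ) :
    dec (4 * pr (pr 3 r) (consN (2 * i) (consN (2 * j) (consN (2 * k) 0))) + 2) =
      fR r i j k := by
  rw [dec]
  set m := pr (pr 3 r) (consN (2 * i) (consN (2 * j) (consN (2 * k) 0))) with hm
  have h1 : (4 * m + 2) % 4 = 2 := by omega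
  have h2 : (4 * m + 2) / 4 = m := by omega
  rw [dif_neg (by omega), if_neg (by omega), if_pos h1, h2, hm]
  simp only [up1_pr, up2_pr, Fin.is_lt, dif_pos]
  have e1 : ∀ a b : ℕ, Lk (consN a b) 1 = Lk b 0 := fun a b => Lk_cons_succ a b 0
  have e2 : ∀ a b : ℕ, Lk (consN a b) 2 = Lk b 1 := fun a b => Lk_cons_succ a b 1
  simp only [e1, e2, Lk_cons_zero]
  congr 1 <;> omega

theorem Tm.gn_var {L : Lang} (i : ℕ) : (Tm.var i : Tm L).gn = 2 * i := rfl

theorem LA_tm (t : Tm LA) : ∃ i, t = .var i := by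
  cases t with
  | var i => exact ⟨i, rfl⟩
  | fn n f ts => exact (f : Fin 0).elim0

/-- Every atomic relation formula of `LA` is an `fR`. -/
theorem LA_rl {n : ℕ} (r : Fin (LA.Rl n)) (ts : Fin n → Tm LA) :
    ∃ (r' : Fin 9) (i j k : ℕ), Fm.rl n r ts = fR r' i j k := by
  by_cases h : n = 3
  · subst h
    obtain ⟨i, hi⟩ := LA_tm (ts 0)
    obtain ⟨j, hj⟩ := LA_tm (ts 1)
    obtain ⟨k, hk⟩ := LA_tm (ts 2)
    refine ⟨r, i, j, k, ?_⟩
    unfold fR
    congr 1
    funext x
    fin_cases x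
    · exact hi
    · exact hj
    · exact hk
  · exfalso
    have : LA.Rl n = 0 := by
      show (match n with | 3 => 9 | _ => 0) = 0
      split
      · exact absurd rfl h
      · rfl
    rw [this] at r
    exact r.elim0

theorem gn_fR (r : Fin 9) (i j k : ℕ) : (fR r i j k).gn =
    4 * pr (pr 3 r) (consN (2 * i) (consN (2 * j) (consN (2 * k) 0))) + 2 := by
  simp only [fR, Fm.gn, vc_three]
  rfl

theorem dec_gn (f : Fm LA) : dec f.gn = f := by
  induction f with
  | bot => exact dec_zero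
  | eq t u =>
    obtain ⟨i, rfl⟩ := LA_tm t
    obtain ⟨j, rfl⟩ := LA_tm u
    simp only [Fm.gn, Tm.gn_var, dec_eqc, up1_pr, up2_pr]
    congr 2 <;> omega
  | rl n r ts =>
    obtain ⟨r', i, j, k, h⟩ := LA_rl r ts
    rw [h, gn_fR, dec_rl]
  | imp f g ihf ihg => simp only [Fm.gn, dec_imp, up1_pr, up2_pr, ihf, ihg]
  | all f ih => simp only [Fm.gn, dec_all, ih]

/-- Free variables of `dec n` are at most `n`. -/
theorem dec_bd (n : ℕ) : (dec n).bd (n + 1) := by
  induction n using Nat.strong_induction_on with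
  | _ n ih =>
    rw [dec]
    split_ifs with h0 h1 h2 h3 h4
    · trivial
    · have a1 := up1_le (n / 4)
      have a2 := up2_le (n / 4)
      constructor
      · show up1 (n / 4) / 2 < n + 1
        omega
      · show up2 (n / 4) / 2 < n + 1
        omega
    · have a1 := up2_le (n / 4)
      have b0 := Lk_le (up2 (n / 4)) 0
      have b1 := Lk_le (up2 (n / 4)) 1
      have b2 := Lk_le (up2 (n / 4)) 2
      intro i
      fin_cases i
      · show Lk (up2 (n / 4)) 0 / 2 < n + 1
        omega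
      · show Lk (up2 (n / 4)) 1 / 2 < n + 1
        omega
      · show Lk (up2 (n / 4)) 2 / 2 < n + 1
        omega
    · trivial
    · have a1 := up1_le (n / 4)
      have a2 := up2_le (n / 4)
      exact ⟨(dec (up1 (n / 4))).bd_mono (by omega) (ih _ (by omega)),
        (dec (up2 (n / 4))).bd_mono (by omega) (ih _ (by omega))⟩
    · show (dec (n / 4 - 1)).bd (n + 1 + 1)
      exact (dec (n / 4 - 1)).bd_mono (by omega) (ih _ (by omega))

end Pool.Agent.MP81222b
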