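import Mathlib
import Pool.Agent.Lib.MP_81222b_lc.Comp

/-!
# The least number principle for bounded formulas on small cuts
-/

namespace Pool.Agent.Lib.MP_81222b_lc

/-! ### Dependence on finitely many variables -/

theorem IsT.dep {t : ∀ (M : Type) [Ar M], (ℕ → M) → M} (h : IsT t) :
    ∃ n, ∀ (M : Type) [Ar M] (v w : ℕ → M), (∀ i < n, v i = w i) → t M v = t M w := by
  induction h with
  | var n => exact ⟨n + 1, fun M _ v w h => h n (by omega)⟩
  | zr => exact ⟨0, fun M _ v w h => rfl⟩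
  | sc _ ih => obtain ⟨n, hn⟩ := ih; exact ⟨n, fun M _ v w h => congrArg Ar.sc (hn M v w h)⟩
  | hf _ ih => obtain ⟨n, hn⟩ := ih; exact ⟨n, fun M _ v w h => congrArg Ar.hf (hn M v w h)⟩
  | ln _ ih => obtain ⟨n, hn⟩ := ih; exact ⟨n, fun M _ v w h => congrArg Ar.ln (hn M v w h)⟩
  | ad _ _ i1 i2 =>
    obtain ⟨n1, h1⟩ := i1
    obtain ⟨n2, h2⟩ := i2
    exact ⟨n1 + n2, fun M _ v w h => congrArg₂ (· + ·)
      (h1 M v w fun i hi => h i (by omega)) (h2 M v w fun i hi => h i (by omega))⟩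
  | ml _ _ i1 i2 =>
    obtain ⟨n1, h1⟩ := i1
    obtain ⟨n2, h2⟩ := i2
    exact ⟨n1 + n2, fun M _ v w h => congrArg₂ (· * ·)
      (h1 M v w fun i hi => h i (by omega)) (h2 M v w fun i hi => h i (by omega))⟩
  | sm _ _ i1 i2 =>
    obtain ⟨n1, h1⟩ := i1
    obtain ⟨n2, h2⟩ := i2
    exact ⟨n1 + n2, fun M _ v w h => congrArg₂ Ar.sm
      (h1 M v w fun i hi => h i (by omega)) (h2 M v w fun i hi => h i (by omega))⟩

theorem IsB.dep {P : ∀ (M : Type) [Ar M], (ℕ → M) → Prop} (h : IsB P) :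
    ∃ n, ∀ (M : Type) [Ar M] (v w : ℕ → M), (∀ i < n, v i = w i) → (P M v ↔ P M w) := by
  induction h with
  | eq h1 h2 =>
    obtain ⟨n1, h1⟩ := h1.dep
    obtain ⟨n2, h2⟩ := h2.dep
    refine ⟨n1 + n2, fun M _ v w h => ?_⟩
    beta_reduce
    rw [h1 M v w fun i hi => h i (by omega), h2 M v w fun i hi => h i (by omega)]
  | le h1 h2 =>
    obtain ⟨n1, h1⟩ := h1.dep
    obtain ⟨n2, h2⟩ := h2.dep
    refine ⟨n1 + n2, fun M _ v w h => ?_⟩
    beta_reduce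
    rw [h1 M v w fun i hi => h i (by omega), h2 M v w fun i hi => h i (by omega)]
  | fls => exact ⟨0, fun M _ v w h => Iff.rfl⟩
  | imp _ _ i1 i2 =>
    obtain ⟨n1, h1⟩ := i1
    obtain ⟨n2, h2⟩ := i2
    refine ⟨n1 + n2, fun M _ v w h => ?_⟩
    beta_reduce
    rw [h1 M v w fun i hi => h i (by omega), h2 M v w fun i hi => h i (by omega)]
  | @ball t P h1 _ i2 =>
    obtain ⟨n1, h1⟩ := h1.dep
    obtain ⟨n2, h2⟩ := i2
    refine ⟨n1 + n2, fun M _ v w h => ?_⟩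
    beta_reduce
    rw [h1 M v w fun i hi => h i (by omega)]
    refine forall_congr' fun a => ?_
    rw [h2 M (cns a v) (cns a w) fun i hi => ?_]
    cases i with
    | zero => rfl
    | succ i => exact h i (by omega)

/-! ### Bounds for terms -/

theorem IsT.bound {t : ∀ (M : Type) [Ar M], (ℕ → M) → M} (h : IsT t) {M : Type} [Ar M] [Nice M]
    (K : Cut M) (m : M) (hm : K.C m) :
    ∃ m', K.C m' ∧ ∀ v : ℕ → M, (∀ n, v n ≤ m) → t M v ≤ m' := by
  induction h with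
  | var n => exact ⟨m, hm, fun v hv => hv n⟩
  | zr => exact ⟨0, K.zr, fun v _ => le_rfl⟩
  | sc _ ih =>
    obtain ⟨m', h1, h2⟩ := ih
    refine ⟨Ar.sc m', K.sc h1, fun v hv => ?_⟩
    beta_reduce
    rw [sc_eq, sc_eq]
    exact add_le_add_left (h2 v hv) 1
  | hf _ ih =>
    obtain ⟨m', h1, h2⟩ := ih
    exact ⟨Ar.hf m', K.hf h1, fun v hv => (N.len _ _).2.2.2.2.1 (h2 v hv)⟩
  | ln _ ih =>
    obtain ⟨m', h1, h2⟩ := ih
    exact ⟨Ar.ln m', K.ln h1, fun v hv => (N.len _ _).2.2.2.1 (h2 v hv)⟩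
  | ad _ _ i1 i2 =>
    obtain ⟨m1, h1, h2⟩ := i1
    obtain ⟨m2, h3, h4⟩ := i2
    exact ⟨m1 + m2, K.ad h1 h3, fun v hv => add_le_add (h2 v hv) (h4 v hv)⟩
  | ml _ _ i1 i2 =>
    obtain ⟨m1, h1, h2⟩ := i1
    obtain ⟨m2, h3, h4⟩ := i2
    exact ⟨m1 * m2, K.ml h1 h3, fun v hv => mul_le_mul' (h2 v hv) (h4 v hv)⟩
  | sm _ _ i1 i2 =>
    obtain ⟨m1, h1, h2⟩ := i1
    obtain ⟨m2, h3, h4⟩ := i2
    exact ⟨Ar.sm m1 m2, K.sm h1 h3, fun v hv => (N.sma _ _ _ _).2 (h2 v hv) (h4 v hv)⟩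

/-! ### Translation of bounded formulas into relational formulas over `[0, B)` -/

/-- The graph of `t` has a relational definition over `[0, B)` for all large `B`. -/
def Gr (t : ∀ (M : Type) [Ar M], (ℕ → M) → M) : Prop :=
  ∃ ψ : ∀ (M : Type) [Ra M], (ℕ → M) → Prop, IsR false ψ ∧
    ∀ (M : Type) [Ar M] [Nice M] (K : Cut M) (m : M), K.C m → ∃ B1, K.C B1 ∧
      ∀ B, K.C B → B1 ≤ B → ∀ (y : FB B) (v : ℕ → FB B), (∀ n, (v n).1 ≤ m) →
        (ψ (FB B) (cns y v) ↔ y.1 = t M (fun n => (v n).1))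

theorem gr1 (r : Fin 8) (f : ∀ (M : Type) [Ar M], M → M)
    (hf : ∀ (M : Type) [Ar M] (x y z : M), gr r x y z ↔ z = f M x)
    {t : ∀ (M : Type) [Ar M], (ℕ → M) → M} (ht : IsT t) (h : Gr t) :
    Gr (fun M _ v => f M (t M v)) := by
  obtain ⟨ψ, h1, h2⟩ := h
  refine ⟨_, ((h1.ren (fun n => match n with | 0 => 0 | n + 1 => n + 2)).and
    (IsR.rel r 0 0 1)).ex, fun M _ _ K m hm => ?_⟩
  obtain ⟨B1, h3, h4⟩ := h2 M K m hm
  obtain ⟨m', h5, h6⟩ := ht.bound K m hm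
  refine ⟨B1 + sc m', K.ad h3 (K.sc h5), fun B hB hle y v hv => ?_⟩
  have hlt : lt' (t M (fun n => (v n).1)) B := by
    rw [lt'_iff]
    exact (h6 _ hv).trans_lt (sc_le.1 (le_trans (le_add_self) hle))
  have he : ∀ a : FB B, (fun n => (cns a (cns y v)) (match n with | 0 => 0 | n + 1 => n + 2)) =
      cns a v := by
    intro a; funext n; cases n <;> rfl
  beta_reduce
  constructor
  · rintro ⟨a, ha, hr⟩
    rw [he, h4 B hB (le_trans le_self_add hle) a v hv] at ha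
    have := (hf M a.1 a.1 y.1).1 hr
    rw [this, ha]
  · intro hy
    obtain ⟨a, ha⟩ : ∃ a : FB B, a.1 = t M (fun n => (v n).1) := ⟨⟨_, hlt⟩, rfl⟩
    refine ⟨a, ?_, ?_⟩
    · rw [he, h4 B hB (le_trans le_self_add hle) _ v hv]
      exact ha
    · refine (hf M a.1 a.1 y.1).2 ?_
      rw [ha]
      exact hy

theorem gr2 (r : Fin 8) (f : ∀ (M : Type) [Ar M], M → M → M)
    (hf : ∀ (M : Type) [Ar M] (x y z : M), gr r x y z ↔ z = f M x y)
    {s t : ∀ (M : Type) [Ar M], (ℕ → M) → M} (hs : IsT s) (ht : IsT t) (h : Gr s) (h' : Gr t) :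
    Gr (fun M _ v => f M (s M v) (t M v)) := by
  obtain ⟨ψ, h1, h2⟩ := h
  obtain ⟨ψ', h1', h2'⟩ := h'
  refine ⟨_, (((h1.ren (fun n => match n with | 0 => 1 | n + 1 => n + 3)).and
    ((h1'.ren (fun n => match n with | 0 => 0 | n + 1 => n + 3)).and
    (IsR.rel r 1 0 2))).ex).ex, fun M _ _ K m hm => ?_⟩
  obtain ⟨B1, h3, h4⟩ := h2 M K m hm
  obtain ⟨B1', h3', h4'⟩ := h2' M K m hm
  obtain ⟨m1, h5, h6⟩ := hs.bound K m hm
  obtain ⟨m2, h5', h6'⟩ := ht.bound K m hm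
  refine ⟨(B1 + B1') + (sc m1 + sc m2), K.ad (K.ad h3 h3') (K.ad (K.sc h5) (K.sc h5')),
    fun B hB hle y v hv => ?_⟩
  have hlt : lt' (s M (fun n => (v n).1)) B := by
    rw [lt'_iff]
    refine (h6 _ hv).trans_lt (sc_le.1 (le_trans ?_ hle))
    exact le_trans le_self_add le_add_self
  have hlt' : lt' (t M (fun n => (v n).1)) B := by
    rw [lt'_iff]
    refine (h6' _ hv).trans_lt (sc_le.1 (le_trans ?_ hle))
    exact le_trans le_add_self le_add_self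
  have hb1 : B1 ≤ B := le_trans (le_trans le_self_add le_self_add) hle
  have hb2 : B1' ≤ B := le_trans (le_trans le_add_self le_self_add) hle
  have he : ∀ a c : FB B,
      (fun n => (cns c (cns a (cns y v))) (match n with | 0 => 1 | n + 1 => n + 3)) =
      cns a v := by
    intro a c; funext n; cases n <;> rfl
  have he' : ∀ a c : FB B,
      (fun n => (cns c (cns a (cns y v))) (match n with | 0 => 0 | n + 1 => n + 3)) =
      cns c v := by
    intro a c; funext n; cases n <;> rfl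
  beta_reduce
  constructor
  · rintro ⟨a, c, ha, hc, hr⟩
    rw [he, h4 B hB hb1 a v hv] at ha
    rw [he', h4' B hB hb2 c v hv] at hc
    have := (hf M a.1 c.1 y.1).1 hr
    rw [this, ha, hc]
  · intro hy
    obtain ⟨a, ha⟩ : ∃ a : FB B, a.1 = s M (fun n => (v n).1) := ⟨⟨_, hlt⟩, rfl⟩
    obtain ⟨c, hc⟩ : ∃ a : FB B, a.1 = t M (fun n => (v n).1) := ⟨⟨_, hlt'⟩, rfl⟩
    refine ⟨a, c, ?_, ?_, ?_⟩
    · rw [he, h4 B hB hb1 _ v hv]
      exact ha
    · rw [he', h4' B hB hb2 _ v hv]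
      exact hc
    · refine (hf M a.1 c.1 y.1).2 ?_
      rw [ha, hc]
      exact hy

theorem IsT.gr {t : ∀ (M : Type) [Ar M], (ℕ → M) → M} (h : IsT t) : Gr t := by
  induction h with
  | var n =>
    refine ⟨_, IsR.eq 0 (n + 1), fun M _ _ K m hm => ⟨0, K.zr, fun B _ _ y v _ => ?_⟩⟩
    exact Subtype.ext_iff
  | zr =>
    refine ⟨_, IsR.rel 0 0 0 0, fun M _ _ K m hm => ⟨0, K.zr, fun B _ _ y v _ => ?_⟩⟩
    exact Iff.rfl
  | sc ht ih => exact gr1 1 (fun M _ => Ar.sc) (fun M _ x y z => Iff.rfl) ht ih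
  | hf ht ih => exact gr1 2 (fun M _ => Ar.hf) (fun M _ x y z => Iff.rfl) ht ih
  | ln ht ih => exact gr1 5 (fun M _ => Ar.ln) (fun M _ x y z => Iff.rfl) ht ih
  | ad hs ht i1 i2 =>
    exact gr2 3 (fun M _ x y => x + y) (fun M _ x y z => Iff.rfl) hs ht i1 i2
  | ml hs ht i1 i2 =>
    exact gr2 4 (fun M _ x y => x * y) (fun M _ x y z => Iff.rfl) hs ht i1 i2
  | sm hs ht i1 i2 =>
    exact gr2 6 (fun M _ x y => Ar.sm x y) (fun M _ x y z => Iff.rfl) hs ht i1 i2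

/-- A bounded formula has a relational definition over `[0, B)` for all large `B`. -/
theorem IsB.un {P : ∀ (M : Type) [Ar M], (ℕ → M) → Prop} (h : IsB P) :
    ∃ ψ : ∀ (M : Type) [Ra M], (ℕ → M) → Prop, IsR false ψ ∧
      ∀ (M : Type) [Ar M] [Nice M] (K : Cut M) (m : M), K.C m → ∃ B1, K.C B1 ∧
        ∀ B, K.C B → B1 ≤ B → ∀ (v : ℕ → FB B), (∀ n, (v n).1 ≤ m) →
          (ψ (FB B) v ↔ P M (fun n => (v n).1)) := by
  induction h with
  | @eq s t hs ht =>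
    obtain ⟨ψ, h1, h2⟩ := hs.gr
    obtain ⟨ψ', h1', h2'⟩ := ht.gr
    refine ⟨_, (h1.and h1').ex, fun M _ _ K m hm => ?_⟩
    obtain ⟨B1, h3, h4⟩ := h2 M K m hm
    obtain ⟨B1', h3', h4'⟩ := h2' M K m hm
    obtain ⟨m1, h5, h6⟩ := hs.bound K m hm
    refine ⟨(B1 + B1') + sc m1, K.ad (K.ad h3 h3') (K.sc h5), fun B hB hle v hv => ?_⟩
    have hb1 : B1 ≤ B := le_trans (le_trans le_self_add le_self_add) hle
    have hb2 : B1' ≤ B := le_trans (le_trans le_add_self le_self_add) hle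
    beta_reduce
    constructor
    · rintro ⟨a, h7, h8⟩
      rw [h4 B hB hb1 a v hv] at h7
      rw [h4' B hB hb2 a v hv] at h8
      rw [← h7, ← h8]
    · intro h9
      have hlt := lt'_iff.2 ((h6 _ hv).trans_lt (sc_le.1 (le_trans le_add_self hle)))
      obtain ⟨a, ha⟩ : ∃ a : FB B, a.1 = s M (fun n => (v n).1) := ⟨⟨_, hlt⟩, rfl⟩
      refine ⟨a, ?_, ?_⟩
      · rw [h4 B hB hb1 _ v hv]
        exact ha
      · rw [h4' B hB hb2 _ v hv, ha]
        exact h9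
  | @le s t hs ht =>
    obtain ⟨ψ, h1, h2⟩ := hs.gr
    obtain ⟨ψ', h1', h2'⟩ := ht.gr
    refine ⟨_, (((h1.ren (fun n => match n with | 0 => 1 | n + 1 => n + 2)).and
      ((h1'.ren (fun n => match n with | 0 => 0 | n + 1 => n + 2)).and
      (IsR.rel 7 1 0 0))).ex).ex, fun M _ _ K m hm => ?_⟩
    obtain ⟨B1, h3, h4⟩ := h2 M K m hm
    obtain ⟨B1', h3', h4'⟩ := h2' M K m hm
    obtain ⟨m1, h5, h6⟩ := hs.bound K m hm
    obtain ⟨m2, h5', h6'⟩ := ht.bound K m hm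
    refine ⟨(B1 + B1') + (sc m1 + sc m2), K.ad (K.ad h3 h3') (K.ad (K.sc h5) (K.sc h5')),
      fun B hB hle v hv => ?_⟩
    have hb1 : B1 ≤ B := le_trans (le_trans le_self_add le_self_add) hle
    have hb2 : B1' ≤ B := le_trans (le_trans le_add_self le_self_add) hle
    have he : ∀ a c : FB B,
        (fun n => (cns c (cns a v)) (match n with | 0 => 1 | n + 1 => n + 2)) = cns a v := by
      intro a c; funext n; cases n <;> rfl
    have he' : ∀ a c : FB B,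
        (fun n => (cns c (cns a v)) (match n with | 0 => 0 | n + 1 => n + 2)) = cns c v := by
      intro a c; funext n; cases n <;> rfl
    beta_reduce
    constructor
    · rintro ⟨a, c, ha, hc, hr⟩
      rw [he, h4 B hB hb1 a v hv] at ha
      rw [he', h4' B hB hb2 c v hv] at hc
      rw [← ha, ← hc]
      exact hr
    · intro hy
      have hlt := lt'_iff.2 ((h6 _ hv).trans_lt (sc_le.1 (le_trans
        (le_trans le_self_add le_add_self) hle)))
      have hlt' := lt'_iff.2 ((h6' _ hv).trans_lt (sc_le.1 (le_trans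
        (le_trans le_add_self le_add_self) hle)))
      obtain ⟨a, ha⟩ : ∃ a : FB B, a.1 = s M (fun n => (v n).1) := ⟨⟨_, hlt⟩, rfl⟩
      obtain ⟨c, hc⟩ : ∃ a : FB B, a.1 = t M (fun n => (v n).1) := ⟨⟨_, hlt'⟩, rfl⟩
      refine ⟨a, c, ?_, ?_, ?_⟩
      · rw [he, h4 B hB hb1 _ v hv]
        exact ha
      · rw [he', h4' B hB hb2 _ v hv]
        exact hc
      · change a.1 ≤ c.1
        rw [ha, hc]
        exact hy
  | fls => exact ⟨_, .fls, fun M _ _ K m hm => ⟨0, K.zr, fun B _ _ v _ => Iff.rfl⟩⟩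
  | imp _ _ i1 i2 =>
    obtain ⟨ψ, h1, h2⟩ := i1
    obtain ⟨ψ', h1', h2'⟩ := i2
    refine ⟨_, .imp h1 h1', fun M _ _ K m hm => ?_⟩
    obtain ⟨B1, h3, h4⟩ := h2 M K m hm
    obtain ⟨B1', h3', h4'⟩ := h2' M K m hm
    refine ⟨B1 + B1', K.ad h3 h3', fun B hB hle v hv => ?_⟩
    beta_reduce
    rw [h4 B hB (le_trans le_self_add hle) v hv, h4' B hB (le_trans le_add_self hle) v hv]
  | @ball t P ht _ i2 =>
    obtain ⟨ψ, h1, h2⟩ := ht.gr
    obtain ⟨ψ', h1', h2'⟩ := i2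
    refine ⟨_, .all (.imp (((h1.ren (fun n => match n with | 0 => 0 | n + 1 => n + 2)).and
      (IsR.rel 7 1 0 0)).ex) h1'), fun M _ _ K m hm => ?_⟩
    obtain ⟨B1, h3, h4⟩ := h2 M K m hm
    obtain ⟨m1, h5, h6⟩ := ht.bound K m hm
    obtain ⟨B1', h3', h4'⟩ := h2' M K (m + m1) (K.ad hm h5)
    refine ⟨(B1 + B1') + sc m1, K.ad (K.ad h3 h3') (K.sc h5), fun B hB hle v hv => ?_⟩
    have hb1 : B1 ≤ B := le_trans (le_trans le_self_add le_self_add) hle
    have hb2 : B1' ≤ B := le_trans (le_trans le_add_self le_self_add) hle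
    have hlt : lt' (t M fun n => (v n).1) B :=
      lt'_iff.2 ((h6 _ hv).trans_lt (sc_le.1 (le_trans le_add_self hle)))
    have he : ∀ a c : FB B,
        (fun n => (cns c (cns a v)) (match n with | 0 => 0 | n + 1 => n + 2)) = cns c v := by
      intro a c; funext n; cases n <;> rfl
    have hv' : ∀ a : FB B, a.1 ≤ t M (fun n => (v n).1) → ∀ n, (cns a v n).1 ≤ m + m1 := by
      intro a ha n
      cases n with
      | zero => exact le_trans (le_trans ha (h6 _ hv)) le_add_self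
      | succ n => exact le_trans (hv n) le_self_add
    beta_reduce
    constructor
    · intro h x hx
      obtain ⟨a, rfl⟩ : ∃ a : FB B, a.1 = x := ⟨⟨x, lt'_iff.2 (hx.trans_lt (lt'_iff.1 hlt))⟩, rfl⟩
      obtain ⟨c, hc⟩ : ∃ a : FB B, a.1 = t M (fun n => (v n).1) := ⟨⟨_, hlt⟩, rfl⟩
      have h7 := h a ⟨c, by rw [he, h4 B hB hb1 _ v hv]; exact hc, by
        change a.1 ≤ c.1
        rw [hc]
        exact hx⟩
      rw [h4' B hB hb2 _ (hv' a hx), cns_val'] at h7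
      exact h7
    · rintro h a ⟨c, hc, hr⟩
      rw [he, h4 B hB hb1 c v hv] at hc
      have hr' : a.1 ≤ c.1 := hr
      rw [hc] at hr'
      have := h a.1 hr'
      rw [h4' B hB hb2 _ (hv' a hr'), cns_val']
      exact this

theorem exists_bound {M : Type} [Ar M] [Nice M] (K : Cut M) (v : ℕ → M) (hv : ∀ n, K.C (v n))
    (n : ℕ) : ∃ m, K.C m ∧ ∀ i < n, v i ≤ m := by
  induction n with
  | zero => exact ⟨0, K.zr, fun i hi => absurd hi (by omega)⟩
  | succ n ih =>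
    obtain ⟨m, h1, h2⟩ := ih
    refine ⟨m + v n, K.ad h1 (hv n), fun i hi => ?_⟩
    rcases Nat.lt_succ_iff_lt_or_eq.1 hi with h3 | rfl
    · exact le_trans (h2 i h3) le_self_add
    · exact le_add_self

/-- All powers `2 ^ (B ^ k)` of elements of the cut exist. -/
def Small {M : Type} [Ar M] [Nice M] (K : Cut M) : Prop :=
  ∀ B, K.C B → ∀ k : ℕ, ∃ D, Exp (B ^ k) D

/-- Least number principle. -/
theorem IsB.lnp {P : ∀ (M : Type) [Ar M], (ℕ → M) → Prop} (h : IsB P) {M : Type} [Ar M] [Nice M]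
    (K : Cut M) (hK : Small K) (v : ℕ → M) (hv : ∀ n, K.C (v n)) (x0 : M) (hx : K.C x0)
    (hP : P M (cns x0 v)) :
    ∃ x, x ≤ x0 ∧ P M (cns x v) ∧ ∀ y, y < x → ¬ P M (cns y v) := by
  obtain ⟨n, hn⟩ := h.dep
  obtain ⟨m0, hm0, hm0'⟩ := exists_bound K v hv n
  obtain ⟨ψ, h1, h2⟩ := h.un
  obtain ⟨B1, h3, h4⟩ := h2 M K (m0 + x0) (K.ad hm0 hx)
  obtain ⟨n0, h5⟩ := h1.comp
  set B := B1 + sc (m0 + x0) with hB
  have hKB : K.C B := K.ad h3 (K.sc (K.ad hm0 hx))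
  obtain ⟨X, hX⟩ := h5 (n0 + 1) (by omega) M B (hK B hKB)
  have hlt : ∀ x, x ≤ m0 + x0 → lt' x B := by
    intro x hx
    rw [lt'_iff]
    exact hx.trans_lt (sc_le.1 le_add_self)
  have hex : ∀ i, ∃ a : FB B, a.1 ≤ m0 + x0 ∧ (i < n → a.1 = v i) := by
    intro i
    by_cases hi : i < n
    · exact ⟨⟨v i, hlt _ (le_trans (hm0' i hi) le_self_add)⟩,
        le_trans (hm0' i hi) le_self_add, fun _ => rfl⟩
    · exact ⟨⟨0, hlt _ ((N.ord _ 0 0).2.2.2.1)⟩, (N.ord _ 0 0).2.2.2.1, fun h => absurd h hi⟩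
  choose w hw hwv using hex
  have key : ∀ x, x ≤ x0 → (bit (x + B * dsum B n0 (fun i => (w i).1)) X ↔ P M (cns x v)) := by
    intro x hx'
    obtain ⟨a, rfl⟩ : ∃ a : FB B, a.1 = x := ⟨⟨x, hlt x (le_trans hx' le_add_self)⟩, rfl⟩
    have h6 := hX (cns a w)
    rw [cns_val'] at h6
    refine Iff.trans h6 ?_
    rw [h4 B hKB le_self_add (cns a w), cns_val']
    · apply hn
      intro i hi
      cases i with
      | zero => rfl
      | succ i => exact hwv i (by omega)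
    · intro i
      cases i with
      | zero => exact le_trans hx' le_add_self
      | succ i => exact hw i
  obtain ⟨x, h7, h8, h9⟩ := N.lnp x0 (B * dsum B n0 (fun i => (w i).1)) X ((key x0 le_rfl).2 hP)
  refine ⟨x, h7, (key x h7).1 h8, fun y hy hPy => ?_⟩
  exact h9 y hy.le (lt'_iff.2 hy) ((key y (hy.le.trans h7)).2 hPy)

end Pool.Agent.Lib.MP_81222b_lc
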