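import Pool.Agent.Lib.MP_81222b_lc.Ar

/-!
# True `Π_1` axioms and their inheritance to initial substructures
-/

namespace Pool.Agent.MP81222b

variable {L : Lang}

/-! ### Substructures -/

/-- `D` is non-empty and closed under the functions of `S`. -/
def ClosedU (S : Str L) (D : S.M → Prop) : Prop :=
  (∃ x, D x) ∧ ∀ (n : ℕ) (f : Fin (L.Fn n)) (a : Fin n → S.M), (∀ i, D (a i)) → D (S.fn n f a)

/-- The substructure with carrier `D`. -/
@[reducible] def Str.sub (S : Str L) (D : S.M → Prop) (h : ClosedU S D) : Str L where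
  M := {x : S.M // D x}
  inh := h.1.elim fun x hx => ⟨⟨x, hx⟩⟩
  fn := fun n f a => ⟨S.fn n f (fun i => (a i).1), h.2 n f _ (fun i => (a i).2)⟩
  rl := fun n r a => S.rl n r (fun i => (a i).1)

theorem Tm.val_substr (S : Str L) (D : S.M → Prop) (h : ClosedU S D) (e : ℕ → (S.sub D h).M)
    (t : Tm L) : (t.val (S.sub D h) e).1 = t.val S (fun i => (e i).1) := by
  induction t with
  | var i => rfl
  | fn n f ts ih =>
    show S.fn n f (fun i => ((ts i).val (S.sub D h) e).1) = S.fn n f _
    congr 1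
    funext i
    exact ih i

/-- `D` is an initial segment. -/
def InitU (S : Str Lar) (D : S.M → Prop) : Prop := ∀ x y, D y → S.le x y → D x

theorem sub_le (S : Str Lar) (D : S.M → Prop) (h : ClosedU S D) (x y : (S.sub D h).M) :
    (S.sub D h).le x y ↔ S.le x.1 y.1 := by
  show S.rl 2 _ (fun i => ((![x, y] : Fin 2 → (S.sub D h).M) i).1) ↔ S.rl 2 _ ![x.1, y.1]
  rw [vec2 (fun i => ((![x, y] : Fin 2 → (S.sub D h).M) i).1)]
  rfl

theorem sub_coe_cn {M : Type} {D : M → Prop} (x : {x : M // D x}) (e : ℕ → {x : M // D x}) :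
    (fun i => (cn x e i).1) = cn x.1 (fun i => (e i).1) := by
  funext i; cases i <;> rfl

theorem Bdd.sat_sub {f : Fm Lar} (hb : Bdd f) (S : Str Lar) (D : S.M → Prop) (h : ClosedU S D)
    (hi : InitU S D) : ∀ e : ℕ → (S.sub D h).M,
    f.Sat (S.sub D h) e ↔ f.Sat S (fun i => (e i).1) := by
  induction hb with
  | bot => intro e; rfl
  | eq t u =>
    intro e
    simp only [Fm.Sat, ← Tm.val_substr S D h e]
    exact Subtype.ext_iff
  | rl n r ts =>
    intro e
    simp only [Fm.Sat, ← Tm.val_substr S D h e]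
  | imp f g _ _ hf hg => intro e; simp only [Fm.Sat, hf, hg]
  | ball t f _ hf =>
    intro e
    simp only [sat_ball, hf, sub_le, Tm.val_substr]
    constructor
    · intro H x hx
      have hD : D x := hi x _ (by rw [← Tm.val_substr S D h e]; exact (t.val _ e).2) hx
      have := H ⟨x, hD⟩ hx
      rw [sub_coe_cn] at this
      exact this
    · intro H x hx
      rw [sub_coe_cn]
      exact H x.1 hx

/-- A bounded predicate which is true in the standard model. -/
structure PiAx where
  P : (S : Str Lar) → (ℕ → S.M) → Prop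
  bdef : BDef P
  nat : ∀ e : ℕ → ℕ, P natS e

/-- The structure satisfies the axiom. -/
def PiAx.Holds (a : PiAx) (S : Str Lar) : Prop := ∀ e, a.P S e

theorem BDef.sub_iff {P : (S : Str Lar) → (ℕ → S.M) → Prop} (hP : BDef P) (S : Str Lar)
    (D : S.M → Prop) (h : ClosedU S D) (hi : InitU S D) (e : ℕ → (S.sub D h).M) :
    P (S.sub D h) e ↔ P S (fun i => (e i).1) := by
  obtain ⟨f, hb, hf⟩ := hP.ex
  rw [hf, hf]
  exact hb.sat_sub S D h hi e

theorem PiAx.Holds.sub {a : PiAx} {S : Str Lar} (ha : a.Holds S) {D : S.M → Prop}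
    (h : ClosedU S D) (hi : InitU S D) : a.Holds (S.sub D h) := fun e =>
  (a.bdef.sub_iff S D h hi e).2 (ha _)

/-! ### `BASIC` is true in the standard model -/

theorem size_double {x : ℕ} (h : x ≠ 0) : (2 * x).size = x.size + 1 := by
  have := Nat.size_bit (b := false) (n := x) (by simp [Nat.bit]; omega)
  simpa [Nat.bit] using this
theorem size_double_add {x : ℕ} : (2 * x + 1).size = x.size + 1 := by
  have := Nat.size_bit (b := true) (n := x) (by simp [Nat.bit])
  simpa [Nat.bit] using this

theorem size_half {x : ℕ} (h : x ≠ 0) : x.size = (x / 2).size + 1 := by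
  rcases Nat.even_or_odd' x with ⟨y, rfl | rfl⟩
  · rw [size_double (by omega)]
    congr 2
    omega
  · rw [size_double_add]
    congr 2
    omega

theorem basic_nat : ∀ f ∈ basic, ∀ e : ℕ → ℕ, f.Sat natS e := by
  intro f hf e
  simp only [basic, List.mem_cons, List.not_mem_nil, or_false] at hf
  rcases hf with rfl | rfl | rfl | rfl | rfl | rfl | rfl | rfl | rfl | rfl | rfl | rfl | rfl | rfl |
    rfl | rfl | rfl | rfl | rfl | rfl | rfl | rfl | rfl | rfl | rfl | rfl | rfl | rfl | rfl | rfl |
    rfl | rfl <;>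
  simp only [Fm.Sat, sat_fLe, sat_fNe', Fm.sat_and, Fm.sat_or, Fm.sat_iff, val_var, val_tZ, val_tS,
    val_tH, val_tN, val_tA, val_tM, val_tP, natS_zr, natS_sc, natS_hf, natS_ln, natS_ad, natS_ml,
    natS_sm, natS_le]
  · omega
  · omega
  · omega
  · omega
  · intro h; simpa using h
  · omega
  · omega
  · omega
  · exact Nat.size_zero
  · intro h
    have h1 := size_double h
    have h2 := size_double_add (x := e 0)
    exact ⟨h1, h2⟩
  · exact Nat.size_one
  · exact fun h => Nat.size_le_size h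
  · exact Nat.size_pow
  · rw [Nat.size_zero, Nat.zero_mul, pow_zero]
    rfl
  · intro h
    have h1 := size_double h
    have h2 := size_double_add (x := e 0)
    have h3 : (0 + 1 : ℕ).size = 1 := Nat.size_one
    have h4 : (0 + 1 + 1 : ℕ) = 2 := rfl
    rw [h4, h1, h2, h3]
    constructor <;> ring
  · rw [Nat.mul_comm]
  · intro h; rw [h]
  · intro h; rw [h, Nat.add_mul, pow_add]
  · omega
  · omega
  · omega
  · omega
  · omega
  · omega
  · omega
  · exact Nat.mul_zero _
  · exact Nat.mul_succ _ _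
  · exact Nat.mul_comm _ _
  · exact Nat.mul_add _ _ _
  · intro h
    constructor
    · intro h2; exact Nat.le_of_mul_le_mul_left h2 (by omega)
    · intro h2; exact Nat.mul_le_mul_left _ h2
  · intro h
    exact size_half h
  · omega

theorem bdd_le (t u : Tm Lar) : Bdd (fLe t u) := Bdd.rl _ _ _
theorem bdd_ne (t u : Tm Lar) : Bdd (fNe t u) := Bdd.neg (Bdd.eq _ _)

theorem basic_bdd : ∀ f ∈ basic, Bdd f := by
  intro f hf
  simp only [basic, List.mem_cons, List.not_mem_nil, or_false] at hf
  rcases hf with rfl | rfl | rfl | rfl | rfl | rfl | rfl | rfl | rfl | rfl | rfl | rfl | rfl | rfl |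
    rfl | rfl | rfl | rfl | rfl | rfl | rfl | rfl | rfl | rfl | rfl | rfl | rfl | rfl | rfl | rfl |
    rfl | rfl <;>
  repeat' first
    | exact Bdd.bot
    | exact Bdd.eq _ _
    | exact bdd_le _ _
    | exact bdd_ne _ _
    | apply Bdd.imp
    | apply Bdd.and
    | apply Bdd.or
    | apply Bdd.iff

theorem basic_bd : ∀ f ∈ basic, f.bd 4 := by
  intro f hf
  simp only [basic, List.mem_cons, List.not_mem_nil, or_false] at hf
  rcases hf with rfl | rfl | rfl | rfl | rfl | rfl | rfl | rfl | rfl | rfl | rfl | rfl | rfl | rfl |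
    rfl | rfl | rfl | rfl | rfl | rfl | rfl | rfl | rfl | rfl | rfl | rfl | rfl | rfl | rfl | rfl |
    rfl | rfl <;>
  simp [Fm.iff, Fm.and, Fm.or, Fm.neg, fNe, fLe, Fm.bd, Tm.bd, tZ, tS, tH, tN, tA, tM, tP,
    Fin.forall_fin_succ]

end Pool.Agent.MP81222b
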