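import Pool.Agent.Lib.MP_81222b_lc.Sem

/-!
# Numerals are an initial segment; representability of primitive recursive functions
-/

namespace Pool.Agent.MP81222b

/-! ### Numerals in the standard model -/

theorem nmS_nat (n : ℕ) : (nmS natS n : ℕ) = n := by
  induction n with
  | zero => rfl
  | succ n ih =>
    show nmS natS n + 1 = n + 1
    rw [ih]

section
variable (S : Str Lar) [PiC S]

theorem nmS_ad (x y : ℕ) : S.ad (nmS S x) (nmS S y) = nmS S (x + y) := by
  induction y with
  | zero => exact PiC.add_zero' S _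
  | succ y ih =>
    show S.ad (nmS S x) (S.sc (nmS S y)) = S.sc (nmS S (x + y))
    rw [PiC.add_succ', ih]

theorem nmS_ml (x y : ℕ) : S.ml (nmS S x) (nmS S y) = nmS S (x * y) := by
  induction y with
  | zero => exact PiC.mul_zero' S _
  | succ y ih =>
    show S.ml (nmS S x) (S.sc (nmS S y)) = nmS S (x * y + x)
    rw [PiC.mul_succ', ih, nmS_ad]

theorem nmS_le_of_le {x y : ℕ} (h : x ≤ y) : S.le (nmS S x) (nmS S y) := by
  obtain ⟨z, rfl⟩ := Nat.exists_eq_add_of_le h
  rw [← nmS_ad]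
  have : nmS S x ≤ nmS S x + nmS S z := le_add_of_nonneg_right (PiC.zero_le' S _)
  exact this

theorem nmS_lt_of_lt {x y : ℕ} (h : x < y) : nmS S x < nmS S y := by
  have h1 : nmS S x < nmS S (x + 1) := by
    show nmS S x < S.sc (nmS S x)
    rw [sc_eq]
    exact lt_add_one _
  exact lt_of_lt_of_le h1 (nmS_le_of_le S (show x + 1 ≤ y from h))

theorem nmS_le_iff (x y : ℕ) : S.le (nmS S x) (nmS S y) ↔ x ≤ y := by
  constructor
  · intro h
    by_contra h'
    exact absurd h (not_le.2 (nmS_lt_of_lt S (not_le.1 h')))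
  · exact nmS_le_of_le S

theorem nmS_inj {x y : ℕ} (h : nmS S x = nmS S y) : x = y := by
  apply le_antisymm
  · rw [← nmS_le_iff S, h]; exact (nmS_le_iff S _ _).2 le_rfl
  · rw [← nmS_le_iff S, h]; exact (nmS_le_iff S _ _).2 le_rfl

theorem nmS_lt_iff (x y : ℕ) : S.lt (nmS S x) (nmS S y) ↔ x < y :=
  nmS_le_iff S (x + 1) y

theorem le_nmS : ∀ (n : ℕ) (x : S.M), S.le x (nmS S n) → ∃ k ≤ n, x = nmS S k := by
  intro n
  induction n with
  | zero =>
    intro x hx
    exact ⟨0, le_rfl, PiC.antisymm' S hx (PiC.zero_le' S x)⟩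
  | succ n ih =>
    intro x hx
    by_cases h : x = nmS S (n + 1)
    · exact ⟨n + 1, le_rfl, h⟩
    · have h1 : x < nmS S (n + 1) := lt_of_le_of_ne hx h
      have h2 : x ≤ nmS S n := by
        rw [← lt_add_one_iff', ← sc_eq]
        exact h1
      obtain ⟨k, hk, rfl⟩ := ih x h2
      exact ⟨k, by omega, rfl⟩

theorem lt_nmS (n : ℕ) (x : S.M) (h : S.lt x (nmS S n)) : ∃ k < n, x = nmS S k := by
  have h1 : S.le x (nmS S n) := by
    have : x ≤ S.sc x := by rw [sc_eq]; exact (lt_add_one x).le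
    exact PiC.trans' S this h
  obtain ⟨k, _, rfl⟩ := le_nmS S n x h1
  exact ⟨k, (nmS_lt_iff S k n).1 h, rfl⟩

theorem nmS_hf (n : ℕ) : S.hf (nmS S n) = nmS S (n / 2) := by
  have h := PiC.b S 31 (by decide) (e4 (nmS S (n / 2)) (nmS S n) S.zr S.zr)
  simp [basic, Fm.Sat, e4] at h
  refine (h.2 ?_).symm
  have h2 : S.sc (S.sc S.zr) = nmS S 2 := rfl
  rw [h2, nmS_ml]
  rcases Nat.mod_two_eq_zero_or_one n with h0 | h0
  · left
    congr 1; omega
  · right
    show nmS S (2 * (n / 2) + 1) = nmS S n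
    congr 1; omega

theorem nmS_ln (n : ℕ) : S.ln (nmS S n) = nmS S n.size := by
  induction n using Nat.strong_induction_on with
  | _ n ih =>
    rcases Nat.eq_zero_or_pos n with rfl | h0
    · have h := PiC.b S 8 (by decide) (e4 S.zr S.zr S.zr S.zr)
      simp [basic, Fm.Sat, e4] at h
      rw [Nat.size_zero]
      exact h
    · have h := PiC.b S 30 (by decide) (e4 (nmS S n) S.zr S.zr S.zr)
      simp [basic, Fm.Sat, e4] at h
      rw [h (fun h' => by
        have := nmS_inj S (y := 0) h'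
        omega), nmS_hf, ih (n / 2) (by omega), size_half (by omega : n ≠ 0)]
      rfl

theorem nmS_one_sm (n : ℕ) : S.sm (S.sc S.zr) (nmS S n) = nmS S (2 ^ n.size) := by
  induction n using Nat.strong_induction_on with
  | _ n ih =>
    rcases Nat.eq_zero_or_pos n with rfl | h0
    · have h1 := PiC.b S 15 (by decide) (e4 (S.sc S.zr) S.zr S.zr S.zr)
      have h2 := PiC.b S 13 (by decide) (e4 S.zr (S.sc S.zr) S.zr S.zr)
      simp [basic, Fm.Sat, e4] at h1 h2
      show S.sm (S.sc S.zr) S.zr = _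
      rw [h1, h2, Nat.size_zero]
      rfl
    · rcases Nat.lt_or_ge n 2 with h1 | h1
      · obtain rfl : n = 1 := by omega
        have h := PiC.b S 14 (by decide) (e4 (nmS S 1) S.zr S.zr S.zr)
        -- `1 # 1`: by additivity of lengths
        have a0 := PiC.b S 17 (by decide) (e4 (S.sc S.zr) (S.sc S.zr) (S.sc S.zr) S.zr)
        simp [basic, Fm.Sat, e4] at h a0
        -- `2 (1 # 1) = 1 # 2`, `|2| = |1| + |1|`, `1 # 2 = (1 # 1) (1 # 1)`
        obtain ⟨h3, -⟩ := h (fun h' => by have := nmS_inj S (x := 1) (y := 0) h'; omega)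
        have c1 := PiC.b S 15 (by decide) (e4 (S.sc S.zr) (nmS S 2) S.zr S.zr)
        have c2 := PiC.b S 17 (by decide) (e4 (nmS S 2) (S.sc S.zr) (S.sc S.zr) (S.sc S.zr))
        simp [basic, Fm.Sat, e4] at c1 c2
        have l1 : S.ln (S.sc S.zr) = nmS S 1 := by
          have := nmS_ln S 1
          rw [Nat.size_one] at this
          exact this
        have l2 : S.ln (nmS S 2) = nmS S 2 := by
          have := nmS_ln S 2
          rw [show Nat.size 2 = 2 by decide] at this
          exact this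
        rw [l1, l2, nmS_ad] at c2
        have c3 := c2 rfl
        have e22 : S.ml (S.sc (S.sc S.zr)) (nmS S 1) = nmS S 2 := nmS_ml S 2 1
        rw [e22, c1, c3] at h3
        have h4 : S.sm (S.sc S.zr) (S.sc S.zr) = nmS S 2 := by
          set v := S.sm (S.sc S.zr) (S.sc S.zr) with hv
          have h5 : v * v = 2 * v := by
            have : (2 : S.M) = S.sc (S.sc S.zr) := by
              rw [sc_eq, sc_zr]; exact one_add_one_eq_two.symm
            rw [this]
            exact h3
          have hv0 : v ≠ 0 := by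
            intro hv0
            -- the length of `1 # 1` is `2`
            have c4 := PiC.b S 12 (by decide) (e4 (S.sc S.zr) (S.sc S.zr) S.zr S.zr)
            simp [basic, Fm.Sat, e4] at c4
            rw [← hv, hv0, l1, nmS_ml] at c4
            have c5 : S.ln (0 : S.M) = nmS S 0 := by
              have := nmS_ln S 0
              rw [Nat.size_zero] at this
              exact this
            rw [c5] at c4
            have := nmS_inj S (x := 0) (y := 1 * 1 + 1) c4
            omega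
          have hv1 : (0 : S.M) < v := lt_of_le_of_ne (PiC.zero_le' S v) (Ne.symm hv0)
          have h6 : v = 2 := le_antisymm (le_of_mul_le_mul_right h5.le hv1)
            (le_of_mul_le_mul_right h5.ge hv1)
          rw [h6]
          show (2 : S.M) = S.sc (S.sc S.zr)
          rw [sc_eq, sc_zr]; exact one_add_one_eq_two.symm
        show S.sm (S.sc S.zr) (S.sc S.zr) = _
        rw [h4, Nat.size_one, pow_one]
      · have h := PiC.b S 14 (by decide) (e4 (nmS S (n / 2)) S.zr S.zr S.zr)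
        simp [basic, Fm.Sat, e4] at h
        obtain ⟨h3, h4⟩ := h (fun h' => by
          have := nmS_inj S (y := 0) h'
          omega)
        have e2 : S.sc (S.sc S.zr) = nmS S 2 := rfl
        rw [e2, nmS_ml, ih (n / 2) (by omega), nmS_ml] at h3 h4
        have e3 : 2 * 2 ^ (n / 2).size = 2 ^ n.size := by
          rw [size_half (by omega : n ≠ 0), pow_succ, mul_comm]
        rw [e3] at h3 h4
        rcases Nat.mod_two_eq_zero_or_one n with h0 | h0
        · rw [show 2 * (n / 2) = n by omega] at h3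
          exact h3
        · have : S.sc (nmS S (2 * (n / 2))) = nmS S n := by
            show nmS S (2 * (n / 2) + 1) = nmS S n
            congr 1; omega
          rw [this] at h4
          exact h4

theorem nmS_sm (x y : ℕ) : S.sm (nmS S x) (nmS S y) = nmS S (2 ^ (x.size * y.size)) := by
  induction x using Nat.strong_induction_on with
  | _ x ih =>
    rcases Nat.eq_zero_or_pos x with rfl | h0
    · have h2 := PiC.b S 13 (by decide) (e4 S.zr (nmS S y) S.zr S.zr)
      simp [basic, Fm.Sat, e4] at h2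
      rw [Nat.size_zero, Nat.zero_mul]
      exact h2
    · have h := PiC.b S 17 (by decide) (e4 (nmS S x) (nmS S y) (S.sc S.zr) (nmS S (x / 2)))
      simp [basic, Fm.Sat, e4] at h
      have l1 : S.ln (S.sc S.zr) = nmS S 1 := by
        have := nmS_ln S 1
        rw [Nat.size_one] at this
        exact this
      have hs := size_half (by omega : x ≠ 0)
      rw [l1, nmS_ln, nmS_ln, nmS_ad, hs] at h
      rw [h rfl, ih (x / 2) (by omega), nmS_one_sm, nmS_ml, ← pow_add, hs]
      congr 2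
      ring

/-- Terms at numerals. -/
theorem val_nmS (t : Tm Lar) (e : ℕ → ℕ) :
    t.val S (fun i => nmS S (e i)) = nmS S (t.val natS e) := by
  induction t with
  | var i => rfl
  | fn n f ts ih =>
    simp only [Tm.val, ih]
    match n, f, ts with
    | 0, f, ts =>
      have : f = (⟨0, Nat.one_pos⟩ : Fin 1) := Subsingleton.elim (α := Fin 1) _ _
      subst this
      show S.fn 0 _ _ = S.zr
      unfold Str.zr
      congr 1
      exact vec0
    | 1, f, ts =>
      have h1 : (fun i => nmS S ((ts i).val natS e)) = ![nmS S ((ts 0).val natS e)] := vec1 _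
      have h2 : (fun i => (ts i).val natS e) = ![((ts 0).val natS e)] := vec1 _
      rw [h1, h2]
      fin_cases f
      · rfl
      · exact nmS_hf S _
      · exact nmS_ln S _
    | 2, f, ts =>
      have h1 : (fun i => nmS S ((ts i).val natS e)) =
        ![nmS S ((ts 0).val natS e), nmS S ((ts 1).val natS e)] := vec2 _
      have h2 : (fun i => (ts i).val natS e) = ![(ts 0).val natS e, (ts 1).val natS e] := vec2 _
      rw [h1, h2]
      fin_cases f
      · exact nmS_ad S _ _
      · exact nmS_ml S _ _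
      · exact nmS_sm S _ _
    | _ + 3, f, ts => exact (f : Fin 0).elim0

/-- Bounded formulas at numerals. -/
theorem bdd_nmS {f : Fm Lar} (hf : Bdd f) : ∀ e : ℕ → ℕ,
    f.Sat S (fun i => nmS S (e i)) ↔ f.Sat natS e := by
  induction hf with
  | bot => intro e; rfl
  | eq t u =>
    intro e
    simp only [Fm.Sat, val_nmS]
    exact ⟨nmS_inj S, fun h => by rw [h]⟩
  | rl n r ts =>
    intro e
    simp only [Fm.Sat, val_nmS]
    match n, r, ts with
    | 0, r, ts => exact (r : Fin 0).elim0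
    | 1, r, ts => exact (r : Fin 0).elim0
    | 2, r, ts =>
      have h1 : (fun i => nmS S ((ts i).val natS e)) =
        ![nmS S ((ts 0).val natS e), nmS S ((ts 1).val natS e)] := vec2 _
      have h2 : (fun i => (ts i).val natS e) = ![(ts 0).val natS e, (ts 1).val natS e] := vec2 _
      rw [h1, h2]
      have : r = (⟨0, by decide⟩ : Fin 1) := Subsingleton.elim (α := Fin 1) _ _
      subst this
      exact nmS_le_iff S _ _
    | _ + 3, r, ts => exact (r : Fin 0).elim0
  | imp f g _ _ hf hg => intro e; simp only [Fm.Sat, hf, hg]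
  | ball t f _ hf =>
    intro e
    simp only [sat_ball, val_nmS]
    constructor
    · intro H x hx
      have := H (nmS S x) ((nmS_le_iff S _ _).2 hx)
      rw [← comp_cn, hf] at this
      exact this
    · intro H x hx
      obtain ⟨k, hk, rfl⟩ := le_nmS S _ x hx
      rw [← comp_cn, hf]
      exact H k hk

theorem BDef.nmS {P : (S : Str Lar) → (ℕ → S.M) → Prop} (hP : BDef P) (e : ℕ → ℕ) :
    P S (fun i => nmS S (e i)) ↔ P natS e := by
  obtain ⟨f, hb, hf⟩ := hP.ex
  rw [hf, hf]
  exact bdd_nmS S hb e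

theorem TDef.nmS {t : (S : Str Lar) → (ℕ → S.M) → S.M} (ht : TDef t) (e : ℕ → ℕ) :
    t S (fun i => nmS S (e i)) = nmS S (t natS e) := by
  obtain ⟨τ, hτ⟩ := ht.ex
  rw [hτ, hτ]
  exact val_nmS S τ e

theorem nmS_prS (x y : ℕ) : prS S (nmS S x) (nmS S y) = nmS S (pr x y) := by
  unfold prS
  rw [nmS_ad, nmS_ml, nmS_ad]
  rfl
theorem nmS_consS (x y : ℕ) : consS S (nmS S x) (nmS S y) = nmS S (consN x y) := by
  unfold consS
  rw [nmS_prS]
  rfl
theorem nmS_dbl (x : ℕ) : dbl S (nmS S x) = nmS S (2 * x) := by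
  unfold dbl
  rw [nmS_ad, two_mul]
theorem nmS_qd (x : ℕ) : qd S (nmS S x) = nmS S (4 * x) := by
  unfold qd
  rw [nmS_dbl, nmS_dbl]
  congr 1; ring
theorem nmS_kEq (a b : ℕ) : kEq S (nmS S a) (nmS S b) = nmS S (4 * pr a b + 1) := by
  unfold kEq
  rw [nmS_prS, nmS_qd]
  rfl
theorem nmS_kImp (a b : ℕ) : kImp S (nmS S a) (nmS S b) = nmS S (4 * pr a b + 3) := by
  unfold kImp
  rw [nmS_prS, nmS_qd]
  rfl
theorem nmS_kAll (a : ℕ) : kAll S (nmS S a) = nmS S (4 * a + 4) := by
  unfold kAll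
  rw [nmS_qd]
  rfl
theorem nmS_kRl (r v : ℕ) : kRl S r (nmS S v) = nmS S (4 * pr (pr 3 r) v + 2) := by
  unfold kRl
  rw [nmS_prS, nmS_prS, nmS_qd]
  rfl
theorem nmS_li1 (x : ℕ) : li1 S (nmS S x) = nmS S (consN x 0) := nmS_consS S x 0
theorem nmS_li2 (x y : ℕ) : li2 S (nmS S x) (nmS S y) = nmS S (consN x (consN y 0)) := by
  unfold li2
  rw [nmS_li1, nmS_consS]
theorem nmS_li3 (x y z : ℕ) :
    li3 S (nmS S x) (nmS S y) (nmS S z) = nmS S (consN x (consN y (consN z 0))) := by
  unfold li3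
  rw [nmS_li2, nmS_consS]
theorem nmS_iEq (x y : ℕ) :
    iEq S (nmS S x) (nmS S y) = nmS S (pr cEq (consN x (consN y 0))) := by
  unfold iEq
  rw [nmS_li2, nmS_prS]
theorem nmS_iRl (r x y z : ℕ) : iRl S r (nmS S x) (nmS S y) (nmS S z) =
    nmS S (pr (cRl r) (consN x (consN y (consN z 0)))) := by
  unfold iRl
  rw [nmS_li3, nmS_prS]

/-- The components of a pair are bounded by the pair. -/
theorem le_prS_left (x y : S.M) : S.le x (prS S x y) := by
  have : x ≤ (x + y) * (x + y) + x := le_add_of_nonneg_left (PiC.zero_le' S _)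
  exact this
theorem le_prS_right (x y : S.M) : S.le y (prS S x y) := by
  have h0 : (0 : S.M) ≤ x := PiC.zero_le' S x
  have h1 : y ≤ x + y := le_add_of_nonneg_left h0
  have h2 : x + y ≤ (x + y) * (x + y) := by
    have h00 : (0 : S.M) ≤ x + y := PiC.zero_le' S (x + y)
    rcases eq_or_lt_of_le h00 with h | h
    · rw [← h]; simp
    · have h3 : (1 : S.M) ≤ x + y := by
        rw [← zero_add (1 : S.M), add_one_le_iff']; exact h
      exact le_mul_of_one_le_left h.le h3
  have : y ≤ (x + y) * (x + y) + x := (h1.trans h2).trans (le_add_of_nonneg_right h0)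
  exact this

end

/-! ### Representability -/

/-- The substitution which keeps the variables `0`, `1`, `2` at given places and replaces all
others by `0`. -/
def sr3 (a b c : ℕ) : ℕ → Tm Lar
  | 0 => .var a
  | 1 => .var b
  | 2 => .var c
  | _ + 3 => tZ

theorem sr3_val (S : Str Lar) (a b c : ℕ) (e : ℕ → S.M) :
    (fun i => (sr3 a b c i).val S e) = cn (e a) (cn (e b) (cn (e c) (fun _ => S.zr))) := by
  funext i
  match i with
  | 0 => rfl
  | 1 => rfl
  | 2 => rfl
  | _ + 3 => exact val_tZ S e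

theorem tZ_bd (k : ℕ) : (tZ : Tm Lar).bd k := fun i => i.elim0

theorem Fm.bd_sub_all {L : Lang} (f : Fm L) : ∀ {l : ℕ} {σ : ℕ → Tm L}, (∀ i, (σ i).bd l) →
    (f.sub σ).bd l := by
  intro l σ h
  obtain ⟨k, hk⟩ := f.exists_bd
  exact f.bd_sub (fun i _ => h i) hk

theorem sr3_bd {a b c l : ℕ} (ha : a < l) (hb : b < l) (hc : c < l) (i : ℕ) :
    (sr3 a b c i).bd l := by
  match i with
  | 0 => exact ha
  | 1 => exact hb
  | 2 => exact hc
  | _ + 3 => exact tZ_bd l

/-- Witness comparison. -/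
def wit (f : Fm Lar) : Fm Lar :=
  .ex (.and (f.sub (sr3 0 2 1))
    (.all (.imp (fLe (.var 0) (tA (.var 1) (.var 2)))
      (.all (.imp (fLe (.var 0) (tA (.var 2) (.var 3)))
        (.imp (f.sub (sr3 1 4 0)) (.eq (.var 0) (.var 3))))))))

theorem tA_bd {t u : Tm Lar} {k : ℕ} (ht : t.bd k) (hu : u.bd k) : (tA t u).bd k := by
  intro i
  fin_cases i
  · exact ht
  · exact hu

theorem fLe_bd {t u : Tm Lar} {k : ℕ} (ht : t.bd k) (hu : u.bd k) : (fLe t u).bd k := by
  intro i
  fin_cases i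
  · exact ht
  · exact hu

theorem wit_bd (f : Fm Lar) : (wit f).bd 2 := by
  unfold wit
  have h : ∀ {k : ℕ} {g : Fm Lar}, g.bd (k + 1) → (Fm.ex g).bd k := by
    intro k g hg; exact ⟨⟨hg, trivial⟩, trivial⟩
  have hv : ∀ {i k : ℕ}, i < k → (Tm.var i : Tm Lar).bd k := fun h => h
  refine h ?_
  rw [bd_and]
  refine ⟨f.bd_sub_all (sr3_bd (by omega) (by omega) (by omega)), ?_⟩
  refine ⟨fLe_bd (hv (by omega)) (tA_bd (hv (by omega)) (hv (by omega))), ?_⟩
  refine ⟨fLe_bd (hv (by omega)) (tA_bd (hv (by omega)) (hv (by omega))), ?_⟩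
  exact ⟨f.bd_sub_all (sr3_bd (by omega) (by omega) (by omega)), hv (by omega), hv (by omega)⟩

/-- The meaning of `f` at three arguments. -/
def G3 (f : Fm Lar) (S : Str Lar) (w x y : S.M) : Prop :=
  f.Sat S (cn w (cn x (cn y (fun _ => S.zr))))

theorem sat_wit (f : Fm Lar) (S : Str Lar) (e : ℕ → S.M) : (wit f).Sat S e ↔
    ∃ w, G3 f S w (e 1) (e 0) ∧ ∀ w', S.le w' (S.ad w (e 0)) → ∀ y', S.le y' (S.ad w (e 0)) →
      G3 f S w' (e 1) y' → y' = e 0 := by
  unfold wit
  simp only [Fm.sat_ex, Fm.sat_and, Fm.Sat, sat_fLe, Fm.sat_sub, sr3_val, val_tA, val_var,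
    cn_zero, cn_one, cn_two, cn_three, cn_four, G3]

theorem G3_nmS (S : Str Lar) [PiC S] {f : Fm Lar} (hf : Bdd f) (w x y : ℕ) :
    G3 f S (nmS S w) (nmS S x) (nmS S y) ↔ G3 f natS w x y := by
  unfold G3
  rw [← bdd_nmS S hf]
  rw [comp_cn, comp_cn, comp_cn]
  rfl

theorem rep_of_primrec {F : ℕ → ℕ} (hF : Nat.Primrec F) : ∃ θ : Fm Lar, θ.bd 2 ∧
    (∀ e : ℕ → ℕ, θ.Sat natS e ↔ e 0 = F (e 1)) ∧
    ∀ (S : Str Lar) [PiC S] (n : ℕ) (y : S.M),
      θ.Sat S (cn y (fun _ => nmS S n)) ↔ y = nmS S (F n) := by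
  obtain ⟨f, hb, hf⟩ := sigma1_of_primrec hF
  have hg : ∀ x y : ℕ, F x = y ↔ ∃ w : ℕ, G3 f natS w x y := fun x y =>
    hf (cn x (cn y (fun _ => (0 : ℕ))))
  refine ⟨wit f, wit_bd f, ?_, ?_⟩
  · intro e
    rw [sat_wit]
    constructor
    · rintro ⟨w, h, _⟩
      exact ((hg _ _).2 ⟨w, h⟩).symm
    · intro h
      obtain ⟨w, hw⟩ := (hg (e 1) (e 0)).1 h.symm
      refine ⟨w, hw, ?_⟩
      intro w' _ y' _ h'
      rw [h]
      exact ((hg _ _).2 ⟨w', h'⟩).symm
  · intro S _ n y
    rw [sat_wit]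
    simp only [cn_zero, cn_one]
    obtain ⟨w₀, hw₀⟩ := (hg n (F n)).1 rfl
    constructor
    · rintro ⟨w, h, hu⟩
      by_cases h1 : S.le (nmS S w₀) (S.ad w y)
      · by_cases h2 : S.le (nmS S (F n)) (S.ad w y)
        · exact (hu _ h1 _ h2 ((G3_nmS S hb _ _ _).2 hw₀)).symm
        · have h3 : S.le (S.ad w y) (nmS S (F n)) := (PiC.total' S _ _).resolve_right h2
          have hw : w ≤ w + y := le_add_of_nonneg_right (PiC.zero_le' S _)
          have hy : y ≤ w + y := le_add_of_nonneg_left (PiC.zero_le' S _)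
          obtain ⟨a, _, rfl⟩ := le_nmS S _ w (PiC.trans' S hw h3)
          obtain ⟨b, _, rfl⟩ := le_nmS S _ y (PiC.trans' S hy h3)
          rw [G3_nmS S hb] at h
          rw [(hg n b).2 ⟨a, h⟩]
      · have h3 : S.le (S.ad w y) (nmS S w₀) := (PiC.total' S _ _).resolve_right h1
        have hw : w ≤ w + y := le_add_of_nonneg_right (PiC.zero_le' S _)
        have hy : y ≤ w + y := le_add_of_nonneg_left (PiC.zero_le' S _)
        obtain ⟨a, _, rfl⟩ := le_nmS S _ w (PiC.trans' S hw h3)
        obtain ⟨b, _, rfl⟩ := le_nmS S _ y (PiC.trans' S hy h3)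
        rw [G3_nmS S hb] at h
        rw [(hg n b).2 ⟨a, h⟩]
    · rintro rfl
      refine ⟨nmS S w₀, (G3_nmS S hb _ _ _).2 hw₀, ?_⟩
      intro w' hw' y' hy' h'
      rw [nmS_ad] at hw' hy'
      obtain ⟨a, _, rfl⟩ := le_nmS S _ w' hw'
      obtain ⟨b, _, rfl⟩ := le_nmS S _ y' hy'
      rw [G3_nmS S hb] at h'
      rw [(hg n b).2 ⟨a, h'⟩]

end Pool.Agent.MP81222b
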