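import Pool.Agent.Lib.MP_81222b_lc.Ar

/-!
# Graphs of primitive recursive functions are `Σ_1`-definable over the standard model
-/

namespace Pool.Agent.MP81222b

variable {L : Lang}

/-! ### Substitution in bounded formulas -/

theorem Tm.sub_sub (σ τ : ℕ → Tm L) (t : Tm L) :
    (t.sub σ).sub τ = t.sub (fun i => (σ i).sub τ) := by
  induction t with
  | var i => rfl
  | fn n f ts ih => simp only [Tm.sub, ih]

theorem Tm.up_sub_lft (σ : ℕ → Tm L) (t : Tm L) : t.up.sub (lft σ) = (t.sub σ).up := by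
  simp only [Tm.up, Tm.sub_sub]
  rfl

theorem fLe_sub (t u : Tm Lar) (σ : ℕ → Tm Lar) : (fLe t u).sub σ = fLe (t.sub σ) (u.sub σ) := by
  simp only [fLe, Fm.sub]
  congr 1
  funext i
  fin_cases i <;> rfl

theorem ball_sub (t : Tm Lar) (f : Fm Lar) (σ : ℕ → Tm Lar) :
    (ball t f).sub σ = ball (t.sub σ) (f.sub (lft σ)) := by
  simp only [ball, Fm.sub, fLe_sub, Tm.up_sub_lft]
  rfl

theorem Bdd.sub {f : Fm Lar} (hf : Bdd f) : ∀ σ : ℕ → Tm Lar, Bdd (f.sub σ) := by
  induction hf with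
  | bot => intro σ; exact .bot
  | eq t u => intro σ; exact .eq _ _
  | rl n r ts => intro σ; exact .rl _ _ _
  | imp f g _ _ ihf ihg => intro σ; exact .imp _ _ (ihf σ) (ihg σ)
  | ball t f _ ih => intro σ; rw [ball_sub]; exact .ball _ _ (ih _)

/-! ### `Σ_1`-definable predicates -/

/-- Predicates on assignments defined over the standard model by an existential quantifier in front
of a bounded formula. -/
def Sg (P : (ℕ → ℕ) → Prop) : Prop :=
  ∃ f : Fm Lar, Bdd f ∧ ∀ e : ℕ → ℕ, P e ↔ ∃ w : ℕ, f.Sat natS (cn w e)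

theorem Sg.congr {P Q : (ℕ → ℕ) → Prop} (h : Sg P) (hPQ : ∀ e, Q e ↔ P e) : Sg Q := by
  obtain ⟨f, hb, hf⟩ := h
  exact ⟨f, hb, fun e => (hPQ e).trans (hf e)⟩

theorem Sg.of_bdd {f : Fm Lar} (hf : Bdd f) : Sg (fun e => f.Sat natS e) := by
  refine ⟨f.sub (fun i => .var (i + 1)), hf.sub _, fun e => ?_⟩
  simp only [Fm.sat_sub, val_var, cn_succ]
  exact ⟨fun h => ⟨0, h⟩, fun ⟨_, h⟩ => h⟩

theorem Sg.of_bDef {P : (S : Str Lar) → (ℕ → S.M) → Prop} (h : BDef P) :
    Sg (fun e => P natS e) := by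
  obtain ⟨f, hb, hf⟩ := h.ex
  exact (Sg.of_bdd hb).congr fun e => hf natS e

/-- Substitution of terms. -/
theorem Sg.sub {P : (ℕ → ℕ) → Prop} (h : Sg P) (σ : ℕ → Tm Lar) :
    Sg (fun e => P (fun i => (σ i).val natS e)) := by
  obtain ⟨f, hb, hf⟩ := h
  refine ⟨f.sub (lft σ), hb.sub _, fun e => (hf _).trans ?_⟩
  simp only [Fm.sat_sub, val_lft]

/-- Renaming of variables. -/
theorem Sg.ren {P : (ℕ → ℕ) → Prop} (h : Sg P) (ρ : ℕ → ℕ) :
    Sg (fun e => P (fun i => e (ρ i))) :=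
  h.sub (fun i => .var (ρ i))

/-- Bounded formulas that state `∃ x ≤ t, f`. -/
def bex (t : Tm Lar) (f : Fm Lar) : Fm Lar := .neg (ball t (.neg f))

theorem Bdd.bex {f : Fm Lar} (hf : Bdd f) (t : Tm Lar) : Bdd (bex t f) :=
  Bdd.neg (.ball _ _ hf.neg)

theorem sat_bex (S : Str Lar) (e) (t) (f : Fm Lar) :
    (bex t f).Sat S e ↔ ∃ x, S.le x (t.val S e) ∧ f.Sat S (cn x e) := by
  simp only [MP81222b.bex, Fm.sat_neg, sat_ball]
  push Not
  rfl

theorem sat_bex_nat (e : ℕ → ℕ) (t) (f : Fm Lar) :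
    (bex t f).Sat natS e ↔ ∃ x : ℕ, x ≤ (t.val natS e : ℕ) ∧ f.Sat natS (cn x e) :=
  sat_bex natS e t f

theorem sat_ball_nat (e : ℕ → ℕ) (t) (f : Fm Lar) :
    (ball t f).Sat natS e ↔ ∀ x : ℕ, x ≤ (t.val natS e : ℕ) → f.Sat natS (cn x e) :=
  sat_ball natS e t f

/-- The renaming that drops the variable `1`. -/
theorem sat_drop1 (S : Str Lar) (f : Fm Lar) (x y : S.M) (e : ℕ → S.M) :
    (f.sub (fun i => match i with
      | 0 => .var 0
      | j + 1 => .var (j + 2))).Sat S (cn x (cn y e)) ↔ f.Sat S (cn x e) := by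
  rw [Fm.sat_sub]
  have : (fun i => (match i with
      | 0 => (.var 0 : Tm Lar)
      | j + 1 => .var (j + 2) : Tm Lar).val S (cn x (cn y e))) = cn x e := by
    funext i; cases i <;> rfl
  rw [this]

theorem Sg.and {P Q : (ℕ → ℕ) → Prop} (hP : Sg P) (hQ : Sg Q) : Sg (fun e => P e ∧ Q e) := by
  obtain ⟨f, hb, hf⟩ := hP
  obtain ⟨g, hb', hg⟩ := hQ
  refine ⟨.and (bex (.var 0) (f.sub (fun i => match i with
      | 0 => .var 0
      | j + 1 => .var (j + 2)))) (bex (.var 0) (g.sub (fun i => match i with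
      | 0 => .var 0
      | j + 1 => .var (j + 2)))), ((hb.sub _).bex _).and ((hb'.sub _).bex _), fun e => ?_⟩
  simp only [Fm.sat_and, sat_bex_nat, val_var, cn_zero, hf, hg]
  constructor
  · rintro ⟨⟨w, hw⟩, w', hw'⟩
    exact ⟨max w w', ⟨w, le_max_left _ _, (sat_drop1 natS f w _ e).2 hw⟩,
      w', le_max_right _ _, (sat_drop1 natS g w' _ e).2 hw'⟩
  · rintro ⟨v, ⟨w, _, hw⟩, w', _, hw'⟩
    exact ⟨⟨w, (sat_drop1 natS f w v e).1 hw⟩, w', (sat_drop1 natS g w' v e).1 hw'⟩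

theorem Sg.or {P Q : (ℕ → ℕ) → Prop} (hP : Sg P) (hQ : Sg Q) : Sg (fun e => P e ∨ Q e) := by
  obtain ⟨f, hb, hf⟩ := hP
  obtain ⟨g, hb', hg⟩ := hQ
  refine ⟨.or f g, hb.or hb', fun e => ?_⟩
  simp only [Fm.sat_or, hf, hg, exists_or]

theorem Sg.ex {P : (ℕ → ℕ) → Prop} (hP : Sg P) : Sg (fun e => ∃ x, P (cn x e)) := by
  obtain ⟨f, hb, hf⟩ := hP
  refine ⟨bex (.var 0) (bex (.var 1) (f.sub (fun i => match i with
      | 0 => .var 0
      | 1 => .var 1
      | j + 2 => .var (j + 3)))), ((hb.sub _).bex _).bex _, fun e => ?_⟩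
  have key : ∀ w x v : ℕ, (f.sub (fun i => match i with
      | 0 => .var 0
      | 1 => .var 1
      | j + 2 => .var (j + 3))).Sat natS (cn w (cn x (cn v e))) ↔ f.Sat natS (cn w (cn x e)) := by
    intro w x v
    rw [Fm.sat_sub]
    have : (fun i => (match i with
      | 0 => (.var 0 : Tm Lar)
      | 1 => .var 1
      | j + 2 => .var (j + 3) : Tm Lar).val natS (cn w (cn x (cn v e)))) = cn w (cn x e) := by
      funext i
      match i with
      | 0 => rfl
      | 1 => rfl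
      | j + 2 => rfl
    rw [this]
  simp only [sat_bex_nat, val_var, cn_zero, cn_one, hf]
  constructor
  · rintro ⟨x, w, hw⟩
    exact ⟨max x w, x, le_max_left _ _, w, le_max_right _ _, (key w x _).2 hw⟩
  · rintro ⟨v, x, _, w, _, hw⟩
    exact ⟨x, w, (key w x v).1 hw⟩

/-- Bounded universal quantification (by collection). -/
theorem Sg.ball {P : (ℕ → ℕ) → Prop} (hP : Sg P) (t : Tm Lar) :
    Sg (fun e => ∀ x, x ≤ (t.val natS e : ℕ) → P (cn x e)) := by
  obtain ⟨f, hb, hf⟩ := hP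
  refine ⟨MP81222b.ball t.up (bex (.var 1) (f.sub (fun i => match i with
      | 0 => .var 0
      | 1 => .var 1
      | j + 2 => .var (j + 3)))), .ball _ _ ((hb.sub _).bex _), fun e => ?_⟩
  have key : ∀ w x v : ℕ, (f.sub (fun i => match i with
      | 0 => .var 0
      | 1 => .var 1
      | j + 2 => .var (j + 3))).Sat natS (cn w (cn x (cn v e))) ↔ f.Sat natS (cn w (cn x e)) := by
    intro w x v
    rw [Fm.sat_sub]
    have : (fun i => (match i with
      | 0 => (.var 0 : Tm Lar)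
      | 1 => .var 1
      | j + 2 => .var (j + 3) : Tm Lar).val natS (cn w (cn x (cn v e)))) = cn w (cn x e) := by
      funext i
      match i with
      | 0 => rfl
      | 1 => rfl
      | j + 2 => rfl
    rw [this]
  have hu : ∀ v : ℕ, (t.up.val natS (cn v e) : ℕ) = t.val natS e := fun v => val_up natS e v t
  simp only [sat_ball_nat, sat_bex_nat, val_var, cn_one, cn_zero, hf]
  constructor
  · intro h
    choose! w hw using h
    refine ⟨(Finset.range ((t.val natS e : ℕ) + 1)).sup w, fun x hx => ?_⟩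
    rw [hu] at hx
    refine ⟨w x, ?_, (key _ _ _).2 (hw x hx)⟩
    exact Finset.le_sup (f := w) (Finset.mem_range.2 (Nat.lt_succ_of_le hx))
  · rintro ⟨v, h⟩ x hx
    obtain ⟨w, _, hw⟩ := h x ((hu v).symm ▸ hx)
    exact ⟨w, (key _ _ _).1 hw⟩

/-! ### Primitive recursive functions -/

/-- The graph of the function is `Σ_1`-definable. -/
def SgF (F : ℕ → ℕ) : Prop := Sg (fun e => F (e 0) = e 1)

theorem SgF.app {F : ℕ → ℕ} (h : SgF F) (i j : ℕ) : Sg (fun e => F (e i) = e j) :=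
  Sg.ren h (fun k => if k = 0 then i else j)

theorem sg_pair (i j k : ℕ) : Sg (fun e => Nat.pair (e i) (e j) = e k) := by
  have h : BDef (fun S e => (S.le (S.sc (e i)) (e j) ∧ S.ad (S.ml (e j) (e j)) (e i) = e k) ∨
    (S.le (e j) (e i) ∧ S.ad (S.ad (S.ml (e i) (e i)) (e i)) (e j) = e k)) := inferInstance
  refine (Sg.of_bDef h).congr fun e => ?_
  simp only [natS_le, natS_sc, natS_ad, natS_ml, Nat.pair]
  split_ifs with hlt
  · constructor
    · intro h; exact Or.inl ⟨hlt, h⟩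
    · rintro (⟨_, h⟩ | ⟨h, _⟩)
      · exact h
      · omega
  · constructor
    · intro h; exact Or.inr ⟨by omega, h⟩
    · rintro (⟨h, _⟩ | ⟨_, h⟩)
      · omega
      · exact h

/-- The graph of the remainder function `e i % ((e j + 1) * e k + 1) = e l`. -/
theorem sg_beta (i j k l : ℕ) : Sg (fun e => e i % ((e j + 1) * e k + 1) = e l) := by
  have h : BDef (fun S e => S.le (e l) (S.ml (S.sc (e j)) (e k)) ∧ ∃ q, S.le q (e i) ∧
    S.ad (S.ml q (S.sc (S.ml (S.sc (e j)) (e k)))) (e l) = e i) := inferInstance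
  refine (Sg.of_bDef h).congr fun e => ?_
  simp only [natS_le, natS_sc, natS_ad, natS_ml]
  constructor
  · intro h
    rw [← h]
    refine ⟨Nat.le_of_lt_succ (Nat.mod_lt _ (Nat.succ_pos _)), e i / ((e j + 1) * e k + 1),
      Nat.div_le_self _ _, ?_⟩
    rw [Nat.mul_comm]
    exact Nat.div_add_mod _ _
  · rintro ⟨h1, q, _, h2⟩
    rw [← h2, Nat.mul_comm q, Nat.mul_add_mod]
    exact Nat.mod_eq_of_lt (Nat.lt_succ_of_le h1)

theorem SgF.zero : SgF (fun _ => 0) :=
  (Sg.of_bDef (P := fun S e => S.zr = e 1) inferInstance).congr fun _ => Iff.rfl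

theorem SgF.succ : SgF Nat.succ :=
  (Sg.of_bDef (P := fun S e => S.sc (e 0) = e 1) inferInstance).congr fun _ => Iff.rfl

theorem SgF.left : SgF (fun n => n.unpair.1) := by
  refine (sg_pair 2 0 1).ex.congr fun e => ?_
  simp only [cn_two, cn_zero, cn_one]
  constructor
  · intro h; exact ⟨(e 0).unpair.2, by rw [← h]; exact Nat.pair_unpair _⟩
  · rintro ⟨x, h⟩; rw [← h, Nat.unpair_pair]

theorem SgF.right : SgF (fun n => n.unpair.2) := by
  refine (sg_pair 0 2 1).ex.congr fun e => ?_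
  simp only [cn_two, cn_zero, cn_one]
  constructor
  · intro h; exact ⟨(e 0).unpair.1, by rw [← h]; exact Nat.pair_unpair _⟩
  · rintro ⟨x, h⟩; rw [← h, Nat.unpair_pair]

theorem SgF.pair {f g : ℕ → ℕ} (hf : SgF f) (hg : SgF g) : SgF (fun n => Nat.pair (f n) (g n)) := by
  refine (((hf.app 2 1).and ((hg.app 2 0).and (sg_pair 1 0 3))).ex.ex).congr fun e => ?_
  simp only [cn_two, cn_zero, cn_one, cn_three]
  constructor
  · intro h; exact ⟨f (e 0), g (e 0), rfl, rfl, h⟩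
  · rintro ⟨x, y, h1, h2, h3⟩; rw [h1, h2, h3]

theorem SgF.comp {f g : ℕ → ℕ} (hf : SgF f) (hg : SgF g) : SgF (fun n => f (g n)) := by
  refine (((hg.app 1 0).and (hf.app 0 2)).ex).congr fun e => ?_
  simp only [cn_two, cn_zero, cn_one]
  constructor
  · intro h; exact ⟨g (e 0), rfl, h⟩
  · rintro ⟨x, h1, h2⟩; rw [h1, h2]

/-- Computation sequences can be coded. -/
theorem beta_seq (a : ℕ → ℕ) (n : ℕ) : ∃ c d : ℕ, ∀ i ≤ n, c % ((i + 1) * d + 1) = a i := by
  refine ⟨(Nat.unbeta ((List.range (n + 1)).map a)).unpair.1,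
    (Nat.unbeta ((List.range (n + 1)).map a)).unpair.2, fun i hi => ?_⟩
  have := Nat.beta_unbeta_coe ((List.range (n + 1)).map a) ⟨i, by simpa using Nat.lt_succ_of_le hi⟩
  simpa [Nat.beta] using this

/-- The recursion. -/
def recF (f g : ℕ → ℕ) (z : ℕ) : ℕ → ℕ
  | 0 => f z
  | n + 1 => g (Nat.pair z (Nat.pair n (recF f g z n)))

theorem recF_iff (f g : ℕ → ℕ) (z n m : ℕ) : recF f g z n = m ↔
    ∃ c d : ℕ, (∃ u, f z = u ∧ c % ((0 + 1) * d + 1) = u) ∧ c % ((n + 1) * d + 1) = m ∧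
      ∀ i ≤ n, i = n ∨ ∃ i' u v p q, i' = i + 1 ∧ c % ((i + 1) * d + 1) = u ∧
        c % ((i' + 1) * d + 1) = v ∧ Nat.pair i u = p ∧ Nat.pair z p = q ∧ g q = v := by
  constructor
  · intro h
    obtain ⟨c, d, hcd⟩ := beta_seq (recF f g z) n
    refine ⟨c, d, ⟨f z, rfl, hcd 0 (Nat.zero_le _)⟩, (hcd n le_rfl).trans h, fun i hi => ?_⟩
    rcases Nat.eq_or_lt_of_le hi with h1 | h1
    · exact Or.inl h1
    · exact Or.inr ⟨i + 1, recF f g z i, recF f g z (i + 1), _, _, rfl, hcd i hi, hcd (i + 1) h1,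
        rfl, rfl, rfl⟩
  · rintro ⟨c, d, ⟨u, hu, hc⟩, hn, hs⟩
    have key : ∀ i ≤ n, c % ((i + 1) * d + 1) = recF f g z i := by
      intro i
      induction i with
      | zero => intro _; rw [hc, ← hu]; rfl
      | succ i ih =>
        intro hi
        rcases hs i (by omega) with h1 | ⟨i', u', v, p, q, rfl, h2, h3, h4, h5, h6⟩
        · omega
        · rw [h3, ← h6, ← h5, ← h4, ← h2, ih (by omega)]
          rfl
    rw [← hn, key n le_rfl]

theorem sg_eq (i j : ℕ) : Sg (fun e => e i = e j) :=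
  Sg.of_bDef (P := fun _ e => e i = e j) inferInstance
theorem sg_succ (i j : ℕ) : Sg (fun e => e i = e j + 1) :=
  Sg.of_bDef (P := fun S e => e i = S.sc (e j)) inferInstance
theorem sg_beta0 (i k l : ℕ) : Sg (fun e => e i % ((0 + 1) * e k + 1) = e l) := by
  refine (((sg_beta (i + 1) 0 (k + 1) (l + 1)).and
    (Sg.of_bDef (P := fun S e => e 0 = S.zr) inferInstance)).ex).congr fun e => ?_
  simp only [cn_succ, cn_zero]
  constructor
  · intro h; exact ⟨0, h, rfl⟩
  · rintro ⟨x, h1, h2⟩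
    rw [show x = 0 from h2] at h1
    exact h1

theorem SgF.prec {f g : ℕ → ℕ} (hf : SgF f) (hg : SgF g) :
    SgF (fun k => recF f g k.unpair.1 k.unpair.2) := by
  -- inside the bounded quantifier: variables q p v u i' i | c d | n z | k m
  have h1 : Sg (fun e => ∃ i' u v p q, i' = e 0 + 1 ∧ e 2 % ((e 0 + 1) * e 1 + 1) = u ∧
        e 2 % ((i' + 1) * e 1 + 1) = v ∧ Nat.pair (e 0) u = p ∧ Nat.pair (e 4) p = q ∧
        g q = v) := by
    refine (((sg_succ 4 5).and ((sg_beta 7 5 6 3).and ((sg_beta 7 4 6 2).and ((sg_pair 5 3 1).and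
      ((sg_pair 9 1 0).and (hg.app 0 2)))))).ex.ex.ex.ex.ex).congr fun e => ?_
    rfl
  have h2 : Sg (fun e => e 0 = e 3 ∨ ∃ i' u v p q, i' = e 0 + 1 ∧
        e 2 % ((e 0 + 1) * e 1 + 1) = u ∧ e 2 % ((i' + 1) * e 1 + 1) = v ∧
        Nat.pair (e 0) u = p ∧ Nat.pair (e 4) p = q ∧ g q = v) := (sg_eq 0 3).or h1
  have h3 := h2.ball (.var 2)
  -- variables: d c n z k m
  have h4 := (((hf.app 4 0).and (sg_beta0 2 1 0)).ex.and ((sg_beta 1 2 0 5).and h3)).ex.ex
  have h5 := ((sg_pair 1 0 2).and h4).ex.ex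
  refine h5.congr fun e => ?_
  constructor
  · intro h
    refine ⟨(e 0).unpair.1, (e 0).unpair.2, Nat.pair_unpair _, ?_⟩
    exact (recF_iff f g _ _ _).1 h
  · rintro ⟨z, n, h1, h2⟩
    have h1' : Nat.pair z n = e 0 := h1
    simp only [← h1', Nat.unpair_pair]
    exact (recF_iff f g z n (e 1)).2 h2

theorem sgF_of_primrec {F : ℕ → ℕ} (hF : Nat.Primrec F) : SgF F := by
  induction hF with
  | zero => exact SgF.zero
  | succ => exact SgF.succ
  | left => exact SgF.left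
  | right => exact SgF.right
  | pair _ _ ihf ihg => exact ihf.pair ihg
  | comp _ _ ihf ihg => exact ihf.comp ihg
  | @prec f g _ _ ihf ihg =>
    have : Nat.unpaired (fun z n => n.rec (f z) fun y IH => g (Nat.pair z (Nat.pair y IH))) =
        fun k => recF f g k.unpair.1 k.unpair.2 := by
      funext k
      simp only [Nat.unpaired]
      generalize k.unpair.2 = n
      induction n with
      | zero => rfl
      | succ n ih => simp only [recF, ← ih]
    rw [this]
    exact ihf.prec ihg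

/-- The graph of a primitive recursive function is `Σ_1`-definable over the standard model. -/
theorem sigma1_of_primrec {F : ℕ → ℕ} (hF : Nat.Primrec F) :
    ∃ f : Fm Lar, Bdd f ∧ ∀ e : ℕ → ℕ, F (e 0) = e 1 ↔ ∃ w : ℕ, f.Sat natS (cn w e) :=
  sgF_of_primrec hF

end Pool.Agent.MP81222b
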