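import Pool.Agent.Lib.MP_81222b_lc.Henk
import Pool.Agent.Lib.MP_81222b_lc.Sigma1

/-!
# Semantic notions: numerals, powers of four, strings, greedy strings, clauses

All notions are defined over an arbitrary structure `S : Str Lar`.  In structures with `PiC S` use
`ad_eq, ml_eq, zr_eq, sc_eq, le_eq` to pass to the ordered semiring notation.
-/

namespace Pool.Agent.MP81222b

/-! ### Terms -/

/-- `x < y`. -/
def Str.lt (S : Str Lar) (x y : S.M) : Prop := S.le (S.sc x) y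
/-- `2 x`. -/
def dbl (S : Str Lar) (x : S.M) : S.M := S.ad x x
/-- `4 x`. -/
def qd (S : Str Lar) (x : S.M) : S.M := dbl S (dbl S x)
/-- `2 ^ |x|`. -/
def e2 (S : Str Lar) (x : S.M) : S.M := S.sm (S.sc S.zr) x
/-- The length of the length of the length of `x`. -/
def l3 (S : Str Lar) (x : S.M) : S.M := S.ln (S.ln (S.ln x))
/-- Pairing. -/
def prS (S : Str Lar) (x y : S.M) : S.M := S.ad (S.ml (S.ad x y) (S.ad x y)) x
/-- Adding an element to a list. -/
def consS (S : Str Lar) (x s : S.M) : S.M := S.sc (prS S x s)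
/-- Standard numerals. -/
def nmS (S : Str Lar) : ℕ → S.M
  | 0 => S.zr
  | n + 1 => S.sc (nmS S n)
/-- Lists with one, two, three entries. -/
def li1 (S : Str Lar) (x : S.M) : S.M := consS S x S.zr
def li2 (S : Str Lar) (x y : S.M) : S.M := consS S x (li1 S y)
def li3 (S : Str Lar) (x y z : S.M) : S.M := consS S x (li2 S y z)

section
variable {t u v : (S : Str Lar) → (ℕ → S.M) → S.M} [TDef t] [TDef u] [TDef v]
instance : TDef (fun (S : Str Lar) e => dbl S (t S e)) :=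
  inferInstanceAs (TDef (fun (S : Str Lar) e => S.ad (t S e) (t S e)))
instance : TDef (fun (S : Str Lar) e => qd S (t S e)) :=
  inferInstanceAs (TDef (fun (S : Str Lar) e => dbl S (dbl S (t S e))))
instance : TDef (fun (S : Str Lar) e => e2 S (t S e)) :=
  inferInstanceAs (TDef (fun (S : Str Lar) e => S.sm (S.sc S.zr) (t S e)))
instance : TDef (fun (S : Str Lar) e => l3 S (t S e)) :=
  inferInstanceAs (TDef (fun (S : Str Lar) e => S.ln (S.ln (S.ln (t S e)))))
instance : TDef (fun (S : Str Lar) e => prS S (t S e) (u S e)) :=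
  inferInstanceAs (TDef (fun (S : Str Lar) e =>
    S.ad (S.ml (S.ad (t S e) (u S e)) (S.ad (t S e) (u S e))) (t S e)))
instance : TDef (fun (S : Str Lar) e => consS S (t S e) (u S e)) :=
  inferInstanceAs (TDef (fun (S : Str Lar) e => S.sc (prS S (t S e) (u S e))))
instance : TDef (fun (S : Str Lar) e => li1 S (t S e)) :=
  inferInstanceAs (TDef (fun (S : Str Lar) e => consS S (t S e) S.zr))
instance : TDef (fun (S : Str Lar) e => li2 S (t S e) (u S e)) :=
  inferInstanceAs (TDef (fun (S : Str Lar) e => consS S (t S e) (li1 S (u S e))))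
instance : TDef (fun (S : Str Lar) e => li3 S (t S e) (u S e) (v S e)) :=
  inferInstanceAs (TDef (fun (S : Str Lar) e => consS S (t S e) (li2 S (u S e) (v S e))))
instance nmS.tDef (n : ℕ) : TDef (fun (S : Str Lar) _ => nmS S n) := by
  induction n with
  | zero => exact inferInstanceAs (TDef (fun (S : Str Lar) _ => S.zr))
  | succ n ih => exact inferInstanceAs (TDef (fun (S : Str Lar) _ => S.sc (nmS S n)))
instance : BDef (fun (S : Str Lar) e => S.lt (t S e) (u S e)) :=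
  inferInstanceAs (BDef (fun (S : Str Lar) e => S.le (S.sc (t S e)) (u S e)))
instance : UDef (fun (S : Str Lar) e => S.lt (t S e) (u S e)) :=
  inferInstanceAs (UDef (fun (S : Str Lar) e => S.le (S.sc (t S e)) (u S e)))
end

/-! ### Strings -/

/-- `m = 4 ^ k`. -/
def P4 (S : Str Lar) (k m : S.M) : Prop :=
  ∃ x, S.le x m ∧ (S.ln x = k ∧ m = S.ml (e2 S x) (e2 S x))
/-- `m` is a power of four. -/
def Pw (S : Str Lar) (m : S.M) : Prop := ∃ k, S.le k m ∧ P4 S k m
/-- `s` is a string of length `k`: `4 ^ k ≤ s < 2 * 4 ^ k`. -/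
def LenS (S : Str Lar) (s k : S.M) : Prop :=
  ∃ m, S.le m s ∧ (P4 S k m ∧ S.lt s (S.ad m m))
/-- The decision number `k` of the string `s` is positive: for the initial part `u` of `s` of
length `k` and a power `m` of four, `(4 u + 2) m ≤ s < (4 u + 3) m`. -/
def Dig (S : Str Lar) (s k : S.M) : Prop :=
  ∃ u, S.le u s ∧ ∃ m, S.le m s ∧ (Pw S m ∧ LenS S u k ∧
    S.le (S.ml (S.sc (S.sc (qd S u))) m) s ∧ S.lt s (S.ml (S.sc (S.sc (S.sc (qd S u)))) m))

/-- The string `s` is greedy for the query predicate `q`. -/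
def Grd (S : Str Lar) (q : S.M → Prop) (s : S.M) : Prop :=
  ∀ u m, u ≠ S.zr → Pw S m → S.le (S.ml (qd S u) m) s → S.lt s (S.ml (qd S (S.sc u)) m) →
    (q u → S.le (S.ml (S.sc (S.sc (qd S u))) m) s ∧ S.lt s (S.ml (S.sc (S.sc (S.sc (qd S u)))) m)) ∧
    (¬ q u → S.le (S.ml (S.sc (qd S u)) m) s ∧ S.lt s (S.ml (S.sc (S.sc (qd S u))) m))

/-- Decision number `k` for the query predicate `q`. -/
def Dq (S : Str Lar) (q : S.M → Prop) (k : S.M) : Prop :=
  ∃ s, LenS S s k ∧ Grd S q s ∧ q s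

/-! ### Substitution of terms in definable predicates -/

/-- Substitution of one/two/three terms. -/
def sb1 (τ : Tm Lar) : ℕ → Tm Lar
  | 0 => τ
  | n + 1 => .var n
def sb2 (τ υ : Tm Lar) : ℕ → Tm Lar
  | 0 => τ
  | 1 => υ
  | n + 2 => .var n
def sb3 (τ υ χ : Tm Lar) : ℕ → Tm Lar
  | 0 => τ
  | 1 => υ
  | 2 => χ
  | n + 3 => .var n

theorem BDef.app1 {P : (S : Str Lar) → S.M → Prop} (h : BDef (fun S e => P S (e 0)))
    (t : (S : Str Lar) → (ℕ → S.M) → S.M) [ht : TDef t] : BDef (fun S e => P S (t S e)) := by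
  obtain ⟨f, hb, hf⟩ := h.ex
  obtain ⟨τ, hτ⟩ := ht.ex
  refine ⟨f.sub (sb1 τ), hb.sub _, fun S e => ?_⟩
  rw [Fm.sat_sub, ← hf, hτ]
  rfl

theorem BDef.app2 {P : (S : Str Lar) → S.M → S.M → Prop} (h : BDef (fun S e => P S (e 0) (e 1)))
    (t u : (S : Str Lar) → (ℕ → S.M) → S.M) [ht : TDef t] [hu : TDef u] :
    BDef (fun S e => P S (t S e) (u S e)) := by
  obtain ⟨f, hb, hf⟩ := h.ex
  obtain ⟨τ, hτ⟩ := ht.ex
  obtain ⟨υ, hυ⟩ := hu.ex
  refine ⟨f.sub (sb2 τ υ), hb.sub _, fun S e => ?_⟩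
  rw [Fm.sat_sub, ← hf, hτ, hυ]
  rfl

theorem BDef.app3 {P : (S : Str Lar) → S.M → S.M → S.M → Prop}
    (h : BDef (fun S e => P S (e 0) (e 1) (e 2)))
    (t u v : (S : Str Lar) → (ℕ → S.M) → S.M) [ht : TDef t] [hu : TDef u] [hv : TDef v] :
    BDef (fun S e => P S (t S e) (u S e) (v S e)) := by
  obtain ⟨f, hb, hf⟩ := h.ex
  obtain ⟨τ, hτ⟩ := ht.ex
  obtain ⟨υ, hυ⟩ := hu.ex
  obtain ⟨χ, hχ⟩ := hv.ex
  refine ⟨f.sub (sb3 τ υ χ), hb.sub _, fun S e => ?_⟩
  rw [Fm.sat_sub, ← hf, hτ, hυ, hχ]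
  rfl

theorem UDef.app1 {P : (S : Str Lar) → S.M → Prop} (h : UDef (fun S e => P S (e 0)))
    (t : (S : Str Lar) → (ℕ → S.M) → S.M) [ht : TDef t] : UDef (fun S e => P S (t S e)) := by
  obtain ⟨f, hf⟩ := h.ex
  obtain ⟨τ, hτ⟩ := ht.ex
  refine ⟨f.sub (sb1 τ), fun S e => ?_⟩
  rw [Fm.sat_sub, ← hf, hτ]
  rfl

theorem UDef.app2 {P : (S : Str Lar) → S.M → S.M → Prop} (h : UDef (fun S e => P S (e 0) (e 1)))
    (t u : (S : Str Lar) → (ℕ → S.M) → S.M) [ht : TDef t] [hu : TDef u] :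
    UDef (fun S e => P S (t S e) (u S e)) := by
  obtain ⟨f, hf⟩ := h.ex
  obtain ⟨τ, hτ⟩ := ht.ex
  obtain ⟨υ, hυ⟩ := hu.ex
  refine ⟨f.sub (sb2 τ υ), fun S e => ?_⟩
  rw [Fm.sat_sub, ← hf, hτ, hυ]
  rfl

theorem UDef.app3 {P : (S : Str Lar) → S.M → S.M → S.M → Prop}
    (h : UDef (fun S e => P S (e 0) (e 1) (e 2)))
    (t u v : (S : Str Lar) → (ℕ → S.M) → S.M) [ht : TDef t] [hu : TDef u] [hv : TDef v] :
    UDef (fun S e => P S (t S e) (u S e) (v S e)) := by
  obtain ⟨f, hf⟩ := h.ex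
  obtain ⟨τ, hτ⟩ := ht.ex
  obtain ⟨υ, hυ⟩ := hu.ex
  obtain ⟨χ, hχ⟩ := hv.ex
  refine ⟨f.sub (sb3 τ υ χ), fun S e => ?_⟩
  rw [Fm.sat_sub, ← hf, hτ, hυ, hχ]
  rfl

section
theorem P4.b0 : BDef (fun (S : Str Lar) e => P4 S (e 0) (e 1)) := by
  unfold P4; infer_instance
instance P4.bDef {t u : (S : Str Lar) → (ℕ → S.M) → S.M} [TDef t] [TDef u] :
    BDef (fun (S : Str Lar) e => P4 S (t S e) (u S e)) := P4.b0.app2 t u
theorem Pw.b0 : BDef (fun (S : Str Lar) e => Pw S (e 0)) := by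
  unfold Pw; infer_instance
instance Pw.bDef {t : (S : Str Lar) → (ℕ → S.M) → S.M} [TDef t] :
    BDef (fun (S : Str Lar) e => Pw S (t S e)) := Pw.b0.app1 t
theorem LenS.b0 : BDef (fun (S : Str Lar) e => LenS S (e 0) (e 1)) := by
  unfold LenS; infer_instance
instance LenS.bDef {t u : (S : Str Lar) → (ℕ → S.M) → S.M} [TDef t] [TDef u] :
    BDef (fun (S : Str Lar) e => LenS S (t S e) (u S e)) := LenS.b0.app2 t u
theorem Dig.b0 : BDef (fun (S : Str Lar) e => Dig S (e 0) (e 1)) := by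
  unfold Dig; infer_instance
instance Dig.bDef {t u : (S : Str Lar) → (ℕ → S.M) → S.M} [TDef t] [TDef u] :
    BDef (fun (S : Str Lar) e => Dig S (t S e) (u S e)) := Dig.b0.app2 t u
end

/-! ### Codes and clauses -/

/-- Code of the formula `x₀ = x₁`. -/
def cEq : ℕ := 4 * pr 0 2 + 1
/-- Code of the atomic formula `r(x₀, x₁, x₂)`. -/
def cRl (r : ℕ) : ℕ := 4 * pr (pr 3 r) (consN 0 (consN 2 (consN 4 0))) + 2

theorem cEq_gn : cEq = (Fm.eq (.var 0) (.var 1) : Fm LA).gn := rfl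
theorem cRl_gn (r : Fin 9) : cRl r = (fR r 0 1 2).gn := by
  rw [gn_fR]; rfl

section
variable (S : Str Lar)
/-- Code operations. -/
def kEq (a b : S.M) : S.M := S.sc (qd S (prS S a b))
def kRl (r : ℕ) (v : S.M) : S.M := S.sc (S.sc (qd S (prS S (prS S (nmS S 3) (nmS S r)) v)))
def kImp (f g : S.M) : S.M := S.sc (S.sc (S.sc (qd S (prS S f g))))
def kAll (f : S.M) : S.M := S.sc (S.sc (S.sc (S.sc (qd S f))))
/-- The index of the statement that the constants `x`, `y` are equal. -/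
def iEq (x y : S.M) : S.M := prS S (nmS S cEq) (li2 S x y)
/-- The index of the statement that the constants `x`, `y`, `z` are in the relation `r`. -/
def iRl (r : ℕ) (x y z : S.M) : S.M := prS S (nmS S (cRl r)) (li3 S x y z)
end

/-- The clauses for a decision predicate `D`, restricted to indices less than `i`;
`lk s a x` means that `x` is the entry `a` of the list `s`. -/
structure Cl (S : Str Lar) (lk : S.M → S.M → S.M → Prop) (D : S.M → Prop) (i : S.M) : Prop where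
  bot : ∀ s, S.lt (prS S S.zr s) i → ¬ D (prS S S.zr s)
  imp : ∀ f g s, S.lt (prS S (kImp S f g) s) i → S.lt (prS S f s) i → S.lt (prS S g s) i →
    (D (prS S (kImp S f g) s) ↔ (D (prS S f s) → D (prS S g s)))
  all1 : ∀ f s x, S.lt (prS S (kAll S f) s) i → S.lt (prS S f (consS S x s)) i →
    D (prS S (kAll S f) s) → D (prS S f (consS S x s))
  all2 : ∀ f s, S.lt (prS S (kAll S f) s) i →
    S.lt (prS S f (consS S (prS S (kAll S f) s) s)) i →
    D (prS S f (consS S (prS S (kAll S f) s) s)) → D (prS S (kAll S f) s)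
  eq : ∀ a b s x y, lk s a x → lk s b y → S.lt (prS S (kEq S (dbl S a) (dbl S b)) s) i →
    S.lt (iEq S x y) i → (D (prS S (kEq S (dbl S a) (dbl S b)) s) ↔ D (iEq S x y))
  rl : ∀ r : Fin 9, ∀ a b c s x y z, lk s a x → lk s b y → lk s c z →
    S.lt (prS S (kRl S r (li3 S (dbl S a) (dbl S b) (dbl S c))) s) i → S.lt (iRl S r x y z) i →
    (D (prS S (kRl S r (li3 S (dbl S a) (dbl S b) (dbl S c))) s) ↔ D (iRl S r x y z))
  refl : ∀ x, S.lt (iEq S x x) i → D (iEq S x x)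
  eucl : ∀ x y z, S.lt (iEq S x y) i → S.lt (iEq S x z) i → S.lt (iEq S y z) i →
    D (iEq S x y) → D (iEq S x z) → D (iEq S y z)
  cong : ∀ r : Fin 9, ∀ x y z x' y' z', S.lt (iRl S r x y z) i → S.lt (iEq S x x') i →
    S.lt (iEq S y y') i → S.lt (iEq S z z') i → S.lt (iRl S r x' y' z') i →
    D (iRl S r x y z) → D (iEq S x x') → D (iEq S y y') → D (iEq S z z') → D (iRl S r x' y' z')

/-! ### Henkin model -/

/-- The cuts obtained from `C` by closing under addition and multiplication. -/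
def J3 (S : Str Lar) (C : S.M → Prop) (x : S.M) : Prop := C x ∧ ∀ y, C y → C (S.ad y x)
def J4 (S : Str Lar) (C : S.M → Prop) (x : S.M) : Prop :=
  J3 S C x ∧ ∀ y, J3 S C y → J3 S C (S.ml y x)
/-- Canonical constants. -/
def Cano (S : Str Lar) (C D : S.M → Prop) (x : S.M) : Prop :=
  J4 S C x ∧ ∀ y, S.lt y x → ¬ D (iEq S y x)

/-- The Henkin structure. -/
@[reducible] def HS (S : Str Lar) (C D : S.M → Prop) (h : ∃ x, Cano S C D x) : Str LA where
  M := {x : S.M // Cano S C D x}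
  inh := h.elim fun x hx => ⟨⟨x, hx⟩⟩
  fn := fun _ (f : Fin 0) _ => f.elim0
  rl := fun n r a => match n, r, a with
    | 3, (r : Fin 9), a => D (iRl S r (a 0).1 (a 1).1 (a 2).1)
    | _, _, _ => False

/-- The list of the first `n` values of `e`. -/
def lst (S : Str Lar) (e : ℕ → S.M) : ℕ → S.M
  | 0 => S.zr
  | n + 1 => consS S (e 0) (lst S (fun i => e (i + 1)) n)

/-! ### Queries -/

/-- The meaning of the query sentence `sig D0 u`, see `sat_sig`. -/
def QS (Q : Str LA) (u : ℕ) : Prop :=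
  ∃ x : ℕ → Q.M, (∀ k < kk u, LitS Q k (dg u k) x) ∧
    (dec (up1 (kk u))).Sat Q (fun a => x (Lk (up2 (kk u)) a))

/-! ### The shape of the coding cut -/

/-- Data for the coding: `C` is a proper cut below `E` without maximum, `Fam i s` means that `s` is
the string of length `i` in a coherent family of strings. -/
structure Shape (R : Str Lar) (E : R.M) (C : R.M → Prop) (Fam : R.M → R.M → Prop) : Prop where
  init : ∀ x y, C y → R.le x y → C x
  zero : C R.zr
  succ : ∀ x, C x → C (R.sc x)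
  bound : ∀ x, C x → R.le x E
  ex : ∀ i, C i → ∃ s, Fam i s
  len : ∀ i s, Fam i s → C i ∧ LenS R s i
  coh : ∀ i s j t k m, Fam i s → Fam j t → R.lt i j → R.ad i k = j → P4 R k m →
    R.lt (R.ml s m) t ∧ R.lt t (R.ml (R.sc s) m)
  top : ∃ y m, P4 R E m ∧ R.lt (dbl R m) (R.ln (l3 R y))

/-- The cut. -/
def WW (R : Str Lar) (E : R.M) (Fam : R.M → R.M → Prop) (w : R.M) : Prop :=
  ∃ i s k m, Fam i s ∧ R.ad i k = E ∧ P4 R k m ∧ R.le w (R.ml s m)
/-- The domain of the coding structure. -/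
def XD (R : Str Lar) (E : R.M) (Fam : R.M → R.M → Prop) (y : R.M) : Prop := WW R E Fam (l3 R y)

/-- Decoding in the coding structure `Y`. -/
def WY (Y : Str Lar) (w : Y.M) : Prop := ∃ y, l3 Y y = w
def isE (Y : Str Lar) (E : Y.M) : Prop := ∃ m, P4 Y E m ∧ WY Y m ∧ ¬ WY Y (qd Y m)
def CX (Y : Str Lar) (i s : Y.M) : Prop :=
  ∃ E k m, isE Y E ∧ Y.ad i k = E ∧ P4 Y k m ∧ LenS Y s i ∧ WY Y (Y.ml s m) ∧
    ¬ WY Y (Y.ml (Y.sc s) m)

end Pool.Agent.MP81222b
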