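import Pool.Agent.Lib.MP_81222b_lc.Sem

/-!
# The theory `A`, semantically
-/

namespace Pool.Agent.MP81222b

variable {L : Lang}

/-- Satisfaction with quantifiers relativised to `D`. -/
def Fm.SatD (S : Str L) (D : S.M → Prop) : Fm L → (ℕ → S.M) → Prop
  | .bot, _ => False
  | .eq t u, e => t.val S e = u.val S e
  | .rl n r ts, e => S.rl n r (fun i => (ts i).val S e)
  | .imp f g, e => f.SatD S D e → g.SatD S D e
  | .all f, e => ∀ x, D x → f.SatD S D (cn x e)

theorem Fm.sat_substr (S : Str L) (D : S.M → Prop) (h : ClosedU S D) (f : Fm L) :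
    ∀ e : ℕ → (S.sub D h).M, f.Sat (S.sub D h) e ↔ f.SatD S D (fun i => (e i).1) := by
  induction f with
  | bot => intro e; rfl
  | eq t u =>
    intro e
    simp only [Fm.Sat, Fm.SatD, ← Tm.val_substr S D h e]
    exact Subtype.ext_iff
  | rl n r ts =>
    intro e
    simp only [Fm.Sat, Fm.SatD, ← Tm.val_substr S D h e]
  | imp f g hf hg => intro e; simp only [Fm.Sat, Fm.SatD, hf, hg]
  | all f hf =>
    intro e
    simp only [Fm.Sat, Fm.SatD, hf]
    constructor
    · intro H x hx
      have := H ⟨x, hx⟩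
      rw [sub_coe_cn] at this
      exact this
    · intro H x
      rw [sub_coe_cn]
      exact H x.1 x.2

/-- `a` is the top point: a power of two outside the cut `J`, of the form `l3 y`, such that
`l3` of every element is at most `a + j` for some `j` in `J`. -/
def Top (R : Str Lar) (J : R.M → Prop) (a : R.M) : Prop :=
  ¬ J a ∧ (∃ x, a = e2 R x) ∧ (∃ y, l3 R y = a) ∧ ∀ y, ∃ j, J j ∧ R.le (l3 R y) (R.ad a j)

/-- List lookup in the `J`-structure, for a formula `θ` that represents it. -/
def LkJ (θ : Fm Lar) (R : Str Lar) (J : R.M → Prop) (s a y : R.M) : Prop :=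
  J s ∧ J a ∧ J y ∧ θ.SatD R J (cn y (fun _ => prS R s a))

/-- The properties expressed by the theory `A`; `piA` is a finite list of bounded statements which
are true in the natural numbers. -/
structure PropA (piA : List PiAx) (θ : Fm Lar) (R : Str Lar) (J : R.M → Prop) : Prop where
  pic : PiC R
  ax : ∀ a ∈ piA, a.Holds R
  cl : ClosedU R J
  init : InitU R J
  exp : ∀ x, J (R.ln x) → J x
  lk0 : ∀ x s, J x → J s → LkJ θ R J (consS R x s) R.zr x
  lk1 : ∀ x s a y, J x → LkJ θ R J s a y → LkJ θ R J (consS R x s) (R.sc a) y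
  top : ∃ a, Top R J a

/-- The domain of the smaller model. -/
def DomQ (R : Str Lar) (J : R.M → Prop) (y : R.M) : Prop :=
  ∃ a j, Top R J a ∧ J j ∧ R.le (l3 R y) (R.ad (e2 R (l3 R a)) j)

end Pool.Agent.MP81222b
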