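import Pool.Agent.Lib.MP_81222b_lc.Dec
import Pool.Agent.Lib.MP_81222b_lc.ThQ
import Pool.Agent.Lib.MP_81222b_lc.Greedy
import Pool.Agent.Lib.MP_81222b_lc.Rep

/-!
# Decoding, first part: basic facts and the odd case
-/

namespace Pool.Agent.MP81222b

/-! ### Two more bounded facts -/

theorem pr_inj {x y x' y' : ℕ} (h : pr x y = pr x' y') : x = x' ∧ y = y' := by
  have h1 := congrArg up1 h
  have h2 := congrArg up2 h
  rw [up1_pr, up1_pr] at h1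
  rw [up2_pr, up2_pr] at h2
  exact ⟨h1, h2⟩

/-- Pairing is injective. -/
def axPrInj : PiAx where
  P := fun S e => prS S (e 0) (e 1) = prS S (e 2) (e 3) → e 0 = e 2 ∧ e 1 = e 3
  bdef := inferInstance
  nat := fun e h => by
    have h' : pr (e 0) (e 1) = pr (e 2) (e 3) := h
    exact pr_inj h'

/-- Even numbers are not odd. -/
def axPar : PiAx where
  P := fun S e => dbl S (e 0) ≠ S.sc (dbl S (e 1))
  bdef := inferInstance
  nat := fun e h => by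
    have h' : e 0 + e 0 = (e 1 + e 1) + 1 := h
    omega

def piK : List PiAx := [axPrInj, axPar]

section
variable {S : Str Lar}
theorem prS_inj (hK : ∀ a ∈ piK, a.Holds S) {x y x' y' : S.M} (h : prS S x y = prS S x' y') :
    x = x' ∧ y = y' :=
  hK axPrInj (by simp [piK]) (cn x (cn y (cn x' (fun _ => y')))) h
theorem dbl_ne (hK : ∀ a ∈ piK, a.Holds S) (x y : S.M) : dbl S x ≠ S.sc (dbl S y) :=
  hK axPar (by simp [piK]) (cn x (fun _ => y))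
variable [PiC S]
theorem sc_injS {x y : S.M} (h : S.sc x = S.sc y) : x = y := by
  rw [sc_eq, sc_eq] at h
  exact add_right_cancel h
theorem dbl_injS {x y : S.M} (h : dbl S x = dbl S y) : x = y := by
  have h' : x + x = y + y := h
  rcases lt_trichotomy x y with h1 | h1 | h1
  · exact absurd h' (add_lt_add h1 h1).ne
  · exact h1
  · exact absurd h' (add_lt_add h1 h1).ne'
end

/-! ### Substructure values -/

section sub
variable {R : Str Lar} {D : R.M → Prop} (h : ClosedU R D)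
theorem subQ_dbl (x : (R.sub D h).M) : (dbl (R.sub D h) x).1 = dbl R x.1 := subQ_ad h x x
theorem subQ_nm (n : ℕ) : (nmS (R.sub D h) n).1 = nmS R n := by
  induction n with
  | zero => exact subQ_zr h
  | succ n ih =>
    show ((R.sub D h).sc (nmS (R.sub D h) n)).1 = R.sc (nmS R n)
    rw [subQ_sc, ih]
end sub

/-! ### The odd case -/

section odd
variable {R : Str Lar} {J : R.M → Prop} {piA : List PiAx} {θL : Fm Lar}
  {E : R.M} {C : R.M → Prop} {Fam : R.M → R.M → Prop} {X : R.M → Prop} (hcl : ClosedU R X)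

theorem oddY_iff [PiC R] (hK : ∀ a ∈ piK, a.Holds R)
    (hisE : ∀ e : (R.sub X hcl).M, isE (R.sub X hcl) e ↔ e.1 = E)
    {a0 δ : R.M} (hE : E = R.sc (dbl R (prS R a0 δ))) (a' δ' : (R.sub X hcl).M) :
    oddY (R.sub X hcl) a' δ' ↔ a'.1 = a0 ∧ δ'.1 = δ := by
  unfold oddY
  rw [hisE, subQ_sc, subQ_dbl, subQ_pr, hE]
  constructor
  · intro h
    exact prS_inj hK (dbl_injS (sc_injS h))
  · rintro ⟨h1, h2⟩
    rw [h1, h2]

theorem not_evenY (hK : ∀ a ∈ piK, a.Holds R)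
    (hisE : ∀ e : (R.sub X hcl).M, isE (R.sub X hcl) e ↔ e.1 = E)
    {x : R.M} (hE : E = R.sc (dbl R x)) : ¬ evenY (R.sub X hcl) := by
  rintro ⟨a, ha⟩
  rw [hisE, subQ_dbl, hE] at ha
  exact hK axPar (by simp [piK]) (cn a.1 (fun _ => x)) ha

theorem CY_iff
    (hCX : ∀ i s : (R.sub X hcl).M, CX (R.sub X hcl) i s ↔ Fam i.1 s.1)
    (hF1 : ∀ i, C i → ∃ s, Fam i s) (hF2 : ∀ i s, Fam i s → C i ∧ X s)
    (i : (R.sub X hcl).M) : CY (R.sub X hcl) i ↔ C i.1 := by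
  unfold CY
  constructor
  · rintro ⟨s, hs⟩
    rw [hCX] at hs
    exact (hF2 _ _ hs).1
  · intro hi
    obtain ⟨s, hs⟩ := hF1 _ hi
    exact ⟨⟨s, (hF2 _ _ hs).2⟩, (hCX _ _).2 hs⟩

/-- The hypotheses of the odd case. -/
structure OddH (R : Str Lar) (J : R.M → Prop) (piA : List PiAx) (θL : Fm Lar) (E : R.M)
    (Fam : R.M → R.M → Prop) (X : R.M → Prop) (hcl : ClosedU R X) (a δ d : R.M)
    (q : R.M → Prop) (hcQ : ClosedU R (DomQ R J)) (θh : Fm Lar) (h' : ℕ → ℕ) : Prop where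
  hA : PropA piA θL R J
  hK : ∀ a ∈ piK, a.Holds R
  hQ : ∀ a ∈ piQ, a.Holds R
  hF : ∀ a ∈ piF, a.Holds R
  hin : InitU R X
  hisE : ∀ e : (R.sub X hcl).M, isE (R.sub X hcl) e ↔ e.1 = E
  hCX : ∀ i s : (R.sub X hcl).M, CX (R.sub X hcl) i s ↔ Fam i.1 s.1
  hF1 : ∀ i, J i → ∃ s, Fam i s
  hF2 : ∀ i s, Fam i s → J i ∧ X s
  hXQ : ∀ y, DomQ R J y → X y
  hXδ : X δ
  hXa : X (e2 R (l3 R a))
  ht : Top R J a
  hE : E = R.sc (dbl R (prS R (e2 R (l3 R a)) δ))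
  hlen : LenS R δ d
  hg : Grd R q δ
  hd : ∀ n : ℕ, R.lt (nmS R n) d
  hσ : ∀ σ : Fm LA, σ.Closed → (Dq R q (nmS R (pr σ.gn 0)) ↔
    ∀ e, σ.Sat (mkLA (R.sub (DomQ R J) hcQ) (fun x => J x.1)) e)
  hθh : ∀ (S : Str Lar) [PiC S] (n : ℕ) (y : S.M),
    θh.Sat S (cn y (fun _ => nmS S n)) ↔ y = nmS S (h' n)

section
variable {a δ d : R.M} {q : R.M → Prop} {hcQ : ClosedU R (DomQ R J)} {θh : Fm Lar} {h' : ℕ → ℕ}
  {hcl : ClosedU R X}
  (H : OddH R J piA θL E Fam X hcl a δ d q hcQ θh h')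
include H

theorem OddH.odd (a' δ' : (R.sub X hcl).M) :
    oddY (R.sub X hcl) a' δ' ↔ a'.1 = e2 R (l3 R a) ∧ δ'.1 = δ := by
  have := H.hA.pic
  exact oddY_iff hcl H.hK H.hisE H.hE a' δ'

theorem OddH.neven : ¬ evenY (R.sub X hcl) := not_evenY hcl H.hK H.hisE H.hE

theorem OddH.cy (i : (R.sub X hcl).M) : CY (R.sub X hcl) i ↔ J i.1 :=
  CY_iff hcl H.hCX H.hF1 H.hF2 i

theorem OddH.exOdd : oddY (R.sub X hcl) ⟨e2 R (l3 R a), H.hXa⟩ ⟨δ, H.hXδ⟩ :=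
  (H.odd _ _).2 ⟨rfl, rfl⟩

theorem OddH.domQ_X {j : R.M} (hj : J j) : X j := H.hXQ _ (domQ_J H.hQ H.hA hj)

/-- The domain of the decoded structure. -/
theorem OddH.dom (y : (R.sub X hcl).M) : domM (R.sub X hcl) y ↔ DomQ R J y.1 := by
  unfold domM
  rw [domQ_iff H.hQ H.hA H.ht]
  constructor
  · rintro (⟨a', δ', j, ho, hj, hle⟩ | ⟨he, _⟩)
    · rw [H.odd] at ho
      rw [H.cy] at hj
      rw [sub_le, subQ_l3, subQ_ad, ho.1] at hle
      exact ⟨j.1, hj, hle⟩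
    · exact absurd he H.neven
  · rintro ⟨j, hj, hle⟩
    left
    refine ⟨_, _, ⟨j, H.domQ_X hj⟩, H.exOdd, (H.cy _).2 hj, ?_⟩
    rw [sub_le, subQ_l3, subQ_ad]
    exact hle

theorem OddH.rel (r : ℕ) (x y z : (R.sub X hcl).M) :
    relM (R.sub X hcl) r x y z ↔ relLA (R.sub X hcl) (CY (R.sub X hcl)) r x y z := by
  unfold relM
  constructor
  · rintro (⟨_, h⟩ | ⟨he, _⟩)
    · exact h
    · exact absurd he H.neven
  · intro h
    exact Or.inl ⟨⟨_, _, H.exOdd⟩, h⟩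

/-- The embedding of the decoded structure. -/
def OddH.em (x : (R.sub (DomQ R J) hcQ).M) : (R.sub X hcl).M := ⟨x.1, H.hXQ _ x.2⟩

theorem OddH.relLA (r : ℕ) (x y z : (R.sub (DomQ R J) hcQ).M) :
    relLA (R.sub X hcl) (CY (R.sub X hcl)) r (H.em x) (H.em y) (H.em z) ↔
      Pool.Agent.MP81222b.relLA (R.sub (DomQ R J) hcQ) (fun x => J x.1) r x y z := by
  have e0 : ∀ {x y : (R.sub (DomQ R J) hcQ).M}, (x = y ↔ x.1 = y.1) := Subtype.ext_iff
  have e1 : ∀ {x y : (R.sub X hcl).M}, (x = y ↔ x.1 = y.1) := Subtype.ext_iff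
  have ev : ∀ x : (R.sub (DomQ R J) hcQ).M, (H.em x).1 = x.1 := fun _ => rfl
  unfold Pool.Agent.MP81222b.relLA
  split
  · rw [e0, e1, subQ_zr, subQ_zr, ev]
  · rw [e0, e1, subQ_sc, subQ_sc, ev, ev]
  · rw [e0, e1, subQ_hf, subQ_hf, ev, ev]
  · rw [e0, e1, subQ_ln, subQ_ln, ev, ev]
  · rw [e0, e1, subQ_ad, subQ_ad, ev, ev, ev]
  · rw [e0, e1, subQ_ml, subQ_ml, ev, ev, ev]
  · rw [e0, e1, subQ_sm, subQ_sm, ev, ev, ev]
  · rw [sub_le, sub_le, ev, ev]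
  · rw [H.cy, ev]

/-- The truth predicate of the decoded structure. -/
theorem OddH.tb {θn : Fm Lar} {g : Fm LA → ℕ} (σ : Fm LA) (hσ : σ.Closed)
    (hg : σ.gn = h' (g σ)) (c : (R.sub X hcl).M) (hc : c.1 = nmS R (g σ)) :
    TM (R.sub X hcl) θh θn c ↔
      ∀ e, σ.Sat (mkLA (R.sub (DomQ R J) hcQ) (fun x => J x.1)) e := by
  have := H.hA.pic
  have hY : PiC (R.sub X hcl) := PiC.sub hcl H.hin
  have hc' : c = nmS (R.sub X hcl) (g σ) := Subtype.ext (by rw [hc, subQ_nm])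
  have key : Dig (R.sub X hcl) ⟨δ, H.hXδ⟩ (prS (R.sub X hcl) (nmS (R.sub X hcl) σ.gn)
      (R.sub X hcl).zr) ↔ ∀ e, σ.Sat (mkLA (R.sub (DomQ R J) hcQ) (fun x => J x.1)) e := by
    rw [← H.hσ σ hσ]
    have h1 : prS (R.sub X hcl) (nmS (R.sub X hcl) σ.gn) (R.sub X hcl).zr =
        nmS (R.sub X hcl) (pr σ.gn 0) := nmS_prS (R.sub X hcl) σ.gn 0
    rw [h1]
    have h2 := Dig.b0.sub_iff R X hcl H.hin (cn ⟨δ, H.hXδ⟩ (fun _ => nmS (R.sub X hcl) (pr σ.gn 0)))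
    have h3 : Dig (R.sub X hcl) ⟨δ, H.hXδ⟩ (nmS (R.sub X hcl) (pr σ.gn 0)) ↔
        Dig R δ (nmS (R.sub X hcl) (pr σ.gn 0)).1 := h2
    rw [h3, subQ_nm]
    exact (grd_dig H.hF H.hlen H.hg (by
      have := H.hd (pr σ.gn 0)
      rw [← add_one_le_iff', ← sc_eq]
      exact this)).symm
  unfold TM
  constructor
  · rintro (⟨a', δ', m, ho, _, hm, hd⟩ | ⟨he, _⟩)
    · rw [hc', H.hθh, ← hg] at hm
      have ho' := (H.odd _ _).1 ho
      have : δ' = ⟨δ, H.hXδ⟩ := Subtype.ext ho'.2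
      rw [hm, this] at hd
      exact key.1 hd
    · exact absurd he H.neven
  · intro h
    left
    refine ⟨_, _, nmS (R.sub X hcl) σ.gn, H.exOdd, (H.cy _).2 ?_, ?_, key.2 h⟩
    · rw [hc]; exact J_nm H.hA _
    · rw [hc', H.hθh, ← hg]

end

end odd

end Pool.Agent.MP81222b
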